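import Pool.Agent.Lib.MP_240120_ag.CS.Def

/-!
# CS / Den (60 minutes): conjugation by rational matrices

Every `x : KD D` has a denominator: `n : ℕ`, `0 < n`, `n x ∈ io R` (`x.re`, `x.im` rational). Take a common denominator `n` of the four entries of `g`. `q := k * n^2`. `X ∈ G D q`: `X = 1 + q Z`, `g X g⁻¹ = 1 + k (n g) Z (n g⁻¹)`, the entries of `n g` and `n g⁻¹` are in `io R`;
so the entries of `g X g⁻¹` are `io` of integral elements, `≡ 1 mod k` (explicit formulas as in `G_normal` of `Def.lean`); the determinant of `Y` is `1` as `io` is injective.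
-/

set_option autoImplicit false

namespace Pool.Agent.Lib.CSL

theorem den_el {D : ℤ} (x : KD D) : ∃ n : ℕ, 0 < n ∧ ∃ z : ℤ√D, (n : KD D) * x = io D z := by
  refine ⟨x.re.den * x.im.den, Nat.mul_pos x.re.den_pos x.im.den_pos,
    ⟨x.re.num * x.im.den, x.im.num * x.re.den⟩, ?_⟩
  have h1 : x.re * (x.re.den : ℚ) = x.re.num := Rat.mul_den_eq_num x.re
  have h2 : x.im * (x.im.den : ℚ) = x.im.num := Rat.mul_den_eq_num x.im
  ext
  · simp only [Nat.cast_mul, QuadraticAlgebra.re_mul, QuadraticAlgebra.im_mul, io_re,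
      QuadraticAlgebra.re_natCast, QuadraticAlgebra.im_natCast, Int.cast_mul, Int.cast_natCast]
    linear_combination (x.im.den : ℚ) * h1
  · simp only [Nat.cast_mul, QuadraticAlgebra.re_mul, QuadraticAlgebra.im_mul, io_im,
      QuadraticAlgebra.re_natCast, QuadraticAlgebra.im_natCast, Int.cast_mul, Int.cast_natCast]
    linear_combination (x.re.den : ℚ) * h2

private theorem Den_four {D : ℤ} (x y z w : KD D) : ∃ n : ℕ, 0 < n ∧ ∃ x' y' z' w' : ℤ√D,
    (n : KD D) * x = io D x' ∧ (n : KD D) * y = io D y' ∧ (n : KD D) * z = io D z' ∧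
      (n : KD D) * w = io D w' := by
  obtain ⟨n1, h1, x', e1⟩ := den_el x
  obtain ⟨n2, h2, y', e2⟩ := den_el y
  obtain ⟨n3, h3, z', e3⟩ := den_el z
  obtain ⟨n4, h4, w', e4⟩ := den_el w
  refine ⟨n1 * n2 * n3 * n4, by positivity, n2 * n3 * n4 * x', n1 * n3 * n4 * y',
    n1 * n2 * n4 * z', n1 * n2 * n3 * w', ?_, ?_, ?_, ?_⟩
  · simp only [map_mul, map_natCast, Nat.cast_mul, ← e1]
    ring
  · simp only [map_mul, map_natCast, Nat.cast_mul, ← e2]
    ring
  · simp only [map_mul, map_natCast, Nat.cast_mul, ← e3]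
    ring
  · simp only [map_mul, map_natCast, Nat.cast_mul, ← e4]
    ring

theorem den {D : ℤ} (g : S2 (KD D)) {k : ℕ} (hk : 0 < k) : ∃ q : ℕ, 0 < q ∧ ∀ X ∈ G D q, ∃ Y ∈ G D k, g * im D X * g⁻¹ = im D Y := by
  obtain ⟨n, hn, A, B, C, F, hA, hB, hC, hF⟩ := Den_four g.a g.b g.c g.d
  refine ⟨k * n ^ 2, by positivity, ?_⟩
  rintro X ⟨⟨x, h1⟩, ⟨y, h2⟩, ⟨z, h3⟩, ⟨w, h4⟩⟩
  have e1 : io D X.a = 1 + (k : KD D) * (n : KD D) ^ 2 * io D x := by
    have h := congrArg (io D) h1
    simp only [map_sub, map_mul, map_natCast, map_one, Nat.cast_mul, Nat.cast_pow, map_pow] at h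
    linear_combination h
  have e2 : io D X.b = (k : KD D) * (n : KD D) ^ 2 * io D y := by
    have h := congrArg (io D) h2
    simp only [map_mul, map_natCast, Nat.cast_mul, Nat.cast_pow, map_pow] at h
    exact h
  have e3 : io D X.c = (k : KD D) * (n : KD D) ^ 2 * io D z := by
    have h := congrArg (io D) h3
    simp only [map_mul, map_natCast, Nat.cast_mul, Nat.cast_pow, map_pow] at h
    exact h
  have e4 : io D X.d = 1 + (k : KD D) * (n : KD D) ^ 2 * io D w := by
    have h := congrArg (io D) h4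
    simp only [map_sub, map_mul, map_natCast, map_one, Nat.cast_mul, Nat.cast_pow, map_pow] at h
    linear_combination h
  have f1 : (g * im D X * g⁻¹).a =
      io D (1 + k * (A * F * x + B * F * z - A * C * y - B * C * w)) := by
    simp only [S2.mul_a, S2.mul_b, S2.inv_a, S2.inv_c, S2.map_a, S2.map_b, S2.map_c, S2.map_d,
      e1, e2, e3, e4, map_add, map_sub, map_mul, map_natCast, map_one, ← hA, ← hB, ← hC, ← hF]
    linear_combination g.h
  have f2 : (g * im D X * g⁻¹).b =
      io D (k * (-A * B * x - B * B * z + A * A * y + B * A * w)) := by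
    simp only [S2.mul_a, S2.mul_b, S2.inv_b, S2.inv_d, S2.map_a, S2.map_b, S2.map_c, S2.map_d,
      e1, e2, e3, e4, map_add, map_sub, map_mul, map_neg, map_natCast, ← hA, ← hB]
    ring
  have f3 : (g * im D X * g⁻¹).c =
      io D (k * (C * F * x + F * F * z - C * C * y - C * F * w)) := by
    simp only [S2.mul_c, S2.mul_d, S2.inv_a, S2.inv_c, S2.map_a, S2.map_b, S2.map_c, S2.map_d,
      e1, e2, e3, e4, map_add, map_sub, map_mul, map_natCast, ← hC, ← hF]
    ring
  have f4 : (g * im D X * g⁻¹).d =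
      io D (1 + k * (-C * B * x - F * B * z + C * A * y + F * A * w)) := by
    simp only [S2.mul_c, S2.mul_d, S2.inv_b, S2.inv_d, S2.map_a, S2.map_b, S2.map_c, S2.map_d,
      e1, e2, e3, e4, map_add, map_sub, map_mul, map_neg, map_natCast, map_one, ← hA, ← hB, ← hC, ← hF]
    linear_combination g.h
  have hdet : (1 + k * (A * F * x + B * F * z - A * C * y - B * C * w)) *
      (1 + k * (-C * B * x - F * B * z + C * A * y + F * A * w)) -
      (k * (-A * B * x - B * B * z + A * A * y + B * A * w)) *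
      (k * (C * F * x + F * F * z - C * C * y - C * F * w)) = 1 := by
    apply io_inj D
    rw [map_sub, map_mul, map_mul (io D) (k * (-A * B * x - B * B * z + A * A * y + B * A * w)),
      ← f1, ← f2, ← f3, ← f4, map_one]
    exact (g * im D X * g⁻¹).h
  refine ⟨⟨_, _, _, _, hdet⟩, ⟨?_, ?_, ?_, ?_⟩, ?_⟩
  · exact ⟨A * F * x + B * F * z - A * C * y - B * C * w, by simp⟩
  · exact ⟨_, rfl⟩
  · exact ⟨_, rfl⟩
  · exact ⟨-C * B * x - F * B * z + C * A * y + F * A * w, by simp⟩
  · ext1
    · exact f1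
    · exact f2
    · exact f3
    · exact f4

end Pool.Agent.Lib.CSL
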