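import Pool.Agent.Lib.MP_240120_ag.CS.Def

/-!
# CS / Bas (45 minutes): rows of matrices in SL₂(ℤ√D)

`row_cop`: `a X.d - X.b X.c = 1`, so `X.b X.c = a X.d - 1`, norms: `N(X.b) N(X.c) = N(a X.d - 1) = 1 - 2 a re(X.d) + a ^ 2 N(X.d)`, which is `1` modulo `a` (`Zsqrtd.norm_mul`, `Zsqrtd.norm_def`).
`row_np`: if `p ∣ N(X.a)` and `X.b = p w`: `X.a X.d = 1 + p w X.c`, norms: `N(X.a) N(X.d) = 1 + p (..)`, so `p ∣ 1`.
`t1`: `X.a + X.b (j star X.b) = a + j N(X.b)` (`Zsqrtd.norm_eq_mul_conj`).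
`row_eq`: `z` with `q z = X.c Y.d - X.d Y.c` (divisible by `q`); `X Y⁻¹ = e21 (q z)`.
`ndvd`: `N(q w) = q ^ 2 N(w)`. `dvd_nrm`: `z ∣ N(z)`.
-/

set_option autoImplicit false

namespace Pool.Agent.Lib.CSL

variable {D : ℤ}

theorem row_cop (X : S2 (ℤ√D)) (a : ℤ) (h : X.a = a) : IsCoprime a X.b.norm := by
  have h1 : X.b * X.c = (a : ℤ√D) * X.d - 1 := by
    rw [← h]; linear_combination -X.h
  have h2 : X.b.norm * X.c.norm = ((a : ℤ√D) * X.d - 1).norm := by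
    rw [← Zsqrtd.norm_mul, h1]
  have h3 : ((a : ℤ√D) * X.d - 1).norm = 1 - 2 * a * X.d.re + a ^ 2 * X.d.norm := by
    simp only [Zsqrtd.norm_def, Zsqrtd.re_sub, Zsqrtd.im_sub, Zsqrtd.re_mul, Zsqrtd.im_mul,
      Zsqrtd.re_intCast, Zsqrtd.im_intCast, Zsqrtd.re_one, Zsqrtd.im_one]
    ring
  refine ⟨-(a * X.d.norm - 2 * X.d.re), X.c.norm, ?_⟩
  linear_combination h2 + h3

theorem row_np (X : S2 (ℤ√D)) (p : ℕ) (hp : p.Prime) (h : (p : ℤ) ∣ X.a.norm) : ¬ (p : ℤ√D) ∣ X.b := by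
  rintro ⟨w, hw⟩
  have h1 : X.a * X.d = 1 + (p : ℤ√D) * (w * X.c) := by
    linear_combination X.h + X.c * hw
  have h2 : X.a.norm * X.d.norm = (1 + (p : ℤ√D) * (w * X.c)).norm := by
    rw [← Zsqrtd.norm_mul, h1]
  have h3 : (1 + (p : ℤ√D) * (w * X.c)).norm =
      1 + p * (2 * (w * X.c).re + p * (w * X.c).norm) := by
    simp only [Zsqrtd.norm_def, Zsqrtd.re_add, Zsqrtd.im_add, Zsqrtd.re_mul, Zsqrtd.im_mul,
      Zsqrtd.re_natCast, Zsqrtd.im_natCast, Zsqrtd.re_one, Zsqrtd.im_one]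
    ring
  obtain ⟨k, hk⟩ := h
  have h4 : (p : ℤ) ∣ 1 := by
    refine ⟨k * X.d.norm - (2 * (w * X.c).re + p * (w * X.c).norm), ?_⟩
    rw [hk] at h2
    linear_combination -h2 - h3
  have h5 : p ∣ 1 := by exact_mod_cast h4
  exact hp.one_lt.ne' (Nat.dvd_one.1 h5)

theorem t1 (X : S2 (ℤ√D)) (a : ℤ) (h : X.a = a) (j : ℤ) :
    (X * e21 (j * star X.b)).a = ((a + j * X.b.norm : ℤ) : ℤ√D) ∧ (X * e21 (j * star X.b)).b = X.b := by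
  constructor
  · rw [S2.mul_a, e21_a, e21_c, h]
    push_cast
    rw [Zsqrtd.norm_eq_mul_conj]
    ring
  · rw [S2.mul_b, e21_b, e21_d]
    ring

theorem row_eq {q : ℕ} {X Y : S2 (ℤ√D)} (hX : X ∈ G D q) (hY : Y ∈ G D q) (ha : X.a = Y.a) (hb : X.b = Y.b) :
    ∃ z : ℤ√D, X = e21 (q * z) * Y := by
  obtain ⟨-, -, ⟨x, hx⟩, -⟩ := hX
  obtain ⟨-, -, ⟨y, hy⟩, -⟩ := hY
  refine ⟨x * Y.d - X.d * y, ?_⟩
  have hq : (q : ℤ√D) * (x * Y.d - X.d * y) = X.c * Y.d - X.d * Y.c := by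
    rw [hx, hy]; ring
  have h1 := X.h
  rw [ha, hb] at h1
  refine S2.ext ?_ ?_ ?_ ?_
  · rw [S2.mul_a, e21_a, e21_b, ha]; ring
  · rw [S2.mul_b, e21_a, e21_b, hb]; ring
  · rw [S2.mul_c, e21_c, e21_d, hq]
    linear_combination (-X.c) * Y.h + Y.c * h1
  · rw [S2.mul_d, e21_c, e21_d, hq]
    linear_combination (-X.d) * Y.h + Y.d * h1

theorem ndvd {q : ℕ} {z : ℤ√D} (h : (q : ℤ√D) ∣ z) : (q : ℤ) ^ 2 ∣ z.norm := by
  obtain ⟨w, rfl⟩ := h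
  rw [Zsqrtd.norm_mul, Zsqrtd.norm_natCast]
  exact ⟨w.norm, by ring⟩

theorem star_dvd {q : ℕ} {z : ℤ√D} (h : (q : ℤ√D) ∣ z) : (q : ℤ√D) ∣ star z := by
  obtain ⟨w, rfl⟩ := h
  rw [star_mul, star_natCast]
  exact ⟨star w, by ring⟩

end Pool.Agent.Lib.CSL
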