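import Pool.Agent.Lib.MP_240120_ag.CS.Def
import Pool.Agent.Lib.MP_240120_ag.CS.Bas

/-!
# CS / Com (45 minutes): the commutator with a torus element (COM)

`u ^ 2 - 1 = a w`. `d := dg u v h`, `Y' := d Y d⁻¹` has the entries `a, u^2 Y.b, v^2 Y.c, Y.d` (`u v = 1`) and is in `G D q` (normal). `u^2 Y.b = q B + a (q w B)`, so `Z := Y' * e12 (-(q * (w * B)))` has the first row of `Y` and is in
`G D q`; `row_eq`: `Z = e21 (q z) Y`. So `Y' Y⁻¹ = e21 (q z) * (Y * e12 (q w B) * Y⁻¹)`, both in `E D q` (normal).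
-/

set_option autoImplicit false

namespace Pool.Agent.Lib.CSL

theorem com {D : ℤ} {q : ℕ} {Y : S2 (ℤ√D)} (hY : Y ∈ G D q) (a : ℤ) (B : ℤ√D) (ha : Y.a = a) (hb : Y.b = q * B) {u v : ℤ√D}
    (h : u * v = 1) (hu : (a : ℤ√D) ∣ u ^ 2 - 1) : dg u v h * Y * (dg u v h)⁻¹ * Y⁻¹ ∈ E D q := by
  obtain ⟨w, hw⟩ := hu
  set Y' := dg u v h * Y * (dg u v h)⁻¹ with hY'
  have hY'G : Y' ∈ G D q := (G_normal D q).conj_mem Y hY _
  have heE : ∀ z : ℤ√D, e12 ((q : ℤ√D) * z) ∈ E D q := fun z => e12_E (dvd_mul_right _ _)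
  have hZG : Y' * e12 ((q : ℤ√D) * (-(w * B))) ∈ G D q :=
    (G D q).mul_mem hY'G (E_le_G D q (heE _))
  have hZa : (Y' * e12 ((q : ℤ√D) * (-(w * B)))).a = Y.a := by
    rw [hY']
    simp only [S2.mul_a, S2.mul_b, S2.inv_a, S2.inv_b, S2.inv_c, S2.inv_d, dg_a, dg_b, dg_c, dg_d,
      e12_a, e12_c]
    linear_combination Y.a * h
  have hZb : (Y' * e12 ((q : ℤ√D) * (-(w * B)))).b = Y.b := by
    rw [hY']
    simp only [S2.mul_a, S2.mul_b, S2.inv_a, S2.inv_b, S2.inv_c, S2.inv_d, dg_a, dg_b, dg_c, dg_d,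
      e12_b, e12_d]
    rw [hb, ha]
    linear_combination (q * B) * hw - (a : ℤ√D) * (q * (w * B)) * h
  obtain ⟨z, hz⟩ := row_eq hZG hY hZa hZb
  have hfin : Y' * Y⁻¹ = e21 ((q : ℤ√D) * z) * (Y * (e12 ((q : ℤ√D) * (-(w * B))))⁻¹ * Y⁻¹) := by
    have h1 : Y' = e21 ((q : ℤ√D) * z) * Y * (e12 ((q : ℤ√D) * (-(w * B))))⁻¹ := by
      rw [← hz]; group
    rw [h1]; group
  rw [hfin]
  exact (E D q).mul_mem (e21_E (dvd_mul_right _ _))
    ((E_normal D q).conj_mem _ ((E D q).inv_mem (heE _)) Y)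

end Pool.Agent.Lib.CSL
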