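import Pool.Agent.Lib.MP_240120_ag.CS.Def

/-!
# CS / Dir (60 minutes): Dirichlet and the subgroup lemma (GCD)

`dir`: Mathlib `Nat.forall_exists_prime_gt_and_zmodEq` / `Nat.forall_exists_prime_gt_and_eq_mod` (`Mathlib/NumberTheory/LSeries/PrimesInAP.lean`); `a` is a unit in `ZMod R0`.
`gcdl`: `I = zmultiples g` (`Int.subgroup_cyclic`, `AddSubgroup.mem_zmultiples_iff`: `x ∈ I ↔ g ∣ x`). If `g` is not a unit there is a prime `l ∣ g` (`g = 0`: `l = 2` works too; every element of `I` is divisible by `l`).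
 `l = 2`: `dir R0 (-a)` gives `p ≡ -a ≡ 3 mod 4`, `(p - 1)/2` is odd, contradiction to `h2`. `l` odd, `l ∣ R0`: `dir R0 a`: `l ∣ p - 1`, so `l ∣ a - 1`; `dir R0 (-a)`: `l ∣ (p-1)/2 ∣ p - 1` (`p` odd), so `l ∣ -a - 1`;
 `l ∣ 2`, contradiction. `l` odd, `¬ l ∣ R0`: `dir (R0 * l) a'` with `a' ≡ a mod R0`, `a' ≡ -1 mod l` (CRT): `l ∣ p - 1 ≡ -2`, contradiction.
-/

set_option autoImplicit false

namespace Pool.Agent.Lib.CSL

theorem dir (R0 : ℕ) (hR : 0 < R0) (a : ℤ) (h : IsCoprime a R0) (n : ℕ) : ∃ p : ℕ, p.Prime ∧ n < p ∧ (p : ℤ) ≡ a [ZMOD R0] := by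
  obtain ⟨p, hp1, hp2, hp3⟩ := Nat.forall_exists_prime_gt_and_zmodEq n (q := R0) (a := a) hR.ne' h
  exact ⟨p, hp2, hp1, hp3⟩

theorem gcdl (I : AddSubgroup ℤ) (n R0 : ℕ) (a : ℤ) (hR : 0 < R0) (h4 : 4 ∣ R0) (ha : a ≡ 1 [ZMOD 4]) (hc : IsCoprime a R0)
    (h1 : ∀ p : ℕ, p.Prime → n < p → (p : ℤ) ≡ a [ZMOD R0] → ((p : ℤ) - 1) ∈ I)
    (h2 : ∀ p : ℕ, p.Prime → n < p → (p : ℤ) ≡ -a [ZMOD R0] → (((p : ℤ) - 1) / 2) ∈ I) : (1 : ℤ) ∈ I := by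
  obtain ⟨g, hg⟩ := Int.subgroup_cyclic I
  have hmem : ∀ x : ℤ, x ∈ I ↔ g ∣ x := by
    intro x
    rw [hg, AddSubgroup.mem_closure_singleton]
    constructor
    · rintro ⟨k, rfl⟩
      exact ⟨k, by rw [smul_eq_mul, mul_comm]⟩
    · rintro ⟨k, rfl⟩
      exact ⟨k, by rw [smul_eq_mul, mul_comm]⟩
  rw [hmem]
  by_contra hng
  have hgu : g.natAbs ≠ 1 := by
    intro h
    exact hng (Int.natAbs_dvd_natAbs.1 (by rw [h]; exact one_dvd _))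
  obtain ⟨l, hl, hlg⟩ := Nat.exists_prime_and_dvd hgu
  have hlg' : (l : ℤ) ∣ g := Int.natCast_dvd.2 hlg
  have key : ∀ x : ℤ, x ∈ I → (l : ℤ) ∣ x := fun x hx => hlg'.trans ((hmem x).1 hx)
  have hca : IsCoprime (-a) (R0 : ℤ) := hc.neg_left
  -- l = 2
  by_cases hl2 : l = 2
  · obtain ⟨p, hp, hpn, hpa⟩ := dir R0 hR (-a) hca n
    have k := key _ (h2 p hp hpn hpa)
    have h4' : (4 : ℤ) ∣ (R0 : ℤ) := by exact_mod_cast h4
    have e1 : (p : ℤ) ≡ -a [ZMOD 4] := hpa.of_dvd h4'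
    have e2 : (p : ℤ) ≡ -1 [ZMOD 4] := e1.trans ha.neg
    have e3 : (4 : ℤ) ∣ -1 - (p : ℤ) := Int.modEq_iff_dvd.1 e2
    rw [hl2] at k
    push_cast at k
    omega
  have hlodd : ¬ (l : ℤ) ∣ 2 := by
    intro h
    have : l ∣ 2 := by exact_mod_cast h
    exact hl2 ((Nat.prime_dvd_prime_iff_eq hl Nat.prime_two).1 this)
  by_cases hlR : l ∣ R0
  · have hlR' : (l : ℤ) ∣ (R0 : ℤ) := by exact_mod_cast hlR
    obtain ⟨p, hp, hpn, hpa⟩ := dir R0 hR a hc n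
    have k1 := key _ (h1 p hp hpn hpa)
    have e1 : (l : ℤ) ∣ a - (p : ℤ) := Int.modEq_iff_dvd.1 (hpa.of_dvd hlR')
    obtain ⟨p', hp', hpn', hpa'⟩ := dir R0 hR (-a) hca (n + 2)
    have k2 := key _ (h2 p' hp' (by omega) hpa')
    have e2 : (l : ℤ) ∣ -a - (p' : ℤ) := Int.modEq_iff_dvd.1 (hpa'.of_dvd hlR')
    have hodd : (p' : ℤ) % 2 = 1 := by
      have := hp'.eq_two_or_odd
      omega
    have e3 : (p' : ℤ) - 1 = 2 * (((p' : ℤ) - 1) / 2) := by omega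
    have e4 : (l : ℤ) ∣ (p' : ℤ) - 1 := by
      rw [e3]
      exact k2.mul_left 2
    apply hlodd
    have e5 : (l : ℤ) ∣ (a - (p : ℤ)) + ((p : ℤ) - 1) := dvd_add e1 k1
    have e6 : (l : ℤ) ∣ (-a - (p' : ℤ)) + ((p' : ℤ) - 1) := dvd_add e2 e4
    have e7 := dvd_add e5 e6
    have e8 : (a - (p : ℤ)) + ((p : ℤ) - 1) + ((-a - (p' : ℤ)) + ((p' : ℤ) - 1)) = -2 := by ring
    rw [e8] at e7
    exact (dvd_neg.1 e7)
  · -- CRT
    have hcop : Nat.Coprime R0 l := ((Nat.Prime.coprime_iff_not_dvd hl).2 hlR).symm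
    have hcopZ : IsCoprime (R0 : ℤ) (l : ℤ) := Nat.isCoprime_iff_coprime.2 hcop
    obtain ⟨u, v, huv⟩ := hcopZ
    -- u R0 + v l = 1; a' = a v l - u R0
    set a' : ℤ := a * (v * l) - u * R0 with ha'
    have c1 : a' ≡ a [ZMOD (R0 : ℤ)] := by
      apply Int.modEq_iff_dvd.2
      exact ⟨a * u + u, by rw [ha']; linear_combination (-a) * huv⟩
    have c2 : a' ≡ -1 [ZMOD (l : ℤ)] := by
      apply Int.modEq_iff_dvd.2
      exact ⟨-v - a * v, by rw [ha']; linear_combination huv⟩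
    have hc' : IsCoprime a' ((R0 * l : ℕ) : ℤ) := by
      push_cast
      refine IsCoprime.mul_right ?_ ?_
      · obtain ⟨w, hw⟩ := Int.modEq_iff_dvd.1 c1
        -- a - a' = R0 w
        obtain ⟨x, y, hxy⟩ := hc
        exact ⟨x, y + x * w, by linear_combination hxy - x * hw⟩
      · obtain ⟨w, hw⟩ := Int.modEq_iff_dvd.1 c2
        exact ⟨-1, -w, by linear_combination hw⟩
    have hRl : 0 < R0 * l := Nat.mul_pos hR hl.pos
    obtain ⟨p, hp, hpn, hpa⟩ := dir (R0 * l) hRl a' hc' n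
    have hpR : (p : ℤ) ≡ a [ZMOD R0] := by
      refine (hpa.of_dvd ?_).trans c1
      push_cast
      exact Dvd.intro _ rfl
    have hpl : (p : ℤ) ≡ -1 [ZMOD l] := by
      refine (hpa.of_dvd ?_).trans c2
      push_cast
      exact Dvd.intro_left _ rfl
    have k1 := key _ (h1 p hp hpn hpR)
    have e1 : (l : ℤ) ∣ -1 - (p : ℤ) := Int.modEq_iff_dvd.1 hpl
    apply hlodd
    have e7 := dvd_add k1 e1
    have e8 : ((p : ℤ) - 1) + (-1 - (p : ℤ)) = -2 := by ring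
    rw [e8] at e7
    exact (dvd_neg.1 e7)

end Pool.Agent.Lib.CSL
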