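import Pool.Agent.Lib.MP_240120_ag.CS.Def

/-!
# CS / Fro (60 minutes): Frobenius in ℤ√D for split primes (FRO)

`z = x + y s`, `s = sqrtd`, `s^2 = D`. Modulo `p` (for instance in `ℤ√D ⧸ span {p}` with `CharP p`, `add_pow_char`; or `p ∣ (x + w)^p - x^p - w^p` by `Commute.add_pow` and `Nat.Prime.dvd_choose_self`): `z^p = x^p + y^p s^p`,
`s^p = D^((p-1)/2) s` (`p` odd), `D^((p-1)/2) = t^(p-1) = 1 mod p` (`¬ p ∣ t`), `x^p = x`, `y^p = y mod p` (`ZMod.pow_card`, Fermat). So `p ∣ z^p - z = z (z^(p-1) - 1)`. Multiply by `star z`: `p ∣ N(z) (z^(p-1) - 1)`, and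
`p` is prime to `N(z)`: `p ∣ z^(p-1) - 1` (`Zsqrtd.intCast_dvd`: componentwise).
-/

set_option autoImplicit false

namespace Pool.Agent.Lib.CSL

private theorem fro_intCast_eq {D : ℤ} {p : ℕ} (hp : p.Prime) (x : ℤ) : (p : ℤ√D) ∣ ((x : ℤ) : ℤ√D) ^ p - ((x : ℤ) : ℤ√D) := by
  have : Fact p.Prime := ⟨hp⟩
  have h : ((x ^ p - x : ℤ) : ZMod p) = 0 := by
    push_cast
    rw [ZMod.pow_card, sub_self]
  have h' : (p : ℤ) ∣ x ^ p - x := (ZMod.intCast_zmod_eq_zero_iff_dvd _ p).1 h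
  obtain ⟨k, hk⟩ := h'
  refine ⟨(k : ℤ√D), ?_⟩
  have := congrArg (fun t : ℤ => (t : ℤ√D)) hk
  push_cast at this
  exact this

/-- `s ^ p = D ^ ((p - 1) / 2) s` is `s` modulo `p` -/
private theorem fro_sqrt {D : ℤ} {p : ℕ} (hp : p.Prime) (h2 : p ≠ 2) (hD : ¬ (p : ℤ) ∣ D) (h : ∃ t : ℤ, (p : ℤ) ∣ t ^ 2 - D) :
    (p : ℤ√D) ∣ (Zsqrtd.sqrtd : ℤ√D) ^ p - Zsqrtd.sqrtd := by
  have hF : Fact p.Prime := ⟨hp⟩
  obtain ⟨t, ht⟩ := h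
  have hodd : p % 2 = 1 := by
    rcases hp.eq_two_or_odd with h | h
    · exact absurd h h2
    · exact h
  set m := (p - 1) / 2 with hm
  have hpm : p = 2 * m + 1 := by omega
  have hpt : ¬ (p : ℤ) ∣ t := by
    intro hpt
    apply hD
    have := dvd_sub (hpt.mul_left t) ht
    rwa [show t * t - (t ^ 2 - D) = D by ring] at this
  have htz : ((t : ℤ) : ZMod p) ≠ 0 := by
    intro h0
    exact hpt ((ZMod.intCast_zmod_eq_zero_iff_dvd _ p).1 h0)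
  have hDt : ((D : ℤ) : ZMod p) = ((t : ℤ) : ZMod p) ^ 2 := by
    have := (ZMod.intCast_zmod_eq_zero_iff_dvd _ p).2 ht
    push_cast at this
    linear_combination -this
  have hDm : (p : ℤ) ∣ D ^ m - 1 := by
    apply (ZMod.intCast_zmod_eq_zero_iff_dvd _ p).1
    push_cast
    rw [hDt, ← pow_mul, show 2 * m = p - 1 by omega, ZMod.pow_card_sub_one_eq_one htz, sub_self]
  obtain ⟨k, hk⟩ := hDm
  refine ⟨(k : ℤ√D) * Zsqrtd.sqrtd, ?_⟩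
  have e : (Zsqrtd.sqrtd : ℤ√D) ^ 2 = ((D : ℤ) : ℤ√D) := by
    rw [sq]
    ext <;> simp
  have hk' := congrArg (fun t : ℤ => (t : ℤ√D)) hk
  push_cast at hk'
  conv_lhs => rw [hpm]
  rw [pow_succ, pow_mul, e]
  linear_combination (Zsqrtd.sqrtd : ℤ√D) * hk'

theorem fro {D : ℤ} {p : ℕ} (hp : p.Prime) (h2 : p ≠ 2) (hD : ¬ (p : ℤ) ∣ D) (h : ∃ t : ℤ, (p : ℤ) ∣ t ^ 2 - D) (z : ℤ√D)
    (hz : ¬ (p : ℤ) ∣ z.norm) : (p : ℤ√D) ∣ z ^ (p - 1) - 1 := by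
  have hzz : z = ((z.re : ℤ) : ℤ√D) + Zsqrtd.sqrtd * ((z.im : ℤ) : ℤ√D) := by
    ext <;> simp
  obtain ⟨r, hr⟩ := exists_add_pow_prime_eq hp (((z.re : ℤ) : ℤ√D)) (Zsqrtd.sqrtd * ((z.im : ℤ) : ℤ√D))
  obtain ⟨k1, hk1⟩ := fro_intCast_eq (D := D) hp z.re
  obtain ⟨k2, hk2⟩ := fro_intCast_eq (D := D) hp z.im
  obtain ⟨k3, hk3⟩ := fro_sqrt hp h2 hD h
  have hzp : (p : ℤ√D) ∣ z ^ p - z := by
    rw [← hzz, mul_pow] at hr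
    refine ⟨k1 + ((z.im : ℤ) : ℤ√D) ^ p * k3 + Zsqrtd.sqrtd * k2 + ((z.re : ℤ) : ℤ√D) * (Zsqrtd.sqrtd * ((z.im : ℤ) : ℤ√D)) * r, ?_⟩
    linear_combination hr - hzz + hk1 + ((z.im : ℤ) : ℤ√D) ^ p * hk3 + Zsqrtd.sqrtd * hk2
  have hpp : z ^ p = z * z ^ (p - 1) := by
    rw [← pow_succ', Nat.sub_add_cancel hp.one_le]
  obtain ⟨w, hw⟩ := hzp
  have hn : ((z.norm : ℤ) : ℤ√D) = z * star z := Zsqrtd.norm_eq_mul_conj z
  have h3 : (p : ℤ√D) ∣ ((z.norm : ℤ) : ℤ√D) * (z ^ (p - 1) - 1) := by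
    refine ⟨star z * w, ?_⟩
    rw [hn]
    linear_combination (star z) * hw - star z * hpp
  have hcop : IsCoprime (p : ℤ) z.norm := (Nat.prime_iff_prime_int.1 hp).coprime_iff_not_dvd.2 hz
  obtain ⟨x, y, hxy⟩ := hcop
  have hxy' := congrArg (fun t : ℤ => (t : ℤ√D)) hxy
  push_cast at hxy'
  obtain ⟨v, hv⟩ := h3
  refine ⟨(x : ℤ√D) * (z ^ (p - 1) - 1) + (y : ℤ√D) * v, ?_⟩
  linear_combination (y : ℤ√D) * hv - (z ^ (p - 1) - 1) * hxy'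

end Pool.Agent.Lib.CSL
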