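import Pool.Agent.Lib.MP_240120_ag.CS.Def

/-!
# CS / Cop (45 minutes): two coprime numbers in progressions

`cop1`: take `s = ∏ p`, over the primes `p ∣ y` (finite, `y ≠ 0`) with `¬ p ∣ x`. If a prime `p ∣ y` divides `x + n s`: if `p ∣ x` then `p ∣ n s`; `p ∣ n` is excluded by `h`, and `p ∣ s` means `p` is one of the
factors, so `¬ p ∣ x`, contradiction. If `¬ p ∣ x` then `p ∣ s`, so `p ∣ x`, contradiction. Coprimality from the absence of a common prime: `Int.isCoprime_iff_gcd_eq_one`, `Nat.Coprime`, `Nat.exists_prime_and_dvd`.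
`cop2`: choose `t ∈ {0, 1}` with `y + n t ≠ 0`, then `cop1 x n (y + n t)` (a prime dividing `x`, `n` and `y + n t` divides `y`).
-/

set_option autoImplicit false

namespace Pool.Agent.Lib.CSL

theorem cop1 (x n y : ℤ) (hy : y ≠ 0) (h : ∀ p : ℕ, p.Prime → (p : ℤ) ∣ x → (p : ℤ) ∣ n → ¬ (p : ℤ) ∣ y) :
    ∃ s : ℤ, IsCoprime (x + n * s) y := by
  classical
  refine ⟨∏ q ∈ y.natAbs.primeFactors.filter (fun q : ℕ => ¬ (q : ℤ) ∣ x), (q : ℤ), ?_⟩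
  rw [Int.isCoprime_iff_gcd_eq_one]
  by_contra hne
  obtain ⟨p, hp, hpd⟩ := Nat.exists_prime_and_dvd hne
  have hpZ : Prime (p : ℤ) := Nat.prime_iff_prime_int.mp hp
  have h1 : (p : ℤ) ∣ x + n * ∏ q ∈ y.natAbs.primeFactors.filter (fun q : ℕ => ¬ (q : ℤ) ∣ x), (q : ℤ) :=
    (Int.natCast_dvd_natCast.mpr hpd).trans (Int.gcd_dvd_left _ _)
  have h2 : (p : ℤ) ∣ y := (Int.natCast_dvd_natCast.mpr hpd).trans (Int.gcd_dvd_right _ _)
  by_cases hx : (p : ℤ) ∣ x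
  · have h3 : (p : ℤ) ∣ n * ∏ q ∈ y.natAbs.primeFactors.filter (fun q : ℕ => ¬ (q : ℤ) ∣ x), (q : ℤ) :=
      (dvd_add_right hx).mp h1
    rcases hpZ.dvd_or_dvd h3 with h4 | h4
    · exact h p hp hx h4 h2
    · obtain ⟨q, hq, hpq⟩ := hpZ.exists_mem_finset_dvd h4
      rw [Finset.mem_filter] at hq
      have hqp : q.Prime := Nat.prime_of_mem_primeFactors hq.1
      have hpq' : p ∣ q := Int.natCast_dvd_natCast.mp hpq
      have heq : p = q := (Nat.prime_dvd_prime_iff_eq hp hqp).mp hpq'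
      exact hq.2 (heq ▸ hx)
  · have hmem : p ∈ y.natAbs.primeFactors.filter (fun q : ℕ => ¬ (q : ℤ) ∣ x) := by
      rw [Finset.mem_filter]
      refine ⟨?_, hx⟩
      rw [Nat.mem_primeFactors]
      exact ⟨hp, Int.natCast_dvd.mp h2, Int.natAbs_ne_zero.mpr hy⟩
    have h3 : (p : ℤ) ∣ ∏ q ∈ y.natAbs.primeFactors.filter (fun q : ℕ => ¬ (q : ℤ) ∣ x), (q : ℤ) :=
      Finset.dvd_prod_of_mem (fun q : ℕ => (q : ℤ)) hmem
    exact hx ((dvd_add_left (h3.mul_left n)).mp h1)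

theorem cop2 (x y n : ℤ) (hn : n ≠ 0) (h : ∀ p : ℕ, p.Prime → (p : ℤ) ∣ x → (p : ℤ) ∣ y → ¬ (p : ℤ) ∣ n) :
    ∃ s t : ℤ, IsCoprime (x + n * s) (y + n * t) := by
  obtain ⟨t, ht⟩ : ∃ t : ℤ, y + n * t ≠ 0 := by
    by_cases hy : y = 0
    · exact ⟨1, by simpa [hy] using hn⟩
    · exact ⟨0, by simpa using hy⟩
  obtain ⟨s, hs⟩ := cop1 x n (y + n * t) ht (fun p hp hx hpn hd =>
    h p hp hx ((dvd_add_left (hpn.mul_right t)).mp hd) hpn)
  exact ⟨s, t, hs⟩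

end Pool.Agent.Lib.CSL
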