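import Pool.Agent.Lib.MP_240120_ag.CS.Def
import Pool.Agent.Lib.MP_240120_ag.CS.Bas
import Pool.Agent.Lib.MP_240120_ag.CS.Cop

/-!
# CS / IntA (75 minutes): a rational first entry (INT of CS_TEXT.md)

Row `(A, B')` of `X`: `A = 1 + q^2 A0`, `B' = q^2 B0`. `n = N(A)` is `1` modulo `q` (`q ≥ 2`, so `n ≠ 0`); a prime `p ∣ n` does not divide `q`, and not `B'` (`row_np`), so not `B0`: `cop2` for `x = q B0.re`, `y = q B0.im`, `n`
(a prime `p` dividing `q B0.re`, `q B0.im` and `n`: `¬ p ∣ q`, so `p ∣ B0`, contradiction) gives `s t`. Put `S = ⟨s, t⟩`, `B = q B0 + n S` (coprime components). First step `e12 (q * (star A * S))`: the second entry is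
`q^2 B0 + A q star A S = q B`, the first entry is `A`. Second step `e21 (q * T)`: the first entry is `A + q T q B = 1 + q^2 (A0 + T B)`, where `T = ⟨u, v⟩` with `im (T B) = u B.im + v B.re = -A0.im` (Bezout), so it is the integer
`a = 1 + q^2 re(A0 + T B)`. `e = e12 (..) * e21 (..)` is in `E D q` (`e12_E`, `e21_E`).
-/

set_option autoImplicit false

namespace Pool.Agent.Lib.CSL

private theorem IntA_norm {D : ℤ} {q : ℕ} {A A0 : ℤ√D} (h : A = 1 + (q : ℤ√D) ^ 2 * A0) :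
    (q : ℤ) ∣ A.norm - 1 := by
  refine ⟨q * (2 * A0.re + q ^ 2 * A0.re ^ 2 - D * q ^ 2 * A0.im ^ 2), ?_⟩
  have hc : ((q : ℤ√D) ^ 2) = (((q : ℤ) ^ 2 : ℤ) : ℤ√D) := by push_cast; rfl
  have h1 : A.re = 1 + q ^ 2 * A0.re := by
    rw [h, hc, Zsqrtd.re_add, Zsqrtd.re_one, Zsqrtd.re_mul, Zsqrtd.re_intCast, Zsqrtd.im_intCast]
    ring
  have h2 : A.im = q ^ 2 * A0.im := by
    rw [h, hc, Zsqrtd.im_add, Zsqrtd.im_one, Zsqrtd.im_mul, Zsqrtd.re_intCast, Zsqrtd.im_intCast]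
    ring
  rw [Zsqrtd.norm_def, h1, h2]
  ring

theorem int_row {D : ℤ} {q : ℕ} (hq : 2 ≤ q) {X : S2 (ℤ√D)} (hX : X ∈ G D (q ^ 2)) :
    ∃ e ∈ E D q, ∃ (a : ℤ) (B : ℤ√D), IsCoprime B.re B.im ∧ (X * e).a = a ∧ (X * e).b = q * B ∧ (q : ℤ) ^ 2 ∣ a - 1 := by
  obtain ⟨⟨A0, hA⟩, ⟨B0, hB⟩, -, -⟩ := hX
  rw [Nat.cast_pow] at hA hB
  have hA' : X.a = 1 + (q : ℤ√D) ^ 2 * A0 := by linear_combination hA
  have hn1 := IntA_norm hA'
  have hn0 : X.a.norm ≠ 0 := by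
    intro h0
    rw [h0] at hn1
    have h1 : (q : ℤ) ∣ 1 := by
      have h2 := (dvd_neg).2 hn1
      rwa [zero_sub, neg_neg] at h2
    have h3 := Int.le_of_dvd one_pos h1
    omega
  obtain ⟨s, t, hst⟩ := cop2 (q * B0.re) (q * B0.im) X.a.norm hn0 (by
    intro p hp h1 h2 h3
    have hpq : ¬ (p : ℤ) ∣ q := by
      intro h4
      have h5 : (p : ℤ) ∣ 1 := by
        have h6 := dvd_sub h3 (h4.trans hn1)
        rwa [sub_sub_cancel] at h6
      have h7 := Int.le_of_dvd one_pos h5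
      have h8 := hp.two_le
      omega
    have hpp : Prime (p : ℤ) := Nat.prime_iff_prime_int.1 hp
    obtain ⟨x, hx⟩ := (hpp.dvd_or_dvd h1).resolve_left hpq
    obtain ⟨y, hy⟩ := (hpp.dvd_or_dvd h2).resolve_left hpq
    refine row_np X p hp h3 ?_
    rw [hB]
    refine Dvd.dvd.mul_left ?_ _
    refine ⟨⟨x, y⟩, ?_⟩
    ext
    · simp [hx]
    · simp [hy])
  obtain ⟨a', b', hab⟩ := hst
  set S : ℤ√D := ⟨s, t⟩ with hS
  set B : ℤ√D := q * B0 + (X.a.norm : ℤ√D) * S with hBd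
  have hBre : B.re = q * B0.re + X.a.norm * s := by
    rw [hBd, hS]
    simp
  have hBim : B.im = q * B0.im + X.a.norm * t := by
    rw [hBd, hS]
    simp
  set U : ℤ√D := ⟨-A0.im * b', -A0.im * a'⟩ with hU
  have him : (A0 + U * B).im = 0 := by
    rw [Zsqrtd.im_add, Zsqrtd.im_mul, hBre, hBim, hU]
    simp only
    linear_combination (-A0.im) * hab
  have hreal : A0 + U * B = (((A0 + U * B).re : ℤ) : ℤ√D) := by
    ext
    · simp
    · rw [him]; simp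
  refine ⟨e12 (q * (star X.a * S)) * e21 (q * U),
    (E D q).mul_mem (e12_E (dvd_mul_right _ _)) (e21_E (dvd_mul_right _ _)),
    1 + q ^ 2 * (A0 + U * B).re, B, ?_, ?_, ?_, ?_⟩
  · rw [hBre, hBim]
    exact ⟨a', b', hab⟩
  · have hN := Zsqrtd.norm_eq_mul_conj X.a
    simp only [S2.mul_a, S2.mul_c, e12_a, e12_b, e12_c, e12_d, e21_a, e21_c]
    push_cast
    rw [← hreal, hBd, hN, hB, hA']
    ring
  · have hN := Zsqrtd.norm_eq_mul_conj X.a
    simp only [S2.mul_b, S2.mul_d, e12_a, e12_b, e12_c, e12_d, e21_b, e21_d]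
    rw [hBd, hN, hB]
    ring
  · exact ⟨(A0 + U * B).re, by ring⟩

end Pool.Agent.Lib.CSL
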