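import Pool.Agent.Lib.MP_240120_ag.CS.Def

/-!
# CS / Qrs (75 minutes): quadratic residues: D is a square, c is not

`sq_D`: `jacobiSym D p`, `p` odd. `jacobiSym.mod_right D (hb : Odd p) : J(D | p) = J(D | p % (4 * D.natAbs))`. `p ≡ 1`: `J(D | 1) = 1` (`4 D > 1`, the remainder is `1`). `p ≡ -1`: the remainder is `4 D - 1`, and
`J(D | 4D-1) = J(4 | 4D-1) J(D | 4D-1) = J(4 D | 4D - 1) = J(1 | 4D-1) = 1` (`jacobiSym.mul_left`, `jacobiSym.mod_left`, `J(4 | .) = J(2|.)^2 = 1` as `4D-1` is odd). Then `legendreSym = jacobiSym` for a prime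
(`jacobiSym.legendreSym.to_jacobiSym`), `legendreSym.eq_one_iff`: `(D : ZMod p)` is a square (not zero as `p` is prime to `D`).
`nsq_c`: `p` is odd, `p ≡ 3 mod 4`, `p` prime to `c`. `J(c | p) = J(-1 | p) J(-c | p) = -J(-c | p) = -1` (as before with `-c > 0` for `D`; `p ≡ -1 mod 4(-c)`). If `p ∣ t^2 - c` then `c` is a square mod `p`, so the symbol is `1` or
`p ∣ c`; both impossible.
-/

set_option autoImplicit false

namespace Pool.Agent.Lib.CSL

private theorem Qrs_J {D : ℤ} (h0 : 0 < D) {p : ℕ} (hodd : Odd p)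
    (h : (p : ℤ) ≡ 1 [ZMOD 4 * D] ∨ (p : ℤ) ≡ -1 [ZMOD 4 * D]) : jacobiSym D p = 1 := by
  obtain ⟨n, hn⟩ : ∃ n : ℕ, D = n := ⟨D.toNat, (Int.toNat_of_nonneg h0.le).symm⟩
  subst hn
  have hn0 : 0 < n := by exact_mod_cast h0
  rw [jacobiSym.mod_right _ hodd, Int.natAbs_natCast]
  rcases h with h | h
  · have h1 : p % (4 * n) = 1 := by
      have h2 : (p : ℤ) % (4 * n) = 1 % (4 * n) := h
      have h3 : (1 : ℤ) % (4 * n) = 1 := Int.emod_eq_of_lt (by norm_num) (by omega)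
      rw [h3] at h2
      have : ((p % (4 * n) : ℕ) : ℤ) = 1 := by
        push_cast
        exact h2
      exact_mod_cast this
    rw [h1, jacobiSym.one_right]
  · have h1 : p % (4 * n) = 4 * n - 1 := by
      have h2 : (p : ℤ) % (4 * n) = -1 % (4 * n) := h
      have h3 : (-1 : ℤ) % (4 * n) = 4 * n - 1 := by
        have h4 : (-1 : ℤ) % (4 * n) = (-1 + 4 * n) % (4 * n) := by rw [Int.add_emod_right]
        rw [h4, Int.emod_eq_of_lt (by omega) (by omega)]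
        ring
      rw [h3] at h2
      have h5 : ((p % (4 * n) : ℕ) : ℤ) = ((4 * n - 1 : ℕ) : ℤ) := by
        rw [Nat.cast_sub (by omega)]
        push_cast
        exact h2
      exact_mod_cast h5
    rw [h1]
    have hb : Odd (4 * n - 1) := ⟨2 * n - 1, by omega⟩
    have h4 : jacobiSym 4 (4 * n - 1) = 1 := by
      have e : (4 : ℤ) = 2 * 2 := by norm_num
      rw [e, jacobiSym.mul_left]
      have hc : IsCoprime ((2 : ℤ)) ((4 * n - 1 : ℕ) : ℤ) := by
        rw [Nat.cast_sub (by omega)]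
        refine ⟨2 * n, -1, ?_⟩
        push_cast
        ring
      have h5 : jacobiSym 2 (4 * n - 1) ^ 2 = 1 :=
        jacobiSym.sq_one (Int.isCoprime_iff_gcd_eq_one.1 hc)
      rw [← sq]
      exact h5
    have h6 : jacobiSym (4 * (n : ℤ)) (4 * n - 1) = 1 := by
      rw [jacobiSym.mod_left]
      have h7 : (4 * (n : ℤ)) % ((4 * n - 1 : ℕ) : ℤ) = 1 % ((4 * n - 1 : ℕ) : ℤ) := by
        rw [Nat.cast_sub (by omega)]
        push_cast
        have e := Int.add_emod_right (1 : ℤ) (4 * (n : ℤ) - 1)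
        have e' : 1 + (4 * (n : ℤ) - 1) = 4 * n := by ring
        rw [e'] at e
        exact e
      rw [h7, ← jacobiSym.mod_left, jacobiSym.one_left]
    rw [jacobiSym.mul_left, h4, one_mul] at h6
    exact h6

private theorem Qrs_odd {D : ℤ} {p : ℕ}
    (h : (p : ℤ) ≡ 1 [ZMOD 4 * D] ∨ (p : ℤ) ≡ -1 [ZMOD 4 * D]) : Odd p := by
  rw [← Int.odd_coe_nat]
  rcases h with h | h
  · obtain ⟨k, hk⟩ := h.dvd
    exact ⟨-(2 * D * k), by linear_combination -hk⟩
  · obtain ⟨k, hk⟩ := h.dvd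
    exact ⟨-(2 * D * k) - 1, by linear_combination -hk⟩

theorem sq_D {D : ℤ} (h0 : 0 < D) {p : ℕ} (hp : p.Prime) (h : (p : ℤ) ≡ 1 [ZMOD 4 * D] ∨ (p : ℤ) ≡ -1 [ZMOD 4 * D]) :
    ∃ t : ℤ, (p : ℤ) ∣ t ^ 2 - D := by
  haveI : Fact p.Prime := ⟨hp⟩
  have h1 := Qrs_J h0 (Qrs_odd h) h
  rw [← jacobiSym.legendreSym.to_jacobiSym] at h1
  by_cases h2 : (D : ZMod p) = 0
  · refine ⟨0, ?_⟩
    rw [← ZMod.intCast_zmod_eq_zero_iff_dvd]
    push_cast
    rw [h2]
    ring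
  · rw [legendreSym.eq_one_iff p h2] at h1
    obtain ⟨y, hy⟩ := h1
    refine ⟨(y.val : ℤ), ?_⟩
    rw [← ZMod.intCast_zmod_eq_zero_iff_dvd]
    push_cast
    rw [ZMod.natCast_zmod_val, hy]
    ring

theorem nsq_c {c : ℤ} (hc : c < 0) {p : ℕ} (hp : p.Prime) (h : (p : ℤ) ≡ -1 [ZMOD 4 * c]) (t : ℤ) : ¬ (p : ℤ) ∣ t ^ 2 - c := by
  haveI : Fact p.Prime := ⟨hp⟩
  have h' : (p : ℤ) ≡ -1 [ZMOD 4 * -c] := by
    rw [Int.modEq_iff_dvd] at h ⊢
    have e : 4 * -c = -(4 * c) := by ring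
    rw [e]
    exact Int.neg_dvd.2 h
  have hodd : Odd p := Qrs_odd (Or.inr h')
  have h1 : jacobiSym (-c) p = 1 := Qrs_J (by omega) hodd (Or.inr h')
  have h3 : p % 4 = 3 := by
    obtain ⟨k, hk⟩ := h.dvd
    have : (p : ℤ) % 4 = 3 := by
      have e : (p : ℤ) = -1 + 4 * (-(c * k)) := by linear_combination -hk
      rw [e, Int.add_mul_emod_self_left]
      norm_num
    omega
  have h2 : jacobiSym (-1) p = -1 := by
    rw [jacobiSym.at_neg_one hodd]
    exact ZMod.χ₄_nat_three_mod_four h3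
  have h4 : jacobiSym c p = -1 := by
    have e : c = -1 * -c := by ring
    rw [e, jacobiSym.mul_left, h1, h2]
    norm_num
  rw [← jacobiSym.legendreSym.to_jacobiSym] at h4
  rw [legendreSym.eq_neg_one_iff] at h4
  intro hd
  apply h4
  rw [← ZMod.intCast_zmod_eq_zero_iff_dvd] at hd
  push_cast at hd
  exact ⟨(t : ZMod p), by linear_combination -hd⟩

end Pool.Agent.Lib.CSL
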