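import Pool.Agent.Lib.MP_240120_ag.CS.Def
import Pool.Agent.Lib.MP_240120_ag.CS.Bas
import Pool.Agent.Lib.MP_240120_ag.CS.IntA
import Pool.Agent.Lib.MP_240120_ag.CS.Com
import Pool.Agent.Lib.MP_240120_ag.CS.Qrs
import Pool.Agent.Lib.MP_240120_ag.CS.Fro
import Pool.Agent.Lib.MP_240120_ag.CS.Dir

/-!
# CS / Ro1 (75 minutes): R1 of CS_TEXT.md: the torus commutes with G(q^2) modulo E(q)

`q ≥ 4`. `int_row`: `Y = X e`, `Y.a = a`, `Y.b = q B`, `Y ∈ G D q` (`G_anti`, `E_le_G`). `d := dg u v h`. `I := {k : ℤ | d^k X d^(-k) X⁻¹ ∈ E D q}` is an additive subgroup (`d^(k+l) X d^(-k-l) X⁻¹ = d^k (d^l X d^(-l) X⁻¹) d^(-k) · (d^k X d^(-k) X⁻¹)`,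
`E` normal), and `k ∈ I` iff `d^k Y d^(-k) Y⁻¹ ∈ E D q` (`Y = X e`: `d^k X e d^(-k) e⁻¹ X⁻¹ = (d^k X d^(-k) X⁻¹) (X (d^k e d^(-k) e⁻¹) X⁻¹)`).
`R0 := (Y.b.norm).natAbs`, divisible by `q^2` (`ndvd`), so by `4 D`; not zero as `B ≠ 0` (coprime components) and `D` is not a square (`Zsqrtd.norm_eq_zero`). `IsCoprime a R0` (`row_cop`), `a ≡ 1 mod 4`.
For an integer `a' ≡ a mod R0`: `t1` (`a' = a + j N(Y.b)`): `Y1 = Y * e21 (j * star Y.b)`, `e21 (..) ∈ E D q` (`star_dvd`, `e21_E`), first row `(a', q B)`; if `a' ∣ u^(2k) - 1` then `com` (for `u^k`, `v^k`; `dg (u^k) (v^k) = d^k`) and as before `k ∈ I`, `k : ℕ`.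
 `p ≡ a mod R0` prime: `p ≡ 1 mod 4D`, `fro` (`sq_D`; `N(u) = ±1` as `u` is a unit): `p ∣ u^(p-1) - 1`, so `a' = p`, `k = p - 1`. `p ≡ -a`: `a' = -p`, `k = (p-1)/2`, `u^(2k) = u^(p-1)`. `gcdl`: `1 ∈ I`. (Take `n = D.natAbs + 2`
 if needed; `p ≡ ±1 mod 4D` is odd and prime to `D`.)
-/

set_option autoImplicit false

namespace Pool.Agent.Lib.CSL

private theorem Ro1_dg_pow {A : Type*} [CommRing A] (u v : A) (h : u * v = 1) (k : ℕ)
    (hk : u ^ k * v ^ k = 1) : dg (u ^ k) (v ^ k) hk = (dg u v h) ^ k := by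
  induction k with
  | zero =>
    rw [pow_zero (dg u v h)]
    ext <;> simp
  | succ k ih =>
    have hk' : u ^ k * v ^ k = 1 := by rw [← mul_pow, h, one_pow]
    rw [pow_succ (dg u v h) k, ← ih hk']
    ext
    · simp [pow_succ]
    · simp
    · simp
    · simp [pow_succ]

private theorem Ro1_comm {D : ℤ} {q : ℕ} (g Z : S2 (ℤ√D)) :
    g * Z * g⁻¹ * Z⁻¹ ∈ E D q ↔
      Commute (QuotientGroup.mk' (E D q) g) (QuotientGroup.mk' (E D q) Z) := by
  have h1 : g * Z * g⁻¹ * Z⁻¹ ∈ E D q ↔ QuotientGroup.mk' (E D q) (g * Z * g⁻¹ * Z⁻¹) = 1 :=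
    (QuotientGroup.eq_one_iff _).symm
  rw [h1, map_mul, map_mul, map_mul, map_inv, map_inv, mul_inv_eq_one, mul_inv_eq_iff_eq_mul]
  rfl

private theorem Ro1_mk {D : ℤ} {q : ℕ} (Z e : S2 (ℤ√D)) (he : e ∈ E D q) :
    QuotientGroup.mk' (E D q) (Z * e) = QuotientGroup.mk' (E D q) Z := by
  have h1 : QuotientGroup.mk' (E D q) e = 1 := (QuotientGroup.eq_one_iff _).mpr he
  rw [map_mul, h1, mul_one]

/-- exponents of the torus which commute with `X` -/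
private def Ro1_I {H : Type*} [Group H] (d x : H) : AddSubgroup ℤ where
  carrier := {k : ℤ | Commute (d ^ k) x}
  zero_mem' := by
    show Commute (d ^ (0 : ℤ)) x
    rw [zpow_zero]
    exact Commute.one_left x
  add_mem' := by
    intro k l hk hl
    show Commute (d ^ (k + l)) x
    rw [zpow_add]
    exact Commute.mul_left hk hl
  neg_mem' := by
    intro k hk
    show Commute (d ^ (-k)) x
    rw [zpow_neg]
    exact Commute.inv_left hk

private theorem Ro1_step {D : ℤ} {u v : ℤ√D} (h : u * v = 1) {q : ℕ} {Y : S2 (ℤ√D)}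
    (hY : Y ∈ G D q) {a : ℤ} {B : ℤ√D} (ha : Y.a = a) (hb : Y.b = q * B) {a' : ℤ}
    (hN : Y.b.norm ∣ a' - a) {k : ℕ} (hk : (a' : ℤ√D) ∣ (u ^ k) ^ 2 - 1) :
    Commute ((QuotientGroup.mk' (E D q) (dg u v h)) ^ (k : ℤ)) (QuotientGroup.mk' (E D q) Y) := by
  obtain ⟨j, hj⟩ := hN
  obtain ⟨h1, h2⟩ := t1 Y a ha j
  have he : e21 ((j : ℤ√D) * star Y.b) ∈ E D q := by
    refine e21_E ((star_dvd ?_).mul_left _)
    rw [hb]
    exact dvd_mul_right _ _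
  have hY1 : Y * e21 ((j : ℤ√D) * star Y.b) ∈ G D q := (G D q).mul_mem hY (E_le_G D q he)
  have ha' : (Y * e21 ((j : ℤ√D) * star Y.b)).a = (a' : ℤ√D) := by
    rw [h1]
    congr 1
    linarith [mul_comm j Y.b.norm]
  have hkk : u ^ k * v ^ k = 1 := by rw [← mul_pow, h, one_pow]
  have h3 := com hY1 a' B ha' (h2.trans hb) hkk hk
  rw [Ro1_comm, Ro1_mk _ _ he, Ro1_dg_pow u v h k hkk, map_pow] at h3
  rw [zpow_natCast]
  exact h3

theorem ro1 {D : ℤ} (h0 : 0 < D) (hD : ∀ n : ℤ, D ≠ n * n) {u v : ℤ√D} (h : u * v = 1) {q : ℕ} (hq0 : 0 < q) (hq : 4 * D ∣ (q : ℤ))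
    {X : S2 (ℤ√D)} (hX : X ∈ G D (q ^ 2)) : dg u v h * X * (dg u v h)⁻¹ * X⁻¹ ∈ E D q := by
  have hq4 : 4 * D ≤ (q : ℤ) := Int.le_of_dvd (by exact_mod_cast hq0) hq
  have hq2 : 2 ≤ q := by
    have : (2 : ℤ) ≤ q := by linarith
    exact_mod_cast this
  obtain ⟨e, he, a, B, hB, ha, hb, haq⟩ := int_row hq2 hX
  have hY : X * e ∈ G D q := (G D q).mul_mem (G_anti (dvd_pow_self q two_ne_zero) hX)
    (E_le_G D q he)
  have hYX : QuotientGroup.mk' (E D q) (X * e) = QuotientGroup.mk' (E D q) X := Ro1_mk X e he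
  generalize hYdef : X * e = Y at ha hb hY hYX
  -- the norm
  have hqN : (q : ℤ) ^ 2 ∣ Y.b.norm := ndvd (by rw [hb]; exact dvd_mul_right _ _)
  have hqq : (q : ℤ) ∣ (q : ℤ) ^ 2 := dvd_pow_self _ two_ne_zero
  have h4D2 : 4 * D ∣ (q : ℤ) ^ 2 := hq.trans hqq
  have h4DN : 4 * D ∣ Y.b.norm := h4D2.trans hqN
  have hYb : Y.b ≠ 0 := by
    intro hz
    rw [hb] at hz
    have hre := congrArg Zsqrtd.re hz
    have him := congrArg Zsqrtd.im hz
    have hqz : (q : ℤ) ≠ 0 := by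
      have : q ≠ 0 := by omega
      exact_mod_cast this
    have h1 : B.re = 0 := by
      have h2 : (q : ℤ) * B.re = 0 := by
        simpa using hre
      exact (mul_eq_zero.mp h2).resolve_left hqz
    have h1' : B.im = 0 := by
      have h2 : (q : ℤ) * B.im = 0 := by
        simpa using him
      exact (mul_eq_zero.mp h2).resolve_left hqz
    rw [h1, h1'] at hB
    obtain ⟨x, y, hxy⟩ := hB
    rw [mul_zero, mul_zero, add_zero] at hxy
    exact zero_ne_one hxy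
  have hN0 : Y.b.norm ≠ 0 := fun hz => hYb ((Zsqrtd.norm_eq_zero hD _).mp hz)
  have hR : 0 < Y.b.norm.natAbs := Int.natAbs_pos.mpr hN0
  have h4R : 4 ∣ Y.b.norm.natAbs := by
    have h1 : (4 : ℤ) ∣ Y.b.norm := (dvd_mul_right 4 D).trans h4DN
    have h2 := Int.natAbs_dvd_natAbs.mpr h1
    exact h2
  have ha1 : a ≡ 1 [ZMOD 4 * D] := (Int.modEq_iff_dvd.mpr (h4D2.trans haq)).symm
  have ha4 : a ≡ 1 [ZMOD 4] := ha1.of_dvd (dvd_mul_right 4 D)
  have hcop : IsCoprime a (Y.b.norm.natAbs : ℤ) := by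
    have h1 := row_cop Y a ha
    have h2 : (Y.b.norm.natAbs : ℤ) = |Y.b.norm| := Int.natCast_natAbs _
    rw [h2]
    exact IsCoprime.abs_right h1
  -- the units
  have hun : IsUnit u.norm := by
    have h1 : u.norm * v.norm = 1 := by
      rw [← Zsqrtd.norm_mul, h, Zsqrtd.norm_one]
    exact IsUnit.of_mul_eq_one _ h1
  have hdN : ∀ x : ℤ, (Y.b.norm.natAbs : ℤ) ∣ x → Y.b.norm ∣ x := fun x hx =>
    (Int.natAbs_dvd.mp hx)
  have hprime : ∀ p : ℕ, p.Prime → D.natAbs + 2 < p →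
      ((p : ℤ) ≡ 1 [ZMOD 4 * D] ∨ (p : ℤ) ≡ -1 [ZMOD 4 * D]) →
      (p : ℤ√D) ∣ u ^ (p - 1) - 1 := by
    intro p hp hn hmod
    refine fro hp (by omega) ?_ (sq_D h0 hp hmod) u ?_
    · intro hpD
      have h1 := Int.le_of_dvd h0 hpD
      omega
    · intro hpu
      have h1 : IsUnit (p : ℤ) := isUnit_of_dvd_unit hpu hun
      rw [Int.isUnit_iff] at h1
      have := hp.two_le
      omega
  have key := gcdl (Ro1_I (QuotientGroup.mk' (E D q) (dg u v h)) (QuotientGroup.mk' (E D q) X))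
    (D.natAbs + 2) Y.b.norm.natAbs a hR h4R ha4 hcop ?_ ?_
  · have h1 : Commute ((QuotientGroup.mk' (E D q) (dg u v h)) ^ (1 : ℤ))
      (QuotientGroup.mk' (E D q) X) := key
    rw [zpow_one] at h1
    exact (Ro1_comm _ _).mpr h1
  · intro p hp hn hmod
    show Commute ((QuotientGroup.mk' (E D q) (dg u v h)) ^ ((p : ℤ) - 1))
      (QuotientGroup.mk' (E D q) X)
    have hp1 : (p : ℤ) ≡ 1 [ZMOD 4 * D] :=
      (hmod.of_dvd (Int.dvd_natAbs.mpr h4DN)).trans ha1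
    have h1 := hprime p hp hn (Or.inl hp1)
    have h2 : (((p : ℤ) : ℤ) : ℤ√D) ∣ (u ^ (p - 1)) ^ 2 - 1 := by
      have h3 : (u ^ (p - 1)) ^ 2 - 1 = (u ^ (p - 1) - 1) * (u ^ (p - 1) + 1) := by ring
      rw [h3, Int.cast_natCast]
      exact h1.mul_right _
    have h4 : Y.b.norm ∣ (p : ℤ) - a := hdN _ (Int.modEq_iff_dvd.mp hmod.symm)
    have h5 := Ro1_step h hY ha hb h4 h2
    have h6 : ((p - 1 : ℕ) : ℤ) = (p : ℤ) - 1 := by
      have := hp.one_le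
      push_cast [this]
      ring
    rw [h6, hYX] at h5
    exact h5
  · intro p hp hn hmod
    show Commute ((QuotientGroup.mk' (E D q) (dg u v h)) ^ (((p : ℤ) - 1) / 2))
      (QuotientGroup.mk' (E D q) X)
    have hp1 : (p : ℤ) ≡ -1 [ZMOD 4 * D] :=
      (hmod.of_dvd (Int.dvd_natAbs.mpr h4DN)).trans ha1.neg
    have h1 := hprime p hp hn (Or.inr hp1)
    have hodd : Odd p := hp.odd_of_ne_two (by omega)
    obtain ⟨m, hm⟩ := hodd
    have h2 : ((-(p : ℤ) : ℤ) : ℤ√D) ∣ (u ^ m) ^ 2 - 1 := by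
      have h3 : (u ^ m) ^ 2 = u ^ (p - 1) := by
        rw [← pow_mul]
        congr 1
        omega
      rw [h3, Int.cast_neg, Int.cast_natCast, neg_dvd]
      exact h1
    have h4 : Y.b.norm ∣ -(p : ℤ) - a := by
      have h5 : Y.b.norm ∣ (p : ℤ) - -a := hdN _ (Int.modEq_iff_dvd.mp hmod.symm)
      have h6 : -(p : ℤ) - a = -((p : ℤ) - -a) := by ring
      rw [h6]
      exact (dvd_neg).mpr h5
    have h5 := Ro1_step h hY ha hb h4 h2
    have h6 : ((p : ℤ) - 1) / 2 = (m : ℤ) := by omega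
    rw [h6]
    rw [hYX] at h5
    exact h5

end Pool.Agent.Lib.CSL
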