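import Pool.Agent.Lib.MP_240120_ag.CS.Def
import Pool.Agent.Lib.MP_240120_ag.CS.Den
import Pool.Agent.Lib.MP_240120_ag.CS.Ro1

/-!
# CS / Goo (60 minutes): GOOD of CS_TEXT.md: definition (proved) and the torus

`good_dg`: given `h`, `k0` from `hN h`, `k := k0 * (4 D)` (a natural number), `E D k ≤ E D k0` (`E_anti`). For `X ∈ G D (k^2)`: `ro1`: `d X d⁻¹ X⁻¹ ∈ E D k`, so `h (..) h⁻¹ ∈ N`. `q := k^2`.
-/

set_option autoImplicit false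

namespace Pool.Agent.Lib.CSL

/-- the good elements: `h [g, X] h⁻¹ ∈ N` for all `X` in a principal congruence subgroup depending on `h` -/
def Good (D : ℤ) (N : Subgroup (S2 (KD D))) : Subgroup (S2 (KD D)) where
  carrier := {g | ∀ h : S2 (KD D), ∃ q : ℕ, 0 < q ∧ ∀ X ∈ G D q, h * (g * im D X * g⁻¹ * (im D X)⁻¹) * h⁻¹ ∈ N}
  one_mem' h := ⟨1, one_pos, fun X _ => by
    have : h * (1 * im D X * 1⁻¹ * (im D X)⁻¹) * h⁻¹ = 1 := by group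
    rw [this]
    exact N.one_mem⟩
  mul_mem' := by
    intro g k hg hk h
    obtain ⟨q1, h1, h2⟩ := hk (h * g)
    obtain ⟨q2, h3, h4⟩ := hg h
    refine ⟨q1 * q2, Nat.mul_pos h1 h3, fun X hX => ?_⟩
    have e1 : h * (g * k * im D X * (g * k)⁻¹ * (im D X)⁻¹) * h⁻¹ =
        (h * g * (k * im D X * k⁻¹ * (im D X)⁻¹) * (h * g)⁻¹) * (h * (g * im D X * g⁻¹ * (im D X)⁻¹) * h⁻¹) := by group
    rw [e1]
    exact N.mul_mem (h2 X (G_anti (Dvd.intro _ rfl) hX)) (h4 X (G_anti (Dvd.intro_left _ rfl) hX))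
  inv_mem' := by
    intro g hg h
    obtain ⟨q, h1, h2⟩ := hg (h * g⁻¹)
    refine ⟨q, h1, fun X hX => ?_⟩
    have e1 : h * (g⁻¹ * im D X * g⁻¹⁻¹ * (im D X)⁻¹) * h⁻¹ =
        (h * g⁻¹ * (g * im D X * g⁻¹ * (im D X)⁻¹) * (h * g⁻¹)⁻¹)⁻¹ := by group
    rw [e1]
    exact N.inv_mem (h2 X hX)

instance Good_normal (D : ℤ) (N : Subgroup (S2 (KD D))) : (Good D N).Normal where
  conj_mem := by
    intro g hg p h
    obtain ⟨q, h1, h2⟩ := hg (h * p)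
    obtain ⟨q', h3, h4⟩ := den p⁻¹ h1
    refine ⟨q', h3, fun X hX => ?_⟩
    obtain ⟨Y, hY, hXY⟩ := h4 X hX
    have e0 : im D X = p * im D Y * p⁻¹ := by rw [← hXY]; group
    have e1 : h * (p * g * p⁻¹ * im D X * (p * g * p⁻¹)⁻¹ * (im D X)⁻¹) * h⁻¹ =
        h * p * (g * im D Y * g⁻¹ * (im D Y)⁻¹) * (h * p)⁻¹ := by rw [e0]; group
    rw [e1]
    exact h2 Y hY

theorem good_dg {D : ℤ} (h0 : 0 < D) (hD : ∀ n : ℤ, D ≠ n * n) (N : Subgroup (S2 (KD D)))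
    (hN : ∀ g : S2 (KD D), ∃ k : ℕ, 0 < k ∧ ∀ e ∈ E D k, g * im D e * g⁻¹ ∈ N) {u v : ℤ√D} (h : u * v = 1) :
    im D (dg u v h) ∈ Good D N := by
  intro g
  obtain ⟨k0, hk0, hE⟩ := hN g
  have hDn : 0 < D.natAbs := Int.natAbs_pos.2 h0.ne'
  have hDc : (D.natAbs : ℤ) = D := Int.natAbs_of_nonneg h0.le
  have hk : 0 < k0 * (4 * D.natAbs) := Nat.mul_pos hk0 (Nat.mul_pos (by norm_num) hDn)
  refine ⟨(k0 * (4 * D.natAbs)) ^ 2, pow_pos hk 2, fun X hX => ?_⟩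
  have hdvd : 4 * D ∣ ((k0 * (4 * D.natAbs) : ℕ) : ℤ) := by
    refine ⟨(k0 : ℤ), ?_⟩
    push_cast
    rw [← Int.natCast_natAbs, hDc]
    ring
  have h1 := ro1 h0 hD h hk hdvd hX
  have h2 := hE _ (E_anti (Dvd.intro _ rfl) h1)
  rw [map_mul, map_mul, map_mul, map_inv, map_inv] at h2
  exact h2

end Pool.Agent.Lib.CSL
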