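import Pool.Agent.Lib.MP_240120_ag.CS.Def

/-!
# CS / Sa1 (60 minutes): G(m) is contained in G(m^2) E(m)

`X = 1 + m (x, y; z, w)`. The determinant gives `m ∣ x + w` up to `m ≠ 0`: `(1 + m x)(1 + m w) - m^2 y z = 1`, so `m (x + w) = -m^2 (x w - y z)`, i.e. `x + w = -m (x w - y z)` (for `m = 0` everything is trivial: `G D 0 = {1}`).
`e := e12 (m (x + y)) * e21 (m (z - x)) * (e12 1 * e21 (m x) * (e12 1)⁻¹)` is in `E D m` and `e ≡ 1 + m (x, y; z, -x) ≡ X mod m^2`. So `X e⁻¹ ∈ G D (m^2)` (write `X = e + m^2 Z` entrywise; `X e⁻¹ = 1 + m^2 Z e⁻¹`).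
-/

set_option autoImplicit false

namespace Pool.Agent.Lib.CSL

theorem sa1 {D : ℤ} {m : ℕ} {X : S2 (ℤ√D)} (hX : X ∈ G D m) : ∃ e ∈ E D m, X * e ∈ G D (m ^ 2) := by
  rcases Nat.eq_zero_or_pos m with rfl | hm
  · exact ⟨1, (E D 0).one_mem, by simpa using hX⟩
  obtain ⟨⟨x, hx⟩, ⟨y, hy⟩, ⟨z, hz⟩, ⟨w, hw⟩⟩ := hX
  have hm0 : (m : ℤ) ≠ 0 := by exact_mod_cast hm.ne'
  have hp : x + w + m * (x * w - y * z) = 0 := by
    apply Zsqrtd.eq_of_smul_eq_smul_left hm0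
    have hc : ((m : ℤ) : ℤ√D) = (m : ℤ√D) := by simp
    have hdet := X.h
    have ea : X.a = 1 + m * x := by linear_combination hx
    have ed : X.d = 1 + m * w := by linear_combination hw
    rw [ea, ed, hy, hz] at hdet
    rw [hc, mul_zero]
    linear_combination hdet
  obtain ⟨p, hpp⟩ : ∃ p : ℤ√D, p = x * w - y * z := ⟨_, rfl⟩
  rw [← hpp] at hp
  have ea : X.a = 1 + m * x := by linear_combination hx
  have ed : X.d = 1 - m * x - m ^ 2 * p := by linear_combination hw + m * hp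
  have hdm : ∀ u : ℤ√D, (m : ℤ√D) ∣ m * u := fun u => dvd_mul_right _ _
  have he : e12 (m * (x + y)) * e21 (m * (z - x)) * (e12 1 * e21 (m * x) * (e12 1)⁻¹) ∈ E D m :=
    (E D m).mul_mem ((E D m).mul_mem (e12_E (hdm _)) (e21_E (hdm _)))
      ((E_normal D m).conj_mem _ (e21_E (hdm _)) _)
  refine ⟨_, (E D m).inv_mem he, ?_⟩
  rw [mem_G]
  refine ⟨⟨-y * z - x * z - m * x * y * z - m * x ^ 2 * z + m * x ^ 2 * y + m * x ^ 3, ?_⟩,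
    ⟨x * y + x ^ 2 + m * y ^ 2 * z + 2 * m * x * y * z + m * x ^ 2 * z + m ^ 2 * x * y ^ 2 * z + 2 * m ^ 2 * x ^ 2 * y * z - m ^ 2 * x ^ 2 * y ^ 2 + m ^ 2 * x ^ 3 * z - 2 * m ^ 2 * x ^ 3 * y - m ^ 2 * x ^ 4, ?_⟩,
    ⟨-x * z + x ^ 2 + m * z * p - m * x * z ^ 2 + 2 * m * x ^ 2 * z - m * x ^ 3 + m ^ 2 * x * z * p - m ^ 2 * x ^ 2 * p, ?_⟩,
    ⟨-p + x * z - x ^ 2 - m * x * p + m * x * y * z + m * x ^ 2 * z - m * x ^ 2 * y - m * x ^ 3 - m ^ 2 * y * z * p - m ^ 2 * x * z * p + m ^ 2 * x * y * z ^ 2 + m ^ 2 * x ^ 2 * z ^ 2 - 2 * m ^ 2 * x ^ 2 * y * z - 2 * m ^ 2 * x ^ 3 * z + m ^ 2 * x ^ 3 * y + m ^ 2 * x ^ 4 - m ^ 3 * x * y * z * p - m ^ 3 * x ^ 2 * z * p + m ^ 3 * x ^ 2 * y * p + m ^ 3 * x ^ 3 * p, ?_⟩⟩ <;>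
  · simp only [S2.mul_a, S2.mul_b, S2.mul_c, S2.mul_d, S2.inv_a, S2.inv_b, S2.inv_c, S2.inv_d,
      e12_a, e12_b, e12_c, e12_d, e21_a, e21_b, e21_c, e21_d, ea, ed, hy, hz, Nat.cast_pow]
    ring

end Pool.Agent.Lib.CSL
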