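import Pool.Agent.Lib.MP_240120_ag.CS.Def
import Pool.Agent.Lib.MP_240120_ag.CS.Bas
import Pool.Agent.Lib.MP_240120_ag.CS.IntA
import Pool.Agent.Lib.MP_240120_ag.CS.Dir
import Pool.Agent.Lib.MP_240120_ag.CS.Sa1

/-!
# CS / Sa2 (75 minutes): strong approximation (SA): G(m) is contained in G(q) E(m)

First `X ∈ G D (m^2)`. `int_row`: first row `(a, m B)`, `N(m B) ≠ 0`. `dir` with `R0 = |N(mB)|`: a prime `a' = p > q`, `p ≡ a`; `t1`: `X1 = X e`, first row `(p, m B)`, `p` prime to `q`, `p ≡ 1 mod m`; `X1 ∈ G D m`. Choose integers `b` with `p b ≡ 1 mod q`,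
`b ≡ 1 mod m` (`p` is prime to `m q`: take `p b ≡ 1 mod m q`). `z := -(b B)`: `X2 = X1 * e12 (m z)` has `X2.b = m B (1 - p b) ≡ 0 mod q`. `X2.c = m C'`; `X3 = e21 (m y) * X2`, `y = -(b C')`, `X3.c = m C' (1 - p b) ≡ 0 mod q`, `X3.b ≡ 0`, `X3.a = p`, so
`p X3.d ≡ 1`, `X3.d ≡ b mod q`. `T := e21 (b-1) * e12 1 * e21 (p-1) * e12 (-b)` has the entries `p, 1 - p b, p b - 1, b + (1 - p b) b ...` (compute; all `≡ diag(p, b) mod q`) and `T = e21 (b-1) * (e12 1 * e21 (p-1) * (e12 1)⁻¹) * e12 (1-b) ∈ E D m`.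
`X3 T⁻¹ ∈ G D q`. Everything multiplied on the left can be moved to the right (`E` normal: `e X = X (X⁻¹ e X)`).
`sa`: `sa1`, then the first part.
-/

set_option autoImplicit false
set_option linter.unusedSimpArgs false

namespace Pool.Agent.Lib.CSL

private theorem sa2_quot {D : ℤ} {q : ℕ} {X Y : S2 (ℤ√D)} (ha : (q : ℤ√D) ∣ X.a - Y.a)
    (hb : (q : ℤ√D) ∣ X.b - Y.b) (hc : (q : ℤ√D) ∣ X.c - Y.c) (hd : (q : ℤ√D) ∣ X.d - Y.d) :
    X * Y⁻¹ ∈ G D q := by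
  obtain ⟨x, hx⟩ := ha
  obtain ⟨y, hy⟩ := hb
  obtain ⟨z, hz⟩ := hc
  obtain ⟨w, hw⟩ := hd
  refine ⟨⟨x * Y.d - y * Y.c, ?_⟩, ⟨y * Y.a - x * Y.b, ?_⟩, ⟨z * Y.d - w * Y.c, ?_⟩,
    ⟨w * Y.a - z * Y.b, ?_⟩⟩
  · simp only [S2.mul_a, S2.inv_a, S2.inv_c]
    linear_combination Y.d * hx - Y.c * hy + Y.h
  · simp only [S2.mul_b, S2.inv_b, S2.inv_d]
    linear_combination Y.a * hy - Y.b * hx
  · simp only [S2.mul_c, S2.inv_a, S2.inv_c]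
    linear_combination Y.d * hz - Y.c * hw
  · simp only [S2.mul_d, S2.inv_b, S2.inv_d]
    linear_combination Y.a * hw - Y.b * hz + Y.h

private theorem sa2_cast {D : ℤ} {n : ℕ} {x : ℤ} (h : (n : ℤ√D) ∣ (x : ℤ√D)) : (n : ℤ) ∣ x := by
  have h1 : ((n : ℤ) : ℤ√D) ∣ (x : ℤ√D) := by
    rwa [Int.cast_natCast]
  exact (Zsqrtd.intCast_dvd_intCast _ _).1 h1

theorem sa2 {D : ℤ} (hD : ∀ n : ℤ, D ≠ n * n) {m : ℕ} (hm : 2 ≤ m) {q : ℕ} (hq : 0 < q) {X : S2 (ℤ√D)} (hX : X ∈ G D (m ^ 2)) :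
    ∃ e ∈ E D m, X * e ∈ G D q := by
  obtain ⟨e0, he0, a, B, hB, h1, h2, -⟩ := int_row hm hX
  have hXm : X ∈ G D m := G_anti (dvd_pow_self m two_ne_zero) hX
  have hcop := row_cop (X * e0) a h1
  have hn0 : (X * e0).b.norm ≠ 0 := by
    rw [h2, Zsqrtd.norm_mul, Zsqrtd.norm_natCast]
    intro h3
    rcases mul_eq_zero.1 h3 with h4 | h4
    · have h5 : (m : ℤ) = 0 := mul_self_eq_zero.1 h4
      omega
    · rw [Zsqrtd.norm_eq_zero hD] at h4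
      rw [h4] at hB
      obtain ⟨u, v, huv⟩ := hB
      simp at huv
  obtain ⟨p, hp, hpn, hpa⟩ := dir (X * e0).b.norm.natAbs (Int.natAbs_pos.2 hn0) a (by
    rw [Int.isCoprime_iff_gcd_eq_one] at hcop ⊢
    rw [← hcop]
    simp only [Int.gcd, Int.natCast_natAbs, Int.natAbs_abs]) (q * m)
  obtain ⟨j, hj⟩ : ∃ j : ℤ, (p : ℤ) = a + j * (X * e0).b.norm := by
    have h3 : (X * e0).b.norm ∣ (p : ℤ) - a := by
      have h4 := (Int.modEq_iff_dvd.1 hpa.symm)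
      rwa [Int.natCast_natAbs, abs_dvd] at h4
    obtain ⟨j, hj⟩ := h3
    exact ⟨j, by linear_combination hj⟩
  obtain ⟨t1a, t1b⟩ := t1 (X * e0) a h1 j
  rw [← hj] at t1a
  have hmb : (m : ℤ√D) ∣ (X * e0).b := by
    rw [h2]
    exact dvd_mul_right _ _
  obtain ⟨e1, he1⟩ : ∃ e1, e1 = e0 * e21 (j * star (X * e0).b) := ⟨_, rfl⟩
  have he1E : e1 ∈ E D m := by
    rw [he1]
    exact (E D m).mul_mem he0 (e21_E ((star_dvd hmb).mul_left _))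
  rw [mul_assoc, ← he1] at t1a t1b
  rw [h2] at t1b
  have hX1 : X * e1 ∈ G D m := (G D m).mul_mem hXm (E_le_G D m he1E)
  -- arithmetic
  have hqm : 0 < q * m := Nat.mul_pos hq (by omega)
  have hpc : Nat.Coprime p (q * m) := by
    rw [Nat.Prime.coprime_iff_not_dvd hp]
    intro h5
    exact absurd (Nat.le_of_dvd hqm h5) (not_le.2 hpn)
  obtain ⟨b, c, hbc⟩ : ∃ b c : ℤ, b * p + c * (q * m) = 1 := by
    have h5 := Nat.isCoprime_iff_coprime.2 hpc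
    obtain ⟨b, c, h6⟩ := h5
    exact ⟨b, c, by rw [← h6]; push_cast; ring⟩
  have hmp : (m : ℤ) ∣ (p : ℤ) - 1 := by
    apply sa2_cast (D := D)
    have h5 := hX1.1
    rw [t1a] at h5
    simpa using h5
  obtain ⟨p1, hp1⟩ := hmp
  have hmb1 : (m : ℤ) ∣ b - 1 := by
    refine ⟨- (b * p1) - c * q, ?_⟩
    linear_combination hbc - b * hp1
  obtain ⟨C', hC'⟩ := hX1.2.2.1
  obtain ⟨X1, hX1d⟩ : ∃ X1, X1 = X * e1 := ⟨_, rfl⟩
  rw [← hX1d] at t1a t1b hX1 hC'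
  obtain ⟨X3, hX3⟩ : ∃ X3, X3 = e21 ((m : ℤ√D) * (-(b * C'))) * (X1 * e12 ((m : ℤ√D) * (-(b * B)))) :=
    ⟨_, rfl⟩
  have hbc' : (b : ℤ√D) * (p : ℤ√D) + (c : ℤ√D) * ((q : ℤ√D) * (m : ℤ√D)) = 1 := by
    have := congrArg (Int.cast : ℤ → ℤ√D) hbc
    push_cast at this
    exact this
  have t1a' : X1.a = (p : ℤ√D) := by rw [t1a]; simp
  have hXa : X3.a = p := by
    rw [hX3]
    simp only [S2.mul_a, S2.mul_b, S2.mul_c, S2.mul_d, e12_a, e12_b, e12_c, e12_d, e21_a, e21_b, e21_c, e21_d]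
    linear_combination t1a'
  have hXb : X3.b = (q : ℤ√D) * (c * m * (m * B)) := by
    rw [hX3]
    simp only [S2.mul_a, S2.mul_b, S2.mul_c, S2.mul_d, e12_a, e12_b, e12_c, e12_d, e21_a, e21_b, e21_c, e21_d]
    linear_combination (-(m * b * B)) * t1a' + t1b - m * B * hbc'
  have hXc : X3.c = (q : ℤ√D) * (c * m * (m * C')) := by
    rw [hX3]
    simp only [S2.mul_a, S2.mul_b, S2.mul_c, S2.mul_d, e12_a, e12_b, e12_c, e12_d, e21_a, e21_b, e21_c, e21_d]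
    linear_combination (-(m * b * C')) * t1a' + hC' - m * C' * hbc'
  obtain ⟨T, hT⟩ : ∃ T : S2 (ℤ√D), T = e21 ((b : ℤ√D) - 1) * (e12 1 * e21 ((p : ℤ√D) - 1) * (e12 1)⁻¹) * e12 (1 - (b : ℤ√D)) :=
    ⟨_, rfl⟩
  have hTE : T ∈ E D m := by
    have g1 : (m : ℤ√D) ∣ (b : ℤ√D) - 1 := by
      obtain ⟨u, hu⟩ := hmb1
      refine ⟨u, ?_⟩
      have := congrArg (Int.cast : ℤ → ℤ√D) hu
      push_cast at this
      exact this
    have g2 : (m : ℤ√D) ∣ (p : ℤ√D) - 1 := by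
      refine ⟨p1, ?_⟩
      have := congrArg (Int.cast : ℤ → ℤ√D) hp1
      push_cast at this
      exact this
    have g3 : (m : ℤ√D) ∣ 1 - (b : ℤ√D) := by
      rw [← neg_sub]
      exact (dvd_neg).2 g1
    rw [hT]
    exact (E D m).mul_mem ((E D m).mul_mem (e21_E g1) ((E_normal D m).conj_mem _ (e21_E g2) _)) (e12_E g3)
  have hTa : T.a = p := by
    rw [hT]
    simp only [S2.mul_a, S2.mul_b, S2.mul_c, S2.mul_d, S2.inv_a, S2.inv_b, S2.inv_c, S2.inv_d, e12_a, e12_b, e12_c, e12_d, e21_a, e21_b, e21_c, e21_d]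
    ring
  have hTb : T.b = 1 - b * p := by
    rw [hT]
    simp only [S2.mul_a, S2.mul_b, S2.mul_c, S2.mul_d, S2.inv_a, S2.inv_b, S2.inv_c, S2.inv_d, e12_a, e12_b, e12_c, e12_d, e21_a, e21_b, e21_c, e21_d]
    ring
  have hTc : T.c = b * p - 1 := by
    rw [hT]
    simp only [S2.mul_a, S2.mul_b, S2.mul_c, S2.mul_d, S2.inv_a, S2.inv_b, S2.inv_c, S2.inv_d, e12_a, e12_b, e12_c, e12_d, e21_a, e21_b, e21_c, e21_d]
    ring
  have hTd : T.d = b * (2 - b * p) := by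
    rw [hT]
    simp only [S2.mul_a, S2.mul_b, S2.mul_c, S2.mul_d, S2.inv_a, S2.inv_b, S2.inv_c, S2.inv_d, e12_a, e12_b, e12_c, e12_d, e21_a, e21_b, e21_c, e21_d]
    ring
  have hfin : X3 * T⁻¹ ∈ G D q := by
    refine sa2_quot ⟨0, by rw [hXa, hTa]; ring⟩
      ⟨c * m * (m * B) - c * m, ?_⟩ ⟨c * m * (m * C') + c * m, ?_⟩
      ⟨(b * (c * m * (m * B)) * X3.c) + c * m * X3.d - b * (c * m), ?_⟩
    · rw [hXb, hTb]
      linear_combination hbc'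
    · rw [hXc, hTc]
      linear_combination -hbc'
    · rw [hTd]
      have h7 := X3.h
      rw [hXa, hXb] at h7
      linear_combination b * h7 - (X3.d - b) * hbc'
  refine ⟨(X⁻¹ * e21 ((m : ℤ√D) * (-(b * C'))) * X⁻¹⁻¹) * e1 * e12 ((m : ℤ√D) * (-(b * B))) * T⁻¹,
    ?_, ?_⟩
  · refine (E D m).mul_mem ((E D m).mul_mem ((E D m).mul_mem ?_ he1E) (e12_E (dvd_mul_right _ _)))
      ((E D m).inv_mem hTE)
    exact (E_normal D m).conj_mem _ (e21_E (dvd_mul_right _ _)) _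
  · have h8 : X * ((X⁻¹ * e21 ((m : ℤ√D) * (-(b * C'))) * X⁻¹⁻¹) * e1 * e12 ((m : ℤ√D) * (-(b * B))) * T⁻¹)
        = X3 * T⁻¹ := by
      rw [hX3, hX1d, inv_inv]
      group
    rw [h8]
    exact hfin

theorem sa {D : ℤ} (hD : ∀ n : ℤ, D ≠ n * n) {m : ℕ} (hm : 2 ≤ m) {q : ℕ} (hq : 0 < q) {X : S2 (ℤ√D)} (hX : X ∈ G D m) :
    ∃ e ∈ E D m, X * e ∈ G D q := by
  obtain ⟨e, he, h1⟩ := sa1 hX
  obtain ⟨e', he', h2⟩ := sa2 hD hm hq h1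
  exact ⟨e * e', (E D m).mul_mem he he', by rwa [← mul_assoc]⟩

end Pool.Agent.Lib.CSL
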