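import Pool.Agent.Lib.MP_240120_ag.CS.Def
import Pool.Agent.Lib.MP_240120_ag.CS.Den
import Pool.Agent.Lib.MP_240120_ag.CS.Sa2
import Pool.Agent.Lib.MP_240120_ag.CS.Goo

/-!
# CS / Cen (60 minutes): CEN and DR of CS_TEXT.md

`cen`: `im X ∈ Good`: for `h = 1` there is `q`. `sa hD hm hq hY`: `e ∈ E D m`, `Y' := Y e ∈ G D q`, `Y = Y' e⁻¹`. `X Y X⁻¹ Y⁻¹ = (X Y' X⁻¹ Y'⁻¹) * (Y' (X e⁻¹ X⁻¹ e) Y'⁻¹)`; the first factor is in `N` (as an image), the second is in `E D m` (`E_comm`, normal), so its image is in `N`.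
`drr`: `g : S2 (KD D) := ⟨io r, 0, 0, (io r)⁻¹, _⟩` (`io r ≠ 0`), in `Good`, `h = 1`: `q`. `g * im Z * g⁻¹ = im Z'` (entrywise; `Z'.c = r⁻² Z.c`).
-/

set_option autoImplicit false

namespace Pool.Agent.Lib.CSL

theorem cen {D : ℤ} (hD : ∀ n : ℤ, D ≠ n * n) (N : Subgroup (S2 (KD D))) (hg : Good D N = ⊤) {m : ℕ} (hm : 2 ≤ m)
    (hmN : ∀ e ∈ E D m, im D e ∈ N) (X : S2 (ℤ√D)) {Y : S2 (ℤ√D)} (hY : Y ∈ G D m) : im D (X * Y * X⁻¹ * Y⁻¹) ∈ N := by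
  have hX : im D X ∈ Good D N := by rw [hg]; trivial
  obtain ⟨q, hq, h1⟩ := hX 1
  obtain ⟨e, he, hYe⟩ := sa hD hm hq hY
  have h2 := h1 _ hYe
  have h3 : im D (X * (Y * e) * X⁻¹ * (Y * e)⁻¹) ∈ N := by
    have h4 : im D (X * (Y * e) * X⁻¹ * (Y * e)⁻¹) =
        1 * (im D X * im D (Y * e) * (im D X)⁻¹ * (im D (Y * e))⁻¹) * 1⁻¹ := by
      rw [map_mul (im D), map_mul (im D), map_mul (im D), map_inv, map_inv, one_mul, inv_one,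
        mul_one]
    rw [h4]; exact h2
  have h5 : (Y * e) * (X * e⁻¹ * X⁻¹ * e⁻¹⁻¹) * (Y * e)⁻¹ ∈ E D m :=
    (E_normal D m).conj_mem _ (E_comm X ((E D m).inv_mem he)) _
  have h6 : X * Y * X⁻¹ * Y⁻¹ = (X * (Y * e) * X⁻¹ * (Y * e)⁻¹) *
      ((Y * e) * (X * e⁻¹ * X⁻¹ * e⁻¹⁻¹) * (Y * e)⁻¹) := by group
  rw [h6, map_mul]
  exact N.mul_mem h3 (hmN _ h5)

theorem drr {D : ℤ} [Fact (∀ r : ℚ, r ^ 2 ≠ (D : ℚ) + 0 * r)] (N : Subgroup (S2 (KD D))) (hg : Good D N = ⊤) (r : ℤ√D) (hr : r ≠ 0) :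
    ∃ q : ℕ, 0 < q ∧ ∀ Z ∈ G D q, ∀ Z' : S2 (ℤ√D), Z'.a = Z.a → Z'.d = Z.d → Z'.b = r ^ 2 * Z.b → r ^ 2 * Z'.c = Z.c →
      im D (Z' * Z⁻¹) ∈ N := by
  have hρ : io D r ≠ 0 := by
    intro h0
    apply hr
    apply io_inj D
    rw [h0, map_zero]
  have hdet : io D r * (io D r)⁻¹ = 1 := mul_inv_cancel₀ hρ
  have hdet' : (io D r)⁻¹ * io D r = 1 := inv_mul_cancel₀ hρ
  set g : S2 (KD D) := dg (io D r) (io D r)⁻¹ hdet with hgd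
  have hG : g ∈ Good D N := by rw [hg]; trivial
  obtain ⟨q, hq, h1⟩ := hG 1
  refine ⟨q, hq, fun Z hZ Z' ha hd hb hc => ?_⟩
  have h2 := h1 Z hZ
  have h3 : im D Z' = g * im D Z * g⁻¹ := by
    have hb' := congrArg (io D) hb
    have hc' := congrArg (io D) hc
    rw [map_mul, map_pow] at hb' hc'
    refine S2.ext ?_ ?_ ?_ ?_
    · simp only [S2.mul_a, S2.mul_b, S2.inv_a, S2.inv_b, S2.inv_c, S2.inv_d, hgd, dg_a, dg_b, dg_c,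
        dg_d, S2.map_a, S2.map_b, S2.map_c, S2.map_d, ha]
      linear_combination (-(io D Z.a)) * hdet
    · simp only [S2.mul_a, S2.mul_b, S2.inv_a, S2.inv_b, S2.inv_c, S2.inv_d, hgd, dg_a, dg_b, dg_c,
        dg_d, S2.map_a, S2.map_b, S2.map_c, S2.map_d]
      linear_combination hb'
    · simp only [S2.mul_c, S2.mul_d, S2.inv_a, S2.inv_b, S2.inv_c, S2.inv_d, hgd, dg_a, dg_b, dg_c,
        dg_d, S2.map_a, S2.map_b, S2.map_c, S2.map_d]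
      rw [← hc']
      linear_combination (-(io D Z'.c) * (io D r * (io D r)⁻¹ + 1)) * hdet
    · simp only [S2.mul_c, S2.mul_d, S2.inv_a, S2.inv_b, S2.inv_c, S2.inv_d, hgd, dg_a, dg_b, dg_c,
        dg_d, S2.map_a, S2.map_b, S2.map_c, S2.map_d, hd]
      linear_combination (-(io D Z.d)) * hdet
  rw [map_mul, map_inv, h3]
  rw [one_mul, inv_one, mul_one] at h2
  exact h2

end Pool.Agent.Lib.CSL
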