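import Pool.Agent.Lib.MP_240120_ag.CS.Def

/-!
# CS / Eta (60 minutes): units of ℤ√D near 1 (Pell)

`Pell.exists_of_not_isSquare` (`Mathlib/NumberTheory/Pell.lean`) for `d = D * n^2`: `x^2 - D n^2 y^2 = 1`, `y ≠ 0`. `w := ⟨x, n y⟩`, `N(w) = 1`. `u := w^2`, `v := (star w)^2`, `u v = 1`. `u = ⟨x^2 + D n^2 y^2, 2 x n y⟩`, `x^2 - 1 = D n^2 y^2`: `n ∣ u - 1` (`Zsqrtd.intCast_dvd`).
`u^2 ≠ 1`: `u.im = 2 x n y ≠ 0` (`x ≠ 0`), `(u^2).im = 2 u.re u.im`, `u.re = 1 + 2 D n^2 y^2 > 0`, so `(u^2).im ≠ 0`.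
-/

set_option autoImplicit false

namespace Pool.Agent.Lib.CSL

theorem eta {D : ℤ} (h0 : 0 < D) (hD : ∀ n : ℤ, D ≠ n * n) {n : ℕ} (hn : 0 < n) :
    ∃ u v : ℤ√D, u * v = 1 ∧ (n : ℤ√D) ∣ u - 1 ∧ u ^ 2 ≠ 1 := by
  have hn' : (0 : ℤ) < n := by exact_mod_cast hn
  have hd : 0 < D * (n : ℤ) ^ 2 := by positivity
  have hns : ¬ IsSquare (D * (n : ℤ) ^ 2) := by
    rintro ⟨k, hk⟩
    have h1 : (n : ℤ) ^ 2 ∣ k ^ 2 := ⟨D, by rw [pow_two k, ← hk]; ring⟩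
    have h2 : (n : ℤ) ∣ k := (Int.pow_dvd_pow_iff two_ne_zero).1 h1
    obtain ⟨l, rfl⟩ := h2
    have h3 : (n : ℤ) ^ 2 ≠ 0 := by positivity
    apply hD l
    apply mul_right_cancel₀ h3
    rw [hk]
    ring
  obtain ⟨x, y, hxy, hy⟩ := Pell.exists_of_not_isSquare hd hns
  refine ⟨⟨x ^ 2 + D * n ^ 2 * y ^ 2, 2 * x * n * y⟩, ⟨x ^ 2 + D * n ^ 2 * y ^ 2, -(2 * x * n * y)⟩,
    ?_, ⟨⟨2 * D * n * y ^ 2, 2 * x * y⟩, ?_⟩, ?_⟩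
  · ext
    · simp only [Zsqrtd.re_mul, Zsqrtd.re_one]
      linear_combination (x ^ 2 - D * n ^ 2 * y ^ 2 + 1) * hxy
    · simp only [Zsqrtd.im_mul, Zsqrtd.im_one]
      ring
  · ext
    · simp only [Zsqrtd.re_sub, Zsqrtd.re_one, Zsqrtd.re_mul, Zsqrtd.re_natCast, Zsqrtd.im_natCast]
      linear_combination hxy
    · simp only [Zsqrtd.im_sub, Zsqrtd.im_one, Zsqrtd.im_mul, Zsqrtd.re_natCast, Zsqrtd.im_natCast]
      ring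
  · intro h
    have h1 := congrArg Zsqrtd.im h
    rw [pow_two] at h1
    simp only [Zsqrtd.im_mul, Zsqrtd.im_one] at h1
    have hy2 : 0 < D * (n : ℤ) ^ 2 * y ^ 2 := by positivity
    have hx : x ≠ 0 := by
      rintro rfl
      nlinarith
    have h2 : 0 < x ^ 2 + D * n ^ 2 * y ^ 2 := by positivity
    have h3 : (x ^ 2 + D * n ^ 2 * y ^ 2) * (2 * x * n * y) = 0 := by linarith
    rcases mul_eq_zero.1 h3 with h4 | h4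
    · exact h2.ne' h4
    · have h5 : 2 * x * n * y ≠ 0 := mul_ne_zero (mul_ne_zero (mul_ne_zero two_ne_zero hx) hn'.ne') hy
      exact h5 h4

end Pool.Agent.Lib.CSL
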