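import Pool.Agent.Lib.MP_240120_ag.CS.Def

/-!
# CS / SDef: the symbol: definitions (no open statement)
-/

set_option autoImplicit false

namespace Pool.Agent.Lib.CSL

/-- The hypotheses on the character `χ` of `G D m` (part C of CS_TEXT.md). -/
structure Dat (D : ℤ) (m : ℕ) (c : ℤ) {A : Type} [CommGroup A] (χ : G D m →* A) : Prop where
  D0 : 0 < D
  hD : ∀ n : ℤ, D ≠ n * n
  c0 : c < 0
  m0 : 0 < m
  md : 4 * D * c ∣ (m : ℤ)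
  eE : ∀ (e : S2 (ℤ√D)) (h : e ∈ G D m), e ∈ E D m → χ ⟨e, h⟩ = 1
  dr : ∀ r : ℤ√D, r ≠ 0 → ∃ q : ℕ, 0 < q ∧ ∀ (Z : S2 (ℤ√D)) (hZ : Z ∈ G D m) (Z' : S2 (ℤ√D)) (hZ' : Z' ∈ G D m), Z ∈ G D q →
    Z'.a = Z.a → Z'.d = Z.d → Z'.b = r ^ 2 * Z.b → r ^ 2 * Z'.c = Z.c → χ ⟨Z', hZ'⟩ = χ ⟨Z, hZ⟩
  sp : ∀ (a d : ℤ) (b : ℤ√D) (X : S2 (ℤ√D)) (hX : X ∈ G D m), X.a = a → X.b = b → X.c = -c * star b → X.d = d → χ ⟨X, hX⟩ = 1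

/-- admissible rows -/
def Vd (D : ℤ) (m : ℕ) (a : ℤ) (B : ℤ√D) : Prop := (m : ℤ) ^ 2 ∣ a - 1 ∧ (m : ℤ√D) ∣ B ∧ IsCoprime a B.norm

open Classical in
/-- the symbol: the value of `χ` on a matrix with first row `(a, B)` -/
noncomputable def sy {D : ℤ} {m : ℕ} {A : Type} [CommGroup A] (χ : G D m →* A) (a : ℤ) (B : ℤ√D) : A :=
  if h : ∃ X : G D m, X.1.a = a ∧ X.1.b = B then χ h.choose else 1

end Pool.Agent.Lib.CSL
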