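import Pool.Agent.Lib.MP_240120_ag.CS.Def
import Pool.Agent.Lib.MP_240120_ag.CS.Bas
import Pool.Agent.Lib.MP_240120_ag.CS.SDef

/-!
# CS / Sy0 (60 minutes): the symbol is well defined, rows can be completed

`ex_row`: `P := m * N(B) * N(r)^2` is prime to `a` (`a ≡ 1 mod m`): `u a + v P = 1`. `X := ⟨a, B, -(v m star B N(r)^2), u, _⟩`: `a u + B star B v m N(r)^2 = a u + v P = 1`. `N(r) = r star r` gives `X.c = m r^2 C` with `C = -(v star B (star r)^2)`. `m ∣ P`, so `u a ≡ 1`, `u ≡ 1 mod m`.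
`sy_eq`: the chosen `X'` and `X` have the same first row, `row_eq`: `X' = e21 (m z) X`, `χ (e21 ..) = 1` (`eE`).
-/

set_option autoImplicit false

namespace Pool.Agent.Lib.CSL

variable {D : ℤ} {m : ℕ} {c : ℤ} {A : Type} [CommGroup A] {χ : G D m →* A}

theorem ex_row {a : ℤ} {B : ℤ√D} (hV : Vd D m a B) (r : ℤ√D) (hr : IsCoprime a r.norm) :
    ∃ X ∈ G D m, X.a = a ∧ X.b = B ∧ ∃ C : ℤ√D, X.c = m * r ^ 2 * C := by
  obtain ⟨h1, h2, h3⟩ := hV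
  have hm : (m : ℤ) ∣ a - 1 := (dvd_pow_self (m : ℤ) two_ne_zero).trans h1
  have ham : IsCoprime a (m : ℤ) := by
    obtain ⟨k, hk⟩ := hm
    exact ⟨1, -k, by linear_combination hk⟩
  have hP : IsCoprime a ((m : ℤ) * B.norm * r.norm ^ 2) := (ham.mul_right h3).mul_right hr.pow_right
  obtain ⟨u, v, huv⟩ := hP
  have hB : ((B.norm : ℤ) : ℤ√D) = B * star B := Zsqrtd.norm_eq_mul_conj B
  have hR : ((r.norm : ℤ) : ℤ√D) = r * star r := Zsqrtd.norm_eq_mul_conj r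
  have huv' : (u : ℤ√D) * (a : ℤ√D) + (v : ℤ√D) * ((m : ℤ√D) * ((B.norm : ℤ) : ℤ√D) * ((r.norm : ℤ) : ℤ√D) ^ 2) = 1 := by
    have := congrArg (fun t : ℤ => (t : ℤ√D)) huv
    push_cast at this
    exact this
  rw [hB, hR] at huv'
  refine ⟨⟨(a : ℤ√D), B, m * r ^ 2 * (-((v : ℤ√D) * star B * (star r) ^ 2)), (u : ℤ√D), ?_⟩, ?_, rfl, rfl, ⟨_, rfl⟩⟩
  · linear_combination huv'
  · refine ⟨?_, h2, ?_, ?_⟩
    · obtain ⟨k, hk⟩ := hm
      refine ⟨(k : ℤ√D), ?_⟩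
      have := congrArg (fun t : ℤ => (t : ℤ√D)) hk
      push_cast at this
      exact this
    · exact ⟨r ^ 2 * (-((v : ℤ√D) * star B * (star r) ^ 2)), by ring⟩
    · obtain ⟨k, hk⟩ := hm
      have hk' : (a : ℤ√D) - 1 = (m : ℤ√D) * (k : ℤ√D) := by
        have := congrArg (fun t : ℤ => (t : ℤ√D)) hk
        push_cast at this
        exact this
      refine ⟨-((v : ℤ√D) * (B * star B) * (r * star r) ^ 2) - u * k, ?_⟩
      show (u : ℤ√D) - 1 = _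
      linear_combination huv' - (u : ℤ√D) * hk'

theorem sy_eq (H : Dat D m c χ) {a : ℤ} {B : ℤ√D} (X : G D m) (ha : X.1.a = a) (hb : X.1.b = B) : sy χ a B = χ X := by
  have hex : ∃ X : G D m, X.1.a = a ∧ X.1.b = B := ⟨X, ha, hb⟩
  unfold sy
  rw [dif_pos hex]
  have hs := hex.choose_spec
  generalize hex.choose = Y at hs
  obtain ⟨hYa, hYb⟩ := hs
  obtain ⟨z, hz⟩ := row_eq Y.2 X.2 (hYa.trans ha.symm) (hYb.trans hb.symm)
  have hE : e21 ((m : ℤ√D) * z) ∈ E D m := e21_E ⟨z, rfl⟩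
  have hG : e21 ((m : ℤ√D) * z) ∈ G D m := E_le_G D m hE
  have hY : Y = ⟨e21 ((m : ℤ√D) * z), hG⟩ * X := Subtype.ext hz
  rw [hY, map_mul, H.eE _ hG hE, one_mul]

end Pool.Agent.Lib.CSL
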