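import Pool.Agent.Lib.MP_240120_ag.CS.Def
import Pool.Agent.Lib.MP_240120_ag.CS.Bas
import Pool.Agent.Lib.MP_240120_ag.CS.SDef
import Pool.Agent.Lib.MP_240120_ag.CS.Sy0

/-!
# CS / Sy1 (75 minutes): the symbol: elementary rules

All by `sy_eq`, `ex_row` (with `r = 1`), `eE`. `sy_t1`: `X` with row `(a, B)`, `X * e21 (j star B)` (`t1`, `star_dvd`). Admissibility: `m^2 ∣ N(B)` (`ndvd`). `sy_t2`: `X * e12 (m z)` has the row `(a, B + a (m z))`; `IsCoprime a N(B + a w)`: `N(B + a w) ≡ N(B) mod a`, or `row_cop`.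
`sy_mod`: `B' = B + a (m z)`: `B' - B` is divisible by `a` and by `m`, which are coprime integers, so by `a m`. `sy_cg`: `a' ≡ a mod N(B)` (in the form `N(B) ∣ a' - a`), `sy_t1`.
`sy_m`: `a = 1 + m^2 k`: by `sy_t1` (`N(±m) = m^2`) the symbol is `sy 1 (±m)`, the value on `e12 (±m)`, which is `1`.
-/

set_option autoImplicit false

namespace Pool.Agent.Lib.CSL

variable {D : ℤ} {m : ℕ} {c : ℤ} {A : Type} [CommGroup A] {χ : G D m →* A}

private theorem cop_one (a : ℤ) : IsCoprime a (1 : ℤ√D).norm := by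
  rw [Zsqrtd.norm_one]
  exact isCoprime_one_right

private theorem ex1 {a : ℤ} {B : ℤ√D} (hV : Vd D m a B) : ∃ X ∈ G D m, X.a = a ∧ X.b = B := by
  obtain ⟨X, hX, ha, hb, -⟩ := ex_row hV 1 (cop_one a)
  exact ⟨X, hX, ha, hb⟩

private theorem chi_mul (H : Dat D m c χ) {X e : S2 (ℤ√D)} (hX : X ∈ G D m) (he : e ∈ E D m)
    (h : X * e ∈ G D m) : χ ⟨X * e, h⟩ = χ ⟨X, hX⟩ := by
  have h1 : (⟨X * e, h⟩ : G D m) = ⟨X, hX⟩ * ⟨e, E_le_G D m he⟩ := rfl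
  rw [h1, map_mul, H.eE e (E_le_G D m he) he, mul_one]

theorem sy_t1 (H : Dat D m c χ) {a : ℤ} {B : ℤ√D} (hV : Vd D m a B) (j : ℤ) :
    Vd D m (a + j * B.norm) B ∧ sy χ (a + j * B.norm) B = sy χ a B := by
  have hN : (m : ℤ) ^ 2 ∣ B.norm := ndvd hV.2.1
  refine ⟨⟨?_, hV.2.1, hV.2.2.add_mul_right_left j⟩, ?_⟩
  · have e : a + j * B.norm - 1 = (a - 1) + j * B.norm := by ring
    rw [e]
    exact dvd_add hV.1 (hN.mul_left j)
  · obtain ⟨X, hX, ha, hb⟩ := ex1 hV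
    have hE : e21 ((j : ℤ√D) * star X.b) ∈ E D m := by
      rw [hb]
      exact e21_E ((star_dvd hV.2.1).mul_left _)
    have hX' : X * e21 ((j : ℤ√D) * star X.b) ∈ G D m := (G D m).mul_mem hX (E_le_G D m hE)
    obtain ⟨h1, h2⟩ := t1 X a ha j
    have h3 := sy_eq H (a := a + j * B.norm) (B := B) ⟨_, hX'⟩ (h1.trans (by rw [hb]))
      (h2.trans hb)
    rw [h3, chi_mul H hX hE hX', sy_eq H ⟨X, hX⟩ ha hb]

theorem sy_cg (H : Dat D m c χ) {a a' : ℤ} {B : ℤ√D} (hV : Vd D m a B) (h : B.norm ∣ a' - a) : Vd D m a' B ∧ sy χ a' B = sy χ a B := by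
  obtain ⟨j, hj⟩ := h
  have e : a' = a + j * B.norm := by linarith
  rw [e]
  exact sy_t1 H hV j

theorem sy_t2 (H : Dat D m c χ) {a : ℤ} {B : ℤ√D} (hV : Vd D m a B) (z : ℤ√D) :
    Vd D m a (B + a * (m * z)) ∧ sy χ a (B + a * (m * z)) = sy χ a B := by
  obtain ⟨X, hX, ha, hb⟩ := ex1 hV
  have hE : e12 ((m : ℤ√D) * z) ∈ E D m := e12_E (Dvd.intro _ rfl)
  have hX' : X * e12 ((m : ℤ√D) * z) ∈ G D m := (G D m).mul_mem hX (E_le_G D m hE)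
  have h1 : (X * e12 ((m : ℤ√D) * z)).a = a := by
    rw [S2.mul_a, e12_a, e12_c, ha]
    ring
  have h2 : (X * e12 ((m : ℤ√D) * z)).b = B + a * (m * z) := by
    rw [S2.mul_b, e12_b, e12_d, ha, hb]
    ring
  refine ⟨⟨hV.1, ?_, ?_⟩, ?_⟩
  · exact dvd_add hV.2.1 ((Dvd.intro _ rfl).mul_left _)
  · rw [← h2]
    exact row_cop _ a h1
  · rw [sy_eq H ⟨_, hX'⟩ h1 h2, chi_mul H hX hE hX', sy_eq H ⟨X, hX⟩ ha hb]

theorem sy_mod (H : Dat D m c χ) {a : ℤ} {B B' : ℤ√D} (hV : Vd D m a B) (hB' : (m : ℤ√D) ∣ B') (h : (a : ℤ√D) ∣ B' - B) :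
    Vd D m a B' ∧ sy χ a B' = sy χ a B := by
  have hc : IsCoprime a (m : ℤ) := by
    obtain ⟨k, hk⟩ := hV.1
    exact ⟨1, -(m * k), by linear_combination hk⟩
  have hc' : IsCoprime (a : ℤ√D) (m : ℤ√D) := by
    have h1 := hc.map (Int.castRingHom (ℤ√D))
    simpa using h1
  have hm : (m : ℤ√D) ∣ B' - B := dvd_sub hB' hV.2.1
  obtain ⟨z, hz⟩ := hc'.mul_dvd h hm
  have e : B' = B + a * (m * z) := by linear_combination hz
  rw [e]
  exact sy_t2 H hV z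

theorem sy_m (H : Dat D m c χ) {a : ℤ} (ha : (m : ℤ) ^ 2 ∣ a - 1) :
    (Vd D m a m ∧ sy χ a m = 1) ∧ (Vd D m a (-m) ∧ sy χ a (-m) = 1) := by
  have key : ∀ B : ℤ√D, (m : ℤ√D) ∣ B → B.norm = (m : ℤ) ^ 2 → Vd D m a B ∧ sy χ a B = 1 := by
    intro B hB hN
    have hV : Vd D m 1 B := ⟨by simp, hB, isCoprime_one_left⟩
    have hE : e12 B ∈ E D m := e12_E hB
    have h1 : sy χ 1 B = 1 := by
      rw [sy_eq H ⟨e12 B, E_le_G D m hE⟩ (by simp) (by simp)]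
      exact H.eE _ _ hE
    have h2 := sy_cg H (a' := a) hV (by rw [hN]; exact ha)
    exact ⟨h2.1, h2.2.trans h1⟩
  refine ⟨key _ dvd_rfl ?_, key _ (Dvd.intro (-1) (by ring)) ?_⟩
  · simp [Zsqrtd.norm_def]
    ring
  · simp [Zsqrtd.norm_def]
    ring

/-- multiplication of the second entry by `r ^ 2` keeps admissibility -/
theorem vd_sq {a : ℤ} {B : ℤ√D} (hV : Vd D m a B) {r : ℤ√D} (hr : IsCoprime a r.norm) : Vd D m a (r ^ 2 * B) := by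
  refine ⟨hV.1, hV.2.1.mul_left _, ?_⟩
  rw [pow_two, Zsqrtd.norm_mul, Zsqrtd.norm_mul]
  exact (hr.mul_right hr).mul_right hV.2.2

end Pool.Agent.Lib.CSL
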