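import Pool.Agent.Lib.MP_240120_ag.CS.Def
import Pool.Agent.Lib.MP_240120_ag.CS.Bas
import Pool.Agent.Lib.MP_240120_ag.CS.SDef
import Pool.Agent.Lib.MP_240120_ag.CS.Sy0
import Pool.Agent.Lib.MP_240120_ag.CS.Sy1

/-!
# CS / Sy2 (75 minutes): S0 of CS_TEXT.md

`q0` from `H.dr r`; `q := q0`. Let `B_i` be admissible, `i = 1, 2`. `ex_row` with `r`: `X_i ∈ G D m`, row `(a, B_i)`, `X_i.c = m r^2 C_i`. `b` integer with `a b ≡ 1 mod q`. `X_i* := e21 (m r^2 y_i) * X_i * e12 (m z_i)` with `B_i = m B_i'`, `z_i = -(b B_i')`, `y_i = -(b C_i)`: `X_i*.a = a + ..`. Careful: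
`X_i * e12 (m z_i)` has the row `(a, m B_i' (1 - a b))`, second entry `≡ 0 mod q`; then the left factor: first row unchanged, lower left entry `m r^2 C_i (1 - a b) ≡ 0`, so `X_i*` is `≡ diag(a, d_i) mod q` with `a d_i ≡ 1`, so `d_i ≡ b`. `Z := X_1* (X_2*)⁻¹ ∈ G D q` (entries: `a d_2 - b_1 c_2 ≡ 1` etc.).
`X_i' := ⟨a, r^2 B_i, m C_i, X_i.d, _⟩ ∈ G D m` is the conjugate of `X_i` by `d(r)`; `X_i'* := e21 (m y_i) * X_i' * e12 (m r^2 z_i)` the one of `X_i*`; `Z' := X_1'* (X_2'*)⁻¹`. The four relations between `Z'` and `Z` hold for `X_i'*`, `X_i*` and pass to products and inverses (polynomial identities).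
`H.dr`: `χ Z' = χ Z`; `χ X_i* = χ X_i = sy a B_i`, `χ X_i'* = χ X_i' = sy a (r^2 B_i)` (`eE`).
-/

set_option autoImplicit false

namespace Pool.Agent.Lib.CSL

variable {D : ℤ} {m : ℕ} {c : ℤ} {A : Type} [CommGroup A] {χ : G D m →* A}

private theorem chi_mul3 (H : Dat D m c χ) {e X e' : S2 (ℤ√D)} (he : e ∈ E D m) (hX : X ∈ G D m)
    (he' : e' ∈ E D m) (h : e * X * e' ∈ G D m) : χ ⟨e * X * e', h⟩ = χ ⟨X, hX⟩ := by
  have h1 : (⟨e * X * e', h⟩ : G D m) = ⟨e, E_le_G D m he⟩ * ⟨X, hX⟩ * ⟨e', E_le_G D m he'⟩ := rfl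
  rw [h1, map_mul, map_mul, H.eE e (E_le_G D m he) he, H.eE e' (E_le_G D m he') he', mul_one,
    one_mul]

/-- a pair of matrices, one the conjugate of the other by `d(r)`, diagonal modulo `q` -/
private theorem s0_one (H : Dat D m c χ) (r : ℤ√D) {q : ℕ} {a : ℤ} {B : ℤ√D}
    (hq : IsCoprime a (q : ℤ)) (hr : IsCoprime a r.norm) (hV : Vd D m a B) :
    ∃ P P' : G D m, P.1.a = a ∧ (q : ℤ√D) ∣ P.1.b ∧ (q : ℤ√D) ∣ P.1.c ∧ P'.1.a = P.1.a ∧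
      P'.1.d = P.1.d ∧ P'.1.b = r ^ 2 * P.1.b ∧ r ^ 2 * P'.1.c = P.1.c ∧ χ P = sy χ a B ∧
      χ P' = sy χ a (r ^ 2 * B) := by
  obtain ⟨X, hX, ha, hb, C, hc⟩ := ex_row hV r hr
  obtain ⟨b, v, hbv⟩ := hq
  have hbv' : (b : ℤ√D) * a + v * q = 1 := by exact_mod_cast congrArg (Int.cast : ℤ → ℤ√D) hbv
  obtain ⟨B', hB'⟩ := hV.2.1
  have hdet : (a : ℤ√D) * X.d - B * (m * r ^ 2 * C) = 1 := by
    rw [← ha, ← hb, ← hc]
    exact X.h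
  obtain ⟨hXa, hXb, hXc, hXd⟩ := hX
  have hX : X ∈ G D m := ⟨hXa, hXb, hXc, hXd⟩
  let X' : S2 (ℤ√D) := ⟨a, r ^ 2 * B, m * C, X.d, by linear_combination hdet⟩
  have hX' : X' ∈ G D m := by
    refine ⟨?_, hV.2.1.mul_left _, Dvd.intro _ rfl, hXd⟩
    show (m : ℤ√D) ∣ (a : ℤ√D) - 1
    rw [← ha]
    exact hXa
  have e1 : e21 ((m : ℤ√D) * (r ^ 2 * (-(b * C)))) ∈ E D m := e21_E (Dvd.intro _ rfl)
  have e2 : e12 ((m : ℤ√D) * (-(b * B'))) ∈ E D m := e12_E (Dvd.intro _ rfl)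
  have e3 : e21 ((m : ℤ√D) * (-(b * C))) ∈ E D m := e21_E (Dvd.intro _ rfl)
  have e4 : e12 ((m : ℤ√D) * (r ^ 2 * (-(b * B')))) ∈ E D m := e12_E (Dvd.intro _ rfl)
  have hP : e21 ((m : ℤ√D) * (r ^ 2 * (-(b * C)))) * X * e12 ((m : ℤ√D) * (-(b * B'))) ∈ G D m :=
    (G D m).mul_mem ((G D m).mul_mem (E_le_G D m e1) hX) (E_le_G D m e2)
  have hP' : e21 ((m : ℤ√D) * (-(b * C))) * X' * e12 ((m : ℤ√D) * (r ^ 2 * (-(b * B')))) ∈ G D m :=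
    (G D m).mul_mem ((G D m).mul_mem (E_le_G D m e3) hX') (E_le_G D m e4)
  have f1 : X'.a = a := rfl
  have f2 : X'.b = r ^ 2 * B := rfl
  have f3 : X'.c = m * C := rfl
  have f4 : X'.d = X.d := rfl
  refine ⟨⟨_, hP⟩, ⟨_, hP'⟩, ?_, ?_, ?_, ?_, ?_, ?_, ?_, ?_, ?_⟩
  · simp only [S2.mul_a, S2.mul_b, S2.mul_c, S2.mul_d, e12_a, e12_b, e12_c, e12_d, e21_a, e21_b,
      e21_c, e21_d, ha, hb, hc]
    ring
  · simp only [S2.mul_a, S2.mul_b, S2.mul_c, S2.mul_d, e12_a, e12_b, e12_c, e12_d, e21_a, e21_b,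
      e21_c, e21_d, ha, hb, hc]
    refine ⟨v * (m * B'), ?_⟩
    linear_combination hB' - m * B' * hbv'
  · simp only [S2.mul_a, S2.mul_b, S2.mul_c, S2.mul_d, e12_a, e12_b, e12_c, e12_d, e21_a, e21_b,
      e21_c, e21_d, ha, hb, hc]
    refine ⟨v * (m * r ^ 2 * C), ?_⟩
    linear_combination - m * r ^ 2 * C * hbv'
  · simp only [S2.mul_a, S2.mul_b, S2.mul_c, S2.mul_d, e12_a, e12_b, e12_c, e12_d, e21_a, e21_b,
      e21_c, e21_d, ha, hb, hc, f1, f2, f3, f4]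
    ring
  · simp only [S2.mul_a, S2.mul_b, S2.mul_c, S2.mul_d, e12_a, e12_b, e12_c, e12_d, e21_a, e21_b,
      e21_c, e21_d, ha, hb, hc, f1, f2, f3, f4]
    ring
  · simp only [S2.mul_a, S2.mul_b, S2.mul_c, S2.mul_d, e12_a, e12_b, e12_c, e12_d, e21_a, e21_b,
      e21_c, e21_d, ha, hb, hc, f1, f2, f3, f4]
    ring
  · simp only [S2.mul_a, S2.mul_b, S2.mul_c, S2.mul_d, e12_a, e12_b, e12_c, e12_d, e21_a, e21_b,
      e21_c, e21_d, ha, hb, hc, f1, f2, f3, f4]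
    ring
  · rw [chi_mul3 H e1 hX e2 hP, sy_eq H ⟨X, hX⟩ ha hb]
  · rw [chi_mul3 H e3 hX' e4 hP', sy_eq H ⟨X', hX'⟩ f1 f2]

theorem s0 (H : Dat D m c χ) (r : ℤ√D) (hr0 : r ≠ 0) : ∃ q : ℕ, 0 < q ∧ ∀ (a : ℤ) (B1 B2 : ℤ√D), IsCoprime a (q : ℤ) → IsCoprime a r.norm →
    Vd D m a B1 → Vd D m a B2 → sy χ a (r ^ 2 * B1) * sy χ a B2 = sy χ a (r ^ 2 * B2) * sy χ a B1 := by
  obtain ⟨q, hq0, hq⟩ := H.dr r hr0
  refine ⟨q, hq0, fun a B1 B2 haq har hV1 hV2 => ?_⟩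
  obtain ⟨⟨P, hP⟩, ⟨P', hP'⟩, a1, a2, a3, a4, a5, a6, a7, a8, a9⟩ := s0_one H r haq har hV1
  obtain ⟨⟨Q, hQ⟩, ⟨Q', hQ'⟩, b1, b2, b3, b4, b5, b6, b7, b8, b9⟩ := s0_one H r haq har hV2
  simp only at a1 a2 a3 a4 a5 a6 a7 b1 b2 b3 b4 b5 b6 b7
  have hZ : P * Q⁻¹ ∈ G D m := (G D m).mul_mem hP ((G D m).inv_mem hQ)
  have hZ' : P' * Q'⁻¹ ∈ G D m := (G D m).mul_mem hP' ((G D m).inv_mem hQ')
  have hPd := P.h
  have hQd := Q.h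
  have hZq : P * Q⁻¹ ∈ G D q := by
    refine ⟨?_, ?_, ?_, ?_⟩
    · have e : (P * Q⁻¹).a - 1 = Q.b * Q.c - P.b * Q.c := by
        rw [S2.mul_a, S2.inv_a, S2.inv_c, a1]
        rw [b1] at hQd
        linear_combination hQd
      rw [e]
      exact dvd_sub (b3.mul_left _) (b3.mul_left _)
    · rw [S2.mul_b, S2.inv_b, S2.inv_d]
      exact dvd_add (((dvd_neg).2 b2).mul_left _) (a2.mul_right _)
    · rw [S2.mul_c, S2.inv_a, S2.inv_c]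
      exact dvd_add (a3.mul_right _) (((dvd_neg).2 b3).mul_left _)
    · have e : (P * Q⁻¹).d - 1 = P.b * P.c - P.c * Q.b := by
        rw [S2.mul_d, S2.inv_b, S2.inv_d, b1]
        rw [a1] at hPd
        linear_combination hPd
      rw [e]
      exact dvd_sub (a2.mul_right _) (a3.mul_right _)
  have key := hq (P * Q⁻¹) hZ (P' * Q'⁻¹) hZ' hZq
    (by
      rw [S2.mul_a, S2.mul_a, S2.inv_a, S2.inv_a, S2.inv_c, S2.inv_c, a4, b5, a6]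
      linear_combination (-P.b) * b7)
    (by
      rw [S2.mul_d, S2.mul_d, S2.inv_b, S2.inv_b, S2.inv_d, S2.inv_d, a5, b4, b6]
      linear_combination (-Q.b) * a7)
    (by
      rw [S2.mul_b, S2.mul_b, S2.inv_b, S2.inv_b, S2.inv_d, S2.inv_d, a4, b4, b6, a6]
      ring)
    (by
      rw [S2.mul_c, S2.mul_c, S2.inv_a, S2.inv_a, S2.inv_c, S2.inv_c, a5, b5]
      linear_combination Q.d * a7 - P.d * b7)
  have h1 : (⟨P * Q⁻¹, hZ⟩ : G D m) = ⟨P, hP⟩ * (⟨Q, hQ⟩)⁻¹ := rfl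
  have h2 : (⟨P' * Q'⁻¹, hZ'⟩ : G D m) = ⟨P', hP'⟩ * (⟨Q', hQ'⟩)⁻¹ := rfl
  rw [h1, h2, map_mul, map_mul, map_inv, map_inv, a8, a9, b8, b9] at key
  rw [← div_eq_mul_inv, ← div_eq_mul_inv, div_eq_div_iff_mul_eq_mul] at key
  rw [key, mul_comm]

end Pool.Agent.Lib.CSL
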