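import Pool.Agent.Lib.MP_240120_ag.CS.Def
import Pool.Agent.Lib.MP_240120_ag.CS.Bas
import Pool.Agent.Lib.MP_240120_ag.CS.SDef
import Pool.Agent.Lib.MP_240120_ag.CS.Sy0
import Pool.Agent.Lib.MP_240120_ag.CS.Sy1
import Pool.Agent.Lib.MP_240120_ag.CS.Sy2
import Pool.Agent.Lib.MP_240120_ag.CS.Dir
import Pool.Agent.Lib.MP_240120_ag.CS.Fro
import Pool.Agent.Lib.MP_240120_ag.CS.Qrs

/-!
# CS / Sy3 (75 minutes): S1 of CS_TEXT.md

`f := sy a (r^2 m)`. `q` from `s0 r`. `R0 := |N(r^2 m)| = m^2 N(r)^2 > 0`, `4 ∣ R0`, `a ≡ 1 mod 4`, `IsCoprime a R0`. `I := {k : ℤ | f^k = 1}` (an `AddSubgroup`). `n := q + |N(r)| + ...`.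
For a prime `p > n`, `a' = ± p ≡ a mod R0`: `sy a' (r^2 m) = f` (`sy_cg`); `a'` is prime to `q`, `N(r)`; `s0` with `B1 = r^(2j) m`, `B2 = m` (`sy a' m = 1`): `sy a' (r^(2j+2) m) = f · sy a' (r^(2j) m)`, so `sy a' (r^(2j) m) = f^j` by induction (`vd_sq`).
 `p ≡ ± 1 mod 4D`: `fro` (`sq_D`): `p ∣ r^(p-1) - 1`. `p ≡ a`: `j = p - 1`: `p ∣ r^(2(p-1)) - 1`, `sy_mod`: `f^(p-1) = sy p m = 1`. `p ≡ -a`: `j = (p-1)/2`, `2j = p - 1`: `f^((p-1)/2) = sy (-p) m = 1`. `gcdl`: `1 ∈ I`.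
-/

set_option autoImplicit false

namespace Pool.Agent.Lib.CSL

variable {D : ℤ} {m : ℕ} {c : ℤ} {A : Type} [CommGroup A] {χ : G D m →* A}

private theorem sy3_norm (r : ℤ√D) : (r ^ 2 * (m : ℤ√D)).norm = r.norm ^ 2 * (m : ℤ) ^ 2 := by
  have h1 : (m : ℤ√D).norm = (m : ℤ) ^ 2 := by
    rw [Zsqrtd.norm_natCast]
    ring
  rw [Zsqrtd.norm_mul, h1, pow_two r, Zsqrtd.norm_mul]
  ring

/-- the powers of `r ^ 2` -/
private theorem sy3_pow (H : Dat D m c χ) {r : ℤ√D} {q : ℕ}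
    (hs : ∀ (a : ℤ) (B1 B2 : ℤ√D), IsCoprime a (q : ℤ) → IsCoprime a r.norm →
      Vd D m a B1 → Vd D m a B2 → sy χ a (r ^ 2 * B1) * sy χ a B2 = sy χ a (r ^ 2 * B2) * sy χ a B1)
    {a : ℤ} (ha : (m : ℤ) ^ 2 ∣ a - 1) (hq : IsCoprime a (q : ℤ)) (hr : IsCoprime a r.norm) (j : ℕ) :
    Vd D m a (r ^ (2 * j) * m) ∧ sy χ a (r ^ (2 * j) * m) = sy χ a (r ^ 2 * m) ^ j := by
  obtain ⟨hV, h1⟩ := (sy_m H ha).1
  induction j with
  | zero =>
    rw [Nat.mul_zero, pow_zero, pow_zero, one_mul]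
    exact ⟨hV, h1⟩
  | succ j ih =>
    have e : r ^ (2 * (j + 1)) * (m : ℤ√D) = r ^ 2 * (r ^ (2 * j) * m) := by ring
    rw [e]
    refine ⟨vd_sq ih.1 hr, ?_⟩
    have h2 := hs a _ _ hq hr ih.1 hV
    rw [h1, mul_one, ih.2] at h2
    rw [h2]
    exact (pow_succ' _ j).symm

/-- the main step -/
private theorem sy3_key (H : Dat D m c χ) {r : ℤ√D} {q : ℕ} (hq0 : 0 < q)
    (hs : ∀ (a : ℤ) (B1 B2 : ℤ√D), IsCoprime a (q : ℤ) → IsCoprime a r.norm →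
      Vd D m a B1 → Vd D m a B2 → sy χ a (r ^ 2 * B1) * sy χ a B2 = sy χ a (r ^ 2 * B2) * sy χ a B1)
    {a : ℤ} (ha : (m : ℤ) ^ 2 ∣ a - 1) (hr0 : r.norm ≠ 0) (hr : IsCoprime a r.norm) {p : ℕ} (hp : p.Prime)
    (hpn : q + r.norm.natAbs < p) {ε : ℤ} (hε : ε = 1 ∨ ε = -1)
    (hpa : (r ^ 2 * (m : ℤ√D)).norm ∣ ε * p - a) {j : ℕ} (hj : p - 1 ∣ 2 * j) : sy χ a (r ^ 2 * m) ^ j = 1 := by
  obtain ⟨hV0, h10⟩ := (sy_m H ha).1
  obtain ⟨hVp, hcg⟩ := sy_cg H (vd_sq hV0 hr) hpa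
  have ha' := hVp.1
  have hpI : Prime (p : ℤ) := Nat.prime_iff_prime_int.1 hp
  have hcop : ∀ x : ℤ, ¬ (p : ℤ) ∣ x → IsCoprime (ε * p) x := by
    intro x hx
    have h1 : IsCoprime (p : ℤ) x := (hpI.coprime_iff_not_dvd).2 hx
    rcases hε with rfl | rfl
    · simpa using h1
    · simpa using h1.neg_left
  have hpq : ¬ (p : ℤ) ∣ (q : ℤ) := by
    intro h
    have := Nat.le_of_dvd hq0 (Int.natCast_dvd_natCast.1 h)
    omega
  have hpr : ¬ (p : ℤ) ∣ r.norm := by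
    intro h
    have h1 := Nat.le_of_dvd (Int.natAbs_pos.2 hr0) (Int.natCast_dvd.1 h)
    omega
  obtain ⟨hV1, hpow⟩ := sy3_pow H hs ha' (hcop _ hpq) (hcop _ hpr) j
  rw [hcg] at hpow
  -- `p ≡ ε mod 4 D`
  have h4D : 4 * D ∣ ε * p - 1 := by
    refine Dvd.dvd.trans ?_ ha'
    exact ((Dvd.intro c rfl).trans H.md).trans (Dvd.intro_left (m : ℤ) (by ring))
  have hD4 : (p : ℤ) ≡ 1 [ZMOD 4 * D] ∨ (p : ℤ) ≡ -1 [ZMOD 4 * D] := by
    rcases hε with rfl | rfl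
    · left
      rw [one_mul] at h4D
      exact (Int.modEq_iff_dvd.2 h4D).symm
    · right
      refine (Int.modEq_iff_dvd.2 ?_).symm
      have : (p : ℤ) - -1 = -((-1) * p - 1) := by ring
      rw [this]
      exact (dvd_neg).2 h4D
  have hndv : ∀ x : ℤ, x ∣ 4 * D → ¬ IsUnit x → ¬ x ∣ (p : ℤ) := by
    intro x hx hxu hxp
    apply hxu
    have h5 : x ∣ ε * p - (ε * p - 1) := dvd_sub (hxp.mul_left ε) (hx.trans h4D)
    have h6 : x ∣ 1 := by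
      have e : ε * (p : ℤ) - (ε * p - 1) = 1 := by ring
      rwa [e] at h5
    exact isUnit_of_dvd_one h6
  have hp2 : p ≠ 2 := by
    rintro rfl
    refine hndv 2 ⟨2 * D, by ring⟩ ?_ (dvd_refl _)
    rw [Int.isUnit_iff]
    omega
  have hpD : ¬ (p : ℤ) ∣ D := by
    intro h
    exact hndv p (h.mul_left 4) hpI.not_unit (dvd_refl _)
  have hf := fro hp hp2 hpD (sq_D H.D0 hp hD4) r hpr
  obtain ⟨k, hk⟩ := hj
  have hdiv : (p : ℤ√D) ∣ r ^ (2 * j) - 1 := by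
    refine hf.trans ?_
    rw [hk, pow_mul]
    exact sub_one_dvd_pow_sub_one _ k
  have hmod := sy_mod H (sy_m H ha').1.1 (B' := r ^ (2 * j) * m) (Dvd.intro_left _ rfl) (by
    have e : r ^ (2 * j) * (m : ℤ√D) - m = (r ^ (2 * j) - 1) * m := by ring
    rw [e]
    have h7 : ((ε * p : ℤ) : ℤ√D) ∣ (p : ℤ√D) := by
      rcases hε with rfl | rfl
      · simp
      · simp
    exact (h7.trans hdiv).mul_right _)
  rw [← hpow, hmod.2]
  exact (sy_m H ha').1.2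

theorem s1 (H : Dat D m c χ) {a : ℤ} (ha : (m : ℤ) ^ 2 ∣ a - 1) {r : ℤ√D} (hr0 : r ≠ 0) (hr : IsCoprime a r.norm) :
    sy χ a (r ^ 2 * m) = 1 := by
  obtain ⟨q, hq0, hs⟩ := s0 H r hr0
  have hN : r.norm ≠ 0 := fun h => hr0 ((Zsqrtd.norm_eq_zero H.hD r).1 h)
  let I : AddSubgroup ℤ :=
    { carrier := {k | sy χ a (r ^ 2 * m) ^ k = 1}
      zero_mem' := zpow_zero _
      add_mem' := fun {x y} (hx : _ = _) (hy : _ = _) => by
        show sy χ a (r ^ 2 * m) ^ (x + y) = 1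
        rw [zpow_add, hx, hy, one_mul]
      neg_mem' := fun {x} (hx : _ = _) => by
        show sy χ a (r ^ 2 * m) ^ (-x) = 1
        rw [zpow_neg, hx, inv_one] }
  have h4m : (4 : ℤ) ∣ m := (Dvd.intro (D * c) (by ring)).trans H.md
  have hR : ((r.norm.natAbs ^ 2 * m ^ 2 : ℕ) : ℤ) = (r ^ 2 * (m : ℤ√D)).norm := by
    rw [sy3_norm]
    push_cast
    rw [sq_abs]
  have hV := vd_sq (sy_m H ha).1.1 hr
  have h1 : (1 : ℤ) ∈ I := by
    refine gcdl I (q + r.norm.natAbs) (r.norm.natAbs ^ 2 * m ^ 2) a ?_ ?_ ?_ ?_ ?_ ?_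
    · have h2 : 0 < r.norm.natAbs := Int.natAbs_pos.2 hN
      have h3 := H.m0
      positivity
    · have h5 : 4 ∣ m := by exact_mod_cast h4m
      exact (h5.trans (Dvd.intro_left m (by ring))).mul_left _
    · refine (Int.modEq_iff_dvd.2 ?_).symm
      exact (h4m.trans (Dvd.intro_left (m : ℤ) (by ring))).trans ha
    · rw [hR]
      exact hV.2.2
    · intro p hp hpn hpa
      show sy χ a (r ^ 2 * m) ^ ((p : ℤ) - 1) = 1
      have e : ((p : ℤ) - 1) = ((p - 1 : ℕ) : ℤ) := by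
        rw [Nat.cast_sub hp.one_lt.le]
        simp
      rw [e, zpow_natCast]
      refine sy3_key H hq0 hs ha hN hr hp hpn (Or.inl rfl) ?_ (Dvd.intro_left 2 rfl)
      rw [one_mul, ← hR]
      exact Int.modEq_iff_dvd.1 hpa.symm
    · intro p hp hpn hpa
      show sy χ a (r ^ 2 * m) ^ (((p : ℤ) - 1) / 2) = 1
      have hR4 : (4 : ℤ) ∣ ((r.norm.natAbs ^ 2 * m ^ 2 : ℕ) : ℤ) := by
        have h5 : 4 ∣ m := by exact_mod_cast h4m
        exact Int.natCast_dvd_natCast.2 ((h5.trans (Dvd.intro_left m (by ring))).mul_left _)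
      have hp4 : (4 : ℤ) ∣ -a - p := hR4.trans (Int.modEq_iff_dvd.1 hpa)
      have ha4 : (4 : ℤ) ∣ a - 1 := (h4m.trans (Dvd.intro_left (m : ℤ) (by ring))).trans ha
      have e : (((p : ℤ) - 1) / 2) = (((p - 1) / 2 : ℕ) : ℤ) := by
        have := hp.one_lt
        omega
      rw [e, zpow_natCast]
      refine sy3_key H hq0 hs ha hN hr hp hpn (Or.inr rfl) ?_ ?_
      · rw [← hR]
        have h5 := Int.modEq_iff_dvd.1 hpa
        have e2 : -1 * (p : ℤ) - a = -a - p := by ring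
        rw [e2]
        exact h5
      · refine Eq.dvd ?_
        have := hp.one_lt
        omega
  have h2 : sy χ a (r ^ 2 * m) ^ (1 : ℤ) = 1 := h1
  rwa [zpow_one] at h2

end Pool.Agent.Lib.CSL
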