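import Pool.Agent.Lib.MP_240120_ag.CS.Def
import Pool.Agent.Lib.MP_240120_ag.CS.Bas
import Pool.Agent.Lib.MP_240120_ag.CS.SDef
import Pool.Agent.Lib.MP_240120_ag.CS.Sy0
import Pool.Agent.Lib.MP_240120_ag.CS.Sy1
import Pool.Agent.Lib.MP_240120_ag.CS.Sy2
import Pool.Agent.Lib.MP_240120_ag.CS.Sy3
import Pool.Agent.Lib.MP_240120_ag.CS.Dir

/-!
# CS / Sy4 (45 minutes): S2 of CS_TEXT.md

`q` from `s0 r`. `B ≠ 0`, so `R0 := |N(r^2 B)| > 0` (`Zsqrtd.norm_eq_zero`, `H.hD`), prime to `a`. `dir`: a prime `p > q + |N(r)|`, `p ≡ a mod R0`. `sy_cg` for `B` (`N(B) ∣ N(r^2 B)`) and for `r^2 B` (`vd_sq`): `sy p B = sy a B`, `sy p (r^2 B) = sy a (r^2 B)`. `s0` with `B1 = B`, `B2 = m`: `sy p (r^2 B) * sy p m = sy p (r^2 m) * sy p B`;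
`sy p m = 1` (`sy_m`), `sy p (r^2 m) = 1` (`s1`).
-/

set_option autoImplicit false

namespace Pool.Agent.Lib.CSL

variable {D : ℤ} {m : ℕ} {c : ℤ} {A : Type} [CommGroup A] {χ : G D m →* A}

theorem s2 (H : Dat D m c χ) {a : ℤ} {B : ℤ√D} (hV : Vd D m a B) (hB : B ≠ 0) {r : ℤ√D} (hr0 : r ≠ 0) (hr : IsCoprime a r.norm) :
    sy χ a (r ^ 2 * B) = sy χ a B := by
  obtain ⟨q, hq0, hs⟩ := s0 H r hr0
  have hN : r.norm ≠ 0 := fun h => hr0 ((Zsqrtd.norm_eq_zero H.hD r).1 h)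
  have hNB : B.norm ≠ 0 := fun h => hB ((Zsqrtd.norm_eq_zero H.hD B).1 h)
  have hnorm : (r ^ 2 * B).norm = r.norm ^ 2 * B.norm := by
    rw [Zsqrtd.norm_mul, pow_two r, Zsqrtd.norm_mul, pow_two]
  have hne : (r ^ 2 * B).norm ≠ 0 := by
    rw [hnorm]
    exact mul_ne_zero (pow_ne_zero 2 hN) hNB
  have hVr := vd_sq hV hr
  have hco : IsCoprime a ((r ^ 2 * B).norm.natAbs : ℤ) := by
    rcases Int.natAbs_eq (r ^ 2 * B).norm with h | h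
    · rw [← h]
      exact hVr.2.2
    · have h1 : (((r ^ 2 * B).norm.natAbs : ℕ) : ℤ) = -(r ^ 2 * B).norm := by omega
      rw [h1]
      exact hVr.2.2.neg_right
  obtain ⟨p, hp, hpn, hpa⟩ := dir (r ^ 2 * B).norm.natAbs (Int.natAbs_pos.2 hne) a hco (q + r.norm.natAbs)
  have hdv : (r ^ 2 * B).norm ∣ (p : ℤ) - a := by
    rw [← Int.natAbs_dvd]
    exact Int.modEq_iff_dvd.1 hpa.symm
  have hdv' : B.norm ∣ (p : ℤ) - a := by
    refine Dvd.dvd.trans ?_ hdv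
    rw [hnorm]
    exact Dvd.intro_left _ rfl
  obtain ⟨hVp, e1⟩ := sy_cg H hV hdv'
  obtain ⟨_, e2⟩ := sy_cg H hVr hdv
  have hpI : Prime (p : ℤ) := Nat.prime_iff_prime_int.1 hp
  have hpq : IsCoprime (p : ℤ) (q : ℤ) := by
    refine (hpI.coprime_iff_not_dvd).2 fun h => ?_
    have := Nat.le_of_dvd hq0 (Int.natCast_dvd_natCast.1 h)
    omega
  have hpr : IsCoprime (p : ℤ) r.norm := by
    refine (hpI.coprime_iff_not_dvd).2 fun h => ?_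
    have h1 := Nat.le_of_dvd (Int.natAbs_pos.2 hN) (Int.natCast_dvd.1 h)
    omega
  obtain ⟨hVm, e3⟩ := (sy_m H hVp.1).1
  have h0 := hs p B m hpq hpr hVp hVm
  rw [e3, mul_one, s1 H hVp.1 hr0 hpr, one_mul, e1, e2] at h0
  exact h0

end Pool.Agent.Lib.CSL
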