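import Pool.Agent.Lib.MP_240120_ag.CS.Def

/-!
# CS / Qr2 (60 minutes): quadratic residues: finite fields

All statements are translated to `ZMod p` (`(ZMod.intCast_zmod_eq_zero_iff_dvd _ _)` or `ZMod.intCast_cast`, every element of `ZMod p` is the cast of an integer).
`pm_sq`: `p % 4 = 3`, `-1` is not a square (`ZMod.exists_sq_eq_neg_one_iff`), so for `k ≠ 0` one of `k`, `-k` is a square (`quadraticChar` or `legendreSym`: `χ(-k) = χ(-1) χ(k) = -χ(k)`); `k = 0`: `l = 0`.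
`univ`: `x^2 - D y^2 = t` is solvable in `ZMod p`: `FiniteField.exists_root_sum_quadratic` (`p` odd) for `X^2 - t` and `-D X^2` (degree 2 as `D ≠ 0` in `ZMod p`).
`sq_mul`: `χ` the quadratic character: `χ x = -1`, `χ (x y) = -1` (`x y ≠ 0`, otherwise `t = 0`), so `χ y = 1`.
-/

set_option autoImplicit false

namespace Pool.Agent.Lib.CSL

private theorem dvd_iff {p : ℕ} (x : ℤ) : (p : ℤ) ∣ x ↔ (x : ZMod p) = 0 :=
  (ZMod.intCast_zmod_eq_zero_iff_dvd x p).symm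

private theorem surj {p : ℕ} [Fact p.Prime] (z : ZMod p) : ∃ x : ℤ, (x : ZMod p) = z :=
  ⟨(z.val : ℤ), by simp⟩

theorem pm_sq {p : ℕ} (hp : p.Prime) (h : (p : ℤ) ≡ -1 [ZMOD 4]) (k : ℤ) : ∃ l : ℤ, (p : ℤ) ∣ k - l ^ 2 ∨ (p : ℤ) ∣ k + l ^ 2 := by
  classical
  haveI : Fact p.Prime := ⟨hp⟩
  have hp4 : p % 4 = 3 := by
    have : (p : ℤ) % 4 = -1 % 4 := h
    omega
  have hneg : ¬ IsSquare (-1 : ZMod p) := by
    intro hs
    exact (ZMod.exists_sq_eq_neg_one_iff.1 hs) hp4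
  by_cases hk : IsSquare (k : ZMod p)
  · obtain ⟨z, hz⟩ := hk
    obtain ⟨l, rfl⟩ := surj z
    refine ⟨l, Or.inl ((dvd_iff _).2 ?_)⟩
    push_cast
    rw [hz]; ring
  · have h1 : quadraticChar (ZMod p) (k : ZMod p) = -1 := quadraticChar_neg_one_iff_not_isSquare.2 hk
    have h2 : quadraticChar (ZMod p) (-1 : ZMod p) = -1 := quadraticChar_neg_one_iff_not_isSquare.2 hneg
    have h3 : quadraticChar (ZMod p) (-(k : ZMod p)) = 1 := by
      rw [← neg_one_mul, map_mul, h1, h2]; norm_num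
    have hk0 : -(k : ZMod p) ≠ 0 := by
      intro e
      apply hk
      rw [neg_eq_zero] at e
      rw [e]
      exact ⟨0, by simp⟩
    obtain ⟨z, hz⟩ := (quadraticChar_one_iff_isSquare hk0).1 h3
    obtain ⟨l, rfl⟩ := surj z
    refine ⟨l, Or.inr ((dvd_iff _).2 ?_)⟩
    push_cast
    rw [pow_two, ← hz]; ring

theorem univ {D : ℤ} {p : ℕ} (hp : p.Prime) (h2 : p ≠ 2) (hD : ¬ (p : ℤ) ∣ D) (t : ℤ) : ∃ r : ℤ√D, (p : ℤ) ∣ r.norm - t := by
  classical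
  haveI : Fact p.Prime := ⟨hp⟩
  have hD0 : (D : ZMod p) ≠ 0 := fun e => hD ((dvd_iff _).2 e)
  have hodd : Fintype.card (ZMod p) % 2 = 1 := by
    rw [ZMod.card]
    exact Nat.odd_iff.1 (hp.odd_of_ne_two h2)
  have hf : (Polynomial.X ^ 2 - Polynomial.C (t : ZMod p)).degree = 2 :=
    Polynomial.degree_X_pow_sub_C (by norm_num) _
  have hg : (Polynomial.C (-(D : ZMod p)) * Polynomial.X ^ 2).degree = 2 :=
    Polynomial.degree_C_mul_X_pow 2 (neg_ne_zero.2 hD0)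
  obtain ⟨a, b, hab⟩ := FiniteField.exists_root_sum_quadratic hf hg hodd
  obtain ⟨x, rfl⟩ := surj a
  obtain ⟨y, rfl⟩ := surj b
  refine ⟨⟨x, y⟩, (dvd_iff _).2 ?_⟩
  simp only [Polynomial.eval_sub, Polynomial.eval_pow, Polynomial.eval_X, Polynomial.eval_C,
    Polynomial.eval_mul] at hab
  rw [Zsqrtd.norm_def]
  push_cast
  rw [← hab]; ring

theorem sq_mul {p : ℕ} (hp : p.Prime) (x y : ℤ) (hx : ∀ t : ℤ, ¬ (p : ℤ) ∣ t ^ 2 - x) (hy : ∀ t : ℤ, ¬ (p : ℤ) ∣ t ^ 2 - x * y) :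
    ∃ t : ℤ, (p : ℤ) ∣ t ^ 2 - y := by
  classical
  haveI : Fact p.Prime := ⟨hp⟩
  have hnx : ¬ IsSquare (x : ZMod p) := by
    rintro ⟨z, hz⟩
    obtain ⟨l, rfl⟩ := surj z
    apply hx l
    rw [dvd_iff]
    push_cast
    rw [hz]; ring
  have hnxy : ¬ IsSquare ((x : ZMod p) * (y : ZMod p)) := by
    rintro ⟨z, hz⟩
    obtain ⟨l, rfl⟩ := surj z
    apply hy l
    rw [dvd_iff]
    push_cast
    rw [hz]; ring
  have h1 : quadraticChar (ZMod p) (x : ZMod p) = -1 := quadraticChar_neg_one_iff_not_isSquare.2 hnx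
  have h2 : quadraticChar (ZMod p) ((x : ZMod p) * (y : ZMod p)) = -1 :=
    quadraticChar_neg_one_iff_not_isSquare.2 hnxy
  rw [map_mul, h1] at h2
  have h3 : quadraticChar (ZMod p) (y : ZMod p) = 1 := by linarith
  have hy0 : (y : ZMod p) ≠ 0 := by
    intro e
    apply hnxy
    rw [e, mul_zero]
    exact ⟨0, by simp⟩
  obtain ⟨z, hz⟩ := (quadraticChar_one_iff_isSquare hy0).1 h3
  obtain ⟨l, rfl⟩ := surj z
  refine ⟨l, (dvd_iff _).2 ?_⟩
  push_cast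
  rw [hz]; ring

end Pool.Agent.Lib.CSL
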