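import Pool.Agent.Lib.MP_240120_ag.CS.Def
import Pool.Agent.Lib.MP_240120_ag.CS.Bas
import Pool.Agent.Lib.MP_240120_ag.CS.SDef
import Pool.Agent.Lib.MP_240120_ag.CS.Sy0
import Pool.Agent.Lib.MP_240120_ag.CS.Sy1
import Pool.Agent.Lib.MP_240120_ag.CS.Sy4
import Pool.Agent.Lib.MP_240120_ag.CS.Dir
import Pool.Agent.Lib.MP_240120_ag.CS.Qrs
import Pool.Agent.Lib.MP_240120_ag.CS.Qr2

/-!
# CS / Sy5 (75 minutes): S3 of CS_TEXT.md, first case and reduction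

`red`: `dir` with `R0 = |N(B)|` and `-a`: a prime `p ≡ -a mod N(B)`, `p > m`; `sy_cg` for `a' = -p`. `m^2 ∣ -p - 1`.
`case1`: `c N(B) u^2 ≡ 1 mod p` (`u` the inverse of the given root). `univ` (`p` odd, prime to `D` as `p ≡ -1 mod 4D`): `r` with `N(r) ≡ u mod p`, so `c N(r^2 B) = c N(r)^2 N(B) ≡ 1 mod p`; `p` does not divide `N(r)`, `r ≠ 0`. `s2`: `sy (-p) B = sy (-p) β`, `β = r^2 B`. `d` with `-p d + c N(β) = 1`:
`X := ⟨-p, β, -c star β, d, _⟩ ∈ G D m` (`m ∣ β`; `p d = c N(β) - 1`, so `d ≡ 1 mod m` as `p ≡ -1`). `H.sp`: `χ X = 1`.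
-/

set_option autoImplicit false

namespace Pool.Agent.Lib.CSL

variable {D : ℤ} {m : ℕ} {c : ℤ} {A : Type} [CommGroup A] {χ : G D m →* A}

theorem red (H : Dat D m c χ) {a : ℤ} {B : ℤ√D} (hV : Vd D m a B) (hB : B ≠ 0) :
    ∃ p : ℕ, p.Prime ∧ m < p ∧ (m : ℤ) ^ 2 ∣ (p : ℤ) + 1 ∧ Vd D m (-p) B ∧ sy χ (-p) B = sy χ a B := by
  have hN0 : B.norm ≠ 0 := fun hz => hB ((Zsqrtd.norm_eq_zero H.hD _).mp hz)
  have hR : 0 < B.norm.natAbs := Int.natAbs_pos.mpr hN0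
  have hcop : IsCoprime (-a) (B.norm.natAbs : ℤ) := by
    have h2 : (B.norm.natAbs : ℤ) = |B.norm| := Int.natCast_natAbs _
    rw [h2]
    exact IsCoprime.abs_right (IsCoprime.neg_left hV.2.2)
  obtain ⟨p, hp, hmp, hmod⟩ := dir B.norm.natAbs hR (-a) hcop m
  have h4 : B.norm ∣ -(p : ℤ) - a := by
    have h5 : B.norm ∣ (p : ℤ) - -a :=
      Int.natAbs_dvd.mp (Int.modEq_iff_dvd.mp hmod.symm)
    have h6 : -(p : ℤ) - a = -((p : ℤ) - -a) := by ring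
    rw [h6]
    exact (dvd_neg).mpr h5
  obtain ⟨h7, h8⟩ := sy_cg H hV h4
  refine ⟨p, hp, hmp, ?_, h7, h8⟩
  have h9 := h7.1
  have h10 : (p : ℤ) + 1 = -(-(p : ℤ) - 1) := by ring
  rw [h10]
  exact (dvd_neg).mpr h9

private theorem Sy5_cast {D : ℤ} {m : ℕ} {x : ℤ} (h : (m : ℤ) ∣ x) : (m : ℤ√D) ∣ (x : ℤ√D) := by
  obtain ⟨y, rfl⟩ := h
  rw [Int.cast_mul, Int.cast_natCast]
  exact dvd_mul_right _ _

theorem case1 (H : Dat D m c χ) {p : ℕ} (hp : p.Prime) (hpm : (m : ℤ) ^ 2 ∣ (p : ℤ) + 1) {B : ℤ√D} (hV : Vd D m (-p) B) (hB : B ≠ 0)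
    (h : ∃ t : ℤ, (p : ℤ) ∣ t ^ 2 - c * B.norm) : sy χ (-p) B = 1 := by
  obtain ⟨t, ht⟩ := h
  have hpr : Prime (p : ℤ) := Nat.prime_iff_prime_int.mp hp
  have hp1 : ¬ (p : ℤ) ∣ 1 := fun h0 => hpr.not_isUnit (isUnit_of_dvd_one h0)
  have hpm' : ¬ (p : ℤ) ∣ (m : ℤ) := by
    intro h0
    have h1 : (p : ℤ) ∣ (m : ℤ) ^ 2 := h0.trans (dvd_pow_self _ two_ne_zero)
    have h2 := h1.trans hpm
    exact hp1 ((Int.dvd_add_right (dvd_refl (p : ℤ))).mp h2)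
  have hpc : ¬ (p : ℤ) ∣ c := fun h0 => hpm' ((h0.mul_left (4 * D)).trans H.md)
  have hpD : ¬ (p : ℤ) ∣ D := by
    intro h0
    refine hpm' (Dvd.dvd.trans ?_ H.md)
    exact (h0.mul_left 4).mul_right c
  have hp2 : p ≠ 2 := by
    rintro rfl
    have h1 : (4 : ℤ) ∣ (m : ℤ) := Dvd.dvd.trans ⟨D * c, by ring⟩ H.md
    have h2 : (4 : ℤ) ∣ ((2 : ℕ) : ℤ) + 1 :=
      (h1.trans (dvd_pow_self _ two_ne_zero)).trans hpm
    norm_num at h2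
  have hpN : ¬ (p : ℤ) ∣ B.norm := by
    intro h0
    have h1 : IsCoprime (p : ℤ) B.norm := by
      have := IsCoprime.neg_left hV.2.2
      rw [neg_neg] at this
      exact this
    exact hp1 (h1.isUnit_of_dvd' (dvd_refl _) h0).dvd
  have hpt : ¬ (p : ℤ) ∣ t := by
    intro h0
    have h1 : (p : ℤ) ∣ t ^ 2 := h0.trans (dvd_pow_self _ two_ne_zero)
    have h2 : (p : ℤ) ∣ c * B.norm := (Int.dvd_iff_dvd_of_dvd_sub ht).mp h1
    rcases hpr.dvd_or_dvd h2 with h3 | h3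
    · exact hpc h3
    · exact hpN h3
  obtain ⟨u, hu⟩ : ∃ u : ℤ, (p : ℤ) ∣ t * u - 1 := by
    have h1 : IsCoprime (p : ℤ) t := (Prime.coprime_iff_not_dvd hpr).mpr hpt
    obtain ⟨x, y, hxy⟩ := h1
    refine ⟨y, -x, ?_⟩
    linear_combination hxy
  obtain ⟨r, hr⟩ := univ hp hp2 hpD u
  have hprn : ¬ (p : ℤ) ∣ r.norm := by
    intro h0
    have h1 : (p : ℤ) ∣ u := (Int.dvd_iff_dvd_of_dvd_sub hr).mp h0
    have h2 : (p : ℤ) ∣ t * u := h1.mul_left t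
    exact hp1 ((Int.dvd_iff_dvd_of_dvd_sub hu).mp h2)
  have hr0 : r ≠ 0 := by
    rintro rfl
    apply hprn
    rw [Zsqrtd.norm_zero]
    exact dvd_zero _
  have hcr : IsCoprime (-(p : ℤ)) r.norm :=
    IsCoprime.neg_left ((Prime.coprime_iff_not_dvd hpr).mpr hprn)
  rw [← s2 H hV hB hr0 hcr]
  -- the norm of `β`
  have hNβ : (r ^ 2 * B).norm = r.norm ^ 2 * B.norm := by
    rw [pow_two, Zsqrtd.norm_mul, Zsqrtd.norm_mul, pow_two]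
  obtain ⟨d, hd⟩ : ∃ d : ℤ, c * (r ^ 2 * B).norm - 1 = p * d := by
    obtain ⟨x, hx⟩ := ht
    obtain ⟨y, hy⟩ := hu
    obtain ⟨z, hz⟩ := hr
    have h1 : c * B.norm = t ^ 2 - p * x := by linear_combination -hx
    have h2 : r.norm = u + p * z := by linear_combination hz
    have h3 : t * u = 1 + p * y := by linear_combination hy
    refine ⟨2 * y + p * y ^ 2 + (2 * u * z + p * z ^ 2) * t ^ 2 - x * r.norm ^ 2, ?_⟩
    rw [hNβ]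
    have h4 : c * (r.norm ^ 2 * B.norm) = (t ^ 2 - p * x) * r.norm ^ 2 := by
      linear_combination r.norm ^ 2 * h1
    have h5 : t ^ 2 * r.norm ^ 2 = t ^ 2 * u ^ 2 + t ^ 2 * (2 * u * (p * z) + (p * z) ^ 2) := by
      rw [h2]
      ring
    have h6 : t ^ 2 * u ^ 2 = 1 + 2 * p * y + (p * y) ^ 2 := by
      have : t ^ 2 * u ^ 2 = (t * u) ^ 2 := by ring
      rw [this, h3]
      ring
    linear_combination h4 + h5 + h6
  have hmβ : (m : ℤ√D) ∣ r ^ 2 * B := hV.2.1.mul_left _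
  have hmN : (m : ℤ) ∣ (r ^ 2 * B).norm :=
    (dvd_pow_self (m : ℤ) two_ne_zero).trans (ndvd hmβ)
  have hmp : (m : ℤ) ∣ (p : ℤ) + 1 := (dvd_pow_self (m : ℤ) two_ne_zero).trans hpm
  have hdet : (((-(p : ℤ) : ℤ) : ℤ√D)) * (d : ℤ√D) -
      (r ^ 2 * B) * (-(c : ℤ√D) * star (r ^ 2 * B)) = 1 := by
    have h1 := Zsqrtd.norm_eq_mul_conj (r ^ 2 * B)
    have h2 : ((c * (r ^ 2 * B).norm - 1 : ℤ) : ℤ√D) = ((p * d : ℤ) : ℤ√D) := by rw [hd]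
    push_cast at h2 ⊢
    linear_combination h2 - (c : ℤ√D) * h1
  have hX : (⟨((-(p : ℤ) : ℤ) : ℤ√D), r ^ 2 * B, -(c : ℤ√D) * star (r ^ 2 * B), (d : ℤ√D), hdet⟩ :
      S2 (ℤ√D)) ∈ G D m := by
    refine ⟨?_, hmβ, ?_, ?_⟩
    · show (m : ℤ√D) ∣ ((-(p : ℤ) : ℤ) : ℤ√D) - 1
      have h1 : (m : ℤ) ∣ -(p : ℤ) - 1 := by
        have h2 : -(p : ℤ) - 1 = -((p : ℤ) + 1) := by ring
        rw [h2]
        exact (dvd_neg).mpr hmp
      have h3 := Sy5_cast (D := D) h1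
      push_cast at h3 ⊢
      exact h3
    · show (m : ℤ√D) ∣ -(c : ℤ√D) * star (r ^ 2 * B)
      exact (star_dvd hmβ).mul_left _
    · show (m : ℤ√D) ∣ (d : ℤ√D) - 1
      have h1 : (m : ℤ) ∣ d - 1 := by
        have h2 : d - 1 = ((p : ℤ) + 1) * d - c * (r ^ 2 * B).norm := by
          linear_combination hd
        rw [h2]
        exact dvd_sub (hmp.mul_right d) (hmN.mul_left c)
      have h3 := Sy5_cast (D := D) h1
      push_cast at h3 ⊢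
      exact h3
  rw [sy_eq H ⟨_, hX⟩ rfl rfl]
  exact H.sp (-(p : ℤ)) d (r ^ 2 * B) _ hX rfl rfl rfl rfl

end Pool.Agent.Lib.CSL
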