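import Pool.Agent.Lib.MP_240120_ag.CS.Def
import Pool.Agent.Lib.MP_240120_ag.CS.Bas
import Pool.Agent.Lib.MP_240120_ag.CS.IntA
import Pool.Agent.Lib.MP_240120_ag.CS.SDef
import Pool.Agent.Lib.MP_240120_ag.CS.Sy0
import Pool.Agent.Lib.MP_240120_ag.CS.Sy1
import Pool.Agent.Lib.MP_240120_ag.CS.Sy4
import Pool.Agent.Lib.MP_240120_ag.CS.Sy5
import Pool.Agent.Lib.MP_240120_ag.CS.Dir
import Pool.Agent.Lib.MP_240120_ag.CS.Qrs
import Pool.Agent.Lib.MP_240120_ag.CS.Qr2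

/-!
# CS / Sy6 (75 minutes): S3 of CS_TEXT.md, second case, and the end of part C

`case2`: `sq_mul` with `x = c` (`nsq_c`, `p ≡ -1 mod 4c`), `y = N(B)`: `p ∣ s^2 - N(B)`, `s ≠ 0 mod p`. `N(s + B) = s^2 + s Tr B + N(B)`, `N(-s + B) = s^2 - s Tr B + N(B)` (`Tr B = 2 B.re`), sum `≡ 4 s^2`, so for one sign `p` does not divide `N(t)`, `t = s + B` (replace `s` by `-s`).
`N(t) B ≡ s t^2 mod p` in `ℤ√D`: `B star t = s B + N(B) ≡ s (B + s) = s t`, times `t`. Choose an integer `k` with `m k N(t) ≡ s mod p` (`p` prime to `m N(t)`), then `B ≡ m k t^2 mod p` (multiply by `N(t)`). `sy_mod`: `sy (-p) B = sy (-p) (t^2 * (m k))`, `s2`: `= sy (-p) (m k)`.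
`pm_sq`: `k ≡ ± l^2 mod p`, `sy_mod`: `sy (-p) (m k) = sy (-p) (l^2 (± m)) = sy (-p) (± m) = 1` (`s2` with `r = l`, `sy_m`).
`s3`: `red`, then the cases. `chi_one`: `int_row` with `q = m`: `X e` has the row `(a, m B)`, `Vd` (`row_cop`), `B ≠ 0`; `χ X = χ (X e) = sy a (m B) = 1` (`sy_eq`, `eE`).
-/

set_option autoImplicit false

namespace Pool.Agent.Lib.CSL

variable {D : ℤ} {m : ℕ} {c : ℤ} {A : Type} [CommGroup A] {χ : G D m →* A}

private theorem sy6_dvd {z : ℤ√D} {p : ℤ} : ((-p : ℤ) : ℤ√D) ∣ z ↔ (p : ℤ√D) ∣ z := by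
  rw [Int.cast_neg, neg_dvd]

private theorem sy6_cast {D : ℤ} {a b : ℤ} (h : a ∣ b) : (a : ℤ√D) ∣ (b : ℤ√D) := by
  obtain ⟨u, rfl⟩ := h
  exact ⟨u, by push_cast; ring⟩

/-- `x ≠ 0` from the norm -/
private theorem sy6_ne {z : ℤ√D} {p : ℤ} (h : ¬ p ∣ z.norm) : z ≠ 0 := by
  rintro rfl
  apply h
  rw [Zsqrtd.norm_zero]
  exact dvd_zero p

private theorem sy6_last (H : Dat D m c χ) {p : ℕ} (hp : p.Prime) (hpm : (m : ℤ) ^ 2 ∣ (p : ℤ) + 1)
    (hp4 : (p : ℤ) ≡ -1 [ZMOD 4]) {k : ℤ} (hk : ¬ (p : ℤ) ∣ m * k)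
    (hV : Vd D m (-p) (m * k)) : sy χ (-p) (m * k) = 1 := by
  have hpI : Prime (p : ℤ) := Nat.prime_iff_prime_int.1 hp
  have hpa : (m : ℤ) ^ 2 ∣ (-(p : ℤ)) - 1 := by
    have : (-(p : ℤ)) - 1 = -((p : ℤ) + 1) := by ring
    rw [this]
    exact (dvd_neg).2 hpm
  obtain ⟨⟨hm1, hm2⟩, hm3, hm4⟩ := sy_m H hpa
  have hkk : ¬ (p : ℤ) ∣ k := fun h => hk (h.mul_left _)
  have hm0 : (m : ℤ√D) ≠ 0 := by
    intro h0
    have h5 := congrArg Zsqrtd.re h0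
    have h6 := H.m0
    simp at h5
    omega
  obtain ⟨l, hl⟩ := pm_sq hp hp4 k
  have hll : ¬ (p : ℤ) ∣ l := by
    intro h
    have h1 : (p : ℤ) ∣ l ^ 2 := h.trans (dvd_pow_self l two_ne_zero)
    rcases hl with hl | hl
    · exact hkk ((dvd_sub_left h1).1 hl)
    · exact hkk ((dvd_add_left h1).1 hl)
  have hl0 : (l : ℤ√D) ≠ 0 := by
    intro h0
    have h5 := congrArg Zsqrtd.re h0
    simp at h5
    exact hll (by rw [h5]; exact dvd_zero _)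
  have hlc : IsCoprime (-(p : ℤ)) ((l : ℤ√D).norm) := by
    rw [IsCoprime.neg_left_iff, Zsqrtd.norm_intCast]
    have h7 : IsCoprime (p : ℤ) l := (Irreducible.coprime_iff_not_dvd hpI.irreducible).2 hll
    exact h7.mul_right h7
  rcases hl with hl | hl
  · have h8 := sy_mod H hV (B' := (l : ℤ√D) ^ 2 * m) (dvd_mul_left _ _) (by
      have h9 : ((-(p : ℤ) : ℤ) : ℤ√D) ∣ ((k - l ^ 2 : ℤ) : ℤ√D) := sy6_dvd.2 (sy6_cast hl)
      have h10 : (l : ℤ√D) ^ 2 * m - m * k = -m * ((k - l ^ 2 : ℤ) : ℤ√D) := by push_cast; ring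
      rw [h10]
      exact h9.mul_left _)
    rw [← h8.2, s2 H hm1 hm0 hl0 hlc, hm2]
  · have h8 := sy_mod H hV (B' := (l : ℤ√D) ^ 2 * (-m)) ((dvd_neg.2 dvd_rfl).mul_left _) (by
      have h9 : ((-(p : ℤ) : ℤ) : ℤ√D) ∣ ((k + l ^ 2 : ℤ) : ℤ√D) := sy6_dvd.2 (sy6_cast hl)
      have h10 : (l : ℤ√D) ^ 2 * (-m) - m * k = -m * ((k + l ^ 2 : ℤ) : ℤ√D) := by push_cast; ring
      rw [h10]
      exact h9.mul_left _)
    rw [← h8.2, s2 H hm3 (neg_ne_zero.2 hm0) hl0 hlc, hm4]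

private theorem sy6_main (H : Dat D m c χ) {p : ℕ} (hp : p.Prime) (hpm : (m : ℤ) ^ 2 ∣ (p : ℤ) + 1)
    (hmp : m < p) (hp4 : (p : ℤ) ≡ -1 [ZMOD 4]) {B : ℤ√D} (hV : Vd D m (-p) B) {s : ℤ}
    (hs : (p : ℤ) ∣ s ^ 2 - B.norm) (hs0 : ¬ (p : ℤ) ∣ s)
    (ht : ¬ (p : ℤ) ∣ ((s : ℤ√D) + B).norm) : sy χ (-p) B = 1 := by
  have hpI : Prime (p : ℤ) := Nat.prime_iff_prime_int.1 hp
  obtain ⟨t, hT⟩ : ∃ t, t = (s : ℤ√D) + B := ⟨_, rfl⟩
  rw [← hT] at ht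
  have hpm' : ¬ (p : ℤ) ∣ (m : ℤ) := by
    intro h
    have := Int.le_of_dvd (by exact_mod_cast H.m0) h
    omega
  have hco : IsCoprime ((m : ℤ) * t.norm) (p : ℤ) := by
    apply IsCoprime.symm
    rw [Irreducible.coprime_iff_not_dvd hpI.irreducible]
    intro h
    rcases hpI.dvd_or_dvd h with h | h
    · exact hpm' h
    · exact ht h
  obtain ⟨u, v, huv⟩ := hco
  obtain ⟨k, hk⟩ : ∃ k, k = u * s := ⟨_, rfl⟩
  have hk1 : s - m * k * t.norm = (v * s) * p := by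
    rw [hk]
    linear_combination (-s) * huv
  have hmk : ¬ (p : ℤ) ∣ m * k := by
    intro h
    apply hs0
    have h1 : (p : ℤ) ∣ s - m * k * t.norm := ⟨v * s, by rw [hk1]; ring⟩
    exact (dvd_sub_left (h.mul_right _)).1 h1
  -- `N(t) B = s t^2 mod p`
  have hnt : ((t.norm : ℤ) : ℤ√D) = t * star t := Zsqrtd.norm_eq_mul_conj t
  have hnB : ((B.norm : ℤ) : ℤ√D) = B * star B := Zsqrtd.norm_eq_mul_conj B
  have hst : star t = (s : ℤ√D) + star B := by rw [hT, star_add, star_intCast]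
  obtain ⟨w, hw⟩ := hs
  have hw' : (s : ℤ√D) ^ 2 - B.norm = (p : ℤ√D) * w := by
    have := congrArg (Int.cast : ℤ → ℤ√D) hw
    push_cast at this
    exact this
  have hk1' : (s : ℤ√D) - m * k * (t.norm : ℤ√D) = (v * s) * p := by
    have := congrArg (Int.cast : ℤ → ℤ√D) hk1
    push_cast at this
    exact this
  have hdiv : (p : ℤ√D) ∣ t ^ 2 * (m * k) - B := by
    obtain ⟨u', v', huv'⟩ : IsCoprime (t.norm) (p : ℤ) :=
      ((Irreducible.coprime_iff_not_dvd hpI.irreducible).2 ht).symm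
    have huv2 : (u' : ℤ√D) * (t.norm : ℤ√D) + v' * (p : ℤ√D) = 1 := by
      have := congrArg (Int.cast : ℤ → ℤ√D) huv'
      push_cast at this
      exact this
    have h1 : (t.norm : ℤ√D) * (t ^ 2 * (m * k) - B) = (p : ℤ√D) * (t * w - t ^ 2 * (v * s)) := by
      have h2 : (t.norm : ℤ√D) * B = s * t ^ 2 - t * (p * w) := by
        rw [hnt, hst]
        have h3 : t * ((s : ℤ√D) + star B) * B = t * (s * B + B * star B) := by ring
        rw [h3, ← hnB]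
        have h4 : (B.norm : ℤ√D) = s ^ 2 - p * w := by linear_combination -hw'
        rw [h4]
        have h5 : B = t - s := by rw [hT]; ring
        rw [h5]
        ring
      linear_combination (-1 : ℤ√D) * h2 - t ^ 2 * hk1'
    refine ⟨u' * (t * w - t ^ 2 * (v * s)) + v' * (t ^ 2 * (m * k) - B), ?_⟩
    linear_combination (-(t ^ 2 * (m * k) - B)) * huv2 + u' * h1
  have hmod := sy_mod H hV (B' := t ^ 2 * (m * k)) (((dvd_mul_right _ _)).mul_left _) (by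
    exact sy6_dvd.2 (by rw [Int.cast_natCast]; exact hdiv))
  have hVk : Vd D m (-p) (m * k) := by
    refine ⟨hV.1, dvd_mul_right _ _, ?_⟩
    have h7 : IsCoprime (p : ℤ) (m * k) := (Irreducible.coprime_iff_not_dvd hpI.irreducible).2 hmk
    have h8 : ((m : ℤ√D) * k).norm = (m * k) * (m * k) := by
      have h9 : ((m : ℤ√D) * k) = (((m : ℤ) * k : ℤ) : ℤ√D) := by push_cast; ring
      rw [h9, Zsqrtd.norm_intCast]
    rw [h8, IsCoprime.neg_left_iff]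
    exact h7.mul_right h7
  have hmk0 : (m : ℤ√D) * k ≠ 0 := by
    have h9 : ((m : ℤ√D) * k) = (((m : ℤ) * k : ℤ) : ℤ√D) := by push_cast; ring
    rw [h9]
    intro h0
    have h5 := congrArg Zsqrtd.re h0
    simp at h5
    apply hmk
    rcases h5 with h5 | h5
    · exact absurd h5 H.m0.ne'
    · rw [h5, mul_zero]
      exact dvd_zero _
  have htc : IsCoprime (-(p : ℤ)) t.norm := by
    rw [IsCoprime.neg_left_iff]
    exact (Irreducible.coprime_iff_not_dvd hpI.irreducible).2 ht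
  rw [← hmod.2, s2 H hVk hmk0 (sy6_ne ht) htc]
  exact sy6_last H hp hpm hp4 hmk hVk

theorem case2 (H : Dat D m c χ) {p : ℕ} (hp : p.Prime) (hpm : (m : ℤ) ^ 2 ∣ (p : ℤ) + 1) (hmp : m < p) {B : ℤ√D} (hV : Vd D m (-p) B)
    (hB : B ≠ 0) (h : ∀ t : ℤ, ¬ (p : ℤ) ∣ t ^ 2 - c * B.norm) : sy χ (-p) B = 1 := by
  have hpI : Prime (p : ℤ) := Nat.prime_iff_prime_int.1 hp
  have hm1 : (m : ℤ) ∣ (p : ℤ) + 1 := (dvd_pow_self _ two_ne_zero).trans hpm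
  have h4D : 4 * D * c ∣ (p : ℤ) + 1 := H.md.trans hm1
  have hp4 : (p : ℤ) ≡ -1 [ZMOD 4] := by
    apply Int.ModEq.symm
    rw [Int.modEq_iff_dvd]
    have : (p : ℤ) - -1 = p + 1 := by ring
    rw [this]
    exact (Dvd.intro (D * c) (by ring)).trans h4D
  have hp4c : (p : ℤ) ≡ -1 [ZMOD 4 * c] := by
    apply Int.ModEq.symm
    rw [Int.modEq_iff_dvd]
    have : (p : ℤ) - -1 = p + 1 := by ring
    rw [this]
    exact (Dvd.intro D (by ring)).trans h4D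
  have hp2 : ¬ (p : ℤ) ∣ 4 := by
    intro h2
    have h3 : p ∣ 4 := by exact_mod_cast h2
    have h4 : p ∣ 2 := hp.dvd_of_dvd_pow (show p ∣ 2 ^ 2 from h3)
    have h5 : p = 2 := (Nat.prime_dvd_prime_iff_eq hp Nat.prime_two).1 h4
    rw [h5] at hp4
    exact absurd hp4 (by decide)
  obtain ⟨s, hs⟩ := sq_mul hp c B.norm (nsq_c H.c0 hp hp4c) h
  have hNB : ¬ (p : ℤ) ∣ B.norm := by
    have h1 := hV.2.2
    rw [IsCoprime.neg_left_iff] at h1
    exact (Irreducible.coprime_iff_not_dvd hpI.irreducible).1 h1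
  have hs0 : ¬ (p : ℤ) ∣ s := by
    intro h1
    have h2 : (p : ℤ) ∣ s ^ 2 := h1.trans (dvd_pow_self s two_ne_zero)
    exact hNB ((dvd_sub_right h2).1 hs)
  by_cases ht : (p : ℤ) ∣ ((s : ℤ√D) + B).norm
  · refine sy6_main H hp hpm hmp hp4 hV (s := -s) (by rwa [neg_sq]) (by rwa [dvd_neg]) ?_
    intro ht'
    have h1 : ((s : ℤ√D) + B).norm + (((-s : ℤ) : ℤ√D) + B).norm = 4 * s ^ 2 - 2 * (s ^ 2 - B.norm) := by
      simp only [Zsqrtd.norm_def, Zsqrtd.re_add, Zsqrtd.im_add, Zsqrtd.re_intCast, Zsqrtd.im_intCast]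
      ring
    have h2 : (p : ℤ) ∣ 4 * s ^ 2 := by
      have h3 := dvd_add ht ht'
      rw [h1] at h3
      exact (dvd_sub_left (hs.mul_left 2)).1 h3
    rcases hpI.dvd_or_dvd h2 with h3 | h3
    · exact hp2 h3
    · exact hs0 (hpI.dvd_of_dvd_pow h3)
  · exact sy6_main H hp hpm hmp hp4 hV hs hs0 ht

theorem s3 (H : Dat D m c χ) {a : ℤ} {B : ℤ√D} (hV : Vd D m a B) (hB : B ≠ 0) : sy χ a B = 1 := by
  obtain ⟨p, hp, hmp, hpm, hV', h1⟩ := red H hV hB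
  rw [← h1]
  by_cases h : ∃ t : ℤ, (p : ℤ) ∣ t ^ 2 - c * B.norm
  · exact case1 H hp hpm hV' hB h
  · exact case2 H hp hpm hmp hV' hB fun t ht => h ⟨t, ht⟩

theorem chi_one (H : Dat D m c χ) {X : S2 (ℤ√D)} (hX : X ∈ G D (m ^ 2)) (hX' : X ∈ G D m) : χ ⟨X, hX'⟩ = 1 := by
  have hm2 : 2 ≤ m := by
    obtain ⟨u, hu⟩ := H.md
    have h0 := H.m0
    rcases Nat.lt_or_ge m 2 with h1 | h1
    · exfalso
      have h2 : m = 1 := by omega
      rw [h2] at hu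
      have h3 : (1 : ℤ) = 4 * (D * c * u) := by rw [← Nat.cast_one (R := ℤ), hu]; ring
      omega
    · exact h1
  obtain ⟨e, he, a, B, hB, h1, h2, h3⟩ := int_row hm2 hX
  have heG : e ∈ G D m := E_le_G D m he
  have h4 : χ ⟨X * e, (G D m).mul_mem hX' heG⟩ = χ ⟨X, hX'⟩ := by
    have h5 : (⟨X * e, (G D m).mul_mem hX' heG⟩ : G D m) = ⟨X, hX'⟩ * ⟨e, heG⟩ := rfl
    rw [h5, map_mul, H.eE e heG he, mul_one]
  have hB0 : (m : ℤ√D) * B ≠ 0 := by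
    intro h5
    have h6 := congrArg Zsqrtd.norm h5
    rw [Zsqrtd.norm_mul, Zsqrtd.norm_natCast, Zsqrtd.norm_zero] at h6
    rcases mul_eq_zero.1 h6 with h7 | h7
    · have h8 : (m : ℤ) = 0 := mul_self_eq_zero.1 h7
      omega
    · rw [Zsqrtd.norm_eq_zero H.hD] at h7
      rw [h7] at hB
      obtain ⟨u, v, huv⟩ := hB
      simp at huv
  have hV : Vd D m a (m * B) := by
    refine ⟨h3, dvd_mul_right _ _, ?_⟩
    rw [← h2]
    exact row_cop (X * e) a h1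
  rw [← h4, ← sy_eq H ⟨X * e, (G D m).mul_mem hX' heG⟩ h1 h2]
  exact s3 H hV hB0

end Pool.Agent.Lib.CSL
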