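import Pool.Agent.Lib.MP_240120_ag.CS.Def

/-!
# CS / Top (75 minutes): a normal subgroup of SL₂(K) with a torus element is everything

`KD D` is a field (`QuadraticAlgebra` instance with the `Fact`). `d := im (dg u v h)`, `U = io u`, `U^2 ≠ 1`. For `x : KD D`: `e12 x * d * (e12 x)⁻¹ * d⁻¹ ∈ M` is `e12 ((1 - U^2) x)` (`dg_e12`: `d e12 (-x) d⁻¹ = e12 (-U^2 x)`), so `e12 y ∈ M` for all `y`
(`x = y / (1 - U^2)`); the same for `e21` (`1 - V^2 ≠ 0`, `V = U⁻¹`). For `g : S2 (KD D)` with `g.c ≠ 0`: `g = e12 ((g.a - 1)/g.c) * e21 g.c * e12 ((g.d - 1)/g.c)` (use `g.h`). If `g.c = 0` then `g.a ≠ 0` and `e21 1 * g` has lower left entry `g.a ≠ 0`.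
-/

set_option autoImplicit false

namespace Pool.Agent.Lib.CSL

theorem top {D : ℤ} [Fact (∀ r : ℚ, r ^ 2 ≠ (D : ℚ) + 0 * r)] (M : Subgroup (S2 (KD D))) [M.Normal] {u v : ℤ√D} (h : u * v = 1) (hu : u ^ 2 ≠ 1)
    (hM : im D (dg u v h) ∈ M) : M = ⊤ := by
  have hUV : io D u * io D v = 1 := by rw [← map_mul, h, map_one]
  have hU : (io D u) ^ 2 ≠ 1 := by
    intro h1
    apply hu
    apply io_inj D
    rw [map_pow, h1, map_one]
  have hV : (io D v) ^ 2 ≠ 1 := by
    intro h1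
    apply hU
    have h2 : (io D u * io D v) ^ 2 = 1 := by rw [hUV, one_pow]
    rw [mul_pow, h1, mul_one] at h2
    exact h2
  have hd : im D (dg u v h) = dg (io D u) (io D v) hUV := by
    ext <;> simp [im]
  rw [hd] at hM
  have hM' := M.inv_mem hM
  have key : ∀ e : S2 (KD D), e * (dg (io D u) (io D v) hUV * e⁻¹ * (dg (io D u) (io D v) hUV)⁻¹) ∈ M := by
    intro e
    have h1 : e * (dg (io D u) (io D v) hUV) * e⁻¹ ∈ M := Subgroup.Normal.conj_mem ‹M.Normal› _ hM e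
    have h2 := M.mul_mem h1 hM'
    have h3 : e * (dg (io D u) (io D v) hUV * e⁻¹ * (dg (io D u) (io D v) hUV)⁻¹) =
        e * (dg (io D u) (io D v) hUV) * e⁻¹ * (dg (io D u) (io D v) hUV)⁻¹ := by group
    rw [h3]
    exact h2
  have h12 : ∀ y : KD D, e12 y ∈ M := by
    intro y
    have h1 := key (e12 (y / (1 - (io D u) ^ 2)))
    rw [← e12_neg, dg_e12, ← e12_add] at h1
    have h2 : y / (1 - (io D u) ^ 2) + (io D u) ^ 2 * -(y / (1 - (io D u) ^ 2)) = y := by
      have h3 : (1 - (io D u) ^ 2) ≠ 0 := sub_ne_zero.2 (Ne.symm hU)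
      have h4 : y / (1 - (io D u) ^ 2) + (io D u) ^ 2 * -(y / (1 - (io D u) ^ 2)) =
        (y / (1 - (io D u) ^ 2)) * (1 - (io D u) ^ 2) := by ring
      rw [h4, div_mul_cancel₀ _ h3]
    rw [h2] at h1
    exact h1
  have h21 : ∀ y : KD D, e21 y ∈ M := by
    intro y
    have h1 := key (e21 (y / (1 - (io D v) ^ 2)))
    rw [← e21_neg, dg_e21, ← e21_add] at h1
    have h2 : y / (1 - (io D v) ^ 2) + (io D v) ^ 2 * -(y / (1 - (io D v) ^ 2)) = y := by
      have h3 : (1 - (io D v) ^ 2) ≠ 0 := sub_ne_zero.2 (Ne.symm hV)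
      have h4 : y / (1 - (io D v) ^ 2) + (io D v) ^ 2 * -(y / (1 - (io D v) ^ 2)) =
        (y / (1 - (io D v) ^ 2)) * (1 - (io D v) ^ 2) := by ring
      rw [h4, div_mul_cancel₀ _ h3]
    rw [h2] at h1
    exact h1
  have hc : ∀ g : S2 (KD D), g.c ≠ 0 → g ∈ M := by
    intro g hg
    have h1 : g = e12 ((g.a - 1) / g.c) * e21 g.c * e12 ((g.d - 1) / g.c) := by
      have e1 : (g.a - 1) / g.c * g.c = g.a - 1 := div_mul_cancel₀ _ hg
      have e2 : (g.d - 1) / g.c * g.c = g.d - 1 := div_mul_cancel₀ _ hg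
      ext1
      · simp only [S2.mul_a, S2.mul_b, S2.mul_c, S2.mul_d, e12_a, e12_b, e12_c, e12_d, e21_a,
          e21_b, e21_c, e21_d]
        linear_combination -e1
      · simp only [S2.mul_a, S2.mul_b, S2.mul_c, S2.mul_d, e12_a, e12_b, e12_c, e12_d, e21_a,
          e21_b, e21_c, e21_d]
        have e3 : g.b = (g.a * g.d - 1) / g.c := by
          rw [eq_div_iff hg]
          linear_combination -g.h
        rw [e3]
        rw [div_eq_iff hg]
        linear_combination (-g.a) * e2 - ((g.d - 1) / g.c * g.c + 1) * e1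
      · simp only [S2.mul_a, S2.mul_b, S2.mul_c, S2.mul_d, e12_a, e12_b, e12_c, e12_d, e21_a,
          e21_b, e21_c, e21_d]
        ring
      · simp only [S2.mul_a, S2.mul_b, S2.mul_c, S2.mul_d, e12_a, e12_b, e12_c, e12_d, e21_a,
          e21_b, e21_c, e21_d]
        linear_combination -e2
    rw [h1]
    exact M.mul_mem (M.mul_mem (h12 _) (h21 _)) (h12 _)
  rw [Subgroup.eq_top_iff']
  intro g
  by_cases hg : g.c = 0
  · have ha : g.a ≠ 0 := by
      intro ha
      have h1 := g.h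
      rw [ha, hg] at h1
      simp at h1
    have h1 : (e21 (1 : KD D) * g).c ≠ 0 := by
      rw [S2.mul_c]
      simp [hg, ha]
    have h2 := hc _ h1
    exact (M.mul_mem_cancel_left (h21 1)).1 h2
  · exact hc g hg

end Pool.Agent.Lib.CSL
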