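import Pool.Agent.Lib.MP_240120_ag.CS.Def

/-!
# CS / Fnq (45 minutes): G(q) has finite index

`S2 (ℤ√D) ⧸ G D q` injects into the residues of the four entries: the map `X ↦ ((X.a.re : ZMod q), (X.a.im : ZMod q), ...)` has the property: if `X`, `Y` have the same image then `X⁻¹ Y ∈ G D q` (`Zsqrtd.intCast_dvd`). `Finite` by `Finite.of_injective` on the quotient
(choose representatives `Quotient.out`).
-/

set_option autoImplicit false

namespace Pool.Agent.Lib.CSL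

/-- residues of the two coordinates -/
private def fnqR (D : ℤ) (q : ℕ) (z : ℤ√D) : ZMod q × ZMod q := ((z.re : ZMod q), (z.im : ZMod q))

private theorem fnqR_dvd {D : ℤ} {q : ℕ} {z w : ℤ√D} (h : fnqR D q z = fnqR D q w) :
    ∃ t : ℤ√D, w = z + q * t := by
  have h1 : ((z.re : ℤ) : ZMod q) = ((w.re : ℤ) : ZMod q) := congrArg Prod.fst h
  have h2 : ((z.im : ℤ) : ZMod q) = ((w.im : ℤ) : ZMod q) := congrArg Prod.snd h
  have h3 := (ZMod.intCast_eq_intCast_iff_dvd_sub _ _ _).1 h1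
  have h4 := (ZMod.intCast_eq_intCast_iff_dvd_sub _ _ _).1 h2
  obtain ⟨a, ha⟩ := h3
  obtain ⟨b, hb⟩ := h4
  refine ⟨⟨a, b⟩, ?_⟩
  ext
  · simp
    linarith
  · simp
    linarith

/-- residues of the entries -/
private def fnqF (D : ℤ) (q : ℕ) (X : S2 (ℤ√D)) :
    ((ZMod q × ZMod q) × (ZMod q × ZMod q)) × ((ZMod q × ZMod q) × (ZMod q × ZMod q)) :=
  ((fnqR D q X.a, fnqR D q X.b), (fnqR D q X.c, fnqR D q X.d))

private theorem fnqF_mem {D : ℤ} {q : ℕ} {X Y : S2 (ℤ√D)} (h : fnqF D q X = fnqF D q Y) :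
    X⁻¹ * Y ∈ G D q := by
  unfold fnqF at h
  simp only [Prod.mk.injEq] at h
  obtain ⟨⟨h1, h2⟩, h3, h4⟩ := h
  obtain ⟨a, ha⟩ := fnqR_dvd h1
  obtain ⟨b, hb⟩ := fnqR_dvd h2
  obtain ⟨c, hc⟩ := fnqR_dvd h3
  obtain ⟨d, hd⟩ := fnqR_dvd h4
  rw [mem_G]
  refine ⟨⟨X.d * a - X.b * c, ?_⟩, ⟨X.d * b - X.b * d, ?_⟩, ⟨X.a * c - X.c * a, ?_⟩,
    ⟨X.a * d - X.c * b, ?_⟩⟩
  · simp only [S2.mul_a, S2.inv_a, S2.inv_b, ha, hc]
    linear_combination X.h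
  · simp only [S2.mul_b, S2.inv_a, S2.inv_b, hb, hd]
    ring
  · simp only [S2.mul_c, S2.inv_c, S2.inv_d, ha, hc]
    ring
  · simp only [S2.mul_d, S2.inv_c, S2.inv_d, hb, hd]
    linear_combination X.h

theorem fnq (D : ℤ) {q : ℕ} (hq : 0 < q) : Finite (S2 (ℤ√D) ⧸ G D q) := by
  haveI : NeZero q := ⟨hq.ne'⟩
  refine Finite.of_injective (fun c : S2 (ℤ√D) ⧸ G D q => fnqF D q (Quotient.out c)) ?_
  intro c c' h
  have h1 : (Quotient.out c)⁻¹ * Quotient.out c' ∈ G D q := fnqF_mem h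
  have h2 : ((Quotient.out c : S2 (ℤ√D)) : S2 (ℤ√D) ⧸ G D q) = (Quotient.out c' : S2 (ℤ√D)) :=
    QuotientGroup.eq.2 h1
  rw [QuotientGroup.out_eq', QuotientGroup.out_eq'] at h2
  exact h2

end Pool.Agent.Lib.CSL
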