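import Pool.Agent.Lib.MP_240120_ag.CS.Def
import Pool.Agent.Lib.MP_240120_ag.CS.Den
import Pool.Agent.Lib.MP_240120_ag.CS.Fnq

/-!
# CS / Uni (75 minutes): UNI of CS_TEXT.md

`den g` for `k = c0`: `c1`, every `x ∈ G D c1` has `g x g⁻¹ = im Y`, `Y ∈ G D c0`. By `fnq` the quotient `Q = S2 ⧸ G D c1` is finite (`G` is normal: left and right cosets agree). For `γ ∈ Q` let `k γ` be the number of `H2` for `h = g * im (out γ)` and `k' γ` the one for `h = g * im (out γ) * w`,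
`w = ⟨0, 1, -1, 0, _⟩` (`e21 z = w * e12 (-z) * w⁻¹` or with the other sign, compute). `k := ∏ γ, k γ * k' γ`. The set `{e | g e g⁻¹ ∈ N}` is a subgroup (comap), so by `Subgroup.normalClosure` = closure of conjugates (`Group.conjugatesOfSet`) it is enough to treat
`e = γ e12 (k z) γ⁻¹`, `γ e21 (k z) γ⁻¹`, `γ ∈ S2`. `γ = x * out γ'` with `x ∈ G D c1` (normality), `g γ .. γ⁻¹ g⁻¹ = (g x g⁻¹) (g out γ' .. ) (g x g⁻¹)⁻¹`, `H1`.
-/

set_option autoImplicit false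

namespace Pool.Agent.Lib.CSL

/-- the Weyl element -/
def uniW (D : ℤ) : S2 (KD D) := ⟨0, 1, -1, 0, by ring⟩

theorem uniW_e12 {D : ℤ} (t : KD D) : uniW D * e12 (-t) * (uniW D)⁻¹ = e21 t := by
  ext1 <;> simp [uniW]

theorem uni_map_e12 {D : ℤ} (t : ℤ√D) : im D (e12 t) = e12 (io D t) := by
  ext1 <;> simp

theorem uni_map_e21 {D : ℤ} (t : ℤ√D) : im D (e21 t) = e21 (io D t) := by
  ext1 <;> simp

theorem uni {D : ℤ} (N : Subgroup (S2 (KD D))) {c0 : ℕ} (hc0 : 0 < c0) (H1 : ∀ X ∈ G D c0, ∀ Y ∈ N, im D X * Y * (im D X)⁻¹ ∈ N)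
    (H2 : ∀ h : S2 (KD D), ∃ k : ℕ, 0 < k ∧ ∀ z : ℤ√D, h * e12 (io D (k * z)) * h⁻¹ ∈ N) (g : S2 (KD D)) :
    ∃ k : ℕ, 0 < k ∧ ∀ e ∈ E D k, g * im D e * g⁻¹ ∈ N := by
  classical
  obtain ⟨c1, hc1, hden⟩ := den g hc0
  haveI := fnq D hc1
  letI := Fintype.ofFinite (S2 (ℤ√D) ⧸ G D c1)
  choose K hK0 hK using H2
  set k : ℕ := ∏ γ : S2 (ℤ√D) ⧸ G D c1, K (g * im D γ.out) * K (g * im D γ.out * uniW D) with hk
  refine ⟨k, ?_, ?_⟩
  · rw [hk]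
    exact Finset.prod_pos (fun γ _ => Nat.mul_pos (hK0 _) (hK0 _))
  -- the conjugates with `K h ∣ k`
  have hbase : ∀ (h : S2 (KD D)) (z : ℤ√D), K h ∣ k → h * e12 (io D (k * z)) * h⁻¹ ∈ N := by
    intro h z hd
    obtain ⟨m, hm⟩ := hd
    have h1 : (k : ℤ√D) * z = (K h : ℤ√D) * ((m : ℤ√D) * z) := by
      rw [hm]; push_cast; ring
    rw [h1]
    exact hK h _
  have hdvd : ∀ γ : S2 (ℤ√D) ⧸ G D c1,
      K (g * im D γ.out) * K (g * im D γ.out * uniW D) ∣ k := by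
    intro γ
    rw [hk]
    exact Finset.dvd_prod_of_mem (fun γ : S2 (ℤ√D) ⧸ G D c1 =>
      K (g * im D γ.out) * K (g * im D γ.out * uniW D)) (Finset.mem_univ γ)
  -- the elements `h e h⁻¹` for `h = g * out γ`
  have hel : ∀ (γ : S2 (ℤ√D) ⧸ G D c1) (a : S2 (ℤ√D)),
      (∃ z : ℤ√D, a = e12 (k * z) ∨ a = e21 (k * z)) →
      (g * im D γ.out) * im D a * (g * im D γ.out)⁻¹ ∈ N := by
    rintro γ a ⟨z, rfl | rfl⟩
    · rw [uni_map_e12]
      exact hbase _ z ((Nat.dvd_mul_right _ _).trans (hdvd γ))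
    · rw [uni_map_e21]
      have h1 := hbase (g * im D γ.out * uniW D) (-z) ((Nat.dvd_mul_left _ _).trans (hdvd γ))
      have h2 : io D ((k : ℤ√D) * (-z)) = -(io D ((k : ℤ√D) * z)) := by
        rw [mul_neg, map_neg]
      rw [h2] at h1
      have h3 : g * im D γ.out * uniW D * e12 (-(io D ((k : ℤ√D) * z))) *
          (g * im D γ.out * uniW D)⁻¹ =
          (g * im D γ.out) * (uniW D * e12 (-(io D ((k : ℤ√D) * z))) * (uniW D)⁻¹) *
          (g * im D γ.out)⁻¹ := by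
        group
      rw [h3, uniW_e12] at h1
      exact h1
  intro e he
  have hle : E D k ≤ N.comap ((MulAut.conj g).toMonoidHom.comp (im D)) := by
    unfold E Subgroup.normalClosure
    rw [Subgroup.closure_le]
    intro y hy
    rw [Group.mem_conjugatesOfSet_iff] at hy
    obtain ⟨a, ha, hay⟩ := hy
    rw [isConj_iff] at hay
    obtain ⟨γ₀, rfl⟩ := hay
    rw [SetLike.mem_coe, Subgroup.mem_comap, MonoidHom.comp_apply]
    change g * im D (γ₀ * a * γ₀⁻¹) * g⁻¹ ∈ N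
    obtain ⟨⟨h, hh⟩, hout⟩ := QuotientGroup.mk_out_eq_mul (G D c1) γ₀
    set γ : S2 (ℤ√D) ⧸ G D c1 := (γ₀ : S2 (ℤ√D) ⧸ G D c1) with hγ
    change γ.out = γ₀ * h at hout
    have hx : γ₀ * h⁻¹ * γ₀⁻¹ ∈ G D c1 :=
      (G_normal D c1).conj_mem _ ((G D c1).inv_mem hh) γ₀
    obtain ⟨Y, hY, hYe⟩ := hden _ hx
    have h1 : γ₀ = (γ₀ * h⁻¹ * γ₀⁻¹) * γ.out := by
      rw [hout]; group
    have h2 : g * im D (γ₀ * a * γ₀⁻¹) * g⁻¹ =
        im D Y * ((g * im D γ.out) * im D a * (g * im D γ.out)⁻¹) * (im D Y)⁻¹ := by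
      rw [← hYe]
      conv_lhs => rw [h1]
      generalize γ₀ * h⁻¹ * γ₀⁻¹ = x
      simp only [map_mul, map_inv]
      group
    rw [h2]
    exact H1 Y hY _ (hel γ a ha)
  exact hle he

end Pool.Agent.Lib.CSL
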