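import Pool.Agent.Lib.MP_240120_ag.CS.Def
import Pool.Agent.Lib.MP_240120_ag.CS.Uni
import Pool.Agent.Lib.MP_240120_ag.CS.Goo
import Pool.Agent.Lib.MP_240120_ag.CS.Top
import Pool.Agent.Lib.MP_240120_ag.CS.Cen
import Pool.Agent.Lib.MP_240120_ag.CS.Eta
import Pool.Agent.Lib.MP_240120_ag.CS.SDef
import Pool.Agent.Lib.MP_240120_ag.CS.Sy6

/-!
# CS / Abs: the abstract theorem (assembly, proved)
-/

set_option autoImplicit false

namespace Pool.Agent.Lib.CSL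

theorem abs_thm {D : ℤ} [hF : Fact (∀ r : ℚ, r ^ 2 ≠ (D : ℚ) + 0 * r)] (h0 : 0 < D) (N : Subgroup (S2 (KD D))) {c0 : ℕ} (hc0 : 0 < c0)
    (H1 : ∀ X ∈ G D c0, ∀ Y ∈ N, im D X * Y * (im D X)⁻¹ ∈ N)
    (H2 : ∀ h : S2 (KD D), ∃ k : ℕ, 0 < k ∧ ∀ z : ℤ√D, h * e12 (io D (k * z)) * h⁻¹ ∈ N) {c : ℤ} (hc : c < 0)
    (H3 : ∀ (a d : ℤ) (b : ℤ√D) (X : S2 (ℤ√D)), X.a = a → X.b = b → X.c = -c * star b → X.d = d → im D X ∈ N) :
    ∃ q : ℕ, 0 < q ∧ ∀ X ∈ G D q, im D X ∈ N := by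
  have hD : ∀ n : ℤ, D ≠ n * n := by
    intro n hn
    refine hF.out n ?_
    rw [hn]
    push_cast
    ring
  have hN := uni N hc0 H1 H2
  obtain ⟨u, v, huv, -, hu⟩ := eta h0 hD one_pos
  have hG : Good D N = ⊤ := top (Good D N) huv hu (good_dg h0 hD N hN huv)
  obtain ⟨k, hk, hkN⟩ := hN 1
  have hkN' : ∀ e ∈ E D k, im D e ∈ N := fun e he => by
    have := hkN e he
    rwa [one_mul, inv_one, mul_one] at this
  set m : ℕ := k * (4 * D * c).natAbs with hm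
  have h4 : (4 * D * c).natAbs ≠ 0 := by
    rw [Int.natAbs_ne_zero]
    exact mul_ne_zero (mul_ne_zero (by norm_num) h0.ne') hc.ne
  have h4' : 4 ∣ (4 * D * c).natAbs := by
    have : (4 : ℤ).natAbs ∣ (4 * D * c).natAbs := Int.natAbs_dvd_natAbs.2 (Dvd.intro (D * c) (by ring))
    simpa using this
  have h4'' : 4 ≤ (4 * D * c).natAbs := Nat.le_of_dvd (Nat.pos_of_ne_zero h4) h4'
  have hm0 : 0 < m := Nat.mul_pos hk (Nat.pos_of_ne_zero h4)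
  have hm2 : 2 ≤ m := le_trans (by omega) (Nat.le_mul_of_pos_left _ hk)
  have hmN : ∀ e ∈ E D m, im D e ∈ N := fun e he => hkN' e (E_anti (Dvd.intro _ rfl) he)
  have hcen := fun (X : S2 (ℤ√D)) (Y : S2 (ℤ√D)) (hY : Y ∈ G D m) => cen hD N hG hm2 hmN X hY
  let N' : Subgroup (G D m) := (N.comap (im D)).subgroupOf (G D m)
  have memN' : ∀ X : G D m, X ∈ N' ↔ im D X.1 ∈ N := fun X => Iff.rfl
  haveI hnor : N'.Normal := ⟨by
    intro Y hY X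
    rw [memN'] at hY ⊢
    have h1 := hcen X.1 Y.1 Y.2
    have e1 : im D ((X * Y * X⁻¹ : G D m) : S2 (ℤ√D)) = im D (X.1 * Y.1 * X.1⁻¹ * Y.1⁻¹) * im D Y.1 := by
      rw [← map_mul]
      congr 1
      simp [mul_assoc]
    rw [e1]
    exact N.mul_mem h1 hY⟩
  have hcomm : ∀ x y : G D m ⧸ N', x * y = y * x := by
    intro x y
    obtain ⟨X, rfl⟩ := QuotientGroup.mk_surjective x
    obtain ⟨Y, rfl⟩ := QuotientGroup.mk_surjective y
    rw [← QuotientGroup.mk_mul, ← QuotientGroup.mk_mul, QuotientGroup.eq, memN']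
    have h1 := hcen (Y.1⁻¹) (X.1⁻¹) ((G D m).inv_mem X.2)
    have e1 : (((X * Y)⁻¹ * (Y * X) : G D m) : S2 (ℤ√D)) = Y.1⁻¹ * X.1⁻¹ * Y.1⁻¹⁻¹ * X.1⁻¹⁻¹ := by
      simp [mul_assoc]
    rw [e1]
    exact h1
  letI : CommGroup (G D m ⧸ N') := { QuotientGroup.Quotient.group N' with mul_comm := hcomm }
  let χ : G D m →* G D m ⧸ N' := QuotientGroup.mk' N'
  have chi_eq : ∀ X Y : G D m, im D (X.1 * Y.1⁻¹) ∈ N → χ X = χ Y := by
    intro X Y h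
    have h2 : χ (X * Y⁻¹) = 1 := (QuotientGroup.eq_one_iff _).2 h
    rw [map_mul, map_inv] at h2
    exact mul_inv_eq_one.1 h2
  have chi_1 : ∀ X : G D m, im D X.1 ∈ N → χ X = 1 := fun X h => (QuotientGroup.eq_one_iff _).2 h
  have H : Dat D m c χ := {
    D0 := h0
    hD := hD
    c0 := hc
    m0 := hm0
    md := by
      rw [hm]
      push_cast
      exact (dvd_abs _ _).2 (dvd_refl _) |>.mul_left _
    eE := fun e h he => chi_1 ⟨e, h⟩ (hmN e he)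
    dr := fun r hr => by
      obtain ⟨q, hq, h1⟩ := drr N hG r hr
      exact ⟨q, hq, fun Z hZ Z' hZ' hZq ha hd hb hc' => chi_eq ⟨Z', hZ'⟩ ⟨Z, hZ⟩ (h1 Z hZq Z' ha hd hb hc')⟩
    sp := fun a d b X hX ha hb hc' hd => chi_1 ⟨X, hX⟩ (H3 a d b X ha hb hc' hd) }
  refine ⟨m ^ 2, pow_pos hm0 2, fun X hX => ?_⟩
  have hX' : X ∈ G D m := G_anti (Dvd.intro m (by ring)) hX
  have h5 : χ ⟨X, hX'⟩ = 1 := chi_one H hX hX'
  exact (QuotientGroup.eq_one_iff (⟨X, hX'⟩ : G D m)).1 h5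

end Pool.Agent.Lib.CSL
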