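import Mathlib

/-!
# CS: congruence subgroups of orthogonal groups of lattices U + N. Definitions (see CS_TEXT.md)

`S2 A` is `SL₂(A)`; `R = ℤ√D`, `KD D = QuadraticAlgebra ℚ D 0` its field of fractions, `G D q` the principal congruence subgroup of `SL₂(R)`, `E D q` the normal closure
of the elementary matrices `≡ 1 mod q`, `im` the map `SL₂(R) → SL₂(K)`.
-/

set_option autoImplicit false

namespace Pool.Agent.Lib.CSL

/-- `SL₂(A)`: matrices `(a, b; c, d)` -/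
@[ext] structure S2 (A : Type*) [CommRing A] where
  a : A
  b : A
  c : A
  d : A
  h : a * d - b * c = 1

namespace S2

variable {A : Type*} [CommRing A]

instance : Mul (S2 A) := ⟨fun X Y => ⟨X.a * Y.a + X.b * Y.c, X.a * Y.b + X.b * Y.d, X.c * Y.a + X.d * Y.c, X.c * Y.b + X.d * Y.d, by
  linear_combination (Y.a * Y.d - Y.b * Y.c) * X.h + Y.h⟩⟩

instance : One (S2 A) := ⟨⟨1, 0, 0, 1, by ring⟩⟩

instance : Inv (S2 A) := ⟨fun X => ⟨X.d, -X.b, -X.c, X.a, by linear_combination X.h⟩⟩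

@[simp] theorem mul_a (X Y : S2 A) : (X * Y).a = X.a * Y.a + X.b * Y.c := rfl
@[simp] theorem mul_b (X Y : S2 A) : (X * Y).b = X.a * Y.b + X.b * Y.d := rfl
@[simp] theorem mul_c (X Y : S2 A) : (X * Y).c = X.c * Y.a + X.d * Y.c := rfl
@[simp] theorem mul_d (X Y : S2 A) : (X * Y).d = X.c * Y.b + X.d * Y.d := rfl
@[simp] theorem one_a : (1 : S2 A).a = 1 := rfl
@[simp] theorem one_b : (1 : S2 A).b = 0 := rfl
@[simp] theorem one_c : (1 : S2 A).c = 0 := rfl
@[simp] theorem one_d : (1 : S2 A).d = 1 := rfl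
@[simp] theorem inv_a (X : S2 A) : X⁻¹.a = X.d := rfl
@[simp] theorem inv_b (X : S2 A) : X⁻¹.b = -X.b := rfl
@[simp] theorem inv_c (X : S2 A) : X⁻¹.c = -X.c := rfl
@[simp] theorem inv_d (X : S2 A) : X⁻¹.d = X.a := rfl

instance : Group (S2 A) := Group.ofLeftAxioms
  (fun X Y Z => by ext <;> simp <;> ring)
  (fun X => by ext <;> simp)
  (fun X => by
    ext
    · simp only [mul_a, inv_a, inv_b, one_a]; linear_combination X.h
    · simp only [mul_b, inv_a, inv_b, one_b]; ring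
    · simp only [mul_c, inv_c, inv_d, one_c]; ring
    · simp only [mul_d, inv_c, inv_d, one_d]; linear_combination X.h)

/-- the map of a ring homomorphism -/
def map {B : Type*} [CommRing B] (f : A →+* B) : S2 A →* S2 B where
  toFun X := ⟨f X.a, f X.b, f X.c, f X.d, by rw [← map_mul, ← map_mul, ← map_sub, X.h, map_one]⟩
  map_one' := by ext <;> simp
  map_mul' X Y := by ext <;> simp

@[simp] theorem map_a {B : Type*} [CommRing B] (f : A →+* B) (X : S2 A) : (map f X).a = f X.a := rfl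
@[simp] theorem map_b {B : Type*} [CommRing B] (f : A →+* B) (X : S2 A) : (map f X).b = f X.b := rfl
@[simp] theorem map_c {B : Type*} [CommRing B] (f : A →+* B) (X : S2 A) : (map f X).c = f X.c := rfl
@[simp] theorem map_d {B : Type*} [CommRing B] (f : A →+* B) (X : S2 A) : (map f X).d = f X.d := rfl

end S2

section gen

variable {A : Type*} [CommRing A]

/-- `(1, z; 0, 1)` -/
def e12 (z : A) : S2 A := ⟨1, z, 0, 1, by ring⟩

/-- `(1, 0; z, 1)` -/
def e21 (z : A) : S2 A := ⟨1, 0, z, 1, by ring⟩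

/-- `(u, 0; 0, v)` -/
def dg (u v : A) (h : u * v = 1) : S2 A := ⟨u, 0, 0, v, by rw [h]; ring⟩

@[simp] theorem e12_a (z : A) : (e12 z).a = 1 := rfl
@[simp] theorem e12_b (z : A) : (e12 z).b = z := rfl
@[simp] theorem e12_c (z : A) : (e12 z).c = 0 := rfl
@[simp] theorem e12_d (z : A) : (e12 z).d = 1 := rfl
@[simp] theorem e21_a (z : A) : (e21 z).a = 1 := rfl
@[simp] theorem e21_b (z : A) : (e21 z).b = 0 := rfl
@[simp] theorem e21_c (z : A) : (e21 z).c = z := rfl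
@[simp] theorem e21_d (z : A) : (e21 z).d = 1 := rfl
@[simp] theorem dg_a (u v : A) (h : u * v = 1) : (dg u v h).a = u := rfl
@[simp] theorem dg_b (u v : A) (h : u * v = 1) : (dg u v h).b = 0 := rfl
@[simp] theorem dg_c (u v : A) (h : u * v = 1) : (dg u v h).c = 0 := rfl
@[simp] theorem dg_d (u v : A) (h : u * v = 1) : (dg u v h).d = v := rfl

theorem e12_add (x y : A) : e12 (x + y) = e12 x * e12 y := by
  ext <;> simp
  ring

theorem e21_add (x y : A) : e21 (x + y) = e21 x * e21 y := by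
  ext <;> simp

theorem e12_neg (x : A) : e12 (-x) = (e12 x)⁻¹ := by
  ext <;> simp

theorem e21_neg (x : A) : e21 (-x) = (e21 x)⁻¹ := by
  ext <;> simp

theorem e12_zero : e12 (0 : A) = 1 := rfl

theorem e21_zero : e21 (0 : A) = 1 := rfl

/-- `d(u) e12(x) d(u)⁻¹ = e12(u ^ 2 x)` -/
theorem dg_e12 (u v : A) (h : u * v = 1) (x : A) : dg u v h * e12 x * (dg u v h)⁻¹ = e12 (u ^ 2 * x) := by
  have h' : v * u = 1 := by rw [mul_comm]; exact h
  ext
  · simp [h]
  · simp; ring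
  · simp
  · simp [h']

/-- `d(u) e21(x) d(u)⁻¹ = e21(v ^ 2 x)` -/
theorem dg_e21 (u v : A) (h : u * v = 1) (x : A) : dg u v h * e21 x * (dg u v h)⁻¹ = e21 (v ^ 2 * x) := by
  have h' : v * u = 1 := by rw [mul_comm]; exact h
  ext
  · simp [h]
  · simp
  · simp; ring
  · simp [h']

/-- `d(u)` is a product of elementary matrices -/
theorem dg_word (u v x y : A) (h : u * v = 1) (hxy : x * y = 1) :
    dg u v h = e21 (-(1 - v) * y) * e12 x * e21 ((u - 1) * y) * e12 (-x * v) := by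
  ext
  · simp only [S2.mul_a, S2.mul_b, S2.mul_c, S2.mul_d, e12_a, e12_b, e12_c, e12_d, e21_a, e21_b, e21_c, e21_d, dg_a]
    linear_combination (1 - u) * hxy
  · simp only [S2.mul_a, S2.mul_b, S2.mul_c, S2.mul_d, e12_a, e12_b, e12_c, e12_d, e21_a, e21_b, e21_c, e21_d, dg_b]
    linear_combination x * h + x * v * (u - 1) * hxy
  · simp only [S2.mul_a, S2.mul_b, S2.mul_c, S2.mul_d, e12_a, e12_b, e12_c, e12_d, e21_a, e21_b, e21_c, e21_d, dg_c]
    linear_combination -y * h + (u - 1) * (1 - v) * y * hxy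
  · simp only [S2.mul_a, S2.mul_b, S2.mul_c, S2.mul_d, e12_a, e12_b, e12_c, e12_d, e21_a, e21_b, e21_c, e21_d, dg_d]
    linear_combination (1 - (1 - v) * x * y) * h + ((u - 1) * v - (1 - v) * x * y * (u - 1) * v) * hxy

end gen

/-! ### the rings -/

/-- the field `ℚ(√D)` -/
abbrev KD (D : ℤ) := QuadraticAlgebra ℚ (D : ℚ) 0

/-- the inclusion `ℤ√D → ℚ(√D)` -/
def io (D : ℤ) : ℤ√D →+* KD D where
  toFun z := ⟨z.re, z.im⟩
  map_one' := by ext <;> simp [QuadraticAlgebra.re_one, QuadraticAlgebra.im_one]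
  map_mul' x y := by ext <;> simp
  map_zero' := by ext <;> simp
  map_add' x y := by ext <;> simp

@[simp] theorem io_re (D : ℤ) (z : ℤ√D) : (io D z).re = z.re := rfl
@[simp] theorem io_im (D : ℤ) (z : ℤ√D) : (io D z).im = z.im := rfl

theorem io_inj (D : ℤ) : Function.Injective (io D) := by
  intro x y h
  have h1 := congrArg QuadraticAlgebra.re h
  have h2 := congrArg QuadraticAlgebra.im h
  simp only [io_re, io_im, Int.cast_inj] at h1 h2
  exact Zsqrtd.ext h1 h2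

theorem io_star (D : ℤ) (z : ℤ√D) : io D (star z) = star (io D z) := by
  ext <;> simp

/-- `SL₂(R) → SL₂(K)` -/
abbrev im (D : ℤ) : S2 (ℤ√D) →* S2 (KD D) := S2.map (io D)

/-- the principal congruence subgroup -/
def G (D : ℤ) (q : ℕ) : Subgroup (S2 (ℤ√D)) where
  carrier := {X | (q : ℤ√D) ∣ X.a - 1 ∧ (q : ℤ√D) ∣ X.b ∧ (q : ℤ√D) ∣ X.c ∧ (q : ℤ√D) ∣ X.d - 1}
  one_mem' := by simp
  mul_mem' := by
    rintro X Y ⟨h1, h2, h3, h4⟩ ⟨k1, k2, k3, k4⟩
    refine ⟨?_, ?_, ?_, ?_⟩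
    · have : (X * Y).a - 1 = (X.a - 1) * Y.a + (Y.a - 1) + X.b * Y.c := by rw [S2.mul_a]; ring
      rw [this]
      exact dvd_add (dvd_add (h1.mul_right _) k1) (h2.mul_right _)
    · rw [S2.mul_b]
      exact dvd_add (k2.mul_left _) (h2.mul_right _)
    · rw [S2.mul_c]
      exact dvd_add (h3.mul_right _) (k3.mul_left _)
    · have : (X * Y).d - 1 = X.c * Y.b + ((X.d - 1) * Y.d + (Y.d - 1)) := by rw [S2.mul_d]; ring
      rw [this]
      exact dvd_add (h3.mul_right _) (dvd_add (h4.mul_right _) k4)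
  inv_mem' := by
    rintro X ⟨h1, h2, h3, h4⟩
    exact ⟨h4, (dvd_neg).2 h2, (dvd_neg).2 h3, h1⟩

theorem mem_G {D : ℤ} {q : ℕ} {X : S2 (ℤ√D)} :
    X ∈ G D q ↔ (q : ℤ√D) ∣ X.a - 1 ∧ (q : ℤ√D) ∣ X.b ∧ (q : ℤ√D) ∣ X.c ∧ (q : ℤ√D) ∣ X.d - 1 := Iff.rfl

instance G_normal (D : ℤ) (q : ℕ) : (G D q).Normal where
  conj_mem := by
    rintro X ⟨⟨x, h1⟩, ⟨y, h2⟩, ⟨z, h3⟩, ⟨w, h4⟩⟩ g
    have e1 : X.a = 1 + q * x := by linear_combination h1
    have e4 : X.d = 1 + q * w := by linear_combination h4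
    refine ⟨⟨g.a * g.d * x + g.b * g.d * z - g.a * g.c * y - g.b * g.c * w, ?_⟩,
      ⟨-g.a * g.b * x - g.b * g.b * z + g.a * g.a * y + g.b * g.a * w, ?_⟩,
      ⟨g.c * g.d * x + g.d * g.d * z - g.c * g.c * y - g.c * g.d * w, ?_⟩,
      ⟨-g.c * g.b * x - g.d * g.b * z + g.c * g.a * y + g.d * g.a * w, ?_⟩⟩
    · simp only [S2.mul_a, S2.mul_b, S2.inv_a, S2.inv_c, e1, h2, h3, e4]
      linear_combination g.h
    · simp only [S2.mul_a, S2.mul_b, S2.inv_b, S2.inv_d, e1, h2, h3, e4]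
      ring
    · simp only [S2.mul_c, S2.mul_d, S2.inv_a, S2.inv_c, e1, h2, h3, e4]
      ring
    · simp only [S2.mul_c, S2.mul_d, S2.inv_b, S2.inv_d, e1, h2, h3, e4]
      linear_combination g.h

/-- the normal closure of the elementary matrices `≡ 1 mod q` -/
def E (D : ℤ) (q : ℕ) : Subgroup (S2 (ℤ√D)) := Subgroup.normalClosure {X | ∃ z : ℤ√D, X = e12 (q * z) ∨ X = e21 (q * z)}

instance E_normal (D : ℤ) (q : ℕ) : (E D q).Normal := Subgroup.normalClosure_normal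

theorem e12_E {D : ℤ} {q : ℕ} {z : ℤ√D} (h : (q : ℤ√D) ∣ z) : e12 z ∈ E D q := by
  obtain ⟨w, rfl⟩ := h
  exact Subgroup.subset_normalClosure ⟨w, Or.inl rfl⟩

theorem e21_E {D : ℤ} {q : ℕ} {z : ℤ√D} (h : (q : ℤ√D) ∣ z) : e21 z ∈ E D q := by
  obtain ⟨w, rfl⟩ := h
  exact Subgroup.subset_normalClosure ⟨w, Or.inr rfl⟩

theorem E_le_G (D : ℤ) (q : ℕ) : E D q ≤ G D q := by
  refine Subgroup.normalClosure_le_normal ?_
  rintro X ⟨z, rfl | rfl⟩
  · exact ⟨by simp, by simp, by simp, by simp⟩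
  · exact ⟨by simp, by simp, by simp, by simp⟩

theorem E_anti {D : ℤ} {q q' : ℕ} (h : q ∣ q') : E D q' ≤ E D q := by
  refine Subgroup.normalClosure_le_normal ?_
  have h' : (q : ℤ√D) ∣ (q' : ℤ√D) := by exact_mod_cast Nat.cast_dvd_cast h
  rintro X ⟨z, rfl | rfl⟩
  · exact e12_E (h'.mul_right z)
  · exact e21_E (h'.mul_right z)

theorem G_anti {D : ℤ} {q q' : ℕ} (h : q ∣ q') : G D q' ≤ G D q := by
  have h' : (q : ℤ√D) ∣ (q' : ℤ√D) := by exact_mod_cast Nat.cast_dvd_cast h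
  rintro X ⟨h1, h2, h3, h4⟩
  exact ⟨h'.trans h1, h'.trans h2, h'.trans h3, h'.trans h4⟩

/-- a commutator with an element of `E` -/
theorem E_comm {D : ℤ} {q : ℕ} (X : S2 (ℤ√D)) {e : S2 (ℤ√D)} (h : e ∈ E D q) : X * e * X⁻¹ * e⁻¹ ∈ E D q :=
  (E D q).mul_mem ((E_normal D q).conj_mem e h X) ((E D q).inv_mem h)

end Pool.Agent.Lib.CSL
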