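import Pool.Agent.Lib.MP_240120_ag.CS.Def

/-!
# CS / LDef: lattices: definitions and elementary facts (no open statement)

`L = ℤ^4` with `q(v) = v0 v1 + α v2^2 + β v2 v3 + γ v3^2`, `D = β^2 - 4 α γ`. `HM A`: hermitian matrices `(p, x; star x, s)`; `act4 a b c d h = X h X*`, `X = (a, b; c, d)`. `hr v` (over `ℤ√D`) and `hm v` (over `KD D`): the matrix
`(v0, ξ; star ξ, -4 α v1)`, `ξ = 2 α v2 + β v3 + v3 √D`, of determinant `-4 α q(v)`.
-/

set_option autoImplicit false

namespace Pool.Agent.Lib.CSL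

/-- hermitian matrices `(p, x; star x, s)` -/
@[ext] structure HM (A : Type*) where
  p : A
  x : A
  s : A

section her

variable {A : Type*} [CommRing A] [StarRing A]

/-- `X h X*` for `X = (a, b; c, d)` -/
def act4 (a b c d : A) (h : HM A) : HM A where
  p := a * h.p * star a + a * h.x * star b + b * star h.x * star a + b * h.s * star b
  x := a * h.p * star c + a * h.x * star d + b * star h.x * star c + b * h.s * star d
  s := c * h.p * star c + c * h.x * star d + d * star h.x * star c + d * h.s * star d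

/-- `X h X*` -/
def act (X : S2 A) (h : HM A) : HM A := act4 X.a X.b X.c X.d h

/-- scalar multiple -/
def sm (t : A) (h : HM A) : HM A := ⟨t * h.p, t * h.x, t * h.s⟩

/-- the conjugate matrix -/
def bar (h : HM A) : HM A := ⟨h.p, star h.x, h.s⟩

/-- the adjugate matrix -/
def adj (h : HM A) : HM A := ⟨h.s, -h.x, h.p⟩

/-- the diagonal entries are fixed by the conjugation -/
def Her (h : HM A) : Prop := star h.p = h.p ∧ star h.s = h.s

theorem act4_her (a b c d : A) {h : HM A} (hh : Her h) : Her (act4 a b c d h) := by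
  constructor
  · simp only [act4, star_add, star_mul', star_star, hh.1, hh.2]; ring
  · simp only [act4, star_add, star_mul', star_star, hh.1, hh.2]; ring

/-- composition -/
theorem act4_comp (a b c d a' b' c' d' : A) {h : HM A} (hh : Her h) :
    act4 (a * a' + b * c') (a * b' + b * d') (c * a' + d * c') (c * b' + d * d') h = act4 a b c d (act4 a' b' c' d' h) := by
  ext
  · simp only [act4, star_add, star_mul', star_star, hh.1, hh.2]; ring
  · simp only [act4, star_add, star_mul', star_star, hh.1, hh.2]; ring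
  · simp only [act4, star_add, star_mul', star_star, hh.1, hh.2]; ring

theorem act_her (X : S2 A) {h : HM A} (hh : Her h) : Her (act X h) := act4_her _ _ _ _ hh

theorem act_mul (X Y : S2 A) {h : HM A} (hh : Her h) : act (X * Y) h = act X (act Y h) := act4_comp _ _ _ _ _ _ _ _ hh

theorem act_one (h : HM A) : act (1 : S2 A) h = h := by
  ext <;> simp [act, act4]

end her

/-- the quadratic form -/
def qf (α β γ : ℤ) (v : Fin 4 → ℤ) : ℤ := v 0 * v 1 + α * v 2 ^ 2 + β * v 2 * v 3 + γ * v 3 ^ 2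

/-- the bilinear form `q(v + w) - q(v) - q(w)` -/
def pol (α β γ : ℤ) (v w : Fin 4 → ℤ) : ℤ :=
  v 0 * w 1 + v 1 * w 0 + 2 * α * v 2 * w 2 + β * (v 2 * w 3 + v 3 * w 2) + 2 * γ * v 3 * w 3

/-- the orthogonal group -/
def OL (α β γ : ℤ) : Subgroup ((Fin 4 → ℤ) ≃ₗ[ℤ] (Fin 4 → ℤ)) where
  carrier := {g | ∀ v, qf α β γ (g v) = qf α β γ v}
  one_mem' := fun v => rfl
  mul_mem' := fun {g h} hg hh v => by
    show qf α β γ (g (h v)) = _
    rw [hg, hh]
  inv_mem' := fun {g} hg v => by
    have h1 := hg (g⁻¹ v)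
    have h2 : g (g⁻¹ v) = v := g.apply_symm_apply v
    rw [h2] at h1
    exact h1.symm

/-- `g` is the reflection in `v`, `q(v) = 1` or `-1` -/
def IsRf (α β γ : ℤ) (v : Fin 4 → ℤ) (g : (Fin 4 → ℤ) ≃ₗ[ℤ] (Fin 4 → ℤ)) : Prop :=
  ∀ x, g x = x - (qf α β γ v * pol α β γ v x) • v

/-- the group generated by the reflections in the vectors with `q = ±1` -/
def W2 (α β γ : ℤ) : Subgroup ((Fin 4 → ℤ) ≃ₗ[ℤ] (Fin 4 → ℤ)) :=
  Subgroup.closure {g | ∃ v, (qf α β γ v = 1 ∨ qf α β γ v = -1) ∧ IsRf α β γ v g}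

/-- the entry `ξ` -/
def xi (D α β : ℤ) (v : Fin 4 → ℤ) : ℤ√D := ⟨2 * α * v 2 + β * v 3, v 3⟩

/-- the matrix of `v` over `ℤ√D` -/
def hr (D α β : ℤ) (v : Fin 4 → ℤ) : HM (ℤ√D) := ⟨(v 0 : ℤ√D), xi D α β v, ((-4 * α * v 1 : ℤ) : ℤ√D)⟩

/-- the matrix of `v` over `KD D` -/
def hm (D α β : ℤ) (v : Fin 4 → ℤ) : HM (KD D) := ⟨(v 0 : KD D), io D (xi D α β v), ((-4 * α * v 1 : ℤ) : KD D)⟩

theorem star_int (D : ℤ) (n : ℤ) : star ((n : ℤ) : KD D) = n := by
  ext <;> simp

theorem star_intR (D : ℤ) (n : ℤ) : star ((n : ℤ) : ℤ√D) = n := by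
  ext <;> simp

theorem hm_her (D α β : ℤ) (v : Fin 4 → ℤ) : Her (hm D α β v) := ⟨star_int _ _, star_int _ _⟩

theorem hr_her (D α β : ℤ) (v : Fin 4 → ℤ) : Her (hr D α β v) := ⟨star_intR _ _, star_intR _ _⟩

theorem hm_inj {D α β : ℤ} (hα : α ≠ 0) {v w : Fin 4 → ℤ} (h : hm D α β v = hm D α β w) : v = w := by
  have h0 := congrArg HM.p h
  have h1 := congrArg HM.s h
  have h2 := congrArg HM.x h
  have h2' := io_inj D h2
  have h3 : v 3 = w 3 := congrArg Zsqrtd.im h2'
  have h4 : 2 * α * v 2 + β * v 3 = 2 * α * w 2 + β * w 3 := congrArg Zsqrtd.re h2'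
  have h0' : v 0 = w 0 := by
    have := congrArg QuadraticAlgebra.re h0
    simp only [hm, QuadraticAlgebra.re_intCast, Int.cast_inj] at this
    exact this
  have h1' : -4 * α * v 1 = -4 * α * w 1 := by
    have := congrArg QuadraticAlgebra.re h1
    simp only [hm, QuadraticAlgebra.re_intCast, Int.cast_inj] at this
    exact this
  have h1'' : v 1 = w 1 := by
    have : (-4 * α) * (v 1 - w 1) = 0 := by linear_combination h1'
    rcases mul_eq_zero.1 this with h | h
    · exact absurd h (by simpa using hα)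
    · linear_combination h
  have h4' : v 2 = w 2 := by
    have : (2 * α) * (v 2 - w 2) = 0 := by rw [h3] at h4; linear_combination h4
    rcases mul_eq_zero.1 this with h | h
    · exact absurd h (by simpa using hα)
    · linear_combination h
  funext i
  fin_cases i
  · exact h0'
  · exact h1''
  · exact h4'
  · exact h3

/-- `X` induces an element of `W2` -/
def NW (D α β γ : ℤ) : Subgroup (S2 (KD D)) where
  carrier := {X | ∃ w ∈ W2 α β γ, ∀ v, act X (hm D α β v) = hm D α β (w v)}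
  one_mem' := ⟨1, Subgroup.one_mem _, fun v => act_one _⟩
  mul_mem' := by
    rintro X Y ⟨w, hw, h1⟩ ⟨w', hw', h2⟩
    refine ⟨w * w', Subgroup.mul_mem _ hw hw', fun v => ?_⟩
    rw [act_mul X Y (hm_her _ _ _ _), h2, h1]
    rfl
  inv_mem' := by
    rintro X ⟨w, hw, h1⟩
    refine ⟨w⁻¹, Subgroup.inv_mem _ hw, fun v => ?_⟩
    have h2 : w (w⁻¹ v) = v := w.apply_symm_apply v
    have h3 := h1 (w⁻¹ v)
    rw [h2] at h3
    rw [← h3, ← act_mul _ _ (hm_her _ _ _ _), inv_mul_cancel, act_one]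

theorem act_neg {A : Type*} [CommRing A] [StarRing A] (a b c d : A) (h : HM A) : act4 (-a) (-b) (-c) (-d) h = act4 a b c d h := by
  ext <;> simp [act4]

theorem act4_io {D α β : ℤ} {a b c d : ℤ√D} {v w : Fin 4 → ℤ} (h : act4 a b c d (hr D α β v) = hr D α β w) :
    act4 (io D a) (io D b) (io D c) (io D d) (hm D α β v) = hm D α β w := by
  have h0 := congrArg (fun z => io D (HM.p z)) h
  have h1 := congrArg (fun z => io D (HM.x z)) h
  have h2 := congrArg (fun z => io D (HM.s z)) h
  simp only [act4, hr, map_add, map_mul, io_star, map_intCast] at h0 h1 h2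
  ext1
  · simp only [act4, hm]
    exact h0
  · simp only [act4, hm]
    exact h1
  · simp only [act4, hm]
    exact h2

end Pool.Agent.Lib.CSL
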