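import Pool.Agent.Lib.MP_240120_ag.CS.Def

/-!
# CS / Isk (60 minutes): isometries of the norm form

`N z = z star z` (rational). `η := φ 1`, `η star η = 1`. `ψ z := star η * φ z` (`= η⁻¹ φ z`): linear, norm-preserving, `ψ 1 = 1`. For `s = √D`: `ψ s = x + y s`; norm of `1 + s` and `s`: `Tr(ψ s) = 0` (`N(1 + ψ s) = 1 + Tr ψ s + N(ψ s)` and `N(ψ s) = N s = -D`, `N(1+s) = 1 - D`), so `x = 0`, `y^2 = 1`. So
`φ z = η z` or `φ z = η star z` for all `z` (linearity, `z = re + im s`). Hilbert 90: `θ := 1 + η` if `η ≠ -1`: `star θ η = star η η + ... = θ` (`(1 + star η) η = η + 1`); `θ := √D` if `η = -1` (`star θ = -θ`).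
-/

set_option autoImplicit false

namespace Pool.Agent.Lib.CSL

variable {D : ℤ} [Fact (∀ r : ℚ, r ^ 2 ≠ (D : ℚ) + 0 * r)]

theorem isk (h0 : D ≠ 0) (φ : KD D →ₗ[ℚ] KD D) (hφ : ∀ z, φ z * star (φ z) = z * star z) :
    ∃ θ : KD D, θ ≠ 0 ∧ ((∀ z, star θ * φ z = θ * z) ∨ (∀ z, star θ * φ z = θ * star z)) := by
  set η : KD D := φ 1 with hη
  set s : KD D := ⟨0, 1⟩ with hs
  have hss : star s = -s := by
    ext <;> simp [hs]
  have hsm : s * s = ((D : ℤ) : KD D) := by
    ext <;> simp [hs]
  have hηη : η * star η = 1 := by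
    have := hφ 1
    rw [star_one, mul_one] at this
    exact this
  have hz : ∀ z : KD D, z = z.re • (1 : KD D) + z.im • s := by
    intro z
    ext <;> simp [hs]
  have hφz : ∀ z : KD D, φ z = z.re • η + z.im • φ s := by
    intro z
    conv_lhs => rw [hz z]
    rw [map_add, map_smul, map_smul]
  obtain ⟨ψ, hψ⟩ : ∃ ψ : KD D, ψ = star η * φ s := ⟨_, rfl⟩
  have hφs : φ s = η * ψ := by
    rw [hψ]
    linear_combination (-φ s) * hηη
  have h1 : ψ * star ψ = -((D : ℤ) : KD D) := by
    have h := hφ s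
    rw [hφs, star_mul', hss] at h
    linear_combination h - hsm - (ψ * star ψ) * hηη
  have h2 : ψ + star ψ = 0 := by
    have h := hφ (1 + s)
    rw [map_add, ← hη, hφs] at h
    simp only [star_add, star_mul', star_one, hss] at h
    linear_combination h - hsm - (1 + ψ + star ψ + ψ * star ψ) * hηη - h1
  have hx : ψ.re = 0 := by
    have := congrArg QuadraticAlgebra.re h2
    simp at this
    linarith
  have hy : ψ.im ^ 2 = 1 := by
    have h := congrArg QuadraticAlgebra.re h1
    simp [hx] at h
    have hD : (D : ℚ) ≠ 0 := by exact_mod_cast h0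
    have : (D : ℚ) * (ψ.im ^ 2 - 1) = 0 := by linear_combination h
    rcases mul_eq_zero.1 this with h | h
    · exact absurd h hD
    · linarith
  have hθ : ∃ θ : KD D, θ ≠ 0 ∧ star θ * η = θ := by
    by_cases hm : η = -1
    · refine ⟨s, ?_, ?_⟩
      · intro h
        have := congrArg QuadraticAlgebra.im h
        simp [hs] at this
      · rw [hss, hm]; ring
    · refine ⟨1 + η, ?_, ?_⟩
      · intro h
        exact hm (by linear_combination h)
      · rw [star_add, star_one]
        linear_combination hηη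
  obtain ⟨θ, hθ0, hθ1⟩ := hθ
  refine ⟨θ, hθ0, ?_⟩
  have hcase : ψ.im = 1 ∨ ψ.im = -1 := by
    have : (ψ.im - 1) * (ψ.im + 1) = 0 := by linear_combination hy
    rcases mul_eq_zero.1 this with h | h
    · left; linarith
    · right; linarith
  rcases hcase with h | h
  · left
    intro z
    have hψs : ψ = s := by
      ext
      · rw [hx]
      · rw [h]
    rw [hφz, hφs, hψs]
    conv_rhs => rw [hz z]
    simp only [Algebra.smul_def]
    linear_combination (algebraMap ℚ (KD D) z.re + algebraMap ℚ (KD D) z.im * s) * hθ1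
  · right
    intro z
    have hψs : ψ = -s := by
      ext
      · rw [hx]; simp [hs]
      · rw [h]; simp [hs]
    have hsz : star z = z.re • (1 : KD D) - z.im • s := by
      ext <;> simp [hs]
    rw [hφz, hφs, hψs, hsz]
    simp only [Algebra.smul_def]
    linear_combination (algebraMap ℚ (KD D) z.re - algebraMap ℚ (KD D) z.im * s) * hθ1

end Pool.Agent.Lib.CSL
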