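import Pool.Agent.Lib.MP_240120_ag.CS.Def
import Pool.Agent.Lib.MP_240120_ag.CS.LDef

/-!
# CS / Nor (45 minutes): W2 is normal, so is NW

`pol (g v) (g x) = pol v x` for `g ∈ OL` (`pol v x = q(v + x) - q(v) - q(x)`, compute). If `s` is the reflection in `v` then `g s g⁻¹` is the reflection in `g v`: `g (g⁻¹ x - (q(v) pol v (g⁻¹ x)) • v) = x - (q(gv) pol (g v) x) • g v`. `W2` is the closure of a set which is invariant
under conjugation by `g` (`Subgroup.closure_induction`). `nor`: `X Y X⁻¹` induces `g w g⁻¹` (`act_mul`; `X⁻¹` induces `g⁻¹`).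
-/

set_option autoImplicit false

namespace Pool.Agent.Lib.CSL

variable {D α β γ : ℤ}

private theorem Nor_pol (v x : Fin 4 → ℤ) :
    pol α β γ v x = qf α β γ (v + x) - qf α β γ v - qf α β γ x := by
  simp only [pol, qf, Pi.add_apply]
  ring

theorem pol_inv {g : (Fin 4 → ℤ) ≃ₗ[ℤ] (Fin 4 → ℤ)} (hg : g ∈ OL α β γ) (v x : Fin 4 → ℤ) : pol α β γ (g v) (g x) = pol α β γ v x := by
  have h : ∀ v, qf α β γ (g v) = qf α β γ v := hg
  rw [Nor_pol, Nor_pol, ← map_add, h, h, h]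

theorem w2_conj {g : (Fin 4 → ℤ) ≃ₗ[ℤ] (Fin 4 → ℤ)} (hg : g ∈ OL α β γ) {w : (Fin 4 → ℤ) ≃ₗ[ℤ] (Fin 4 → ℤ)} (hw : w ∈ W2 α β γ) :
    g * w * g⁻¹ ∈ W2 α β γ := by
  have hq : ∀ v, qf α β γ (g v) = qf α β γ v := hg
  unfold W2 at hw ⊢
  induction hw using Subgroup.closure_induction with
  | mem s hs =>
    obtain ⟨v, hv, hr⟩ := hs
    refine Subgroup.subset_closure ⟨g v, ?_, fun x => ?_⟩
    · rw [hq]; exact hv
    · have h1 : g (g⁻¹ x) = x := g.apply_symm_apply x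
      have h2 : (g * s * g⁻¹) x = g (s (g⁻¹ x)) := rfl
      rw [h2, hr, map_sub, map_smul, h1, hq]
      have h3 := pol_inv hg v (g⁻¹ x)
      rw [h1] at h3
      rw [h3]
  | one =>
    have h1 : g * 1 * g⁻¹ = 1 := by group
    rw [h1]
    exact Subgroup.one_mem _
  | mul x y _ _ hx hy =>
    have h1 : g * (x * y) * g⁻¹ = (g * x * g⁻¹) * (g * y * g⁻¹) := by group
    rw [h1]
    exact Subgroup.mul_mem _ hx hy
  | inv x _ hx =>
    have h1 : g * x⁻¹ * g⁻¹ = (g * x * g⁻¹)⁻¹ := by group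
    rw [h1]
    exact Subgroup.inv_mem _ hx

theorem nor {g : (Fin 4 → ℤ) ≃ₗ[ℤ] (Fin 4 → ℤ)} (hg : g ∈ OL α β γ) {X : S2 (KD D)} (hX : ∀ v, act X (hm D α β v) = hm D α β (g v))
    {Y : S2 (KD D)} (hY : Y ∈ NW D α β γ) : X * Y * X⁻¹ ∈ NW D α β γ := by
  obtain ⟨w, hw, h1⟩ := hY
  refine ⟨g * w * g⁻¹, w2_conj hg hw, fun v => ?_⟩
  have h2 : act X⁻¹ (hm D α β v) = hm D α β (g⁻¹ v) := by
    have h3 : g (g⁻¹ v) = v := g.apply_symm_apply v
    have h4 := hX (g⁻¹ v)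
    rw [h3] at h4
    rw [← h4, ← act_mul _ _ (hm_her _ _ _ _), inv_mul_cancel, act_one]
  rw [act_mul _ _ (hm_her _ _ _ _), h2, act_mul _ _ (hm_her _ _ _ _), h1, hX]
  rfl

end Pool.Agent.Lib.CSL
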