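import Pool.Agent.Lib.MP_240120_ag.CS.Def
import Pool.Agent.Lib.MP_240120_ag.CS.LDef

/-!
# CS / Rf1 (60 minutes): one reflection as a matrix

`V = hm v`, `V adj(H) V = tr(V adj H) V - det(V) H` for `2 × 2` matrices, `tr(V adj H) = -4 α pol v x`, `det V = -4 α q(v)`. Componentwise: with `p, ξ, s` for `v` and `P, X, S` for `x` the `p`-component of `act4 p ξ (star ξ) s (adj H)` is `p^2 S - p (ξ star X + star ξ X) + ξ star ξ P`.
The facts needed: `xi v * star (xi v) = 4 α (q(v) - v0 v1)` and `xi v * star (xi x) + star (xi v) * xi x = 4 α (pol v x - v0 x1 - v1 x0)` in `KD D` (from `D = β^2 - 4 α γ`; prove them first by components). Then `linear_combination`.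
-/

set_option autoImplicit false

namespace Pool.Agent.Lib.CSL

variable {D α β γ : ℤ}

theorem xi_norm (hDD : D = β ^ 2 - 4 * α * γ) (v : Fin 4 → ℤ) :
    io D (xi D α β v) * star (io D (xi D α β v)) = ((4 * α * (qf α β γ v - v 0 * v 1) : ℤ) : KD D) := by
  have hD' : (D : ℚ) = β ^ 2 - 4 * α * γ := by exact_mod_cast hDD
  ext
  · simp only [QuadraticAlgebra.re_mul, QuadraticAlgebra.re_star, QuadraticAlgebra.im_star,
      QuadraticAlgebra.re_intCast, io_re, io_im, xi, qf, hD']
    push_cast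
    ring
  · simp only [QuadraticAlgebra.im_mul, QuadraticAlgebra.re_star, QuadraticAlgebra.im_star,
      QuadraticAlgebra.im_intCast, io_re, io_im, xi, qf]
    push_cast
    ring

theorem xi_pol (hDD : D = β ^ 2 - 4 * α * γ) (v x : Fin 4 → ℤ) :
    io D (xi D α β v) * star (io D (xi D α β x)) + star (io D (xi D α β v)) * io D (xi D α β x) =
      ((4 * α * (pol α β γ v x - v 0 * x 1 - v 1 * x 0) : ℤ) : KD D) := by
  have hD' : (D : ℚ) = β ^ 2 - 4 * α * γ := by exact_mod_cast hDD
  ext
  · simp only [QuadraticAlgebra.re_add, QuadraticAlgebra.re_mul, QuadraticAlgebra.re_star, QuadraticAlgebra.im_star,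
      QuadraticAlgebra.re_intCast, io_re, io_im, xi, pol, hD']
    push_cast
    ring
  · simp only [QuadraticAlgebra.im_add, QuadraticAlgebra.im_mul, QuadraticAlgebra.re_star, QuadraticAlgebra.im_star,
      QuadraticAlgebra.im_intCast, io_re, io_im, xi, pol]
    push_cast
    ring

private theorem xi_lin (c : ℤ) (v x : Fin 4 → ℤ) :
    io D (xi D α β (x - c • v)) = io D (xi D α β x) - (c : KD D) * io D (xi D α β v) := by
  have h : xi D α β (x - c • v) = xi D α β x - (c : ℤ√D) * xi D α β v := by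
    ext
    · simp [xi]; ring
    · simp [xi]
  rw [h, map_sub, map_mul, map_intCast]

theorem rf1 (hDD : D = β ^ 2 - 4 * α * γ) {v : Fin 4 → ℤ} (hv : qf α β γ v = 1 ∨ qf α β γ v = -1) (x : Fin 4 → ℤ) :
    act4 (v 0 : KD D) (io D (xi D α β v)) (star (io D (xi D α β v))) ((-4 * α * v 1 : ℤ) : KD D) (adj (hm D α β x)) =
      sm ((4 * α * qf α β γ v : ℤ) : KD D) (hm D α β (x - (qf α β γ v * pol α β γ v x) • v)) := by
  have hn := xi_norm (γ := γ) hDD v
  have hp := xi_pol (γ := γ) hDD v x
  obtain ⟨q, hq⟩ : ∃ q, q = qf α β γ v := ⟨_, rfl⟩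
  obtain ⟨m, hm'⟩ : ∃ m, m = pol α β γ v x := ⟨_, rfl⟩
  rw [← hq] at hn hv
  rw [← hm'] at hp
  rw [← hq, ← hm']
  have hq2 : (q : KD D) * q = 1 := by
    rcases hv with h | h <;> simp [h]
  push_cast at hn hp
  ext1
  · simp only [act4, adj, sm, hm, star_int, star_neg, star_star, Pi.sub_apply, Pi.smul_apply, smul_eq_mul]
    push_cast
    linear_combination (x 0 : KD D) * hn - (v 0 : KD D) * hp + (4 * α * m * v 0 : KD D) * hq2
  · simp only [act4, adj, sm, hm, star_int, star_neg, star_star, xi_lin]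
    push_cast
    linear_combination (io D (xi D α β x)) * hn - (io D (xi D α β v)) * hp + (4 * α * m * io D (xi D α β v) : KD D) * hq2
  · simp only [act4, adj, sm, hm, star_int, star_neg, star_star, Pi.sub_apply, Pi.smul_apply, smul_eq_mul]
    push_cast
    linear_combination (-4 * α * x 1 : KD D) * hn + (4 * α * v 1 : KD D) * hp - (16 * α ^ 2 * m * v 1 : KD D) * hq2

end Pool.Agent.Lib.CSL
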