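import Pool.Agent.Lib.MP_240120_ag.CS.Def
import Pool.Agent.Lib.MP_240120_ag.CS.LDef
import Pool.Agent.Lib.MP_240120_ag.CS.Rf1

/-!
# CS / Stb (75 minutes): G(4 α) preserves the lattice

For `X ∈ G D (4 |α|)` and `v`: there is `v'` with `act X (hr v) = hr v'` over `ℤ√D`: `X = 1 + 4 α Z`, so `act X (hr v) = hr v + 4 α (..)`; the components `p`, `s` are fixed by `star`, so integers (`star z = z` iff `z.im = 0`); `s ≡ 0 mod 4 α`; `x = u + w √D` with `u ≡ 2 α v2 + β v3`, `w ≡ v3 mod 4 α`,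
so `u - β w ≡ 2 α v2 mod 4 α` is divisible by `2 α`. `v' = (p, -s/(4α), (u - β w)/(2α), w)`. The same for `X⁻¹`. `v ↦ v'` is additive and bijective by `hm_inj` (`act` is additive: check `hm (v + w)`), so a linear equivalence `g` (`LinearEquiv` from an additive equivalence:
`AddEquiv.toIntLinearEquiv`). `q(g v) = q(v)`: determinants: `p s - x star x` of `act X h` is the one of `h` times `N(det X) = 1`; `4 α q = x star x - p s` (`xi_norm`).
-/

set_option autoImplicit false

namespace Pool.Agent.Lib.CSL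

variable {D α β γ : ℤ}

theorem det_act {A : Type*} [CommRing A] [StarRing A] (a b c d : A) {h : HM A} (hh : Her h) :
    (act4 a b c d h).p * (act4 a b c d h).s - (act4 a b c d h).x * star (act4 a b c d h).x =
      (a * d - b * c) * star (a * d - b * c) * (h.p * h.s - h.x * star h.x) := by
  simp only [act4, star_add, star_sub, star_mul', star_star, hh.1, hh.2]
  ring

private theorem stb_hr_inj {D α β : ℤ} (hα : α ≠ 0) {v w : Fin 4 → ℤ} (h : hr D α β v = hr D α β w) :
    v = w := by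
  apply hm_inj (D := D) (β := β) hα
  have h0 := congrArg (fun z => io D (HM.p z)) h
  have h1 := congrArg (fun z => io D (HM.x z)) h
  have h2 := congrArg (fun z => io D (HM.s z)) h
  simp only [hr, map_intCast] at h0 h1 h2
  ext1
  · simp only [hm]
    exact h0
  · simp only [hm]
    exact h1
  · simp only [hm]
    exact h2

private theorem stb_recog {D α β : ℤ} {h : HM (ℤ√D)} (hh : Her h) (h1 : 4 * α ∣ h.s.re)
    (h2 : 2 * α ∣ h.x.re - β * h.x.im) : ∃ v, h = hr D α β v := by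
  obtain ⟨s, hs⟩ := h1
  obtain ⟨x, hx⟩ := h2
  have e1 : h.p.im = 0 := by
    have h3 := congrArg Zsqrtd.im hh.1
    rw [Zsqrtd.im_star] at h3
    omega
  have e2 : h.s.im = 0 := by
    have h3 := congrArg Zsqrtd.im hh.2
    rw [Zsqrtd.im_star] at h3
    omega
  refine ⟨![h.p.re, -s, x, h.x.im], ?_⟩
  ext1
  · apply Zsqrtd.ext
    · simp [hr]
    · simp [hr, e1]
  · apply Zsqrtd.ext
    · simp only [hr, xi, Matrix.cons_val]
      linear_combination hx
    · simp [hr, xi]
  · apply Zsqrtd.ext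
    · simp only [hr, Matrix.cons_val, Zsqrtd.re_intCast]
      linear_combination hs
    · simp only [hr, Zsqrtd.im_intCast]
      exact e2

private theorem stb_img {D α β : ℤ} {a b c d : ℤ√D} (ha : ((4 * α : ℤ) : ℤ√D) ∣ a - 1)
    (hb : ((4 * α : ℤ) : ℤ√D) ∣ b) (hc : ((4 * α : ℤ) : ℤ√D) ∣ c)
    (hd : ((4 * α : ℤ) : ℤ√D) ∣ d - 1) (v : Fin 4 → ℤ) :
    ∃ w, act4 a b c d (hr D α β v) = hr D α β w := by
  have hst : ∀ z : ℤ√D, ((4 * α : ℤ) : ℤ√D) ∣ z → ((4 * α : ℤ) : ℤ√D) ∣ star z := by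
    rintro z ⟨y, rfl⟩
    refine ⟨star y, ?_⟩
    rw [star_mul', star_intR]
  apply stb_recog (act4_her a b c d (hr_her D α β v))
  · have h1 : ((4 * α : ℤ) : ℤ√D) ∣ (act4 a b c d (hr D α β v)).s := by
      simp only [act4]
      refine dvd_add (dvd_add (dvd_add ?_ ?_) ?_) ?_
      · exact (hc.mul_right _).mul_right _
      · exact (hc.mul_right _).mul_right _
      · exact (hst c hc).mul_left _
      · have h2 : ((4 * α : ℤ) : ℤ√D) ∣ (hr D α β v).s := by
          simp only [hr]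
          refine ⟨((-v 1 : ℤ) : ℤ√D), ?_⟩
          rw [← Int.cast_mul]
          congr 1
          ring
        exact (h2.mul_left _).mul_right _
    exact ((Zsqrtd.intCast_dvd _ _).1 h1).1
  · have h1 : ((4 * α : ℤ) : ℤ√D) ∣ (act4 a b c d (hr D α β v)).x - (hr D α β v).x := by
      have h3 : (act4 a b c d (hr D α β v)).x - (hr D α β v).x =
          a * (hr D α β v).p * star c + ((a - 1) * ((hr D α β v).x * star d) +
          (hr D α β v).x * star (d - 1)) + b * (star (hr D α β v).x * star c) +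
          b * ((hr D α β v).s * star d) := by
        simp only [act4, star_sub, star_one]
        ring
      rw [h3]
      refine dvd_add (dvd_add (dvd_add ?_ (dvd_add ?_ ?_)) ?_) ?_
      · exact (hst c hc).mul_left _
      · exact ha.mul_right _
      · exact (hst _ hd).mul_left _
      · exact hb.mul_right _
      · exact hb.mul_right _
    obtain ⟨⟨r1, e1⟩, ⟨r2, e2⟩⟩ := (Zsqrtd.intCast_dvd _ _).1 h1
    rw [Zsqrtd.re_sub] at e1
    rw [Zsqrtd.im_sub] at e2
    have e3 : (hr D α β v).x.re = 2 * α * v 2 + β * v 3 := rfl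
    have e4 : (hr D α β v).x.im = v 3 := rfl
    rw [e3] at e1
    rw [e4] at e2
    refine ⟨v 2 + 2 * r1 - 2 * β * r2, ?_⟩
    linear_combination e1 - β * e2

private theorem stb_det {D α β γ : ℤ} (hDD : D = β ^ 2 - 4 * α * γ) (v : Fin 4 → ℤ) :
    (hr D α β v).p * (hr D α β v).s - (hr D α β v).x * star (hr D α β v).x =
      ((-4 * α * qf α β γ v : ℤ) : ℤ√D) := by
  apply Zsqrtd.ext
  · simp only [hr, xi, qf, Zsqrtd.re_sub, Zsqrtd.re_mul, Zsqrtd.re_intCast, Zsqrtd.im_intCast,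
      Zsqrtd.re_star, Zsqrtd.im_star]
    linear_combination (v 3) ^ 2 * hDD
  · simp only [hr, xi, qf, Zsqrtd.im_sub, Zsqrtd.im_mul, Zsqrtd.re_intCast, Zsqrtd.im_intCast,
      Zsqrtd.re_star, Zsqrtd.im_star]
    ring

private theorem stb_add {D α β : ℤ} (a b c d : ℤ√D) (v w v' w' u : Fin 4 → ℤ) (hα : α ≠ 0)
    (h1 : act4 a b c d (hr D α β v) = hr D α β v') (h2 : act4 a b c d (hr D α β w) = hr D α β w')
    (h3 : act4 a b c d (hr D α β (v + w)) = hr D α β u) : u = v' + w' := by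
  apply stb_hr_inj (D := D) (β := β) hα
  rw [← h3]
  have k : ∀ v w : Fin 4 → ℤ, (hr D α β (v + w)).p = (hr D α β v).p + (hr D α β w).p ∧
      (hr D α β (v + w)).x = (hr D α β v).x + (hr D α β w).x ∧
      (hr D α β (v + w)).s = (hr D α β v).s + (hr D α β w).s := by
    intro v w
    refine ⟨?_, ?_, ?_⟩
    · simp [hr]
    · apply Zsqrtd.ext
      · simp only [hr, xi, Pi.add_apply, Zsqrtd.re_add]
        ring
      · simp only [hr, xi, Pi.add_apply, Zsqrtd.im_add]
    · simp only [hr, Pi.add_apply]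
      push_cast
      ring
  obtain ⟨k1, k2, k3⟩ := k v w
  obtain ⟨l1, l2, l3⟩ := k v' w'
  ext1
  · rw [l1, ← h1, ← h2]
    simp only [act4, k1, k2, k3, star_add]
    ring
  · rw [l2, ← h1, ← h2]
    simp only [act4, k1, k2, k3, star_add]
    ring
  · rw [l3, ← h1, ← h2]
    simp only [act4, k1, k2, k3, star_add]
    ring

theorem stb (hDD : D = β ^ 2 - 4 * α * γ) (hα : α ≠ 0) {X : S2 (ℤ√D)} (hX : X ∈ G D (4 * α.natAbs)) :
    ∃ g ∈ OL α β γ, ∀ v, act (im D X) (hm D α β v) = hm D α β (g v) := by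
  have hdv : ∀ z : ℤ√D, ((4 * α.natAbs : ℕ) : ℤ√D) ∣ z → ((4 * α : ℤ) : ℤ√D) ∣ z := by
    intro z hz
    refine dvd_trans ?_ hz
    have h1 : ((4 * α.natAbs : ℕ) : ℤ√D) = (((4 * α.natAbs : ℕ) : ℤ) : ℤ√D) := (Int.cast_natCast _).symm
    rw [h1, Zsqrtd.intCast_dvd_intCast]
    push_cast
    exact mul_dvd_mul_left 4 ((dvd_abs _ _).2 dvd_rfl)
  obtain ⟨x1, x2, x3, x4⟩ := mem_G.1 hX
  obtain ⟨y1, y2, y3, y4⟩ := mem_G.1 ((G D (4 * α.natAbs)).inv_mem hX)
  choose f hf using fun v => stb_img (β := β) (hdv _ x1) (hdv _ x2) (hdv _ x3) (hdv _ x4) v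
  choose f' hf' using fun v => stb_img (β := β) (hdv _ y1) (hdv _ y2) (hdv _ y3) (hdv _ y4) v
  have e1 : ∀ v, f' (f v) = v := by
    intro v
    apply stb_hr_inj (D := D) (β := β) hα
    rw [← hf', ← hf]
    have h1 := act_mul X⁻¹ X (hr_her D α β v)
    rw [inv_mul_cancel, act_one] at h1
    exact h1.symm
  have e2 : ∀ v, f (f' v) = v := by
    intro v
    apply stb_hr_inj (D := D) (β := β) hα
    rw [← hf, ← hf']
    have h1 := act_mul X X⁻¹ (hr_her D α β v)
    rw [mul_inv_cancel, act_one] at h1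
    exact h1.symm
  have hadd : ∀ v w, f (v + w) = f v + f w := fun v w =>
    stb_add X.a X.b X.c X.d v w (f v) (f w) (f (v + w)) hα (hf v) (hf w) (hf (v + w))
  let g : (Fin 4 → ℤ) ≃ₗ[ℤ] (Fin 4 → ℤ) :=
    AddEquiv.toIntLinearEquiv { toFun := f, invFun := f', left_inv := e1, right_inv := e2, map_add' := hadd }
  have hg : ∀ v, g v = f v := fun v => rfl
  refine ⟨g, ?_, ?_⟩
  · intro v
    have h1 := det_act X.a X.b X.c X.d (hr_her D α β v)
    rw [hf v, X.h, star_one, one_mul, one_mul, stb_det hDD, stb_det hDD, Int.cast_inj] at h1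
    have h2 : (-4 * α) ≠ 0 := by
      simpa using hα
    exact mul_left_cancel₀ h2 h1
  · intro v
    rw [hg]
    exact act4_io (hf v)

end Pool.Agent.Lib.CSL
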