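import Pool.Agent.Lib.MP_240120_ag.CS.Def
import Pool.Agent.Lib.MP_240120_ag.CS.LDef
import Pool.Agent.Lib.MP_240120_ag.CS.Rf1
import Pool.Agent.Lib.MP_240120_ag.CS.Nor
import Pool.Agent.Lib.MP_240120_ag.CS.Stb
import Pool.Agent.Lib.MP_240120_ag.CS.Isk

/-!
# CS / Lf1 (75 minutes): an isometry comes from a matrix over K

`e = (1,0,0,0)`, `f = (0,1,0,0)`, `c0 = 4 α`, `G v := hm (g v)` (additive in `v`). `a1 := g e 0 ≠ 0`, `G e = (a1, ξ1, s1)`, `a1 s1 = ξ1 star ξ1` (`q(g e) = 0`, `xi_norm`). `t := star ξ1 / a1`: `act (e21 (-t)) (G e) = (a1, 0, 0)`. Polarised determinant `p1 s2 + p2 s1 - x1 star x2 - x2 star x1` of `G v`, `G w` is `-4 α pol v w`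
(`pol_inv`, `xi_pol`) and is invariant under `act` (`det_act` polarised or compute). So `G' v := act (e21 (-t)) (G v)` has `s`-component `-c0 v1/a1`. `G' f = (p2, x2, -c0/a1)`, determinant `0`. `y := x2 a1/c0`, `G'' v := act (e12 y) (G' v)`: `G'' e = (a1, 0, 0)`, `G'' f = (0, 0, -c0/a1)`,
for `v = (0,0,*,*)`: `G'' v = (0, φ v, 0)` (polarised determinants with `G'' e`, `G'' f`), `φ v star (φ v) = xi v star (xi v)`. So `G'' v = (a1 v0, φ(0,0,v2,v3), -c0 v1/a1)`. Define the `ℚ`-linear map `Φ(x + y √D) := ((x - β y)/(2α)) φ(0,0,1,0) + y φ(0,0,0,1)`; `Φ(io (xi v)) = φ(0,0,v2,v3)`; it preserves norms (two quadratic forms with the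
same values on `φ(0,0,1,0)`, `φ(0,0,0,1)`, `φ(0,0,1,1)`). `isk`: `θ`. `X0 := (a1 θ, 0; 0, star θ)`, `t0 := a1 θ star θ` (rational, not zero): `act4 X0 (hm v) = sm t0 (G'' v)` (resp. `bar (hm v)`): components `a1^2 N(θ) v0`, `a1 θ xi θ = t0 φ`, `N(θ) (-c0 v1)`. `X1 := e12 y * e21 (-t)`, `(a, b; c, d) := X1⁻¹ X0` (`act4_comp`; `act X1⁻¹ (act X1 h) = h`).
-/

set_option autoImplicit false

namespace Pool.Agent.Lib.CSL

variable {D α β γ : ℤ}

/-- polarised determinant -/
private def pd {A : Type*} [CommRing A] [StarRing A] (h k : HM A) : A := h.p * k.s + k.p * h.s - h.x * star k.x - k.x * star h.x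

private theorem pd_hm (hDD : D = β ^ 2 - 4 * α * γ) (v w : Fin 4 → ℤ) : pd (hm D α β v) (hm D α β w) = ((-4 * α * pol α β γ v w : ℤ) : KD D) := by
  have h1 := xi_pol hDD v w
  simp only [pd, hm]
  push_cast at h1 ⊢
  linear_combination -h1

private theorem pd_act {A : Type*} [CommRing A] [StarRing A] (X : S2 A) {h k : HM A} (hh : Her h) (hk : Her k) :
    pd (act X h) (act X k) = pd h k := by
  have h1 := X.h
  have h2 : star X.a * star X.d - star X.b * star X.c = 1 := by
    rw [← star_mul', ← star_mul', ← star_sub, h1, star_one]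
  have e1 : pd (act X h) (act X k) = (X.a * X.d - X.b * X.c) * (star X.a * star X.d - star X.b * star X.c) * pd h k := by
    simp only [pd, act, act4, star_add, star_mul', star_star, hh.1, hh.2, hk.1, hk.2]
    ring
  rw [e1, h1, h2, one_mul, one_mul]

private theorem hm_add (v w : Fin 4 → ℤ) : (hm D α β (v + w)).p = (hm D α β v).p + (hm D α β w).p ∧
    (hm D α β (v + w)).x = (hm D α β v).x + (hm D α β w).x ∧ (hm D α β (v + w)).s = (hm D α β v).s + (hm D α β w).s := by
  refine ⟨?_, ?_, ?_⟩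
  · simp only [hm, Pi.add_apply]
    push_cast
    ring
  · simp only [hm, ← map_add]
    congr 1
    ext
    · simp only [xi, Pi.add_apply, Zsqrtd.re_add]; ring
    · simp only [xi, Pi.add_apply, Zsqrtd.im_add]
  · simp only [hm, Pi.add_apply]
    push_cast
    ring

private theorem act_add (X : S2 (KD D)) (v w : Fin 4 → ℤ) :
    (act X (hm D α β (v + w))).x = (act X (hm D α β v)).x + (act X (hm D α β w)).x := by
  obtain ⟨h1, h2, h3⟩ := hm_add (D := D) (α := α) (β := β) v w
  simp only [act, act4]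
  rw [h1, h2, h3, star_add]
  ring

private theorem act4_sm {A : Type*} [CommRing A] [StarRing A] (a b c d t : A) (ht : star t = t) (h : HM A) :
    act4 a b c d (sm t h) = sm t (act4 a b c d h) := by
  ext
  · simp only [act4, sm, star_mul', ht]; ring
  · simp only [act4, sm, star_mul', ht]; ring
  · simp only [act4, sm, star_mul', ht]; ring

variable [Fact (∀ r : ℚ, r ^ 2 ≠ (D : ℚ) + 0 * r)]

private theorem star_rat (q : ℚ) : star ((q : ℚ) : KD D) = q := by
  ext <;> simp

/-- the reduction of `g` -/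
private theorem red1 (hDD : D = β ^ 2 - 4 * α * γ) (hα : α ≠ 0) {g : (Fin 4 → ℤ) ≃ₗ[ℤ] (Fin 4 → ℤ)} (hg : g ∈ OL α β γ)
    (h1 : g ![1, 0, 0, 0] 0 ≠ 0) : ∃ X : S2 (KD D), (∀ v, (act X (hm D α β (g v))).p = (g ![1, 0, 0, 0] 0 : KD D) * v 0 ∧
      (g ![1, 0, 0, 0] 0 : KD D) * (act X (hm D α β (g v))).s = -4 * α * v 1) ∧
      (act X (hm D α β (g ![1, 0, 0, 0]))).x = 0 ∧ (act X (hm D α β (g ![0, 1, 0, 0]))).x = 0 := by
  have hα' : (α : KD D) ≠ 0 := by exact_mod_cast hα
  set a1 : KD D := (g ![1, 0, 0, 0] 0 : KD D) with ha1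
  have ha10 : a1 ≠ 0 := by rw [ha1]; exact_mod_cast h1
  have ha1s : star a1 = a1 := star_int _ _
  have hP : ∀ (X : S2 (KD D)) (v w : Fin 4 → ℤ), pd (act X (hm D α β (g v))) (act X (hm D α β (g w))) = ((-4 * α * pol α β γ v w : ℤ) : KD D) := by
    intro X v w
    rw [pd_act X (hm_her _ _ _ _) (hm_her _ _ _ _), pd_hm hDD, pol_inv hg]
  set tt : KD D := star (hm D α β (g ![1, 0, 0, 0])).x / a1 with htt
  set X1 : S2 (KD D) := e21 (-tt) with hX1
  have e1 : (act X1 (hm D α β (g ![1, 0, 0, 0]))).p = a1 := by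
    simp only [act, act4, hX1, e21_a, e21_b, star_one, star_zero]
    show 1 * ((g ![1, 0, 0, 0] 0 : ℤ) : KD D) * 1 + _ + _ + _ = _
    ring
  have e2 : (act X1 (hm D α β (g ![1, 0, 0, 0]))).x = 0 := by
    have h2 : star tt = (hm D α β (g ![1, 0, 0, 0])).x / a1 := by rw [htt, star_div₀, star_star, ha1s]
    simp only [act, act4, hX1, e21_a, e21_b, e21_c, e21_d, star_one, star_zero, star_neg, h2]
    have h3 : (hm D α β (g ![1, 0, 0, 0])).p = a1 := rfl
    rw [h3]
    field_simp
    ring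
  have e3 : (act X1 (hm D α β (g ![1, 0, 0, 0]))).s = 0 := by
    have h2 := hP X1 ![1, 0, 0, 0] ![1, 0, 0, 0]
    simp only [pd, e1, e2, star_zero] at h2
    have h3 : pol α β γ ![1, 0, 0, 0] ![1, 0, 0, 0] = 0 := by simp [pol]
    rw [h3] at h2
    have h4 : 2 * a1 * (act X1 (hm D α β (g ![1, 0, 0, 0]))).s = 0 := by
      push_cast at h2
      linear_combination h2
    exact (mul_eq_zero.1 h4).resolve_left (mul_ne_zero two_ne_zero ha10)
  set Gf := act X1 (hm D α β (g ![0, 1, 0, 0])) with hGf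
  have f1 : a1 * Gf.s = -4 * α := by
    have h2 := hP X1 ![1, 0, 0, 0] ![0, 1, 0, 0]
    simp only [pd, e1, e2, e3, star_zero] at h2
    have h3 : pol α β γ ![1, 0, 0, 0] ![0, 1, 0, 0] = 1 := by simp [pol]
    rw [h3] at h2
    push_cast at h2
    linear_combination h2
  have f2 : Gf.s ≠ 0 := by
    intro h
    rw [h, mul_zero] at f1
    exact mul_ne_zero (by norm_num : (-4 : KD D) ≠ 0) hα' f1.symm
  have f3 : star Gf.s = Gf.s := (act_her X1 (hm_her D α β _)).2
  set y : KD D := -Gf.x / Gf.s with hy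
  set X : S2 (KD D) := e12 y * X1 with hX
  have hXa : ∀ v, act X (hm D α β (g v)) = act (e12 y) (act X1 (hm D α β (g v))) := fun v => by
    rw [hX, act_mul _ _ (hm_her _ _ _ _)]
  have g1 : (act X (hm D α β (g ![1, 0, 0, 0]))).p = a1 := by
    rw [hXa]
    simp only [act, act4, e12_a, e12_b, star_one] at e1 e2 e3 ⊢
    rw [e1, e2, e3, star_zero]
    ring
  have g2 : (act X (hm D α β (g ![1, 0, 0, 0]))).x = 0 := by
    rw [hXa]
    simp only [act, act4, e12_a, e12_b, e12_c, e12_d, star_one] at e1 e2 e3 ⊢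
    rw [e1, e2, e3, star_zero]
    ring
  have g3 : (act X (hm D α β (g ![1, 0, 0, 0]))).s = 0 := by
    rw [hXa]
    simp only [act, act4, e12_c, e12_d, star_one, star_zero] at e1 e2 e3 ⊢
    rw [e1, e2, e3, star_zero]
    ring
  have k2 : (act X (hm D α β (g ![0, 1, 0, 0]))).x = 0 := by
    rw [hXa, ← hGf]
    simp only [act, act4, e12_a, e12_b, e12_c, e12_d, star_one, star_zero, hy]
    field_simp
    ring
  have k3 : (act X (hm D α β (g ![0, 1, 0, 0]))).s = Gf.s := by
    rw [hXa, ← hGf]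
    simp only [act, act4, e12_c, e12_d, star_one, star_zero]
    ring
  have k1 : (act X (hm D α β (g ![0, 1, 0, 0]))).p = 0 := by
    have h2 := hP X ![0, 1, 0, 0] ![0, 1, 0, 0]
    simp only [pd, k2, k3, star_zero] at h2
    have h3 : pol α β γ ![0, 1, 0, 0] ![0, 1, 0, 0] = 0 := by simp [pol]
    rw [h3] at h2
    have h4 : 2 * Gf.s * (act X (hm D α β (g ![0, 1, 0, 0]))).p = 0 := by
      push_cast at h2
      linear_combination h2
    exact (mul_eq_zero.1 h4).resolve_left (mul_ne_zero two_ne_zero f2)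
  refine ⟨X, fun v => ⟨?_, ?_⟩, g2, k2⟩
  · have h2 := hP X ![0, 1, 0, 0] v
    simp only [pd, k1, k2, k3, star_zero] at h2
    have h3 : pol α β γ ![0, 1, 0, 0] v = v 0 := by simp [pol]
    rw [h3] at h2
    have h4 : (4 * α : KD D) * ((act X (hm D α β (g v))).p - a1 * v 0) = 0 := by
      push_cast at h2
      linear_combination -a1 * h2 + (act X (hm D α β (g v))).p * f1
    have h5 := (mul_eq_zero.1 h4).resolve_left (mul_ne_zero (by norm_num) hα')
    linear_combination h5
  · have h2 := hP X ![1, 0, 0, 0] v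
    simp only [pd, g1, g2, g3, star_zero] at h2
    have h3 : pol α β γ ![1, 0, 0, 0] v = v 1 := by simp [pol]
    rw [h3] at h2
    push_cast at h2
    linear_combination h2

/-- the action on the entry `x` is additive -/
private noncomputable def ph (D α β : ℤ) (g : (Fin 4 → ℤ) ≃ₗ[ℤ] (Fin 4 → ℤ)) (X : S2 (KD D)) : (Fin 4 → ℤ) →+ KD D where
  toFun v := (act X (hm D α β (g v))).x
  map_zero' := by
    have h := act_add (α := α) (β := β) X (g 0) (g 0)
    rw [← map_add, add_zero] at h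
    exact left_eq_add.1 h
  map_add' v w := by
    rw [map_add, act_add]

private theorem vdec (v : Fin 4 → ℤ) : v = v 0 • ![1, 0, 0, 0] + v 1 • ![0, 1, 0, 0] + v 2 • ![0, 0, 1, 0] + v 3 • ![0, 0, 0, 1] := by
  funext i
  fin_cases i <;> simp

theorem lf1 (h0 : D ≠ 0) (hDD : D = β ^ 2 - 4 * α * γ) (hα : α ≠ 0) {g : (Fin 4 → ℤ) ≃ₗ[ℤ] (Fin 4 → ℤ)} (hg : g ∈ OL α β γ)
    (h1 : g ![1, 0, 0, 0] 0 ≠ 0) : ∃ (a b c d : KD D) (t : ℚ), t ≠ 0 ∧ a * d - b * c = (t : KD D) ∧
      ((∀ v, act4 a b c d (hm D α β v) = sm (t : KD D) (hm D α β (g v))) ∨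
        (∀ v, act4 a b c d (bar (hm D α β v)) = sm (t : KD D) (hm D α β (g v)))) := by
  obtain ⟨X, hX, hXe, hXf⟩ := red1 hDD hα hg h1
  have hα' : (α : KD D) ≠ 0 := by exact_mod_cast hα
  have hαQ : (α : ℚ) ≠ 0 := by exact_mod_cast hα
  set a1 : KD D := (g ![1, 0, 0, 0] 0 : KD D) with ha1
  have ha10 : a1 ≠ 0 := by rw [ha1]; exact_mod_cast h1
  have ha1s : star a1 = a1 := star_int _ _
  set p1 : KD D := (act X (hm D α β (g ![0, 0, 1, 0]))).x with hp1
  set p2 : KD D := (act X (hm D α β (g ![0, 0, 0, 1]))).x with hp2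
  have hph : ∀ v, (act X (hm D α β (g v))).x = (v 2 : KD D) * p1 + v 3 * p2 := by
    intro v
    have h2 : (act X (hm D α β (g v))).x = ph D α β g X v := rfl
    rw [h2]
    conv_lhs => rw [vdec v]
    rw [map_add, map_add, map_add, map_zsmul, map_zsmul, map_zsmul, map_zsmul]
    have e1 : ph D α β g X ![1, 0, 0, 0] = 0 := hXe
    have e2 : ph D α β g X ![0, 1, 0, 0] = 0 := hXf
    have e3 : ph D α β g X ![0, 0, 1, 0] = p1 := rfl
    have e4 : ph D α β g X ![0, 0, 0, 1] = p2 := rfl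
    rw [e1, e2, e3, e4]
    simp
  have hpol : ∀ v w, (act X (hm D α β (g v))).x * star (act X (hm D α β (g w))).x + (act X (hm D α β (g w))).x * star (act X (hm D α β (g v))).x =
      ((4 * α * (pol α β γ v w - v 0 * w 1 - v 1 * w 0) : ℤ) : KD D) := by
    intro v w
    have h2 : pd (act X (hm D α β (g v))) (act X (hm D α β (g w))) = ((-4 * α * pol α β γ v w : ℤ) : KD D) := by
      rw [pd_act X (hm_her _ _ _ _) (hm_her _ _ _ _), pd_hm hDD, pol_inv hg]
    obtain ⟨hv1, hv2⟩ := hX v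
    obtain ⟨hw1, hw2⟩ := hX w
    simp only [pd] at h2
    push_cast at h2 ⊢
    rw [hv1, hw1] at h2
    linear_combination -h2 + (v 0 : KD D) * hw2 + w 0 * hv2
  have q11 : 2 * (p1 * star p1) = ((4 * α * (2 * α) : ℤ) : KD D) := by
    have h2 := hpol ![0, 0, 1, 0] ![0, 0, 1, 0]
    simp [pol] at h2
    push_cast
    linear_combination h2
  have q12 : p1 * star p2 + p2 * star p1 = ((4 * α * β : ℤ) : KD D) := by
    have h2 := hpol ![0, 0, 1, 0] ![0, 0, 0, 1]
    simp [pol] at h2
    push_cast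
    linear_combination h2
  have q22 : 2 * (p2 * star p2) = ((4 * α * (2 * γ) : ℤ) : KD D) := by
    have h2 := hpol ![0, 0, 0, 1] ![0, 0, 0, 1]
    simp [pol] at h2
    push_cast
    linear_combination h2
  let Φ : KD D →ₗ[ℚ] KD D :=
    { toFun := fun z => (((z.re - β * z.im) / (2 * α) : ℚ) : KD D) * p1 + (z.im : KD D) * p2
      map_add' := fun z w => by
        simp only [QuadraticAlgebra.re_add, QuadraticAlgebra.im_add]
        push_cast
        ring
      map_smul' := fun r z => by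
        simp only [QuadraticAlgebra.re_smul, QuadraticAlgebra.im_smul, smul_eq_mul, RingHom.id_apply]
        rw [Algebra.smul_def]
        have : (algebraMap ℚ (KD D)) r = (r : KD D) := by simp
        rw [this]
        push_cast
        ring }
  have hΦ : ∀ z, Φ z = (((z.re - β * z.im) / (2 * α) : ℚ) : KD D) * p1 + (z.im : KD D) * p2 := fun z => rfl
  have hΦx : ∀ v, (act X (hm D α β (g v))).x = Φ (io D (xi D α β v)) := by
    intro v
    rw [hph v, hΦ]
    have h2 : ((io D (xi D α β v)).re - β * (io D (xi D α β v)).im) / (2 * α) = (v 2 : ℚ) := by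
      rw [io_re, io_im]
      simp only [xi]
      push_cast
      field_simp
      ring
    have h3 : (io D (xi D α β v)).im = (v 3 : ℚ) := rfl
    rw [h2, h3]
    simp
  have hnorm : ∀ z, Φ z * star (Φ z) = z * star z := by
    intro z
    rw [hΦ]
    set r : ℚ := (z.re - β * z.im) / (2 * α) with hr
    have hz : z.re = 2 * α * r + β * z.im := by rw [hr]; field_simp; ring
    have e1 : z * star z = (((z.re ^ 2 - D * z.im ^ 2 : ℚ)) : KD D) := by
      rw [← QuadraticAlgebra.algebraMap_norm_eq_mul_star, QuadraticAlgebra.norm_def]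
      have e2 : z.re ^ 2 - (D : ℚ) * z.im ^ 2 = z.re * z.re + 0 * z.re * z.im - D * z.im * z.im := by ring
      rw [e2]
      exact eq_ratCast (algebraMap ℚ (KD D)) _
    rw [e1, hz, star_add, star_mul', star_mul', star_rat, star_rat]
    have hD' : (D : KD D) = β ^ 2 - 4 * α * γ := by exact_mod_cast congrArg (fun n : ℤ => (n : KD D)) hDD
    push_cast at q11 q12 q22 ⊢
    rw [hD']
    linear_combination (r : KD D) ^ 2 / 2 * q11 + (r : KD D) * z.im * q12 + (z.im : KD D) ^ 2 / 2 * q22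
  obtain ⟨θ, hθ, hor⟩ := isk h0 Φ hnorm
  have hn : ((θ.norm : ℚ) : KD D) = θ * star θ := by
    rw [← QuadraticAlgebra.algebraMap_norm_eq_mul_star]
    simp
  have hn0 : θ.norm ≠ 0 := by
    intro h
    rw [h] at hn
    simp only [Rat.cast_zero] at hn
    rcases mul_eq_zero.1 hn.symm with h2 | h2
    · exact hθ h2
    · exact hθ (star_eq_zero.1 h2)
  have ha1Q : a1 = (((g ![1, 0, 0, 0] 0 : ℤ) : ℚ) : KD D) := by rw [ha1]; simp
  refine ⟨(X⁻¹).a * (a1 * θ) + (X⁻¹).b * 0, (X⁻¹).a * 0 + (X⁻¹).b * star θ, (X⁻¹).c * (a1 * θ) + (X⁻¹).d * 0, (X⁻¹).c * 0 + (X⁻¹).d * star θ,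
    (g ![1, 0, 0, 0] 0 : ℚ) * θ.norm, mul_ne_zero (by exact_mod_cast h1) hn0, ?_, ?_⟩
  · rw [Rat.cast_mul, hn, ← ha1Q]
    linear_combination a1 * θ * star θ * (X⁻¹).h
  · have ht : (((g ![1, 0, 0, 0] 0 : ℚ) * θ.norm : ℚ) : KD D) = a1 * (θ * star θ) := by rw [Rat.cast_mul, hn, ← ha1Q]
    have hts : star (a1 * (θ * star θ)) = a1 * (θ * star θ) := by
      rw [star_mul', star_mul', star_star, ha1s]; ring
    rw [ht]
    have key : ∀ (v : Fin 4 → ℤ) (h : HM (KD D)), Her h → act4 (a1 * θ) 0 0 (star θ) h = sm (a1 * (θ * star θ)) (act X (hm D α β (g v))) →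
        act4 ((X⁻¹).a * (a1 * θ) + (X⁻¹).b * 0) ((X⁻¹).a * 0 + (X⁻¹).b * star θ) ((X⁻¹).c * (a1 * θ) + (X⁻¹).d * 0) ((X⁻¹).c * 0 + (X⁻¹).d * star θ) h =
          sm (a1 * (θ * star θ)) (hm D α β (g v)) := by
      intro v h hh h2
      rw [act4_comp _ _ _ _ _ _ _ _ hh, h2, act4_sm _ _ _ _ _ hts]
      have h3 : act4 (X⁻¹).a (X⁻¹).b (X⁻¹).c (X⁻¹).d (act X (hm D α β (g v))) = hm D α β (g v) := by
        have h4 := act_mul X⁻¹ X (hm_her D α β (g v))
        rw [inv_mul_cancel, act_one] at h4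
        exact h4.symm
      rw [h3]
    rcases hor with hor | hor
    · left
      intro v
      refine key v _ (hm_her _ _ _ _) ?_
      obtain ⟨hv1, hv2⟩ := hX v
      have hx := hor (io D (xi D α β v))
      rw [← hΦx v] at hx
      ext1
      · simp only [act4, sm, star_mul', star_zero, ha1s]
        rw [hv1]
        simp only [hm]
        ring
      · simp only [act4, sm, star_mul', star_zero, star_star]
        have : (hm D α β v).x = io D (xi D α β v) := rfl
        rw [this]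
        linear_combination -(a1 * θ) * hx
      · simp only [act4, sm, star_zero, star_star]
        have : (hm D α β v).s = -4 * α * v 1 := by simp [hm]
        rw [this]
        linear_combination -(θ * star θ) * hv2
    · right
      intro v
      refine key v _ ⟨(hm_her D α β v).1, (hm_her D α β v).2⟩ ?_
      obtain ⟨hv1, hv2⟩ := hX v
      have hx := hor (io D (xi D α β v))
      rw [← hΦx v] at hx
      ext1
      · simp only [act4, sm, bar, star_mul', star_zero, ha1s]
        rw [hv1]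
        simp only [hm]
        ring
      · simp only [act4, sm, bar, star_mul', star_zero, star_star]
        have : (hm D α β v).x = io D (xi D α β v) := rfl
        rw [this]
        linear_combination -(a1 * θ) * hx
      · simp only [act4, sm, bar, star_zero, star_star]
        have : (hm D α β v).s = -4 * α * v 1 := by simp [hm]
        rw [this]
        linear_combination -(θ * star θ) * hv2

end Pool.Agent.Lib.CSL
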