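import Pool.Agent.Lib.MP_240120_ag.CS.Def
import Pool.Agent.Lib.MP_240120_ag.CS.LDef
import Pool.Agent.Lib.MP_240120_ag.CS.Den
import Pool.Agent.Lib.MP_240120_ag.CS.Lf1

/-!
# CS / Lf2 (75 minutes): primitive integral matrices

`lf1`; `den_el`: a common denominator `n` of `a, b, c, d`; `(n a, ..) = io(a', ..)`. Not all of `a', b', c', d'` are zero (`t ≠ 0`). Let `m` be the gcd of the eight integers (components), `a' = m a''` etc.; then no prime divides all four. `a'' d'' - b'' c'' = (n/m)^2 t` is rational and in `io R`, so an integer `t'' ≠ 0`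
(`(·).im = 0`). `act4 (r a) .. = r^2 act4 a ..` for rational `r = n/m` (`star` fixes `ℚ`). Translate from `hm` to `hr` with `io_inj`, `io_star` (`hm v` is the image of `hr v`: components; `io (act4 ..) = act4 (io ..) ..`).
`relP`, `relM`: `X h X* = t G`, multiply by `adj X` from the left: `t (h X*) = t (adj(X) G)`, cancel `t` (a nonzero integer; `Zsqrtd.eq_of_smul_eq_smul_left`). Explicitly `t (p a' + x b') = d P' - b Y'' ..` where `P', Y', S'` are the components of `t G`; these are linear combinations of the components of `act4`: `d (X h X*)_{11} - b (X h X*)_{21}`,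
with `(·)_{21} = star (·).x` (hermitian).
-/

set_option autoImplicit false

namespace Pool.Agent.Lib.CSL

variable {D α β γ : ℤ}

/-- a primitive matrix `(a, b; c, d)` over `ℤ√D` with determinant `t` -/
structure Prim (D : ℤ) (a b c d : ℤ√D) (t : ℤ) : Prop where
  t0 : t ≠ 0
  det : a * d - b * c = t
  pr : ∀ p : ℕ, p.Prime → (p : ℤ√D) ∣ a → (p : ℤ√D) ∣ b → (p : ℤ√D) ∣ c → ¬ (p : ℤ√D) ∣ d

private theorem lf2_fact (hD : ∀ n : ℤ, D ≠ n * n) : Fact (∀ r : ℚ, r ^ 2 ≠ (D : ℚ) + 0 * r) := by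
  refine ⟨fun r hr => ?_⟩
  have h1 : IsSquare (D : ℚ) := ⟨r, by linear_combination -hr⟩
  obtain ⟨n, hn⟩ := Rat.isSquare_intCast_iff.1 h1
  exact hD n hn

private theorem lf2_tors {t : ℤ} (ht : t ≠ 0) {z : ℤ√D} (h : (t : ℤ√D) * z = 0) : z = 0 := by
  have h1 := congrArg Zsqrtd.re h
  have h2 := congrArg Zsqrtd.im h
  simp only [Zsqrtd.re_mul, Zsqrtd.im_mul, Zsqrtd.re_intCast, Zsqrtd.im_intCast, zero_mul, mul_zero,
    add_zero, Zsqrtd.re_zero, Zsqrtd.im_zero] at h1 h2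
  exact Zsqrtd.ext ((mul_eq_zero.1 h1).resolve_left ht) ((mul_eq_zero.1 h2).resolve_left ht)

section fld

variable [Fact (∀ r : ℚ, r ^ 2 ≠ (D : ℚ) + 0 * r)]

private theorem lf2_det {a b c d : KD D} {t r : ℚ} (ht : t ≠ 0) (hr : r ≠ 0) (hdet : a * d - b * c = (t : KD D))
    {a' b' c' d' : ℤ√D} (ha : (r : KD D) * a = io D a') (hb : (r : KD D) * b = io D b')
    (hc : (r : KD D) * c = io D c') (hd : (r : KD D) * d = io D d') :
    ∃ T : ℤ, T ≠ 0 ∧ a' * d' - b' * c' = (T : ℤ√D) ∧ (T : ℚ) = r ^ 2 * t := by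
  have h1 : io D (a' * d' - b' * c') = ((r ^ 2 * t : ℚ) : KD D) := by
    rw [map_sub, map_mul, map_mul, ← ha, ← hb, ← hc, ← hd]
    push_cast
    linear_combination ((r : KD D) ^ 2) * hdet
  have h2 := congrArg QuadraticAlgebra.re h1
  have h3 := congrArg QuadraticAlgebra.im h1
  rw [io_re, QuadraticAlgebra.re_ratCast] at h2
  rw [io_im, QuadraticAlgebra.im_ratCast] at h3
  have h4 : (a' * d' - b' * c').im = 0 := by exact_mod_cast h3
  refine ⟨(a' * d' - b' * c').re, ?_, Zsqrtd.ext ?_ ?_, h2⟩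
  · intro h5
    rw [h5, Int.cast_zero] at h2
    exact mul_ne_zero (pow_ne_zero 2 hr) ht h2.symm
  · rw [Zsqrtd.re_intCast]
  · rw [Zsqrtd.im_intCast, h4]

private theorem lf2_star (r : ℚ) : star ((r : ℚ) : KD D) = (r : KD D) := by
  ext <;> simp

/-- the image of a hermitian matrix -/
private def ioH (h : HM (ℤ√D)) : HM (KD D) := ⟨io D h.p, io D h.x, io D h.s⟩

private theorem lf2_act {a b c d : KD D} {t r : ℚ} {a' b' c' d' : ℤ√D} {T : ℤ} (hT : (T : ℚ) = r ^ 2 * t)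
    (ha : (r : KD D) * a = io D a') (hb : (r : KD D) * b = io D b')
    (hc : (r : KD D) * c = io D c') (hd : (r : KD D) * d = io D d') {h k : HM (ℤ√D)}
    (hh : act4 a b c d (ioH h) = sm (t : KD D) (ioH k)) : act4 a' b' c' d' h = sm (T : ℤ√D) k := by
  have hT' : (T : KD D) = (r : KD D) ^ 2 * (t : KD D) := by
    have := congrArg (fun x : ℚ => (x : KD D)) hT
    simpa using this
  have h1 := congrArg HM.p hh
  have h2 := congrArg HM.x hh
  have h3 := congrArg HM.s hh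
  simp only [act4, sm, ioH] at h1 h2 h3
  have ha' := congrArg star ha
  have hb' := congrArg star hb
  have hc' := congrArg star hc
  have hd' := congrArg star hd
  rw [star_mul', lf2_star] at ha' hb' hc' hd'
  ext1
  · apply io_inj D
    simp only [act4, sm, map_add, map_mul, io_star, map_intCast, hT', ← ha, ← hb, ← hc, ← hd,
      star_mul', lf2_star]
    linear_combination ((r : KD D) ^ 2) * h1
  · apply io_inj D
    simp only [act4, sm, map_add, map_mul, io_star, map_intCast, hT', ← ha, ← hb, ← hc, ← hd,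
      star_mul', lf2_star]
    linear_combination ((r : KD D) ^ 2) * h2
  · apply io_inj D
    simp only [act4, sm, map_add, map_mul, io_star, map_intCast, hT', ← ha, ← hb, ← hc, ← hd,
      star_mul', lf2_star]
    linear_combination ((r : KD D) ^ 2) * h3

private theorem lf2_hm (v : Fin 4 → ℤ) : hm D α β v = ioH (hr D α β v) := by
  ext1
  · simp only [hm, hr, ioH, map_intCast]
  · simp only [hm, hr, ioH]
  · simp only [hm, hr, ioH, map_intCast]

private theorem lf2_bar (v : Fin 4 → ℤ) : bar (hm D α β v) = ioH (bar (hr D α β v)) := by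
  ext1
  · simp only [hm, hr, ioH, bar, map_intCast]
  · simp only [hm, hr, ioH, bar, io_star]
  · simp only [hm, hr, ioH, bar, map_intCast]

private theorem lf2_prim {a b c d : KD D} {t : ℚ} (ht : t ≠ 0) (hdet : a * d - b * c = (t : KD D)) :
    ∃ (a' b' c' d' : ℤ√D) (T : ℤ) (r : ℚ), Prim D a' b' c' d' T ∧ (T : ℚ) = r ^ 2 * t ∧
      (r : KD D) * a = io D a' ∧ (r : KD D) * b = io D b' ∧ (r : KD D) * c = io D c' ∧ (r : KD D) * d = io D d' := by
  classical
  let Q : ℕ → Prop := fun k => ∃ (a' b' c' d' : ℤ√D) (T : ℤ) (r : ℚ), T ≠ 0 ∧ T.natAbs = k ∧ r ≠ 0 ∧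
    a' * d' - b' * c' = (T : ℤ√D) ∧ (T : ℚ) = r ^ 2 * t ∧
      (r : KD D) * a = io D a' ∧ (r : KD D) * b = io D b' ∧ (r : KD D) * c = io D c' ∧ (r : KD D) * d = io D d'
  have hQ : ∃ k, Q k := by
    obtain ⟨n1, hn1, z1, hz1⟩ := den_el a
    obtain ⟨n2, hn2, z2, hz2⟩ := den_el b
    obtain ⟨n3, hn3, z3, hz3⟩ := den_el c
    obtain ⟨n4, hn4, z4, hz4⟩ := den_el d
    have hr : ((n1 * n2 * n3 * n4 : ℕ) : ℚ) ≠ 0 := by positivity
    have e1 : (((n1 * n2 * n3 * n4 : ℕ) : ℚ) : KD D) * a = io D ((n2 * n3 * n4 : ℕ) * z1) := by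
      rw [map_mul, map_natCast, ← hz1]
      push_cast
      ring
    have e2 : (((n1 * n2 * n3 * n4 : ℕ) : ℚ) : KD D) * b = io D ((n1 * n3 * n4 : ℕ) * z2) := by
      rw [map_mul, map_natCast, ← hz2]
      push_cast
      ring
    have e3 : (((n1 * n2 * n3 * n4 : ℕ) : ℚ) : KD D) * c = io D ((n1 * n2 * n4 : ℕ) * z3) := by
      rw [map_mul, map_natCast, ← hz3]
      push_cast
      ring
    have e4 : (((n1 * n2 * n3 * n4 : ℕ) : ℚ) : KD D) * d = io D ((n1 * n2 * n3 : ℕ) * z4) := by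
      rw [map_mul, map_natCast, ← hz4]
      push_cast
      ring
    obtain ⟨T, hT0, hT1, hT2⟩ := lf2_det ht hr hdet e1 e2 e3 e4
    exact ⟨T.natAbs, _, _, _, _, T, _, hT0, rfl, hr, hT1, hT2, e1, e2, e3, e4⟩
  obtain ⟨a', b', c', d', T, r, hT0, hTk, hr, hT1, hT2, e1, e2, e3, e4⟩ := Nat.find_spec hQ
  refine ⟨a', b', c', d', T, r, ⟨hT0, hT1, ?_⟩, hT2, e1, e2, e3, e4⟩
  rintro p hp ⟨x, rfl⟩ ⟨y, rfl⟩ ⟨z, rfl⟩ ⟨w, rfl⟩
  have hp0 : (p : KD D) ≠ 0 := by exact_mod_cast hp.ne_zero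
  have hpq : (p : ℚ) ≠ 0 := by exact_mod_cast hp.ne_zero
  have hr' : r / p ≠ 0 := div_ne_zero hr hpq
  have key : ∀ (u : KD D) (s : ℤ√D), (r : KD D) * u = io D ((p : ℤ√D) * s) →
      ((r / p : ℚ) : KD D) * u = io D s := by
    intro u s hu
    rw [map_mul, map_natCast] at hu
    refine mul_left_cancel₀ hp0 ?_
    rw [← hu]
    push_cast
    field_simp
  obtain ⟨T', hT0', hT1', hT2'⟩ := lf2_det ht hr' hdet (key _ _ e1) (key _ _ e2) (key _ _ e3) (key _ _ e4)
  have h5 : T = (p : ℤ) ^ 2 * T' := by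
    have h6 : (T : ℤ√D) = (((p : ℤ) ^ 2 * T' : ℤ) : ℤ√D) := by
      rw [← hT1]
      push_cast
      rw [← hT1']
      ring
    exact_mod_cast h6
  have h6 : T'.natAbs < Nat.find hQ := by
    rw [← hTk, h5, Int.natAbs_mul, Int.natAbs_pow, Int.natAbs_natCast]
    have h7 : 0 < T'.natAbs := Int.natAbs_pos.2 hT0'
    have h8 : 1 < p ^ 2 := Nat.one_lt_pow (by norm_num) hp.one_lt
    nlinarith
  exact Nat.find_min hQ h6 ⟨x, y, z, w, T', r / p, hT0', rfl, hr', hT1', hT2', key _ _ e1, key _ _ e2,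
    key _ _ e3, key _ _ e4⟩

end fld

theorem lf2 (h0 : D ≠ 0) (hD : ∀ n : ℤ, D ≠ n * n) (hDD : D = β ^ 2 - 4 * α * γ) (hα : α ≠ 0) {g : (Fin 4 → ℤ) ≃ₗ[ℤ] (Fin 4 → ℤ)} (hg : g ∈ OL α β γ)
    (h1 : g ![1, 0, 0, 0] 0 ≠ 0) : ∃ (a b c d : ℤ√D) (t : ℤ), Prim D a b c d t ∧
      ((∀ v, act4 a b c d (hr D α β v) = sm (t : ℤ√D) (hr D α β (g v))) ∨
        (∀ v, act4 a b c d (bar (hr D α β v)) = sm (t : ℤ√D) (hr D α β (g v)))) := by
  have hF := lf2_fact hD
  obtain ⟨a, b, c, d, t, ht, hdet, hact⟩ := lf1 h0 hDD hα hg h1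
  obtain ⟨a', b', c', d', T, r, hP, hT, e1, e2, e3, e4⟩ := lf2_prim ht hdet
  refine ⟨a', b', c', d', T, hP, ?_⟩
  rcases hact with hact | hact
  · left
    intro v
    have h2 := hact v
    rw [lf2_hm, lf2_hm] at h2
    exact lf2_act hT e1 e2 e3 e4 h2
  · right
    intro v
    have h2 := hact v
    rw [lf2_bar, lf2_hm] at h2
    exact lf2_act hT e1 e2 e3 e4 h2

/-- `h X* = adj(X) G`, if `X h X* = t G` -/
theorem relP {a b c d : ℤ√D} {t : ℤ} (ht : t ≠ 0) (hdet : a * d - b * c = t) {h k : HM (ℤ√D)} (hh : Her h) (hk : Her k)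
    (hX : act4 a b c d h = sm (t : ℤ√D) k) :
    h.p * star a + h.x * star b = d * k.p - b * star k.x ∧ h.p * star c + h.x * star d = d * k.x - b * k.s ∧
      star h.x * star a + h.s * star b = -c * k.p + a * star k.x ∧ star h.x * star c + h.s * star d = -c * k.x + a * k.s := by
  have hP := congrArg HM.p hX
  have hXX := congrArg HM.x hX
  have hS := congrArg HM.s hX
  simp only [act4, sm] at hP hXX hS
  have hXs := congrArg star hXX
  simp only [star_add, star_mul', star_star, hh.1, hh.2, star_intR] at hXs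
  refine ⟨?_, ?_, ?_, ?_⟩
  · refine sub_eq_zero.1 (lf2_tors ht ?_)
    linear_combination (-(h.p * star a + h.x * star b)) * hdet + d * hP - b * hXs
  · refine sub_eq_zero.1 (lf2_tors ht ?_)
    linear_combination (-(h.p * star c + h.x * star d)) * hdet + d * hXX - b * hS
  · refine sub_eq_zero.1 (lf2_tors ht ?_)
    linear_combination (-(star h.x * star a + h.s * star b)) * hdet - c * hP + a * hXs
  · refine sub_eq_zero.1 (lf2_tors ht ?_)
    linear_combination (-(star h.x * star c + h.s * star d)) * hdet - c * hXX + a * hS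

end Pool.Agent.Lib.CSL
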