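import Pool.Agent.Lib.MP_240120_ag.CS.Def
import Pool.Agent.Lib.MP_240120_ag.CS.LDef
import Pool.Agent.Lib.MP_240120_ag.CS.Lf2

/-!
# CS / Lf3 (60 minutes): congruences of the matrix

`M = 4 α n`. `relP` for `v = e, f, n1` (`![1,0,0,0]`, `![0,1,0,0]`, `![0,0,1,0]`), `h = hr v`, `k = hr (g v) ≡ hr v mod M` (componentwise, `M ∣ g v i - v i`).
`e` (`h = (1, 0, 0)`): `star a ≡ d`, `star c ≡ 0`, `0 ≡ -c` mod `M`. `f` (`h = (0, 0, -4α)`): second relation `0 ≡ 4 α b mod M`, so `n ∣ b`; (`n ∣ star z` iff `n ∣ z`). `n1` (`h = (0, 2α, 0)`): second relation: `2α star d ≡ 2 α d mod M`, so `2 n ∣ d - star d = 2 d.im √D`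
(`M = 4 α n`, cancel `2 α`), `n ∣ d.im`. `r := d.re`: `n ∣ d - r`, `a ≡ star d ≡ r mod n`. Divisibility by integers is componentwise (`Zsqrtd.intCast_dvd`).
-/


set_option autoImplicit false

namespace Pool.Agent.Lib.CSL

variable {D α β γ : ℤ}

theorem lf3_cancel {k m : ℤ} (hk : k ≠ 0) {z : ℤ√D} (h : ((k * m : ℤ) : ℤ√D) ∣ (k : ℤ√D) * z) : (m : ℤ√D) ∣ z := by
  rw [Zsqrtd.intCast_dvd] at h ⊢
  simp only [Zsqrtd.re_mul, Zsqrtd.im_mul, Zsqrtd.re_intCast, Zsqrtd.im_intCast, zero_mul, add_zero, mul_zero] at h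
  exact ⟨Int.dvd_of_mul_dvd_mul_left hk h.1, Int.dvd_of_mul_dvd_mul_left hk h.2⟩

theorem lf3_star {n : ℤ} {z w : ℤ√D} (h : (n : ℤ√D) ∣ z) (hw : w = star z) : (n : ℤ√D) ∣ w := by
  obtain ⟨y, rfl⟩ := h
  exact ⟨star y, by rw [hw, star_mul', star_intR]⟩

theorem lf3_k {g : (Fin 4 → ℤ) ≃ₗ[ℤ] (Fin 4 → ℤ)} {n : ℕ} (hg : ∀ v i, 4 * α * n ∣ g v i - v i) (v : Fin 4 → ℤ) :
    ((4 * α * n : ℤ) : ℤ√D) ∣ (hr D α β (g v)).p - (hr D α β v).p ∧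
      ((4 * α * n : ℤ) : ℤ√D) ∣ (hr D α β (g v)).x - (hr D α β v).x ∧
      ((4 * α * n : ℤ) : ℤ√D) ∣ (hr D α β (g v)).s - (hr D α β v).s := by
  refine ⟨?_, ?_, ?_⟩
  · simp only [hr]
    rw [← Int.cast_sub, Zsqrtd.intCast_dvd_intCast]
    exact hg v 0
  · rw [Zsqrtd.intCast_dvd]
    constructor
    · have e : ((hr D α β (g v)).x - (hr D α β v).x).re = 2 * α * (g v 2 - v 2) + β * (g v 3 - v 3) := by
        simp only [hr, xi, Zsqrtd.re_sub]; ring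
      rw [e]
      exact dvd_add ((hg v 2).mul_left _) ((hg v 3).mul_left _)
    · have e : ((hr D α β (g v)).x - (hr D α β v).x).im = g v 3 - v 3 := by
        simp only [hr, xi, Zsqrtd.im_sub]
      rw [e]
      exact hg v 3
  · simp only [hr]
    rw [← Int.cast_sub, Zsqrtd.intCast_dvd_intCast, ← mul_sub]
    exact (hg v 1).mul_left _

theorem lf3_core (hα : α ≠ 0) {g : (Fin 4 → ℤ) ≃ₗ[ℤ] (Fin 4 → ℤ)} {n : ℕ} (hg : ∀ v i, 4 * α * n ∣ g v i - v i)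
    {a b c d : ℤ√D} {t : ℤ} (hP : Prim D a b c d t)
    (he : act4 a b c d (⟨1, 0, 0⟩ : HM (ℤ√D)) = sm (t : ℤ√D) (hr D α β (g ![1, 0, 0, 0])))
    (hf : act4 a b c d (⟨0, 0, ((-4 * α : ℤ) : ℤ√D)⟩ : HM (ℤ√D)) = sm (t : ℤ√D) (hr D α β (g ![0, 1, 0, 0])))
    (hn1 : act4 a b c d (⟨0, ((2 * α : ℤ) : ℤ√D), 0⟩ : HM (ℤ√D)) = sm (t : ℤ√D) (hr D α β (g ![0, 0, 1, 0]))) :
    (n : ℤ√D) ∣ a - (d.re : ℤ√D) ∧ (n : ℤ√D) ∣ b ∧ (n : ℤ√D) ∣ c ∧ (n : ℤ√D) ∣ d - (d.re : ℤ√D) := by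
  have e1 : hr D α β ![1, 0, 0, 0] = ⟨1, 0, 0⟩ := by
    ext <;> simp [hr, xi]
  have e2 : hr D α β ![0, 1, 0, 0] = ⟨0, 0, ((-4 * α : ℤ) : ℤ√D)⟩ := by
    ext <;> simp [hr, xi]
  have e3 : hr D α β ![0, 0, 1, 0] = ⟨0, ((2 * α : ℤ) : ℤ√D), 0⟩ := by
    ext <;> simp [hr, xi]
  have hnM : ((n : ℤ) : ℤ√D) ∣ ((4 * α * n : ℤ) : ℤ√D) :=
    (Zsqrtd.intCast_dvd_intCast _ _).2 (Dvd.intro_left _ rfl)
  obtain ⟨p1, x1, s1⟩ := lf3_k (D := D) (β := β) hg ![1, 0, 0, 0]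
  obtain ⟨p2, x2, s2⟩ := lf3_k (D := D) (β := β) hg ![0, 1, 0, 0]
  obtain ⟨p3, x3, s3⟩ := lf3_k (D := D) (β := β) hg ![0, 0, 1, 0]
  rw [e1] at p1 x1 s1
  rw [e2] at p2 x2 s2
  rw [e3] at p3 x3 s3
  simp only [sub_zero] at p1 x1 s1 p2 x2 s2 p3 x3 s3
  obtain ⟨r1, -, r3, -⟩ := relP hP.t0 hP.det
    (show Her (⟨1, 0, 0⟩ : HM (ℤ√D)) from ⟨star_one _, star_zero _⟩) (hr_her D α β _) he
  obtain ⟨-, r2, -, -⟩ := relP hP.t0 hP.det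
    (show Her (⟨0, 0, ((-4 * α : ℤ) : ℤ√D)⟩ : HM (ℤ√D)) from ⟨star_zero _, star_intR _ _⟩)
    (hr_her D α β _) hf
  obtain ⟨-, q2, -, -⟩ := relP hP.t0 hP.det
    (show Her (⟨0, ((2 * α : ℤ) : ℤ√D), 0⟩ : HM (ℤ√D)) from ⟨star_zero _, star_zero _⟩)
    (hr_her D α β _) hn1
  simp only [star_zero] at r1 r3 r2 q2
  have x1' := lf3_star x1 rfl
  -- `e`
  have h1 : ((4 * α * n : ℤ) : ℤ√D) ∣ star a - d := by
    have e : star a - d = d * ((hr D α β (g ![1, 0, 0, 0])).p - 1) -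
        b * star (hr D α β (g ![1, 0, 0, 0])).x := by linear_combination r1
    rw [e]
    exact dvd_sub (p1.mul_left _) (x1'.mul_left _)
  have h2 : ((4 * α * n : ℤ) : ℤ√D) ∣ c := by
    have e : c = a * star (hr D α β (g ![1, 0, 0, 0])).x -
        c * ((hr D α β (g ![1, 0, 0, 0])).p - 1) := by linear_combination r3
    rw [e]
    exact dvd_sub (x1'.mul_left _) (p1.mul_left _)
  -- `f`
  have h3 : (n : ℤ√D) ∣ b := by
    have h4 : ((-4 * α * n : ℤ) : ℤ√D) ∣ ((-4 * α : ℤ) : ℤ√D) * b := by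
      have e : ((-4 * α : ℤ) : ℤ√D) * b = d * (hr D α β (g ![0, 1, 0, 0])).x -
          b * ((hr D α β (g ![0, 1, 0, 0])).s - ((-4 * α : ℤ) : ℤ√D)) := by linear_combination r2
      have e' : ((-4 * α * n : ℤ) : ℤ√D) = -((4 * α * n : ℤ) : ℤ√D) := by push_cast; ring
      rw [e, e', neg_dvd]
      exact dvd_sub (x2.mul_left _) (s2.mul_left _)
    have h5 := lf3_cancel (by simpa using hα) h4
    rwa [Int.cast_natCast] at h5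
  -- `n1`
  have h6 : ((4 * α * n : ℤ) : ℤ√D) ∣ ((2 * α : ℤ) : ℤ√D) * (star d - d) := by
    have e : ((2 * α : ℤ) : ℤ√D) * (star d - d) = d * ((hr D α β (g ![0, 0, 1, 0])).x - ((2 * α : ℤ) : ℤ√D)) -
        b * (hr D α β (g ![0, 0, 1, 0])).s := by linear_combination q2
    rw [e]
    exact dvd_sub (x3.mul_left _) (s3.mul_left _)
  have h7 : (n : ℤ) ∣ d.im := by
    rw [Zsqrtd.intCast_dvd] at h6
    have h8 := h6.2
    simp only [Zsqrtd.im_mul, Zsqrtd.re_intCast, Zsqrtd.im_intCast, Zsqrtd.im_sub, Zsqrtd.im_star,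
      zero_mul, add_zero] at h8
    have h9 : 4 * α * n ∣ (4 * α) * (-d.im) := by
      have e : (4 * α) * (-d.im) = 2 * α * (-d.im - d.im) := by ring
      rwa [e]
    exact (dvd_neg).1 (Int.dvd_of_mul_dvd_mul_left (by simpa using hα) h9)
  have h10 : (n : ℤ√D) ∣ d - (d.re : ℤ√D) := by
    have : ((n : ℤ) : ℤ√D) ∣ d - (d.re : ℤ√D) := by
      rw [Zsqrtd.intCast_dvd]
      simp [h7]
    rwa [Int.cast_natCast] at this
  refine ⟨?_, h3, ?_, h10⟩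
  · have h11 : ((n : ℤ) : ℤ√D) ∣ a - star d :=
      lf3_star (hnM.trans h1) (by rw [star_sub, star_star])
    have h12 : ((n : ℤ) : ℤ√D) ∣ star d - (d.re : ℤ√D) := by
      rw [Zsqrtd.intCast_dvd]
      simp [h7]
    have h13 := dvd_add h11 h12
    rwa [sub_add_sub_cancel, Int.cast_natCast] at h13
  · have := hnM.trans h2
    rwa [Int.cast_natCast] at this

theorem lf3 (hα : α ≠ 0) {g : (Fin 4 → ℤ) ≃ₗ[ℤ] (Fin 4 → ℤ)} {n : ℕ} (hn : 0 < n) (hg : ∀ v i, 4 * α * n ∣ g v i - v i)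
    {a b c d : ℤ√D} {t : ℤ} (hP : Prim D a b c d t) (hX : ∀ v, act4 a b c d (hr D α β v) = sm (t : ℤ√D) (hr D α β (g v))) :
    ∃ r : ℤ, (n : ℤ√D) ∣ a - r ∧ (n : ℤ√D) ∣ b ∧ (n : ℤ√D) ∣ c ∧ (n : ℤ√D) ∣ d - r := by
  refine ⟨d.re, lf3_core (β := β) hα hg hP ?_ ?_ ?_⟩
  · rw [← hX]
    congr 1
    ext <;> simp [hr, xi]
  · rw [← hX]
    congr 1
    ext <;> simp [hr, xi]
  · rw [← hX]
    congr 1
    ext <;> simp [hr, xi]

end Pool.Agent.Lib.CSL
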