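import Pool.Agent.Lib.MP_240120_ag.CS.Def
import Pool.Agent.Lib.MP_240120_ag.CS.LDef
import Pool.Agent.Lib.MP_240120_ag.CS.Lf2
import Pool.Agent.Lib.MP_240120_ag.CS.Lf3

/-!
# CS / Lf4 (60 minutes): the conjugate case is impossible

`M = 4 α n`. `relP` for `v = e, f, n1, n2` (`![1,0,0,0]`, `![0,1,0,0]`, `![0,0,1,0]`, `![0,0,0,1]`), `h = bar (hr v)`, `k = hr (g v) ≡ hr v mod M` (componentwise).
`e` (`h = (1, 0, 0)`): `star a ≡ d`, `star c ≡ 0`. `f` (`h = (0, 0, -4α)`): second relation `0 ≡ 4 α b mod M`, so `n ∣ b`. `n1` (`h = (0, 2α, 0)`): second relation: `2α star d ≡ 2 α d mod M`, so `n ∣ d.im`. `r := d.re`: `a ≡ d ≡ r`, `b ≡ c ≡ 0 mod n`.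
`n2`: `h.x = star ξ`, `ξ = β + √D`, `k.x ≡ ξ`: second relation: `star ξ star d ≡ d ξ mod n` (`b ≡ 0`), so `r (ξ - star ξ) = 2 r √D ≡ 0 mod n`, `n ∣ 2 r`, so `2 ∣ r` (`4 ∣ n`), and `2` divides `a, b, c, d`: contradiction to `Prim.pr`.
-/

set_option autoImplicit false

namespace Pool.Agent.Lib.CSL

variable {D α β γ : ℤ}

theorem lf4 (hα : α ≠ 0) {g : (Fin 4 → ℤ) ≃ₗ[ℤ] (Fin 4 → ℤ)} {n : ℕ} (hn : 0 < n) (h4 : 4 ∣ n) (hg : ∀ v i, 4 * α * n ∣ g v i - v i)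
    {a b c d : ℤ√D} {t : ℤ} (hP : Prim D a b c d t) (hX : ∀ v, act4 a b c d (bar (hr D α β v)) = sm (t : ℤ√D) (hr D α β (g v))) : False := by
  obtain ⟨ha, hb, hc, hd⟩ := lf3_core (β := β) hα hg hP
    (by
      rw [← hX]
      congr 1
      ext <;> simp [hr, xi, bar])
    (by
      rw [← hX]
      congr 1
      ext <;> simp [hr, xi, bar])
    (by
      rw [← hX]
      congr 1
      ext <;> simp [hr, xi, bar])
  have e4 : hr D α β ![0, 0, 0, 1] = ⟨0, ⟨β, 1⟩, 0⟩ := by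
    ext <;> simp [hr, xi]
  have h1 := hX ![0, 0, 0, 1]
  obtain ⟨-, -, s4⟩ := lf3_k (D := D) (β := β) hg ![0, 0, 0, 1]
  obtain ⟨-, x4, -⟩ := lf3_k (D := D) (β := β) hg ![0, 0, 0, 1]
  rw [e4] at h1 s4 x4
  have hnM : ((n : ℤ) : ℤ√D) ∣ ((4 * α * n : ℤ) : ℤ√D) :=
    (Zsqrtd.intCast_dvd_intCast _ _).2 (Dvd.intro_left _ rfl)
  rw [Int.cast_natCast] at hnM
  obtain ⟨-, r2, -, -⟩ := relP hP.t0 hP.det
    (show Her (bar (⟨0, ⟨β, 1⟩, 0⟩ : HM (ℤ√D))) from ⟨star_zero _, star_zero _⟩)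
    (hr_her D α β _) h1
  simp only [bar, zero_mul, zero_add] at r2
  have hd' : (n : ℤ√D) ∣ star d - (d.re : ℤ√D) := by
    have hd1 : ((n : ℤ) : ℤ√D) ∣ d - (d.re : ℤ√D) := by rwa [Int.cast_natCast]
    have hd2 := lf3_star (w := star d - (d.re : ℤ√D)) hd1 (by rw [star_sub, star_intR])
    rwa [Int.cast_natCast] at hd2
  have h2 : (n : ℤ√D) ∣ (d.re : ℤ√D) * (star (⟨β, 1⟩ : ℤ√D) - ⟨β, 1⟩) := by
    have e : (d.re : ℤ√D) * (star (⟨β, 1⟩ : ℤ√D) - ⟨β, 1⟩) =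
        d * ((hr D α β (g ![0, 0, 0, 1])).x - ⟨β, 1⟩) + (d - (d.re : ℤ√D)) * ⟨β, 1⟩ -
          b * (hr D α β (g ![0, 0, 0, 1])).s -
          star (⟨β, 1⟩ : ℤ√D) * (star d - (d.re : ℤ√D)) := by linear_combination r2
    rw [e]
    exact dvd_sub (dvd_sub (dvd_add ((hnM.trans x4).mul_left _) (hd.mul_right _)) (hb.mul_right _))
      (hd'.mul_left _)
  have h3 : (n : ℤ) ∣ 2 * d.re := by
    have h5 : ((n : ℤ) : ℤ√D) ∣ (d.re : ℤ√D) * (star (⟨β, 1⟩ : ℤ√D) - ⟨β, 1⟩) := by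
      rwa [Int.cast_natCast]
    rw [Zsqrtd.intCast_dvd] at h5
    have h6 := h5.2
    simp only [Zsqrtd.im_mul, Zsqrtd.re_intCast, Zsqrtd.im_intCast, Zsqrtd.im_sub, Zsqrtd.im_star,
      zero_mul, add_zero] at h6
    have e : 2 * d.re = -(d.re * (-1 - 1)) := by ring
    rw [e]
    exact (dvd_neg).2 h6
  have h5 : (2 : ℤ) ∣ d.re := by
    obtain ⟨m, hm⟩ := h4
    obtain ⟨k, hk⟩ := h3
    rw [hm] at hk
    push_cast at hk
    exact ⟨m * k, by linarith⟩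
  have h2n : ((2 : ℕ) : ℤ√D) ∣ (n : ℤ√D) := by
    obtain ⟨m, hm⟩ := h4
    rw [hm]
    exact ⟨2 * m, by push_cast; ring⟩
  have h2r : ((2 : ℕ) : ℤ√D) ∣ (d.re : ℤ√D) := by
    obtain ⟨m, hm⟩ := h5
    exact ⟨m, by rw [hm]; push_cast; ring⟩
  refine hP.pr 2 Nat.prime_two ?_ (h2n.trans hb) (h2n.trans hc) ?_
  · have := dvd_add (h2n.trans ha) h2r
    rwa [sub_add_cancel] at this
  · have := dvd_add (h2n.trans hd) h2r
    rwa [sub_add_cancel] at this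

end Pool.Agent.Lib.CSL
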