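import Pool.Agent.Lib.MP_240120_ag.CS.Def
import Pool.Agent.Lib.MP_240120_ag.CS.LDef
import Pool.Agent.Lib.MP_240120_ag.CS.Rf1

/-!
# CS / Rr (75 minutes): the product of two reflections

`κ = q(v) = q(w)`, `c0 = 4 α`. The reflections are linear equivalences (involutions: `s_v (s_v x) = x` as `pol v v = 2 q(v)`, `q(v)^2 = 1`); `g := s_v * s_w ∈ W2`. `Y := V adj(W) / c0`, explicitly below (the four relations determine `Y`, `c0 ≠ 0` in the field `KD D`).
Determinant: `c0^2 (Y.a Y.d - Y.b Y.c) = (c0 v0 v1 + ξ ξ') (c0 w0 w1 + ζ ζ') = (c0 κ)^2` (`xi_norm`).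
Action: `rf1` for `w`: `W adj(H) W = c0 κ hm(s_w x)`; take adjugates: `adj(W) H adj(W) = c0 κ adj(hm(s_w x))` (`adj (act4 w_p w_x w_x' w_s (adj h)) = act4 w_s (-w_x) (-w_x') w_p h` for hermitian entries, an identity of polynomials), then `rf1` for `v`, `x := s_w x`:
`V adj(W) H adj(W) V = c0 κ · c0 κ hm(s_v s_w x)`; `act4_comp`, `c0^2 κ^2 = c0^2`.
-/

set_option autoImplicit false

namespace Pool.Agent.Lib.CSL

section gen

variable {A : Type*} [CommRing A] [StarRing A]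

private theorem Rr_adj (p s x : A) (hp : star p = p) (hs : star s = s) {h : HM A} (hh : Her h) :
    act4 s (-x) (-(star x)) p h = adj (act4 p x (star x) s (adj h)) := by
  ext
  · simp only [act4, adj, star_neg, star_star, hp, hs]; ring
  · simp only [act4, adj, star_neg, star_star, hp, hs]; ring
  · simp only [act4, adj, star_neg, star_star, hp, hs]; ring

private theorem Rr_sm (a b c d t : A) (ht : star t = t) (h : HM A) :
    act4 a b c d (sm t h) = sm t (act4 a b c d h) := by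
  ext
  · simp only [act4, sm, star_mul', ht]; ring
  · simp only [act4, sm, star_mul', ht]; ring
  · simp only [act4, sm, star_mul', ht]; ring

private theorem Rr_scale (a b c d t : A) (ht : star t = t) (h : HM A) :
    act4 (t * a) (t * b) (t * c) (t * d) h = sm (t ^ 2) (act4 a b c d h) := by
  ext
  · simp only [act4, sm, star_mul', ht]; ring
  · simp only [act4, sm, star_mul', ht]; ring
  · simp only [act4, sm, star_mul', ht]; ring

private theorem Rr_adj_sm (t : A) (h : HM A) : adj (sm t h) = sm t (adj h) := by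
  ext
  · simp only [adj, sm]
  · simp only [adj, sm]; ring
  · simp only [adj, sm]

end gen

section refl

variable {α β γ : ℤ}

private theorem Rr_pol_add (v x y : Fin 4 → ℤ) :
    pol α β γ v (x + y) = pol α β γ v x + pol α β γ v y := by
  simp only [pol, Pi.add_apply]; ring

private theorem Rr_pol_smul (v x : Fin 4 → ℤ) (c : ℤ) :
    pol α β γ v (c • x) = c * pol α β γ v x := by
  simp only [pol, Pi.smul_apply, smul_eq_mul]; ring

private theorem Rr_pol_sub (v x y : Fin 4 → ℤ) :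
    pol α β γ v (x - y) = pol α β γ v x - pol α β γ v y := by
  simp only [pol, Pi.sub_apply]; ring

private theorem Rr_pol_self (v : Fin 4 → ℤ) : pol α β γ v v = 2 * qf α β γ v := by
  simp only [pol, qf]; ring

private theorem Rr_exists (v : Fin 4 → ℤ) (hv : qf α β γ v = 1 ∨ qf α β γ v = -1) :
    ∃ g ∈ W2 α β γ, ∀ x, g x = x - (qf α β γ v * pol α β γ v x) • v := by
  let f : (Fin 4 → ℤ) →ₗ[ℤ] (Fin 4 → ℤ) :=
    { toFun := fun x => x - (qf α β γ v * pol α β γ v x) • v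
      map_add' := by
        intro x y
        rw [Rr_pol_add, mul_add, add_smul]
        abel
      map_smul' := by
        intro c x
        rw [Rr_pol_smul, RingHom.id_apply, smul_sub, smul_smul]
        congr 2
        ring }
  have hf : Function.Involutive f := by
    intro x
    show x - (qf α β γ v * pol α β γ v x) • v -
      (qf α β γ v * pol α β γ v (x - (qf α β γ v * pol α β γ v x) • v)) • v = x
    rw [Rr_pol_sub, Rr_pol_smul, Rr_pol_self]
    have h1 : qf α β γ v * qf α β γ v = 1 := by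
      rcases hv with h | h <;> rw [h] <;> norm_num
    have h2 : qf α β γ v * (pol α β γ v x - qf α β γ v * pol α β γ v x * (2 * qf α β γ v)) =
        -(qf α β γ v * pol α β γ v x) := by
      linear_combination (-2 * qf α β γ v * pol α β γ v x) * h1
    rw [h2, neg_smul]
    abel
  refine ⟨LinearEquiv.ofInvolutive f hf, Subgroup.subset_closure ⟨v, hv, fun x => rfl⟩,
    fun x => rfl⟩

end refl

variable {D α β γ : ℤ} [Fact (∀ r : ℚ, r ^ 2 ≠ (D : ℚ) + 0 * r)]

private theorem Rr_adjW (hDD : D = β ^ 2 - 4 * α * γ) {w : Fin 4 → ℤ}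
    (hw : qf α β γ w = 1 ∨ qf α β γ w = -1) (x : Fin 4 → ℤ) :
    act4 ((-4 * α * w 1 : ℤ) : KD D) (-io D (xi D α β w)) (-(star (io D (xi D α β w))))
      (w 0 : KD D) (hm D α β x) =
    sm ((4 * α * qf α β γ w : ℤ) : KD D)
      (adj (hm D α β (x - (qf α β γ w * pol α β γ w x) • w))) := by
  rw [Rr_adj _ _ _ (star_int _ _) (star_int _ _) (hm_her _ _ _ _), rf1 hDD hw x, Rr_adj_sm]

theorem rr (hDD : D = β ^ 2 - 4 * α * γ) (hα : α ≠ 0) {κ : ℤ} (hκ : κ = 1 ∨ κ = -1) {v w : Fin 4 → ℤ} (hv : qf α β γ v = κ) (hw : qf α β γ w = κ) :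
    ∃ Y ∈ NW D α β γ, (4 * α : KD D) * Y.a = -(4 * α * v 0 * w 1) - io D (xi D α β v) * star (io D (xi D α β w)) ∧
      (4 * α : KD D) * Y.b = w 0 * io D (xi D α β v) - v 0 * io D (xi D α β w) ∧
      Y.c = v 1 * star (io D (xi D α β w)) - w 1 * star (io D (xi D α β v)) ∧
      (4 * α : KD D) * Y.d = -(4 * α * v 1 * w 0) - star (io D (xi D α β v)) * io D (xi D α β w) := by
  have hc : (4 * α : KD D) ≠ 0 := by
    intro h
    have h1 := congrArg QuadraticAlgebra.re h
    have h2 : (4 * α : KD D) = ((4 * α : ℤ) : KD D) := by push_cast; ring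
    rw [h2, QuadraticAlgebra.re_intCast, QuadraticAlgebra.re_zero, Int.cast_eq_zero] at h1
    omega
  have hcs : star (4 * α : KD D) = (4 * α : KD D) := by
    have h2 : (4 * α : KD D) = ((4 * α : ℤ) : KD D) := by push_cast; ring
    rw [h2, star_int]
  have hv' : qf α β γ v = 1 ∨ qf α β γ v = -1 := by rw [hv]; exact hκ
  have hw' : qf α β γ w = 1 ∨ qf α β γ w = -1 := by rw [hw]; exact hκ
  have hκ2 : (κ : KD D) * κ = 1 := by
    rcases hκ with h | h <;> rw [h] <;> push_cast <;> ring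
  have nv := xi_norm hDD v
  have nw := xi_norm hDD w
  rw [hv] at nv
  rw [hw] at nw
  push_cast at nv nw
  obtain ⟨ξ, hξ⟩ : ∃ ξ, ξ = io D (xi D α β v) := ⟨_, rfl⟩
  obtain ⟨ζ, hζ⟩ : ∃ ζ, ζ = io D (xi D α β w) := ⟨_, rfl⟩
  rw [← hξ, ← hζ]
  rw [← hξ] at nv
  rw [← hζ] at nw
  obtain ⟨a, ha⟩ : ∃ a : KD D, (4 * α : KD D) * a = -(4 * α * v 0 * w 1) - ξ * star ζ :=
    ⟨(4 * α : KD D)⁻¹ * (-(4 * α * v 0 * w 1) - ξ * star ζ), mul_inv_cancel_left₀ hc _⟩
  obtain ⟨b, hb⟩ : ∃ b : KD D, (4 * α : KD D) * b = w 0 * ξ - v 0 * ζ :=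
    ⟨(4 * α : KD D)⁻¹ * (w 0 * ξ - v 0 * ζ), mul_inv_cancel_left₀ hc _⟩
  obtain ⟨d, hd⟩ : ∃ d : KD D, (4 * α : KD D) * d = -(4 * α * v 1 * w 0) - star ξ * ζ :=
    ⟨(4 * α : KD D)⁻¹ * (-(4 * α * v 1 * w 0) - star ξ * ζ), mul_inv_cancel_left₀ hc _⟩
  have hdet : a * d - b * (v 1 * star ζ - w 1 * star ξ) = 1 := by
    have h1 : (4 * α : KD D) ^ 2 * (a * d - b * (v 1 * star ζ - w 1 * star ξ)) =
        (4 * α : KD D) ^ 2 * 1 := by
      have h2 : (4 * α : KD D) ^ 2 * (a * d - b * (v 1 * star ζ - w 1 * star ξ)) =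
          ((4 * α : KD D) * a) * ((4 * α : KD D) * d) -
            ((4 * α : KD D) * b) * ((4 * α : KD D) * (v 1 * star ζ - w 1 * star ξ)) := by ring
      rw [h2, ha, hb, hd]
      linear_combination (4 * α * w 0 * w 1 + ζ * star ζ) * nv + (4 * α * κ) * nw +
        (4 * α : KD D) ^ 2 * hκ2
    exact mul_left_cancel₀ (pow_ne_zero 2 hc) h1
  obtain ⟨gv, hgv, hgv2⟩ := Rr_exists v hv'
  obtain ⟨gw, hgw, hgw2⟩ := Rr_exists w hw'
  refine ⟨⟨a, b, v 1 * star ζ - w 1 * star ξ, d, hdet⟩,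
    ⟨gv * gw, Subgroup.mul_mem _ hgv hgw, fun x => ?_⟩, ha, hb, rfl, hd⟩
  have key : sm ((4 * α : KD D) ^ 2) (act4 a b (v 1 * star ζ - w 1 * star ξ) d (hm D α β x)) =
      sm ((4 * α : KD D) ^ 2) (hm D α β ((gv * gw) x)) := by
    rw [← Rr_scale _ _ _ _ _ hcs, ha, hb, hd]
    have e1 : -(4 * α * v 0 * w 1 : KD D) - ξ * star ζ =
        (v 0 : KD D) * ((-4 * α * w 1 : ℤ) : KD D) + ξ * (-(star ζ)) := by push_cast; ring
    have e2 : (w 0 : KD D) * ξ - v 0 * ζ = (v 0 : KD D) * (-ζ) + ξ * (w 0 : KD D) := by ring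
    have e3 : (4 * α : KD D) * (v 1 * star ζ - w 1 * star ξ) =
        star ξ * ((-4 * α * w 1 : ℤ) : KD D) + ((-4 * α * v 1 : ℤ) : KD D) * (-(star ζ)) := by
      push_cast; ring
    have e4 : -(4 * α * v 1 * w 0 : KD D) - star ξ * ζ =
        star ξ * (-ζ) + ((-4 * α * v 1 : ℤ) : KD D) * (w 0 : KD D) := by push_cast; ring
    rw [e1, e2, e3, e4, act4_comp _ _ _ _ _ _ _ _ (hm_her _ _ _ _), hζ,
      Rr_adjW hDD hw' x, ← hgw2, Rr_sm _ _ _ _ _ (star_int _ _), hξ, rf1 hDD hv' (gw x), ← hgv2]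
    show sm _ (sm _ (hm D α β (gv (gw x)))) = sm _ (hm D α β (gv (gw x)))
    rw [hv, hw]
    have e5 : ∀ k : HM (KD D), sm ((4 * α * κ : ℤ) : KD D) (sm ((4 * α * κ : ℤ) : KD D) k) =
        sm ((4 * α : KD D) ^ 2) k := by
      intro k
      have e6 : ((4 * α * κ : ℤ) : KD D) * ((4 * α * κ : ℤ) : KD D) = (4 * α : KD D) ^ 2 := by
        push_cast
        linear_combination (4 * α : KD D) ^ 2 * hκ2
      ext1
      · show _ * (_ * _) = _ * _
        rw [← mul_assoc, e6]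
      · show _ * (_ * _) = _ * _
        rw [← mul_assoc, e6]
      · show _ * (_ * _) = _ * _
        rw [← mul_assoc, e6]
    exact e5 _
  have hc2 := pow_ne_zero 2 hc
  ext1
  · exact mul_left_cancel₀ hc2 (congrArg HM.p key)
  · exact mul_left_cancel₀ hc2 (congrArg HM.x key)
  · exact mul_left_cancel₀ hc2 (congrArg HM.s key)

end Pool.Agent.Lib.CSL
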