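import Pool.Agent.Lib.MP_240120_ag.CS.Def
import Pool.Agent.Lib.MP_240120_ag.CS.LDef
import Pool.Agent.Lib.MP_240120_ag.CS.Rr

/-!
# CS / Spe (60 minutes): special matrices (H3)

`κ := 1` if `α < 0`, `-1` if `α > 0`, so `κ α = -|α|`. `v := (a, κ d, 2 κ' (b.re - β b.im), 4 |α| b.im)` with `κ' = sign α = -κ`, so `xi v = 4 |α| b` (`2 α · 2 sign(α) (b.re - β b.im) + β 4 |α| b.im = 4 |α| b.re`); `q(v) = κ a d + N(xi v) / (4 α) = κ (a d - 4 |α| N(b)) = κ`
(`xi_norm` or by computation; `X.h` gives `a d - 4 |α| N(b) = 1`: `X.a X.d - X.b X.c = a d - 4|α| b star b`). `w := (1, κ, 0, 0)`, `xi w = 0`, `q(w) = κ`. `rr`: `Y.a = -κ a`, `4 α Y.b = 4 |α| b`, `Y.c = -κ 4 |α| star b`, `Y.d = -κ d`. So `im X = -κ Y` up to sign: `im X = Y` or `im X = -Y`;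
both are in `NW` (`act_neg`). (`4|α|/(4α) = -κ`, `κ^2 = 1`.)
-/

set_option autoImplicit false

namespace Pool.Agent.Lib.CSL

variable {D α β γ : ℤ} [Fact (∀ r : ℚ, r ^ 2 ≠ (D : ℚ) + 0 * r)]

private theorem Spe_aux (hDD : D = β ^ 2 - 4 * α * γ) (hα : α ≠ 0) {s : ℤ} (hs : s = 1 ∨ s = -1)
    (a d : ℤ) (b : ℤ√D) (hdet : a * d - 4 * s * α * b.norm = 1) :
    ∃ Y ∈ NW D α β γ, Y.a = s * a ∧ Y.b = s * io D b ∧ Y.c = 4 * α * star (io D b) ∧
      Y.d = s * d := by
  have hs2 : s * s = 1 := by rcases hs with rfl | rfl <;> norm_num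
  have hκ : -s = 1 ∨ -s = -1 := by
    rcases hs with rfl | rfl
    · right; rfl
    · left; norm_num
  have hxv : xi D α β ![a, -s * d, 2 * s * (b.re - β * b.im), 4 * s * α * b.im] =
      ((4 * s * α : ℤ) : ℤ√D) * b := by
    refine Zsqrtd.ext ?_ ?_
    · show 2 * α * (2 * s * (b.re - β * b.im)) + β * (4 * s * α * b.im) = _
      simp only [Zsqrtd.re_mul, Zsqrtd.re_intCast, Zsqrtd.im_intCast]
      ring
    · show 4 * s * α * b.im = _
      simp only [Zsqrtd.im_mul, Zsqrtd.re_intCast, Zsqrtd.im_intCast]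
      ring
  have hxw : xi D α β ![1, -s, 0, 0] = 0 := by
    refine Zsqrtd.ext ?_ rfl
    show 2 * α * 0 + β * 0 = 0
    ring
  have hv : qf α β γ ![a, -s * d, 2 * s * (b.re - β * b.im), 4 * s * α * b.im] = -s := by
    rw [Zsqrtd.norm_def] at hdet
    show a * (-s * d) + α * (2 * s * (b.re - β * b.im)) ^ 2 +
      β * (2 * s * (b.re - β * b.im)) * (4 * s * α * b.im) + γ * (4 * s * α * b.im) ^ 2 = -s
    linear_combination (-s) * hdet + 4 * s ^ 2 * α * b.im ^ 2 * hDD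
  have hw : qf α β γ ![1, -s, 0, 0] = -s := by
    show 1 * (-s) + α * 0 ^ 2 + β * 0 * 0 + γ * 0 ^ 2 = -s
    ring
  have h4 : (4 * (α : KD D)) ≠ 0 := by
    intro h0
    have h1 := congrArg QuadraticAlgebra.re h0
    have h2 : (4 * (α : KD D)) = ((4 * α : ℤ) : KD D) := by push_cast; ring
    rw [h2, QuadraticAlgebra.re_intCast, QuadraticAlgebra.re_zero] at h1
    have h3 : (4 * α : ℤ) = 0 := by exact_mod_cast h1
    omega
  obtain ⟨Y, hY, h1, h2, h3, h5⟩ := rr hDD hα hκ hv hw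
  have hss : (s : KD D) * s = 1 := by exact_mod_cast congrArg (fun z : ℤ => (z : KD D)) hs2
  rw [hxv, hxw] at h1 h2 h3 h5
  simp only [map_zero, star_zero, mul_zero, sub_zero, zero_mul, map_mul, map_intCast,
    star_mul', star_int] at h1 h2 h3 h5
  have e0 : (![a, -s * d, 2 * s * (b.re - β * b.im), 4 * s * α * b.im] : Fin 4 → ℤ) 0 = a := rfl
  have e1 : (![a, -s * d, 2 * s * (b.re - β * b.im), 4 * s * α * b.im] : Fin 4 → ℤ) 1 = -s * d :=
    rfl
  have f0 : (![1, -s, 0, 0] : Fin 4 → ℤ) 0 = 1 := rfl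
  have f1 : (![1, -s, 0, 0] : Fin 4 → ℤ) 1 = -s := rfl
  rw [e0, f1] at h1
  rw [f0] at h2
  rw [f1] at h3
  rw [e1, f0] at h5
  push_cast at h1 h2 h3 h5
  refine ⟨Y, hY, ?_, ?_, ?_, ?_⟩
  · refine mul_left_cancel₀ h4 ?_
    linear_combination h1
  · refine mul_left_cancel₀ h4 ?_
    linear_combination h2
  · linear_combination h3 + 4 * α * star (io D b) * hss
  · refine mul_left_cancel₀ h4 ?_
    linear_combination h5

theorem spe (hDD : D = β ^ 2 - 4 * α * γ) (hα : α ≠ 0) (a d : ℤ) (b : ℤ√D) (X : S2 (ℤ√D)) (ha : X.a = a) (hb : X.b = b)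
    (hc : X.c = -((-4 * |α| : ℤ) : ℤ√D) * star b) (hd : X.d = d) : im D X ∈ NW D α β γ := by
  obtain ⟨s, hs, hsα⟩ : ∃ s : ℤ, (s = 1 ∨ s = -1) ∧ |α| = s * α := by
    rcases lt_or_gt_of_ne hα with h | h
    · exact ⟨-1, Or.inr rfl, by rw [abs_of_neg h]; ring⟩
    · exact ⟨1, Or.inl rfl, by rw [abs_of_pos h]; ring⟩
  rw [hsα] at hc
  have hdet : a * d - 4 * s * α * b.norm = 1 := by
    have h1 := X.h
    rw [ha, hb, hc, hd] at h1
    have h2 := Zsqrtd.norm_eq_mul_conj b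
    have h3 : ((a * d - 4 * s * α * b.norm : ℤ) : ℤ√D) = ((1 : ℤ) : ℤ√D) := by
      push_cast at h1 ⊢
      linear_combination h1 - 4 * s * α * h2
    exact_mod_cast h3
  obtain ⟨Y, hY, h1, h2, h3, h4⟩ := Spe_aux hDD hα hs a d b hdet
  have ia : (im D X).a = (a : KD D) := by
    show io D X.a = _
    rw [ha, map_intCast]
  have ib : (im D X).b = io D b := by
    show io D X.b = _
    rw [hb]
  have ic : (im D X).c = 4 * s * α * star (io D b) := by
    show io D X.c = _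
    rw [hc, map_mul, map_neg, map_intCast, io_star]
    push_cast
    ring
  have id' : (im D X).d = (d : KD D) := by
    show io D X.d = _
    rw [hd, map_intCast]
  rcases hs with rfl | rfl
  · have h5 : im D X = Y := by
      ext1
      · rw [ia, h1]; push_cast; ring
      · rw [ib, h2]; push_cast; ring
      · rw [ic, h3]; push_cast; ring
      · rw [id', h4]; push_cast; ring
    rw [h5]
    exact hY
  · obtain ⟨w, hw, hwv⟩ := hY
    refine ⟨w, hw, fun v => ?_⟩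
    rw [← hwv v]
    show act4 (im D X).a (im D X).b (im D X).c (im D X).d _ = act4 Y.a Y.b Y.c Y.d _
    have j1 : (im D X).a = -Y.a := by rw [ia, h1]; push_cast; ring
    have j2 : (im D X).b = -Y.b := by rw [ib, h2]; push_cast; ring
    have j3 : (im D X).c = -Y.c := by rw [ic, h3]; push_cast; ring
    have j4 : (im D X).d = -Y.d := by rw [id', h4]; push_cast; ring
    rw [j1, j2, j3, j4]
    exact act_neg _ _ _ _ _

end Pool.Agent.Lib.CSL
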