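import Pool.Agent.Lib.MP_240120_ag.CS.Def
import Pool.Agent.Lib.MP_240120_ag.CS.Dir
import Pool.Agent.Lib.MP_240120_ag.CS.Qr2

/-!
# CS / Spx (60 minutes): a special matrix with given residue

`r` is prime to `q`. `dir` for `R0 = q^2`: a prime `p > 4 |α D| q + 2`, `p ≡ r mod q^2`; `a := p`. `p` is prime to `4 α q^2`: `k` with `4 |α| q^2 k ≡ -1 mod p`; `univ`: `b1` with `N(b1) ≡ k mod p` (`p` odd, prime to `D`); `b := q b1`: `1 + 4 |α| N(b) = 1 + 4|α| q^2 N(b1) ≡ 0 mod p`; `d := (1 + 4 |α| N(b))/p`.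
`p d ≡ 1 mod q`, `p ≡ r`, so `r d ≡ 1 ≡ r^2 mod q`, `d ≡ r mod q`.
-/

set_option autoImplicit false

namespace Pool.Agent.Lib.CSL

theorem spx {D α : ℤ} (h0 : D ≠ 0) (hα : α ≠ 0) {q : ℕ} (hq : 0 < q) {r : ℤ} (hr : (q : ℤ) ∣ r ^ 2 - 1) :
    ∃ (a d : ℤ) (b : ℤ√D), a * d - 4 * |α| * b.norm = 1 ∧ (q : ℤ) ∣ a - r ∧ (q : ℤ) ∣ d - r ∧ (q : ℤ√D) ∣ b := by
  obtain ⟨k0, hk0⟩ := hr
  have hc : IsCoprime r ((q ^ 2 : ℕ) : ℤ) := by
    push_cast
    refine IsCoprime.pow_right ?_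
    exact ⟨r, -k0, by linear_combination hk0⟩
  have hq2 : 0 < q ^ 2 := by positivity
  obtain ⟨p, hp, hpn, hpr⟩ := dir (q ^ 2) hq2 r hc ((4 * |α| * |D| * q).natAbs + 2)
  have hpbig : 4 * |α| * |D| * q + 2 < (p : ℤ) := by
    have h1 : ((4 * |α| * |D| * q).natAbs : ℤ) = 4 * |α| * |D| * q := Int.natAbs_of_nonneg (by positivity)
    have h2 : ((((4 * |α| * |D| * q).natAbs + 2 : ℕ)) : ℤ) < (p : ℤ) := by exact_mod_cast hpn
    push_cast at h2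
    rw [Int.natCast_natAbs] at h1
    rw [h1] at h2
    exact h2
  have hpP : Prime (p : ℤ) := Nat.prime_iff_prime_int.1 hp
  have hpos : 0 < 4 * |α| * |D| * (q : ℤ) := by
    have := abs_pos.2 hα
    have := abs_pos.2 h0
    positivity
  have hnd : ¬ (p : ℤ) ∣ 4 * |α| * |D| * q := by
    intro h
    have := Int.le_of_dvd hpos h
    linarith
  have hp2 : p ≠ 2 := by
    rintro rfl
    push_cast at hpbig
    linarith
  have hpD : ¬ (p : ℤ) ∣ D := by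
    intro h
    apply hnd
    exact ((dvd_abs _ _).2 h |>.mul_left _).mul_right _
  have hcop : IsCoprime (p : ℤ) (4 * |α| * (q : ℤ) ^ 2) := by
    rw [hpP.coprime_iff_not_dvd]
    intro h
    apply hnd
    have h' : (p : ℤ) ∣ (4 * |α| * q) * q := by
      rw [show 4 * |α| * (q : ℤ) ^ 2 = (4 * |α| * q) * q by ring] at h
      exact h
    rcases hpP.dvd_or_dvd h' with h | h
    · rw [show 4 * |α| * |D| * (q : ℤ) = (4 * |α| * q) * |D| by ring]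
      exact h.mul_right _
    · exact h.mul_left _
  obtain ⟨u, v, huv⟩ := hcop
  obtain ⟨b1, t, ht⟩ := univ hp hp2 hpD (-v)
  have hN : ((q : ℤ√D) * b1).norm = (q : ℤ) ^ 2 * b1.norm := by
    rw [Zsqrtd.norm_mul]
    congr 1
    rw [Zsqrtd.norm_def]
    simp
    ring
  obtain ⟨w, hw⟩ := Int.modEq_iff_dvd.1 hpr
  push_cast at hw
  -- r - p = q^2 w
  have hd : 1 + 4 * |α| * ((q : ℤ) ^ 2 * b1.norm) = (p : ℤ) * (u + 4 * |α| * (q : ℤ) ^ 2 * t) := by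
    linear_combination (4 * |α| * (q : ℤ) ^ 2) * ht - huv
  refine ⟨p, u + 4 * |α| * (q : ℤ) ^ 2 * t, (q : ℤ√D) * b1, ?_, ?_, ?_, dvd_mul_right _ _⟩
  · rw [hN]
    linear_combination -hd
  · exact ⟨-(q * w), by linear_combination -hw⟩
  · -- d - r ; p d = 1 + q(...)
    obtain ⟨d, hdd⟩ : ∃ d : ℤ, d = u + 4 * |α| * (q : ℤ) ^ 2 * t := ⟨_, rfl⟩
    rw [← hdd] at hd ⊢
    refine ⟨-k0 * d + r * (q * w) * d + r * (4 * |α| * q * b1.norm), ?_⟩
    linear_combination (-d) * hk0 + r * d * hw - r * hd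

end Pool.Agent.Lib.CSL
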