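import Pool.Agent.Lib.MP_240120_ag.CS.Def
import Pool.Agent.Lib.MP_240120_ag.CS.LDef
import Pool.Agent.Lib.MP_240120_ag.CS.Rr

/-!
# CS / Tw (75 minutes): the twist (TW)

`v := (1, κ, 0, 0)`, `q(v) = κ`, `xi v = 0`; `w := g v`, `q(w) = κ`. `hm w = act X (hm v)` gives `w 0 = X.a star X.a - 4 α κ X.b star X.b`, `io (xi w) = X.a star X.c - 4 α κ X.b star X.d`, `-4 α w 1 = X.c star X.c - 4 α κ X.d star X.d` in `KD D`. `rr` for `v`, `w`: `Y` with `4 α Y.a = -4 α w 1`,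
`4 α Y.b = - io (xi w)`, `Y.c = κ star (io (xi w))`, `4 α Y.d = -4 α κ w 0`. Claim: `Y = -κ (T X⁻¹)`: `T X⁻¹ = (star X.d X.d - T.b X.c, ...)`; `(T X⁻¹).a = star X.d X.d - κ star X.c X.c/(4α) = κ w 1 ...` check each entry with `X.h` and its conjugate. `κ = ±1`, so `T X⁻¹ = Y` or `-Y`, both in `NW` (`act_neg`).
-/

set_option autoImplicit false

namespace Pool.Agent.Lib.CSL

variable {D α β γ : ℤ} [Fact (∀ r : ℚ, r ^ 2 ≠ (D : ℚ) + 0 * r)]

theorem tw (hDD : D = β ^ 2 - 4 * α * γ) (hα : α ≠ 0) {κ : ℤ} (hκ : κ = 1 ∨ κ = -1) {g : (Fin 4 → ℤ) ≃ₗ[ℤ] (Fin 4 → ℤ)} (hg : g ∈ OL α β γ)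
    {X : S2 (KD D)} (hX : ∀ v, act X (hm D α β v) = hm D α β (g v)) (T : S2 (KD D)) (ha : T.a = star X.d)
    (hb : 4 * α * T.b = κ * star X.c) (hc : T.c = 4 * α * κ * star X.b) (hd : T.d = star X.a) : T * X⁻¹ ∈ NW D α β γ := by
  obtain ⟨v, hv⟩ : ∃ v : Fin 4 → ℤ, v = ![1, κ, 0, 0] := ⟨_, rfl⟩
  have v0 : v 0 = 1 := by rw [hv]; rfl
  have v1 : v 1 = κ := by rw [hv]; rfl
  have v2 : v 2 = 0 := by rw [hv]; rfl
  have v3 : v 3 = 0 := by rw [hv]; rfl
  have hqv : qf α β γ v = κ := by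
    simp only [qf, v0, v1, v2, v3]; ring
  have hqw : qf α β γ (g v) = κ := by
    have h1 : ∀ v, qf α β γ (g v) = qf α β γ v := hg
    rw [h1, hqv]
  have hxi : xi D α β v = 0 := by
    ext
    · simp [xi, v2, v3]
    · simp [xi, v3]
  obtain ⟨w, hw⟩ : ∃ w, w = g v := ⟨_, rfl⟩
  have hXv := hX v
  rw [← hw] at hXv hqw
  obtain ⟨Y, hY, ya, yb, yc, yd⟩ := rr hDD hα hκ hqv hqw
  have hκ2 : (κ : KD D) * κ = 1 := by
    rcases hκ with rfl | rfl <;> simp
  have hα' : (α : KD D) ≠ 0 := by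
    intro h
    have := congrArg QuadraticAlgebra.re h
    simp only [QuadraticAlgebra.re_intCast, QuadraticAlgebra.re_zero, Int.cast_eq_zero] at this
    exact hα this
  have h4 : (4 : KD D) ≠ 0 := by
    intro h
    have h' : ((4 : ℤ) : KD D) = 0 := by
      push_cast
      exact h
    have := congrArg QuadraticAlgebra.re h'
    simp only [QuadraticAlgebra.re_intCast, QuadraticAlgebra.re_zero, Int.cast_eq_zero] at this
    omega
  have h4α : (4 * α : KD D) ≠ 0 := mul_ne_zero h4 hα'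
  have e0 := congrArg HM.p hXv
  have e1 := congrArg HM.x hXv
  have e2 := congrArg HM.s hXv
  simp only [act, act4, hm, hxi, map_zero, star_zero, v0, v1, Int.cast_one, mul_zero, zero_mul,
    mul_one, add_zero] at e0 e1 e2
  rw [v0, hxi] at ya yb
  rw [v1, hxi] at yc yd
  simp only [map_zero, star_zero, zero_mul, mul_zero, sub_zero, Int.cast_one, one_mul, mul_one,
    zero_sub] at ya yb yc yd
  have e1' := congrArg star e1
  simp only [star_add, star_mul', star_star, star_int] at e1'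
  push_cast at e0 e1 e2 e1' ya yb yc yd
  have ra : (T * X⁻¹).a = -(κ : KD D) * Y.a := by
    refine mul_left_cancel₀ h4α ?_
    rw [S2.mul_a, S2.inv_a, S2.inv_c, ha]
    linear_combination (-X.c) * hb + (κ : KD D) * ya - (κ : KD D) * e2 - (4 * α * X.d * star X.d) * hκ2
  have rb : (T * X⁻¹).b = -(κ : KD D) * Y.b := by
    refine mul_left_cancel₀ h4α ?_
    rw [S2.mul_b, S2.inv_b, S2.inv_d, ha]
    linear_combination (X.a) * hb + (κ : KD D) * yb + (κ : KD D) * e1 + (4 * α * X.b * star X.d) * hκ2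
  have rc : (T * X⁻¹).c = -(κ : KD D) * Y.c := by
    rw [S2.mul_c, S2.inv_a, S2.inv_c, hc, hd]
    linear_combination (κ : KD D) * yc - e1' + star (io D (xi D α β w)) * hκ2
  have rd : (T * X⁻¹).d = -(κ : KD D) * Y.d := by
    refine mul_left_cancel₀ h4α ?_
    rw [S2.mul_d, S2.inv_b, S2.inv_d, hc, hd]
    linear_combination (κ : KD D) * yd + (4 * α : KD D) * e0 - (4 * α * w 0 : KD D) * hκ2
  obtain ⟨u, hu, hYu⟩ := hY
  refine ⟨u, hu, fun z => ?_⟩
  rw [← hYu z]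
  unfold act
  rw [ra, rb, rc, rd]
  rcases hκ with rfl | rfl
  · simp only [Int.cast_one, neg_mul, one_mul]
    exact act_neg _ _ _ _ _
  · simp only [Int.cast_neg, Int.cast_one, neg_neg, one_mul]

end Pool.Agent.Lib.CSL
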