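import Pool.Agent.Lib.MP_240120_ag.CS.Def

/-!
# CS / Un1 (75 minutes): the two unipotent groups in one basis

`w1 = h.a`, `w2 = h.c`; `cc := w2 star w2 - 4 α κ w1 star w1` is rational (`= N(w2) - 4 α κ N(w1)`, `QuadraticAlgebra.algebraMap_norm_eq_mul_star`); for one `κ ∈ {1, -1}` it is not zero (sum and difference; `(w1, w2) ≠ 0` by `h.h`; `N(z) = 0` iff `z = 0`: `QuadraticAlgebra.norm_eq_zero_iff_eq_zero`).
`p := ⟨w1, -star w2 / cc, w2, -4 α κ star w1 / cc, _⟩`, determinant `(-4 α κ w1 star w1 + w2 star w2)/cc = 1`. `h e12(z) h⁻¹ = (1 - z w1 w2, z w1^2; -z w2^2, 1 + z w1 w2) = p e12(z) p⁻¹` (first column of `p` and `h` agree). `λ := κ cc^2/(4 α)`. `T` has the entries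
`(1 + z' w1' w2', -κ z' w2'^2/(4α); 4 α κ z' w1'^2, 1 - z' w1' w2')`, `'` the conjugation, and `p e21(λ z') p⁻¹ = 1 + λ z' y y^⊥`, `y = (-w2'/cc, -4 α κ w1'/cc)`, `y^⊥ = (-y_2, y_1)`: entries `(1 - λ z' ... )`; compare. (`κ^2 = 1`.)
-/

set_option autoImplicit false

namespace Pool.Agent.Lib.CSL

variable {D α : ℤ} [Fact (∀ r : ℚ, r ^ 2 ≠ (D : ℚ) + 0 * r)]

theorem un1 (hα : α ≠ 0) (h : S2 (KD D)) : ∃ κ : ℤ, (κ = 1 ∨ κ = -1) ∧ ∃ (p : S2 (KD D)) (t : ℚ), t ≠ 0 ∧
    ∀ z : KD D, h * e12 z * h⁻¹ = p * e12 z * p⁻¹ ∧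
      (p * e21 ((t : KD D) * star z) * p⁻¹).a = star (h * e12 z * h⁻¹).d ∧
      4 * α * (p * e21 ((t : KD D) * star z) * p⁻¹).b = κ * star (h * e12 z * h⁻¹).c ∧
      (p * e21 ((t : KD D) * star z) * p⁻¹).c = 4 * α * κ * star (h * e12 z * h⁻¹).b ∧
      (p * e21 ((t : KD D) * star z) * p⁻¹).d = star (h * e12 z * h⁻¹).a := by
  have hnz : ∀ w : KD D, (w * star w).re = 0 → w = 0 := by
    intro w hw
    have h1 : w * star w = 0 := by
      ext
      · rw [hw]; rfl
      · rw [QuadraticAlgebra.im_mul, QuadraticAlgebra.re_star, QuadraticAlgebra.im_star]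
        simp
        ring
    rcases mul_eq_zero.1 h1 with h2 | h2
    · exact h2
    · have h3 := congrArg star h2
      rw [star_star, star_zero] at h3
      exact h3
  have hN : ∀ w : KD D, w * star w = (((w * star w).re : ℚ) : KD D) := by
    intro w
    ext
    · rw [QuadraticAlgebra.re_ratCast]
      rfl
    · rw [QuadraticAlgebra.im_ratCast, QuadraticAlgebra.im_mul, QuadraticAlgebra.re_star, QuadraticAlgebra.im_star]
      simp
      ring
  have hα' : (α : ℚ) ≠ 0 := by exact_mod_cast hα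
  have hκ : ∃ κ : ℤ, (κ = 1 ∨ κ = -1) ∧
      (h.c * star h.c).re - 4 * α * κ * (h.a * star h.a).re ≠ 0 := by
    by_cases h1 : (h.c * star h.c).re - 4 * α * (h.a * star h.a).re = 0
    · refine ⟨-1, Or.inr rfl, ?_⟩
      intro h2
      push_cast at h2
      have h3 : (h.c * star h.c).re = 0 := by linarith
      have h4 : (h.a * star h.a).re = 0 := by
        have h5 : 4 * (α : ℚ) * (h.a * star h.a).re = 0 := by linarith
        rcases mul_eq_zero.1 h5 with h6 | h6
        · exact absurd h6 (mul_ne_zero (by norm_num) hα')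
        · exact h6
      have h5 := h.h
      rw [hnz _ h3, hnz _ h4] at h5
      simp at h5
    · refine ⟨1, Or.inl rfl, ?_⟩
      intro h2
      apply h1
      push_cast at h2
      linarith
  obtain ⟨κ, hκ1, hcc⟩ := hκ
  have hκ2 : (κ : KD D) * κ = 1 := by
    rcases hκ1 with rfl | rfl <;> push_cast <;> ring
  set cq : ℚ := (h.c * star h.c).re - 4 * α * κ * (h.a * star h.a).re with hcq
  have hc : h.c * star h.c - 4 * α * κ * (h.a * star h.a) = ((cq : ℚ) : KD D) := by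
    rw [hN h.c, hN h.a, hcq]
    push_cast
    ring
  have hcK : ((cq : ℚ) : KD D) ≠ 0 := by exact_mod_cast hcc
  have hαK : (α : KD D) ≠ 0 := by exact_mod_cast hα
  refine ⟨κ, hκ1, ⟨h.a, -star h.c / (cq : KD D), h.c, -4 * α * κ * star h.a / (cq : KD D), ?_⟩,
    κ * cq ^ 2 / (4 * α), ?_, ?_⟩
  · have h1 : h.a * (-4 * α * κ * star h.a / (cq : KD D)) - -star h.c / (cq : KD D) * h.c =
      (h.c * star h.c - 4 * α * κ * (h.a * star h.a)) / (cq : KD D) := by ring
    rw [h1, hc, div_self hcK]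
  · have hκ3 : (κ : ℚ) ≠ 0 := by
      rcases hκ1 with rfl | rfl <;> norm_num
    positivity
  intro z
  have ht : (((κ * cq ^ 2 / (4 * α) : ℚ)) : KD D) = κ * (cq : KD D) ^ 2 / (4 * α) := by push_cast; rfl
  rw [ht]
  set s : KD D := κ * (cq : KD D) ^ 2 / (4 * α) * star z with hs
  have e1 : -star h.c / (cq : KD D) * (-4 * α * κ * star h.a / (cq : KD D)) * s =
      star (h.a * h.c * z) := by
    rw [star_mul', star_mul', hs]
    have h1 : -star h.c / (cq : KD D) * (-4 * α * κ * star h.a / (cq : KD D)) *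
        (κ * (cq : KD D) ^ 2 / (4 * α) * star z) = ((κ : KD D) * κ) * ((cq : KD D) / cq) ^ 2 *
        ((4 * α : KD D) / (4 * α)) * (star h.a * star h.c * star z) := by ring
    rw [h1, hκ2, div_self hcK, div_self (mul_ne_zero (by norm_num) hαK)]
    ring
  have e2 : 4 * α * ((-star h.c / (cq : KD D)) ^ 2 * s) = κ * star (h.c ^ 2 * z) := by
    rw [star_mul', star_pow, hs]
    have h1 : 4 * α * ((-star h.c / (cq : KD D)) ^ 2 * (κ * (cq : KD D) ^ 2 / (4 * α) * star z)) =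
        κ * ((cq : KD D) / cq) ^ 2 * ((4 * α : KD D) / (4 * α)) * (star h.c ^ 2 * star z) := by ring
    rw [h1, div_self hcK, div_self (mul_ne_zero (by norm_num) hαK)]
    ring
  have e3 : (-4 * α * κ * star h.a / (cq : KD D)) ^ 2 * s = 4 * α * κ * star (h.a ^ 2 * z) := by
    rw [star_mul', star_pow, hs]
    have h1 : (-4 * α * κ * star h.a / (cq : KD D)) ^ 2 * (κ * (cq : KD D) ^ 2 / (4 * α) * star z) =
        4 * α * κ * (κ * κ) * ((cq : KD D) / cq) ^ 2 * ((4 * α : KD D) / (4 * α)) *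
          (star h.a ^ 2 * star z) := by ring
    rw [h1, hκ2, div_self hcK, div_self (mul_ne_zero (by norm_num) hαK)]
    ring
  have hh := h.h
  have hdet : h.a * (-4 * α * κ * star h.a / (cq : KD D)) - -star h.c / (cq : KD D) * h.c = 1 := by
    have h1 : h.a * (-4 * α * κ * star h.a / (cq : KD D)) - -star h.c / (cq : KD D) * h.c =
      (h.c * star h.c - 4 * α * κ * (h.a * star h.a)) / (cq : KD D) := by ring
    rw [h1, hc, div_self hcK]
  have f1 : (h * e12 z * h⁻¹).a = 1 - h.a * h.c * z := by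
    simp only [S2.mul_a, S2.mul_b, S2.inv_a, S2.inv_c, e12_a, e12_b, e12_c, e12_d]
    linear_combination hh
  have f2 : (h * e12 z * h⁻¹).b = h.a ^ 2 * z := by
    simp only [S2.mul_a, S2.mul_b, S2.inv_b, S2.inv_d, e12_a, e12_b, e12_c, e12_d]
    ring
  have f3 : (h * e12 z * h⁻¹).c = -(h.c ^ 2 * z) := by
    simp only [S2.mul_c, S2.mul_d, S2.inv_a, S2.inv_c, e12_a, e12_b, e12_c, e12_d]
    ring
  have f4 : (h * e12 z * h⁻¹).d = 1 + h.a * h.c * z := by
    simp only [S2.mul_c, S2.mul_d, S2.inv_b, S2.inv_d, e12_a, e12_b, e12_c, e12_d]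
    linear_combination hh
  refine ⟨?_, ?_, ?_, ?_, ?_⟩
  · ext1
    · rw [f1]
      simp only [S2.mul_a, S2.mul_b, S2.inv_a, S2.inv_c, e12_a, e12_b, e12_c, e12_d]
      linear_combination -hdet
    · rw [f2]
      simp only [S2.mul_a, S2.mul_b, S2.inv_b, S2.inv_d, e12_a, e12_b, e12_c, e12_d]
      ring
    · rw [f3]
      simp only [S2.mul_c, S2.mul_d, S2.inv_a, S2.inv_c, e12_a, e12_b, e12_c, e12_d]
      ring
    · rw [f4]
      simp only [S2.mul_c, S2.mul_d, S2.inv_b, S2.inv_d, e12_a, e12_b, e12_c, e12_d]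
      linear_combination -hdet
  · rw [f4, star_add, star_one, ← e1]
    simp only [S2.mul_a, S2.mul_b, S2.inv_a, S2.inv_c, e21_a, e21_b, e21_c, e21_d]
    linear_combination hdet
  · rw [f3, star_neg, mul_neg, ← e2]
    simp only [S2.mul_a, S2.mul_b, S2.inv_b, S2.inv_d, e21_a, e21_b, e21_c, e21_d]
    ring
  · rw [f2, ← e3]
    simp only [S2.mul_c, S2.mul_d, S2.inv_a, S2.inv_c, e21_a, e21_b, e21_c, e21_d]
    ring
  · rw [f1, star_sub, star_one, ← e1]
    simp only [S2.mul_c, S2.mul_d, S2.inv_b, S2.inv_d, e21_a, e21_b, e21_c, e21_d]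
    linear_combination hdet

end Pool.Agent.Lib.CSL
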