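import Pool.Agent.Lib.MP_240120_ag.CS.Def
import Pool.Agent.Lib.MP_240120_ag.CS.LDef
import Pool.Agent.Lib.MP_240120_ag.CS.Den
import Pool.Agent.Lib.MP_240120_ag.CS.Stb
import Pool.Agent.Lib.MP_240120_ag.CS.Nor
import Pool.Agent.Lib.MP_240120_ag.CS.Tw
import Pool.Agent.Lib.MP_240120_ag.CS.Un1
import Pool.Agent.Lib.MP_240120_ag.CS.Eta

/-!
# CS / Un2 (75 minutes): H2 of CS_TEXT.md

`un1`: `κ, p, t`. `den h` for `k = 4 |α|`: `k1` (`e12 (k1 z) ∈ G D k1`, so `h e12(io(k1 z)) h⁻¹ = im Y`, `Y ∈ G D (4|α|)`; `stb`: it induces some `g ∈ OL`). Notation `U z := h * e12 (io z) * h⁻¹`, `T z := p * e21 (t star (io z)) * p⁻¹` for `z ∈ k1 R`; `tw`: `T z * (U z)⁻¹ ∈ N := NW`; `U z`, `T z` normalise `N`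
(`nor`; `T z = n U z`). `n : ℕ`, `n > 0` with `n / (t k1^2)` an integer `j` (`t = A/B`: `n = |A| k1^2`, then `n/(t k1^2) = ± B`). `eta` for `n`: `u v = 1`, `u - 1 = n w`, `u^2 ≠ 1`.
`dg_word` (in `KD D`) with `x = k1`, `y = 1/k1`: `p d(u) p⁻¹ = (p e21(-(1-v)/k1) p⁻¹)(p e12(k1) p⁻¹)(p e21((u-1)/k1) p⁻¹)(p e12(-k1 v) p⁻¹)`; `(u-1)/k1 = t star(io z3)` with `z3 = k1 j star w`: `t k1 j w = n w / k1`; `-(1-v)/k1 = -v (u-1)/k1 = t star(io z1)`, `z1 = -k1 j star(v w)`. So `p d(u) p⁻¹ = T z1 U k1 T z3 U (-k1 v)`,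
which is `n' * U(z1 + k1 + z3 - k1 v)` with `n' ∈ N` (`T z = (T z (U z)⁻¹) U z`, move elements of `N` to the left). For `z ∈ k1 R`: `p d(u) p⁻¹ U(z) p d(u)⁻¹ p⁻¹ = U(u^2 z)` (`dg_e12`), and it is `n' U(Z) U(z) U(Z)⁻¹ n'⁻¹ = n' U(z) n'⁻¹`, so `U(u^2 z) U(z)⁻¹ = n' (U(z) n'⁻¹ U(z)⁻¹) ∈ N`: `U((u^2-1) z) ∈ N`.
`k := k1 * |N(u^2 - 1)|`, `N(u^2-1) = (u^2-1) star(u^2-1)` (not zero: `D` is not a square, `u^2 ≠ 1`): `k z = (u^2-1) (± k1 star(u^2-1) z)`.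
-/

set_option autoImplicit false

namespace Pool.Agent.Lib.CSL

/-- the abstract part of the argument -/
private theorem un2_abs {Γ : Type*} [Group Γ] (N : Subgroup Γ) {A : Type*} [AddCommGroup A] (U T : A → Γ)
    (hU : ∀ x y, U (x + y) = U x * U y) (hTU : ∀ z, T z * (U z)⁻¹ ∈ N)
    (hUN : ∀ z, ∀ Y ∈ N, U z * Y * (U z)⁻¹ ∈ N) (P : Γ) (z1 z2 z3 z4 : A)
    (hP : P = T z1 * U z2 * T z3 * U z4) (f : A → A) (hf : ∀ z, P * U z * P⁻¹ = U (f z)) (z : A) :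
    U (f z) * (U z)⁻¹ ∈ N := by
  have hcomm : ∀ x y, U x * U y = U y * U x := by
    intro x y
    rw [← hU, ← hU, add_comm]
  obtain ⟨n1, hn1, e1⟩ : ∃ n1 ∈ N, T z1 = n1 * U z1 := ⟨_, hTU z1, by group⟩
  obtain ⟨n3, hn3, e3⟩ : ∃ n3 ∈ N, T z3 = n3 * U z3 := ⟨_, hTU z3, by group⟩
  have h2 : P = (n1 * (U (z1 + z2) * n3 * (U (z1 + z2))⁻¹)) * U (z1 + z2 + (z3 + z4)) := by
    rw [hP, e1, e3, hU (z1 + z2) (z3 + z4), hU z1 z2, hU z3 z4]
    group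
  set n' := n1 * (U (z1 + z2) * n3 * (U (z1 + z2))⁻¹) with hn'
  have hn'N : n' ∈ N := N.mul_mem hn1 (hUN _ _ hn3)
  set Z := z1 + z2 + (z3 + z4) with hZ
  have h3 : U (f z) * (U z)⁻¹ = n' * (U z * n'⁻¹ * (U z)⁻¹) := by
    rw [← hf z, h2]
    have h4 : U Z * U z * (U Z)⁻¹ = U z := by rw [hcomm]; group
    calc n' * U Z * U z * (n' * U Z)⁻¹ * (U z)⁻¹ = n' * (U Z * U z * (U Z)⁻¹) * n'⁻¹ * (U z)⁻¹ := by
          group
      _ = n' * (U z * n'⁻¹ * (U z)⁻¹) := by rw [h4]; group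
  rw [h3]
  exact N.mul_mem hn'N (hUN _ _ (N.inv_mem hn'N))

variable {D α β γ : ℤ} [Fact (∀ r : ℚ, r ^ 2 ≠ (D : ℚ) + 0 * r)]

theorem un2 (h0 : 0 < D) (hD : ∀ n : ℤ, D ≠ n * n) (hDD : D = β ^ 2 - 4 * α * γ) (hα : α ≠ 0) (h : S2 (KD D)) :
    ∃ k : ℕ, 0 < k ∧ ∀ z : ℤ√D, h * e12 (io D (k * z)) * h⁻¹ ∈ NW D α β γ := by
  obtain ⟨κ, hκ, p, t, ht, H⟩ := un1 (α := α) hα h
  obtain ⟨k1, hk1, hden⟩ := den h (k := 4 * α.natAbs) (by
    have := Int.natAbs_pos.2 hα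
    omega)
  -- the element U
  have hY : ∀ w : ℤ√D, ∃ g ∈ OL α β γ, ∀ v, act (h * e12 (io D (k1 * w)) * h⁻¹) (hm D α β v) =
      hm D α β (g v) := by
    intro w
    have h1 : e12 (k1 * w) ∈ G D k1 := E_le_G D k1 (e12_E (dvd_mul_right _ _))
    obtain ⟨Y, hYG, hY⟩ := hden _ h1
    obtain ⟨g, hg, h2⟩ := stb hDD hα hYG
    refine ⟨g, hg, ?_⟩
    have h3 : im D (e12 (k1 * w)) = e12 (io D (k1 * w)) := by
      ext <;> simp [im]
    rw [h3] at hY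
    rw [hY]
    exact h2
  have hTU : ∀ w : ℤ√D, (p * e21 ((t : KD D) * star (io D (k1 * w))) * p⁻¹) *
      (h * e12 (io D (k1 * w)) * h⁻¹)⁻¹ ∈ NW D α β γ := by
    intro w
    obtain ⟨g, hg, h2⟩ := hY w
    obtain ⟨_, H1, H2, H3, H4⟩ := H (io D (k1 * w))
    exact tw hDD hα hκ hg h2 _ H1 H2 H3 H4
  have hUN : ∀ w : ℤ√D, ∀ Y ∈ NW D α β γ, (h * e12 (io D (k1 * w)) * h⁻¹) * Y *
      (h * e12 (io D (k1 * w)) * h⁻¹)⁻¹ ∈ NW D α β γ := by
    intro w Y hYN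
    obtain ⟨g, hg, h2⟩ := hY w
    exact nor hg h2 hYN
  have hk1' : ((k1 : ℕ) : KD D) ≠ 0 := by
    have h1 : ((k1 : ℕ) : ℚ) ≠ 0 := by exact_mod_cast hk1.ne'
    intro h2
    apply h1
    have h3 := congrArg QuadraticAlgebra.re h2
    simpa using h3
  -- the number n
  set n : ℕ := t.num.natAbs * k1 ^ 2 with hn
  have hn0 : 0 < n := by
    have h1 : 0 < t.num.natAbs := Int.natAbs_pos.2 (Rat.num_ne_zero.2 ht)
    positivity
  obtain ⟨j, hj⟩ : ∃ j : ℤ, t * j = (t.num.natAbs : ℚ) := by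
    refine ⟨t.num.sign * t.den, ?_⟩
    have h1 : t * (t.den : ℚ) = t.num := Rat.mul_den_eq_num t
    have h2 : (t.num : ℚ) * t.num.sign = (t.num.natAbs : ℚ) := by
      have h3 : t.num * t.num.sign = (t.num.natAbs : ℤ) := Int.mul_sign_self t.num
      have h4 := congrArg (fun z : ℤ => (z : ℚ)) h3
      simp only [Int.cast_mul, Int.cast_natCast] at h4
      exact h4
    push_cast
    rw [mul_left_comm, h1, mul_comm, h2]
  have hjK : (t : KD D) * (j : KD D) = ((t.num.natAbs : ℕ) : KD D) := by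
    have h1 := congrArg (fun q : ℚ => (q : KD D)) hj
    push_cast at h1
    exact h1
  obtain ⟨u, v, huv, ⟨w, hw⟩, hu2⟩ := eta h0 hD hn0
  have hUV : io D u * io D v = 1 := by rw [← map_mul, huv, map_one]
  have hxy : ((k1 : ℕ) : KD D) * ((k1 : ℕ) : KD D)⁻¹ = 1 := mul_inv_cancel₀ hk1'
  have hword := dg_word (io D u) (io D v) ((k1 : ℕ) : KD D) (((k1 : ℕ) : KD D)⁻¹) hUV hxy
  have hwK : io D u - 1 = (t : KD D) * j * (k1 : KD D) ^ 2 * io D w := by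
    rw [hjK]
    have h1 := congrArg (io D) hw
    rw [map_sub, map_one, map_mul, map_natCast, hn] at h1
    rw [h1]
    push_cast
    ring
  -- the arguments
  have a3 : (io D u - 1) * ((k1 : ℕ) : KD D)⁻¹ =
      (t : KD D) * star (io D (k1 * (j * star w))) := by
    rw [hwK, ← io_star]
    have h1 : star ((k1 : ℤ√D) * (j * star w)) = k1 * (j * w) := by
      rw [star_mul', star_mul', star_star, star_intR]
      have h2 : star ((k1 : ℕ) : ℤ√D) = k1 := by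
        have := star_intR D (k1 : ℤ)
        rw [Int.cast_natCast] at this
        exact this
      rw [h2]
    rw [h1, map_mul, map_mul, map_natCast, map_intCast]
    field_simp
  have a1 : -(1 - io D v) * ((k1 : ℕ) : KD D)⁻¹ =
      (t : KD D) * star (io D (k1 * (-(j * star (v * w))))) := by
    have h0 : (1 - io D v) = io D v * (io D u - 1) := by
      linear_combination -hUV
    rw [h0, hwK, ← io_star]
    have h1 : star ((k1 : ℤ√D) * (-(j * star (v * w)))) = -(k1 * (j * (v * w))) := by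
      rw [star_mul', star_neg, star_mul', star_star, star_intR]
      have h2 : star ((k1 : ℕ) : ℤ√D) = k1 := by
        have := star_intR D (k1 : ℤ)
        rw [Int.cast_natCast] at this
        exact this
      rw [h2]
      ring
    rw [h1, map_neg, map_mul, map_mul, map_natCast, map_intCast, map_mul]
    field_simp
  have a2 : ((k1 : ℕ) : KD D) = io D (k1 * 1) := by
    rw [mul_one, map_natCast]
  have a4 : -((k1 : ℕ) : KD D) * io D v = io D (k1 * (-v)) := by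
    rw [map_mul, map_neg, map_natCast]
    ring
  rw [a1, a3, a4] at hword
  rw [a2] at hword
  have hU12 : ∀ z : ℤ√D, h * e12 (io D (k1 * z)) * h⁻¹ = p * e12 (io D (k1 * z)) * p⁻¹ :=
    fun z => (H _).1
  have hmain := un2_abs (NW D α β γ) (fun z : ℤ√D => h * e12 (io D (k1 * z)) * h⁻¹)
    (fun z : ℤ√D => p * e21 ((t : KD D) * star (io D (k1 * z))) * p⁻¹)
    (fun x y => by
      rw [mul_add, map_add, e12_add]
      group) hTU hUN (p * dg (io D u) (io D v) hUV * p⁻¹) (-(j * star (v * w))) 1 (j * star w) (-v)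
    (by
      show p * dg (io D u) (io D v) hUV * p⁻¹ =
        (p * e21 ((t : KD D) * star (io D (k1 * (-(j * star (v * w)))))) * p⁻¹) *
        (h * e12 (io D (k1 * 1)) * h⁻¹) *
        (p * e21 ((t : KD D) * star (io D (k1 * (j * star w)))) * p⁻¹) *
        (h * e12 (io D (k1 * (-v))) * h⁻¹)
      rw [hU12, hU12, hword]
      group)
    (fun z => u ^ 2 * z) (fun z => by
      show (p * dg (io D u) (io D v) hUV * p⁻¹) * (h * e12 (io D (k1 * z)) * h⁻¹) *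
        (p * dg (io D u) (io D v) hUV * p⁻¹)⁻¹ = h * e12 (io D (k1 * (u ^ 2 * z))) * h⁻¹
      rw [hU12, hU12]
      have h1 := dg_e12 (io D u) (io D v) hUV (io D (k1 * z))
      have h2 : io D (k1 * (u ^ 2 * z)) = io D u ^ 2 * io D (k1 * z) := by
        rw [map_mul, map_mul, map_pow, map_mul]
        ring
      rw [h2, ← h1]
      group)
  have hm2 : ∀ z : ℤ√D, h * e12 (io D (k1 * ((u ^ 2 - 1) * z))) * h⁻¹ ∈ NW D α β γ := by
    intro z
    have h1 := hmain z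
    have h2 : h * e12 (io D (k1 * ((u ^ 2 - 1) * z))) * h⁻¹ =
        h * e12 (io D (k1 * (u ^ 2 * z))) * h⁻¹ * (h * e12 (io D (k1 * z)) * h⁻¹)⁻¹ := by
      have h3 : (k1 : ℤ√D) * ((u ^ 2 - 1) * z) = k1 * (u ^ 2 * z) + -(k1 * z) := by ring
      rw [h3, map_add, map_neg, e12_add, e12_neg]
      group
    rw [h2]
    exact h1
  have hnorm : Zsqrtd.norm (u ^ 2 - 1) ≠ 0 := by
    rw [Ne, Zsqrtd.norm_eq_zero hD]
    exact sub_ne_zero.2 hu2
  refine ⟨k1 * (Zsqrtd.norm (u ^ 2 - 1)).natAbs, Nat.mul_pos hk1 (Int.natAbs_pos.2 hnorm), ?_⟩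
  intro z
  have h1 : (((k1 * (Zsqrtd.norm (u ^ 2 - 1)).natAbs : ℕ)) : ℤ√D) * z =
      k1 * ((u ^ 2 - 1) * (((Zsqrtd.norm (u ^ 2 - 1)).sign : ℤ√D) * star (u ^ 2 - 1) * z)) := by
    have h2 : (((Zsqrtd.norm (u ^ 2 - 1)).natAbs : ℕ) : ℤ√D) =
        (Zsqrtd.norm (u ^ 2 - 1) : ℤ√D) * ((Zsqrtd.norm (u ^ 2 - 1)).sign : ℤ√D) := by
      have h3 := Int.mul_sign_self (Zsqrtd.norm (u ^ 2 - 1))
      have h4 := congrArg (fun q : ℤ => (q : ℤ√D)) h3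
      simp only [Int.cast_mul, Int.cast_natCast] at h4
      exact h4.symm
    rw [Nat.cast_mul, h2, Zsqrtd.norm_eq_mul_conj]
    ring
  rw [h1]
  exact hm2 _

end Pool.Agent.Lib.CSL
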