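import Pool.Agent.Lib.MP_240120_ag.CS.Def
import Pool.Agent.Lib.MP_240120_ag.CS.Abs
import Pool.Agent.Lib.MP_240120_ag.CS.LDef
import Pool.Agent.Lib.MP_240120_ag.CS.Spe
import Pool.Agent.Lib.MP_240120_ag.CS.Stb
import Pool.Agent.Lib.MP_240120_ag.CS.Nor
import Pool.Agent.Lib.MP_240120_ag.CS.Un2
import Pool.Agent.Lib.MP_240120_ag.CS.Lf2
import Pool.Agent.Lib.MP_240120_ag.CS.Lf3
import Pool.Agent.Lib.MP_240120_ag.CS.Lf4
import Pool.Agent.Lib.MP_240120_ag.CS.Lf5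
import Pool.Agent.Lib.MP_240120_ag.CS.Spx

/-!
# CS / Fin: the theorem (assembly, proved)
-/

set_option autoImplicit false

namespace Pool.Agent.Lib.CSL

theorem fact_D {D : ℤ} (hD : ∀ n : ℤ, D ≠ n * n) : ∀ r : ℚ, r ^ 2 ≠ (D : ℚ) + 0 * r := by
  intro r h
  have h1 : IsSquare (D : ℚ) := ⟨r, by linear_combination -h⟩
  rw [Rat.isSquare_intCast_iff] at h1
  obtain ⟨n, hn⟩ := h1
  exact hD n hn

theorem main (α β γ : ℤ) (h0 : 0 < β ^ 2 - 4 * α * γ) (hD : ∀ n : ℤ, β ^ 2 - 4 * α * γ ≠ n * n)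
    (W : Subgroup ((Fin 4 → ℤ) ≃ₗ[ℤ] (Fin 4 → ℤ)))
    (hW : ∀ v g, (qf α β γ v = 1 ∨ qf α β γ v = -1) → IsRf α β γ v g → g ∈ W) :
    ∃ M : ℕ, 0 < M ∧ ∀ g ∈ OL α β γ, (∀ v i, (M : ℤ) ∣ g v i - v i) → g ∈ W := by
  obtain ⟨D, hDD⟩ : ∃ D : ℤ, D = β ^ 2 - 4 * α * γ := ⟨_, rfl⟩
  rw [← hDD] at h0 hD
  haveI : Fact (∀ r : ℚ, r ^ 2 ≠ (D : ℚ) + 0 * r) := ⟨fact_D hD⟩
  have hα : α ≠ 0 := by
    rintro rfl
    exact hD β (by rw [hDD]; ring)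
  have hW2 : W2 α β γ ≤ W := by
    refine (Subgroup.closure_le _).2 ?_
    rintro g ⟨v, hv, hg⟩
    exact hW v g hv hg
  have hα' : 0 < α.natAbs := Int.natAbs_pos.2 hα
  have hc : (-4 * |α| : ℤ) < 0 := by
    have := abs_pos.2 hα
    linarith
  obtain ⟨q, hq, hqN⟩ := abs_thm (D := D) h0 (NW D α β γ) (c0 := 4 * α.natAbs) (by omega)
    (fun X hX Y hY => by
      obtain ⟨g, hg, hgX⟩ := stb hDD hα hX
      exact nor hg hgX hY)
    (fun h => un2 h0 hD hDD hα h) hc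
    (fun a d b X ha hb hc' hd => spe hDD hα a d b X ha hb hc' hd)
  have h4 : (4 * α * D).natAbs ≠ 0 := Int.natAbs_ne_zero.2 (mul_ne_zero (mul_ne_zero (by norm_num) hα) h0.ne')
  set n : ℕ := 4 * q * (4 * α * D).natAbs with hn
  have hn0 : 0 < n := Nat.mul_pos (by omega) (Nat.pos_of_ne_zero h4)
  refine ⟨4 * α.natAbs * n, Nat.mul_pos (by omega) hn0, fun g hg hgM => ?_⟩
  have hgM' : ∀ v i, 4 * α * n ∣ g v i - v i := by
    intro v i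
    refine Dvd.dvd.trans ?_ (hgM v i)
    push_cast
    refine mul_dvd_mul (mul_dvd_mul (dvd_refl _) ?_) (dvd_refl _)
    rw [dvd_abs]
  have h1 : g ![1, 0, 0, 0] 0 ≠ 0 := by
    intro h
    have h2 := hgM' ![1, 0, 0, 0] 0
    rw [h] at h2
    have h3 : (4 : ℤ) ∣ 0 - 1 := (Dvd.intro (α * n) (by ring)).trans h2
    omega
  obtain ⟨a, b, c, d, t, hP, hX⟩ := lf2 h0.ne' hD hDD hα hg h1
  have h4n : 4 ∣ n := ⟨q * (4 * α * D).natAbs, by rw [hn]; ring⟩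
  rcases hX with hX | hX
  swap
  · exact (lf4 hα hn0 h4n hgM' hP hX).elim
  obtain ⟨r, ha, hb, hc', hd⟩ := lf3 hα hn0 hgM' hP hX
  have hnd : 4 * α * D ∣ (n : ℤ) := by
    rw [hn]
    push_cast
    exact ((dvd_abs _ _).2 (dvd_refl _)).mul_left _
  have ht := lf5 hα h0.ne' hn0 hnd hP hX ha hb hc' hd
  have hqn : (q : ℤ√D) ∣ (n : ℤ√D) := by
    have : q ∣ n := ⟨4 * (4 * α * D).natAbs, by rw [hn]; ring⟩
    exact_mod_cast Nat.cast_dvd_cast this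
  have ha' := hqn.trans ha
  have hb' := hqn.trans hb
  have hc'' := hqn.trans hc'
  have hd' := hqn.trans hd
  have hdet : a * d - b * c = 1 := by rw [hP.det, ht]; simp
  have hrq : (q : ℤ) ∣ r ^ 2 - 1 := by
    have e1 : ((r ^ 2 - 1 : ℤ) : ℤ√D) = -((a - r) * d) - r * (d - r) + b * c := by
      push_cast
      linear_combination hdet
    have h5 : (q : ℤ√D) ∣ ((r ^ 2 - 1 : ℤ) : ℤ√D) := by
      rw [e1]
      exact dvd_add (dvd_sub ((dvd_neg).2 (ha'.mul_right _)) (hd'.mul_left _)) (hb'.mul_right _)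
    have h6 : ((q : ℤ) : ℤ√D) ∣ ((r ^ 2 - 1 : ℤ) : ℤ√D) := by exact_mod_cast h5
    exact (Zsqrtd.intCast_dvd_intCast _ _).1 h6
  obtain ⟨a1, d1, b1, hs, hsa, hsd, hsb⟩ := spx (D := D) h0.ne' hα hq hrq
  have hdet1 : (a1 : ℤ√D) * d1 - b1 * (-((-4 * |α| : ℤ) : ℤ√D) * star b1) = 1 := by
    have e1 : (b1.norm : ℤ√D) = b1 * star b1 := Zsqrtd.norm_eq_mul_conj b1
    have e2 : ((a1 * d1 - 4 * |α| * b1.norm : ℤ) : ℤ√D) = 1 := by rw [hs]; simp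
    push_cast at e2 ⊢
    rw [e1] at e2
    linear_combination e2
  let S : S2 (ℤ√D) := ⟨a1, b1, -((-4 * |α| : ℤ) : ℤ√D) * star b1, d1, hdet1⟩
  have hS : im D S ∈ NW D α β γ := spe hDD hα a1 d1 b1 S rfl rfl rfl rfl
  let X : S2 (ℤ√D) := ⟨a, b, c, d, hdet⟩
  have hsa' : (q : ℤ√D) ∣ (a1 : ℤ√D) - r := by
    have : ((q : ℤ) : ℤ√D) ∣ ((a1 - r : ℤ) : ℤ√D) := (Zsqrtd.intCast_dvd_intCast _ _).2 hsa
    exact_mod_cast this
  have hsd' : (q : ℤ√D) ∣ (d1 : ℤ√D) - r := by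
    have : ((q : ℤ) : ℤ√D) ∣ ((d1 - r : ℤ) : ℤ√D) := (Zsqrtd.intCast_dvd_intCast _ _).2 hsd
    exact_mod_cast this
  have hrq' : (q : ℤ√D) ∣ (r : ℤ√D) ^ 2 - 1 := by
    have : ((q : ℤ) : ℤ√D) ∣ ((r ^ 2 - 1 : ℤ) : ℤ√D) := (Zsqrtd.intCast_dvd_intCast _ _).2 hrq
    exact_mod_cast this
  have hsb' : (q : ℤ√D) ∣ star b1 := by
    obtain ⟨w, rfl⟩ := hsb
    exact ⟨star w, by simp⟩
  have hXS : X * S⁻¹ ∈ G D q := by
    refine ⟨?_, ?_, ?_, ?_⟩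
    · have : (X * S⁻¹).a - 1 = (a - r) * d1 + r * (d1 - r) + ((r : ℤ√D) ^ 2 - 1) + b * (-(-((-4 * |α| : ℤ) : ℤ√D) * star b1)) := by
        simp only [S2.mul_a, S2.inv_a, S2.inv_c, X, S]; ring
      rw [this]
      exact dvd_add (dvd_add (dvd_add (ha'.mul_right _) (hsd'.mul_left _)) hrq') (hb'.mul_right _)
    · have : (X * S⁻¹).b = a * (-b1) + b * a1 := by
        simp only [S2.mul_b, S2.inv_b, S2.inv_d, X, S]
      rw [this]
      exact dvd_add (((dvd_neg).2 hsb).mul_left _) (hb'.mul_right _)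
    · have : (X * S⁻¹).c = c * d1 + d * (-(-((-4 * |α| : ℤ) : ℤ√D) * star b1)) := by
        simp only [S2.mul_c, S2.inv_a, S2.inv_c, X, S]
      rw [this]
      exact dvd_add (hc''.mul_right _) (((dvd_neg).2 (hsb'.mul_left _)).mul_left _)
    · have : (X * S⁻¹).d - 1 = c * (-b1) + ((d - r) * a1 + r * (a1 - r) + ((r : ℤ√D) ^ 2 - 1)) := by
        simp only [S2.mul_d, S2.inv_b, S2.inv_d, X, S]; ring
      rw [this]
      exact dvd_add (hc''.mul_right _) (dvd_add (dvd_add (hd'.mul_right _) (hsa'.mul_left _)) hrq')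
  have hXN : im D X ∈ NW D α β γ := by
    have h7 := (NW D α β γ).mul_mem (hqN _ hXS) hS
    rw [← map_mul, inv_mul_cancel_right] at h7
    exact h7
  obtain ⟨w, hw, hwX⟩ := hXN
  have hgw : g = w := by
    refine LinearEquiv.ext fun v => ?_
    refine hm_inj (D := D) (β := β) hα ?_
    rw [← hwX v]
    have h8 := hX v
    rw [ht] at h8
    have h10 : ∀ k : HM (ℤ√D), sm ((1 : ℤ) : ℤ√D) k = k := fun k => by
      rw [Int.cast_one, sm, one_mul, one_mul, one_mul]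
    rw [h10] at h8
    exact (act4_io h8).symm
  rw [hgw]
  exact hW2 hw

end Pool.Agent.Lib.CSL
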