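import Pool.Agent.Lib.MP_240120_ag.CS.Def
import Pool.Agent.Lib.MP_240120_ag.CS.LDef
import Pool.Agent.Lib.MP_240120_ag.CS.Lf2

/-!
# CS / Lf5 (75 minutes): the determinant is 1

Let `p` be a prime, `p ∣ t`, `p` not dividing `2 α D`. (1) All products `x star y` of entries `x, y ∈ {a, b, c, d}` are divisible by `p`: `act4 .. (hr v) ≡ 0 mod p`. `v = e`: `a a', a c', c c'`; `v = f`: `4 α b b'`, `4 α b d'`, `4 α d d'` (`'` the conjugation); `v = n1`: `2α (a b' + b a')`, `2 α (a d' + b c')`, `2α (c d' + d c')`;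
`v = n2` minus `β/(2α)` times `n1`, i.e. `2 α n2 - β n1` has `xi = 2 α √D`: `2 α √D (a b' - b a')`, `2 α √D (a d' - b c')`, `2 α √D (c d' - d c')`; multiply by `√D`. So (as `p` is odd, prime to `α D`) `a b', b a', a d', b c', c d', d c' ≡ 0`; conjugate for the rest. (2) `relP` for `v = g⁻¹ e`, `g⁻¹ f`:
`k = hr e`: `d = h.p a' + h.x b'`, `-c = h.x' a' + h.s b'`; `k = hr f = (0, 0, -4α)`: `4 α b = h.p c' + h.x d'`, `-4 α a = h.x' c' + h.s d'`. So `d^2, c^2, (4α b) b, (4 α a) a` are `≡ 0 mod p` by (1): `a^2 ≡ b^2 ≡ c^2 ≡ d^2 ≡ 0`. (3) `p ∣ z^2`, `p` odd, prime to `D`, gives `p ∣ z`: `z = u + w√D`: `p ∣ u^2 + D w^2`, `p ∣ 2 u w`; if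
`p ∣ u` then `p ∣ D w^2`, `p ∣ w`; if `p ∣ w` then `p ∣ u`. So `p` divides all entries: contradiction to `Prim.pr`. Hence every prime factor of `t` divides `2 α D`, so `n`. (4) A prime `p ∣ n` does not divide `t`: `t = a d - b c ≡ r^2 mod n`, `p ∣ r` would give `p ∣ a, b, c, d`. So `t = ± 1`, and `t ≡ r^2 mod 4`, `r` odd: `t = 1`.
-/

set_option autoImplicit false

namespace Pool.Agent.Lib.CSL

variable {D α β γ : ℤ}

private theorem lf5_cop {p : ℕ} {k : ℤ} {z : ℤ√D} (hk : IsCoprime k (p : ℤ))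
    (h : (p : ℤ√D) ∣ (k : ℤ√D) * z) : (p : ℤ√D) ∣ z := by
  obtain ⟨u, v, huv⟩ := hk
  have h1 : (u : ℤ√D) * k + v * (p : ℤ√D) = 1 := by exact_mod_cast congrArg (Int.cast : ℤ → ℤ√D) huv
  have h2 : z = (u : ℤ√D) * ((k : ℤ√D) * z) + (p : ℤ√D) * (v * z) := by linear_combination (-z) * h1
  rw [h2]
  exact dvd_add (h.mul_left _) (dvd_mul_right _ _)

private theorem lf5_star {p : ℕ} {z w : ℤ√D} (h : (p : ℤ√D) ∣ z) (hw : w = star z) : (p : ℤ√D) ∣ w := by
  obtain ⟨y, rfl⟩ := h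
  exact ⟨star y, by rw [hw, star_mul', star_natCast]⟩

private theorem lf5_sq {p : ℕ} (hp : p.Prime) (h2 : p ≠ 2) (hD : ¬ (p : ℤ) ∣ D) {z : ℤ√D}
    (h : (p : ℤ√D) ∣ z * z) : (p : ℤ√D) ∣ z := by
  have hpz : Prime (p : ℤ) := Nat.prime_iff_prime_int.1 hp
  have hp2 : ¬ (p : ℤ) ∣ 2 := by
    intro h3
    have h4 : p ∣ 2 := by exact_mod_cast h3
    exact h2 ((Nat.prime_dvd_prime_iff_eq hp Nat.prime_two).1 h4)
  have h1 : ((p : ℤ) : ℤ√D) ∣ z * z := by exact_mod_cast h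
  rw [Zsqrtd.intCast_dvd] at h1
  obtain ⟨h3, h4⟩ := h1
  simp only [Zsqrtd.re_mul, Zsqrtd.im_mul] at h3 h4
  have h5 : (p : ℤ) ∣ 2 * (z.re * z.im) := by
    have : 2 * (z.re * z.im) = z.re * z.im + z.im * z.re := by ring
    rw [this]; exact h4
  have h6 : (p : ℤ) ∣ z.re ∧ (p : ℤ) ∣ z.im := by
    rcases hpz.dvd_or_dvd h5 with h5 | h5
    · exact absurd h5 hp2
    rcases hpz.dvd_or_dvd h5 with h5 | h5
    · refine ⟨h5, ?_⟩
      have h7 : (p : ℤ) ∣ D * z.im * z.im := by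
        have := dvd_sub h3 (h5.mul_right z.re)
        rwa [add_sub_cancel_left] at this
      rcases hpz.dvd_or_dvd h7 with h7 | h7
      · rcases hpz.dvd_or_dvd h7 with h7 | h7
        · exact absurd h7 hD
        · exact h7
      · exact h7
    · refine ⟨?_, h5⟩
      have h7 : (p : ℤ) ∣ z.re * z.re := by
        have := dvd_sub h3 (h5.mul_left (D * z.im))
        rwa [add_sub_cancel_right] at this
      exact (hpz.dvd_or_dvd h7).elim id id
  have h7 : ((p : ℤ) : ℤ√D) ∣ z := (Zsqrtd.intCast_dvd _ _).2 h6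
  exact_mod_cast h7

private theorem lf5_step {g : (Fin 4 → ℤ) ≃ₗ[ℤ] (Fin 4 → ℤ)} {a b c d : ℤ√D} {t : ℤ}
    (hP : Prim D a b c d t) (hX : ∀ v, act4 a b c d (hr D α β v) = sm (t : ℤ√D) (hr D α β (g v)))
    {p : ℕ} (hp : p.Prime) (hpt : (p : ℤ) ∣ t) (h4 : ¬ (p : ℤ) ∣ 4 * α * D) : False := by
  have hpz : Prime (p : ℤ) := Nat.prime_iff_prime_int.1 hp
  have hpD : ¬ (p : ℤ) ∣ D := fun h => h4 (h.mul_left _)
  have hp2 : p ≠ 2 := by
    rintro rfl
    exact h4 ⟨2 * α * D, by push_cast; ring⟩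
  have cop : ∀ k : ℤ, k ∣ 4 * α * D → IsCoprime k (p : ℤ) := fun k hk =>
    ((Int.isCoprime_iff_gcd_eq_one.2 (by
      rw [Int.gcd_comm]
      exact Int.isCoprime_iff_gcd_eq_one.1 ((Prime.coprime_iff_not_dvd hpz).2 (fun h => h4 (h.trans hk))))))
  have ht : (p : ℤ√D) ∣ (t : ℤ√D) := by
    have : ((p : ℤ) : ℤ√D) ∣ (t : ℤ√D) := (Zsqrtd.intCast_dvd_intCast _ _).2 hpt
    exact_mod_cast this
  have hp' : ∀ v, (p : ℤ√D) ∣ (act4 a b c d (hr D α β v)).p := fun v => by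
    rw [hX v]; exact ht.mul_right _
  have hx' : ∀ v, (p : ℤ√D) ∣ (act4 a b c d (hr D α β v)).x := fun v => by
    rw [hX v]; exact ht.mul_right _
  have hs' : ∀ v, (p : ℤ√D) ∣ (act4 a b c d (hr D α β v)).s := fun v => by
    rw [hX v]; exact ht.mul_right _
  have e1 : hr D α β ![1, 0, 0, 0] = ⟨1, 0, 0⟩ := by
    ext <;> simp [hr, xi]
  have e2 : hr D α β ![0, 1, 0, 0] = ⟨0, 0, ((-4 * α : ℤ) : ℤ√D)⟩ := by
    ext <;> simp [hr, xi]
  have e3 : hr D α β ![0, 0, 1, 0] = ⟨0, ((2 * α : ℤ) : ℤ√D), 0⟩ := by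
    ext <;> simp [hr, xi]
  have e4 : hr D α β ![0, 0, -β, 2 * α] = ⟨0, ((2 * α : ℤ) : ℤ√D) * Zsqrtd.sqrtd, 0⟩ := by
    ext <;> simp [hr, xi]
    ring
  have sx : star (((2 * α : ℤ) : ℤ√D) * Zsqrtd.sqrtd) = -(((2 * α : ℤ) : ℤ√D) * Zsqrtd.sqrtd) := by
    ext <;> simp
  -- products with the conjugates
  have A1 : (p : ℤ√D) ∣ a * star a := by
    have h := hp' ![1, 0, 0, 0]
    rw [e1] at h
    have e : (act4 a b c d (⟨1, 0, 0⟩ : HM (ℤ√D))).p = a * star a := by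
      simp only [act4, star_zero]; ring
    rwa [e] at h
  have A2 : (p : ℤ√D) ∣ a * star c := by
    have h := hx' ![1, 0, 0, 0]
    rw [e1] at h
    have e : (act4 a b c d (⟨1, 0, 0⟩ : HM (ℤ√D))).x = a * star c := by
      simp only [act4, star_zero]; ring
    rwa [e] at h
  have A3 : (p : ℤ√D) ∣ c * star c := by
    have h := hs' ![1, 0, 0, 0]
    rw [e1] at h
    have e : (act4 a b c d (⟨1, 0, 0⟩ : HM (ℤ√D))).s = c * star c := by
      simp only [act4, star_zero]; ring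
    rwa [e] at h
  have k4 : IsCoprime (-4 * α) (p : ℤ) := cop _ ⟨-D, by ring⟩
  have B1 : (p : ℤ√D) ∣ b * star b := by
    refine lf5_cop k4 ?_
    have h := hp' ![0, 1, 0, 0]
    rw [e2] at h
    have e : (act4 a b c d (⟨0, 0, ((-4 * α : ℤ) : ℤ√D)⟩ : HM (ℤ√D))).p =
        ((-4 * α : ℤ) : ℤ√D) * (b * star b) := by
      simp only [act4, star_zero]; ring
    rwa [e] at h
  have B2 : (p : ℤ√D) ∣ b * star d := by
    refine lf5_cop k4 ?_
    have h := hx' ![0, 1, 0, 0]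
    rw [e2] at h
    have e : (act4 a b c d (⟨0, 0, ((-4 * α : ℤ) : ℤ√D)⟩ : HM (ℤ√D))).x =
        ((-4 * α : ℤ) : ℤ√D) * (b * star d) := by
      simp only [act4, star_zero]; ring
    rwa [e] at h
  have B3 : (p : ℤ√D) ∣ d * star d := by
    refine lf5_cop k4 ?_
    have h := hs' ![0, 1, 0, 0]
    rw [e2] at h
    have e : (act4 a b c d (⟨0, 0, ((-4 * α : ℤ) : ℤ√D)⟩ : HM (ℤ√D))).s =
        ((-4 * α : ℤ) : ℤ√D) * (d * star d) := by
      simp only [act4, star_zero]; ring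
    rwa [e] at h
  have pair : ∀ x y : ℤ√D, (p : ℤ√D) ∣ ((2 * α : ℤ) : ℤ√D) * (x + y) →
      (p : ℤ√D) ∣ ((2 * α : ℤ) : ℤ√D) * Zsqrtd.sqrtd * (x - y) → (p : ℤ√D) ∣ x ∧ (p : ℤ√D) ∣ y := by
    intro x y h1 h2
    have hk : IsCoprime (4 * α * D) (p : ℤ) := cop _ dvd_rfl
    have hs : (Zsqrtd.sqrtd : ℤ√D) * Zsqrtd.sqrtd = (D : ℤ√D) := Zsqrtd.dmuld
    constructor
    · refine lf5_cop hk ?_
      have e : ((4 * α * D : ℤ) : ℤ√D) * x = (D : ℤ√D) * (((2 * α : ℤ) : ℤ√D) * (x + y)) +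
          Zsqrtd.sqrtd * (((2 * α : ℤ) : ℤ√D) * Zsqrtd.sqrtd * (x - y)) := by
        push_cast
        linear_combination (-(2 * (α : ℤ√D) * (x - y))) * hs
      rw [e]
      exact dvd_add (h1.mul_left _) (h2.mul_left _)
    · refine lf5_cop hk ?_
      have e : ((4 * α * D : ℤ) : ℤ√D) * y = (D : ℤ√D) * (((2 * α : ℤ) : ℤ√D) * (x + y)) -
          Zsqrtd.sqrtd * (((2 * α : ℤ) : ℤ√D) * Zsqrtd.sqrtd * (x - y)) := by
        push_cast
        linear_combination (2 * (α : ℤ√D) * (x - y)) * hs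
      rw [e]
      exact dvd_sub (h1.mul_left _) (h2.mul_left _)
  have ab : (p : ℤ√D) ∣ a * star b ∧ (p : ℤ√D) ∣ b * star a := by
    apply pair
    · have h := hp' ![0, 0, 1, 0]
      rw [e3] at h
      have e : (act4 a b c d (⟨0, ((2 * α : ℤ) : ℤ√D), 0⟩ : HM (ℤ√D))).p =
          ((2 * α : ℤ) : ℤ√D) * (a * star b + b * star a) := by
        simp only [act4, star_intR]; ring
      rwa [e] at h
    · have h := hp' ![0, 0, -β, 2 * α]
      rw [e4] at h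
      have e : (act4 a b c d (⟨0, ((2 * α : ℤ) : ℤ√D) * Zsqrtd.sqrtd, 0⟩ : HM (ℤ√D))).p =
          ((2 * α : ℤ) : ℤ√D) * Zsqrtd.sqrtd * (a * star b - b * star a) := by
        simp only [act4, sx]; ring
      rwa [e] at h
  have ad : (p : ℤ√D) ∣ a * star d ∧ (p : ℤ√D) ∣ b * star c := by
    apply pair
    · have h := hx' ![0, 0, 1, 0]
      rw [e3] at h
      have e : (act4 a b c d (⟨0, ((2 * α : ℤ) : ℤ√D), 0⟩ : HM (ℤ√D))).x =
          ((2 * α : ℤ) : ℤ√D) * (a * star d + b * star c) := by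
        simp only [act4, star_intR]; ring
      rwa [e] at h
    · have h := hx' ![0, 0, -β, 2 * α]
      rw [e4] at h
      have e : (act4 a b c d (⟨0, ((2 * α : ℤ) : ℤ√D) * Zsqrtd.sqrtd, 0⟩ : HM (ℤ√D))).x =
          ((2 * α : ℤ) : ℤ√D) * Zsqrtd.sqrtd * (a * star d - b * star c) := by
        simp only [act4, sx]; ring
      rwa [e] at h
  have cd : (p : ℤ√D) ∣ c * star d ∧ (p : ℤ√D) ∣ d * star c := by
    apply pair
    · have h := hs' ![0, 0, 1, 0]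
      rw [e3] at h
      have e : (act4 a b c d (⟨0, ((2 * α : ℤ) : ℤ√D), 0⟩ : HM (ℤ√D))).s =
          ((2 * α : ℤ) : ℤ√D) * (c * star d + d * star c) := by
        simp only [act4, star_intR]; ring
      rwa [e] at h
    · have h := hs' ![0, 0, -β, 2 * α]
      rw [e4] at h
      have e : (act4 a b c d (⟨0, ((2 * α : ℤ) : ℤ√D) * Zsqrtd.sqrtd, 0⟩ : HM (ℤ√D))).s =
          ((2 * α : ℤ) : ℤ√D) * Zsqrtd.sqrtd * (c * star d - d * star c) := by
        simp only [act4, sx]; ring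
      rwa [e] at h
  have ca : (p : ℤ√D) ∣ c * star a := lf5_star A2 (by rw [star_mul', star_star, mul_comm])
  have da : (p : ℤ√D) ∣ d * star a := lf5_star ad.1 (by rw [star_mul', star_star, mul_comm])
  have db : (p : ℤ√D) ∣ d * star b := lf5_star B2 (by rw [star_mul', star_star, mul_comm])
  have cb : (p : ℤ√D) ∣ c * star b := lf5_star ad.2 (by rw [star_mul', star_star, mul_comm])
  -- the squares
  have hD2 : (p : ℤ√D) ∣ d * d ∧ (p : ℤ√D) ∣ c * c := by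
    have h := hX (g.symm ![1, 0, 0, 0])
    rw [LinearEquiv.apply_symm_apply, e1] at h
    obtain ⟨r1, -, r3, -⟩ := relP hP.t0 hP.det (hr_her D α β _)
      (show Her (⟨1, 0, 0⟩ : HM (ℤ√D)) from ⟨star_one _, star_zero _⟩) h
    set u := hr D α β (g.symm ![1, 0, 0, 0])
    simp only [star_zero] at r1 r3
    constructor
    · have e : d * d = u.p * (d * star a) + u.x * (d * star b) := by linear_combination (-d) * r1
      rw [e]
      exact dvd_add (da.mul_left _) (db.mul_left _)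
    · have e : c * c = -(star u.x * (c * star a) + u.s * (c * star b)) := by linear_combination c * r3
      rw [e]
      exact (dvd_neg).2 (dvd_add (ca.mul_left _) (cb.mul_left _))
  have hA2 : (p : ℤ√D) ∣ b * b ∧ (p : ℤ√D) ∣ a * a := by
    have h := hX (g.symm ![0, 1, 0, 0])
    rw [LinearEquiv.apply_symm_apply, e2] at h
    obtain ⟨-, r2, -, r4⟩ := relP hP.t0 hP.det (hr_her D α β _)
      (show Her (⟨0, 0, ((-4 * α : ℤ) : ℤ√D)⟩ : HM (ℤ√D)) from ⟨star_zero _, star_intR _ _⟩) h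
    set u := hr D α β (g.symm ![0, 1, 0, 0])
    constructor
    · refine lf5_cop k4 ?_
      have e : ((-4 * α : ℤ) : ℤ√D) * (b * b) = -(u.p * (b * star c) + u.x * (b * star d)) := by
        linear_combination b * r2
      rw [e]
      exact (dvd_neg).2 (dvd_add (ad.2.mul_left _) (B2.mul_left _))
    · refine lf5_cop k4 ?_
      have e : ((-4 * α : ℤ) : ℤ√D) * (a * a) = star u.x * (a * star c) + u.s * (a * star d) := by
        linear_combination (-a) * r4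
      rw [e]
      exact dvd_add (A2.mul_left _) (ad.1.mul_left _)
  exact hP.pr p hp (lf5_sq hp hp2 hpD hA2.2) (lf5_sq hp hp2 hpD hA2.1) (lf5_sq hp hp2 hpD hD2.2)
    (lf5_sq hp hp2 hpD hD2.1)

theorem lf5 (hα : α ≠ 0) (h0 : D ≠ 0) {g : (Fin 4 → ℤ) ≃ₗ[ℤ] (Fin 4 → ℤ)} {n : ℕ} (hn : 0 < n) (hnd : 4 * α * D ∣ (n : ℤ))
    {a b c d : ℤ√D} {t : ℤ} (hP : Prim D a b c d t) (hX : ∀ v, act4 a b c d (hr D α β v) = sm (t : ℤ√D) (hr D α β (g v)))
    {r : ℤ} (ha : (n : ℤ√D) ∣ a - r) (hb : (n : ℤ√D) ∣ b) (hc : (n : ℤ√D) ∣ c) (hd : (n : ℤ√D) ∣ d - r) : t = 1 := by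
  have htr : (n : ℤ) ∣ t - r * r := by
    have h1 : ((n : ℤ) : ℤ√D) ∣ ((t - r * r : ℤ) : ℤ√D) := by
      have e : ((t - r * r : ℤ) : ℤ√D) = (a - r) * d + r * (d - r) - b * c := by
        push_cast
        linear_combination -hP.det
      rw [e, Int.cast_natCast]
      exact dvd_sub (dvd_add (ha.mul_right _) (hd.mul_left _)) (hb.mul_right _)
    exact (Zsqrtd.intCast_dvd_intCast _ _).1 h1
  have hnp : ∀ p : ℕ, p.Prime → ¬ (p : ℤ) ∣ t := by
    intro p hp hpt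
    by_cases h4 : (p : ℤ) ∣ 4 * α * D
    · have hpn : (p : ℤ) ∣ (n : ℤ) := h4.trans hnd
      have hpn' : (p : ℤ√D) ∣ (n : ℤ√D) := by
        have h5 : ((p : ℤ) : ℤ√D) ∣ ((n : ℤ) : ℤ√D) := (Zsqrtd.intCast_dvd_intCast _ _).2 hpn
        rwa [Int.cast_natCast, Int.cast_natCast] at h5
      have hpr : (p : ℤ) ∣ r * r := by
        have := dvd_sub hpt (hpn.trans htr)
        rwa [sub_sub_cancel] at this
      have hpr1 : (p : ℤ) ∣ r := ((Nat.prime_iff_prime_int.1 hp).dvd_or_dvd hpr).elim id id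
      have hpr2 : (p : ℤ√D) ∣ (r : ℤ√D) := by
        have : ((p : ℤ) : ℤ√D) ∣ (r : ℤ√D) := (Zsqrtd.intCast_dvd_intCast _ _).2 hpr1
        exact_mod_cast this
      refine hP.pr p hp ?_ (hpn'.trans hb) (hpn'.trans hc) ?_
      · have := dvd_add (hpn'.trans ha) hpr2
        rwa [sub_add_cancel] at this
      · have := dvd_add (hpn'.trans hd) hpr2
        rwa [sub_add_cancel] at this
    · exact lf5_step hP hX hp hpt h4
  have h1 : t.natAbs = 1 := by
    by_contra h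
    obtain ⟨p, hp, hpt⟩ := Nat.exists_prime_and_dvd h
    exact hnp p hp (Int.natCast_dvd.2 hpt)
  rcases Int.natAbs_eq t with h2 | h2
  · rw [h2, h1]; rfl
  · exfalso
    rw [h1] at h2
    have h4 : (4 : ℤ) ∣ t - r * r := ((Dvd.intro _ (by ring : 4 * (α * D) = 4 * α * D)).trans hnd).trans htr
    rw [h2] at h4
    obtain ⟨k, hk⟩ := h4
    push_cast at hk
    rcases Int.even_or_odd' r with ⟨m, rfl | rfl⟩
    · have : (4 : ℤ) * (k + m * m) = -1 := by linear_combination -hk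
      omega
    · have : (4 : ℤ) * (k + m * m + m) = -2 := by linear_combination -hk
      omega

end Pool.Agent.Lib.CSL
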